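import Pool.Agent.MTH.A3

/-! # MTH-D1 -/

namespace Pool.Agent.MTH

open Matrix
open Pool.Agent.MTF Pool.Agent.MTG
open Pool.Agent.MTD (ev)
open Pool.Agent.MP_c45d35_ag (chi)

/-! Block `L D U` decomposition with respect to a height function `ht : ι → ℤ`. -/

variable {R : Type} [CommRing R] {ι : Type} [Fintype ι] [DecidableEq ι] (ht : ι → ℤ)

/-- the projection to the indices of height `≥ c` -/
def eC (R : Type) [CommRing R] (ht : ι → ℤ) (c : ℤ) : Matrix ι ι R :=
  Matrix.diagonal fun a => if c ≤ ht a then 1 else 0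

/-- `e_c g e_c + (1 - e_c)` -/
def aC (g : Matrix ι ι R) (c : ℤ) : Matrix ι ι R := eC R ht c * g * eC R ht c + (1 - eC R ht c)

/-- the principal minor of the indices of height `≥ c` -/
def dC (g : Matrix ι ι R) (c : ℤ) : R := (aC ht g c).det

/-- the numerator of the entry `(a, b)` of the factor `L` of `g = L D U` -/
def lC (g : Matrix ι ι R) (a b : ι) : R := (g * eC R ht (ht b) * (aC ht g (ht b)).adjugate) a b

/-- the numerator of the entry `(a, b)` of the factor `U` of `g = L D U` -/
def rC (g : Matrix ι ι R) (a b : ι) : R := ((aC ht g (ht a)).adjugate * eC R ht (ht a) * g) a b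

/-- lower unipotent -/
def LowM (g : Matrix ι ι R) : Prop := ∀ a b, (g - 1) a b ≠ 0 → ht a < ht b

/-- upper unipotent -/
def UpM (g : Matrix ι ι R) : Prop := ∀ a b, (g - 1) a b ≠ 0 → ht b < ht a

section D1aux

variable {ht}

theorem D1_e_mul (R : Type) [CommRing R] (ht : ι → ℤ) (c : ℤ) : eC R ht c * eC R ht c = eC R ht c := by
  unfold eC
  rw [Matrix.diagonal_mul_diagonal]
  congr 1
  funext a
  split_ifs <;> simp

theorem D1_e_apply (R : Type) [CommRing R] (ht : ι → ℤ) (c : ℤ) (a b : ι) :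
    eC R ht c a b = if a = b then (if c ≤ ht a then 1 else 0) else 0 := by
  unfold eC
  rw [Matrix.diagonal_apply]

/-- `(1 - e) g e = 0` for block upper triangular matrices -/
theorem D1_upper {g : Matrix ι ι R} (hg : ∀ a b, g a b ≠ 0 → ht b ≤ ht a) (c : ℤ) :
    g * eC R ht c = eC R ht c * g * eC R ht c := by
  ext a b
  unfold eC
  rw [Matrix.mul_diagonal, Matrix.mul_diagonal, Matrix.diagonal_mul]
  by_cases h : g a b = 0
  · rw [h]; ring
  · have h1 := hg a b h
    by_cases h2 : c ≤ ht b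
    · rw [if_pos (h2.trans h1), one_mul]
    · rw [if_neg h2, mul_zero, mul_zero]

/-- `e g (1 - e) = 0` for block lower triangular matrices -/
theorem D1_lower {g : Matrix ι ι R} (hg : ∀ a b, g a b ≠ 0 → ht a ≤ ht b) (c : ℤ) :
    eC R ht c * g = eC R ht c * g * eC R ht c := by
  ext a b
  unfold eC
  rw [Matrix.mul_diagonal, Matrix.diagonal_mul]
  by_cases h : g a b = 0
  · rw [h]; ring
  · have h1 := hg a b h
    by_cases h2 : c ≤ ht a
    · rw [if_pos (h2.trans h1), mul_one]
    · rw [if_neg h2, zero_mul, zero_mul]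

theorem D1_low_supp {g : Matrix ι ι R} (hg : LowM ht g) : ∀ a b, g a b ≠ 0 → ht a ≤ ht b := by
  intro a b h
  by_cases hab : a = b
  · rw [hab]
  · refine (hg a b ?_).le
    rwa [Matrix.sub_apply, Matrix.one_apply_ne hab, sub_zero]

theorem D1_up_supp {g : Matrix ι ι R} (hg : UpM ht g) : ∀ a b, g a b ≠ 0 → ht b ≤ ht a := by
  intro a b h
  by_cases hab : a = b
  · rw [hab]
  · refine (hg a b ?_).le
    rwa [Matrix.sub_apply, Matrix.one_apply_ne hab, sub_zero]

theorem D1_eA (g : Matrix ι ι R) (c : ℤ) : eC R ht c * aC ht g c = eC R ht c * g * eC R ht c := by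
  unfold aC
  rw [mul_add, mul_sub, mul_one, D1_e_mul, sub_self, add_zero, ← mul_assoc, ← mul_assoc, D1_e_mul]

theorem D1_Ae (g : Matrix ι ι R) (c : ℤ) : aC ht g c * eC R ht c = eC R ht c * g * eC R ht c := by
  unfold aC
  rw [add_mul, sub_mul, one_mul, D1_e_mul, sub_self, add_zero, mul_assoc, D1_e_mul]

theorem D1_one (c : ℤ) : aC ht (1 : Matrix ι ι R) c = 1 := by
  unfold aC
  rw [mul_one, D1_e_mul, add_sub_cancel]

/-- multiplicativity of the minors -/
theorem D1_mul {g h : Matrix ι ι R} {c : ℤ}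
    (hgh : eC R ht c * g * h * eC R ht c = eC R ht c * g * eC R ht c * h * eC R ht c) :
    aC ht (g * h) c = aC ht g c * aC ht h c := by
  have h1 : aC ht g c * aC ht h c = aC ht g c * (eC R ht c * h * eC R ht c) +
      aC ht g c * (1 - eC R ht c) := by
    conv_lhs => rw [show aC ht h c = eC R ht c * h * eC R ht c + (1 - eC R ht c) from rfl]
    rw [mul_add]
  have h2 : aC ht g c * (1 - eC R ht c) = 1 - eC R ht c := by
    rw [mul_sub, mul_one, D1_Ae]
    unfold aC
    abel
  have h3 : aC ht g c * (eC R ht c * h * eC R ht c) = eC R ht c * g * eC R ht c * h * eC R ht c := by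
    rw [← mul_assoc, ← mul_assoc, D1_Ae]
  rw [h1, h2, h3, ← hgh]
  show eC R ht c * (g * h) * eC R ht c + (1 - eC R ht c) = _
  rw [← mul_assoc]

theorem D1_mul_low {g h : Matrix ι ι R} (hg : ∀ a b, g a b ≠ 0 → ht a ≤ ht b) (c : ℤ) :
    aC ht (g * h) c = aC ht g c * aC ht h c := by
  apply D1_mul
  rw [D1_lower hg c, mul_assoc (eC R ht c * g) (eC R ht c) (eC R ht c), D1_e_mul]

theorem D1_mul_up {g h : Matrix ι ι R} (hh : ∀ a b, h a b ≠ 0 → ht b ≤ ht a) (c : ℤ) :
    aC ht (g * h) c = aC ht g c * aC ht h c := by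
  apply D1_mul
  rw [mul_assoc (eC R ht c * g) h, D1_upper hh c]
  simp only [mul_assoc]

theorem D1_low_aC {l : Matrix ι ι R} (hl : LowM ht l) (c : ℤ) : LowM ht (aC ht l c) := by
  intro a b h
  apply hl a b
  intro h0
  apply h
  have h1 : aC ht l c - 1 = eC R ht c * (l - 1) * eC R ht c := by
    unfold aC
    rw [mul_sub, sub_mul, mul_one, D1_e_mul]
    abel
  rw [h1]
  unfold eC
  rw [Matrix.mul_diagonal, Matrix.diagonal_mul, h0, mul_zero, zero_mul]

theorem D1_up_aC {l : Matrix ι ι R} (hl : UpM ht l) (c : ℤ) : UpM ht (aC ht l c) := by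
  intro a b h
  apply hl a b
  intro h0
  apply h
  have h1 : aC ht l c - 1 = eC R ht c * (l - 1) * eC R ht c := by
    unfold aC
    rw [mul_sub, sub_mul, mul_one, D1_e_mul]
    abel
  rw [h1]
  unfold eC
  rw [Matrix.mul_diagonal, Matrix.diagonal_mul, h0, mul_zero, zero_mul]

theorem D1_eT (c : ℤ) : (eC R ht c)ᵀ = eC R ht c := by
  unfold eC
  rw [Matrix.diagonal_transpose]

theorem D1_aT (g : Matrix ι ι R) (c : ℤ) : aC ht gᵀ c = (aC ht g c)ᵀ := by
  unfold aC
  rw [Matrix.transpose_add, Matrix.transpose_mul, Matrix.transpose_mul, Matrix.transpose_sub,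
    Matrix.transpose_one, D1_eT, mul_assoc]

theorem D1_dT (g : Matrix ι ι R) (c : ℤ) : dC ht gᵀ c = dC ht g c := by
  unfold dC
  rw [D1_aT, Matrix.det_transpose]

theorem D1_lT (g : Matrix ι ι R) (a b : ι) : rC ht g a b = lC ht gᵀ b a := by
  have h1 : gᵀ * eC R ht (ht a) * (aC ht gᵀ (ht a)).adjugate =
      ((aC ht g (ht a)).adjugate * eC R ht (ht a) * g)ᵀ := by
    rw [D1_aT, ← Matrix.adjugate_transpose, Matrix.transpose_mul, Matrix.transpose_mul, D1_eT, mul_assoc]
  show ((aC ht g (ht a)).adjugate * eC R ht (ht a) * g) a b =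
    (gᵀ * eC R ht (ht a) * (aC ht gᵀ (ht a)).adjugate) b a
  rw [h1, Matrix.transpose_apply]

theorem D1_lowT {g : Matrix ι ι R} (hg : LowM ht g) : UpM ht gᵀ := by
  intro a b h
  apply hg b a
  intro h0
  apply h
  rw [← Matrix.transpose_one, ← Matrix.transpose_sub, Matrix.transpose_apply, h0]

theorem D1_upT {g : Matrix ι ι R} (hg : UpM ht g) : LowM ht gᵀ := by
  intro a b h
  apply hg b a
  intro h0
  apply h
  rw [← Matrix.transpose_one, ← Matrix.transpose_sub, Matrix.transpose_apply, h0]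

end D1aux

/-- (row D1) A unipotent matrix has determinant `1`.  Proof: `A := g - 1` satisfies `pow_card_eq_zero` (with `f = ht` or `f = - ht`), so it is nilpotent and `det (1 + A) = 1`: over a
commutative ring `det (1 + A) - 1` is only nilpotent in general, so argue directly: `Matrix.det` of a block triangular matrix w.r.t. `ht` (`Matrix.BlockTriangular`,
`Matrix.BlockTriangular.det`) with diagonal blocks `1`. -/
theorem det_low {g : Matrix ι ι R} (h : LowM ht g) : g.det = 1 := by
  have h1 : Matrix.BlockTriangular g ht := by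
    intro a b hab
    by_contra h0
    exact absurd (D1_low_supp h a b h0) (not_le.2 hab)
  rw [h1.det]
  refine Finset.prod_eq_one fun k _ => ?_
  have h2 : g.toSquareBlock ht k = 1 := by
    ext a b
    have h3 : (g - 1) a.1 b.1 = 0 := by
      by_contra h0
      have h4 := h a.1 b.1 h0
      rw [a.2, b.2] at h4
      exact lt_irrefl _ h4
    rw [Matrix.sub_apply, sub_eq_zero] at h3
    show g a.1 b.1 = _
    rw [h3, Matrix.one_apply, Matrix.one_apply]
    exact if_congr (by rw [Subtype.ext_iff]) rfl rfl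
  rw [h2, Matrix.det_one]

theorem det_up {g : Matrix ι ι R} (h : UpM ht g) : g.det = 1 := by
  rw [← Matrix.det_transpose]
  exact det_low ht (D1_upT h)

/-- (row D1) For `g = l * diag d * u`: the minor `dC` is `∏_{ht a ≥ c} d a`.
Proof.  With `e = eC c`: `(1 - e) u e = 0` and `e l (1 - e) = 0` (supports), `diag d` commutes with `e`.  So `aC g = (e l e + 1 - e) (e diag(d) e + 1 - e) (e u e + 1 - e)`,
and the determinants of the outer factors are `1` (`det_low`, `det_up` applied to `e l e + 1 - e`), the middle factor is diagonal. -/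
theorem dC_ldu {l u : Matrix ι ι R} (hl : LowM ht l) (hu : UpM ht u) (d : ι → R) (c : ℤ) :
    dC ht (l * Matrix.diagonal d * u) c = ∏ a, if c ≤ ht a then d a else 1 := by
  unfold dC
  rw [D1_mul_up (D1_up_supp hu) c, D1_mul_low (D1_low_supp hl) c, Matrix.det_mul, Matrix.det_mul,
    det_low ht (D1_low_aC hl c), det_up ht (D1_up_aC hu c), one_mul, mul_one]
  have h1 : aC ht (Matrix.diagonal d) c = Matrix.diagonal fun a => if c ≤ ht a then d a else 1 := by
    unfold aC eC
    rw [← Matrix.diagonal_one, Matrix.diagonal_mul_diagonal, Matrix.diagonal_mul_diagonal,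
      Matrix.diagonal_sub, Matrix.diagonal_add]
    congr 1
    funext a
    split_ifs <;> simp
  rw [h1, Matrix.det_diagonal]

/-- (row D1) The entries of the factor `l`.
Proof.  `A := aC g c`, `c = ht b`, `e = eC c`, `U' := diag(d) u`, `A = (e l e + 1 - e)(e U' e + 1 - e)`.  `g e = l U' e = l e (e U' e + 1 - e)`.  So
`g e adj(A) (e l e + 1 - e) .. `: multiply by `det A`: `g e adj(A) = l e (e U' e + 1 - e) adj(e U' e + 1 - e) adj(e l e + 1 - e) = det(e U' e + 1 - e) l e adj(e l e + 1 - e)`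
(`Matrix.adjugate_mul_distrib`), `det A = det (e U' e + 1 - e)`, and `adj (e l e + 1 - e) = (e l e + 1 - e)⁻¹ =: m` is lower unipotent.  `(l e m) a b = ∑_{c'} l a c' [ht c' ≥ c] m c' b`, and
`m c' b ≠ 0` only for `c' = b` or `ht c' < ht b = c`: the value is `l a b`. -/
theorem lC_ldu {l u : Matrix ι ι R} (hl : LowM ht l) (hu : UpM ht u) (d : ι → R) (a b : ι) :
    lC ht (l * Matrix.diagonal d * u) a b = dC ht (l * Matrix.diagonal d * u) (ht b) * l a b := by
  set U : Matrix ι ι R := Matrix.diagonal d * u with hU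
  have hUs : ∀ a b, U a b ≠ 0 → ht b ≤ ht a := by
    intro a b h
    apply D1_up_supp hu a b
    intro h0
    apply h
    rw [hU, Matrix.diagonal_mul, h0, mul_zero]
  rw [mul_assoc l]
  unfold lC dC
  rw [← hU, D1_mul_low (D1_low_supp hl) (ht b), Matrix.det_mul, det_low ht (D1_low_aC hl _), one_mul,
    Matrix.adjugate_mul_distrib]
  have h1 : l * U * eC R ht (ht b) = l * eC R ht (ht b) * aC ht U (ht b) := by
    rw [mul_assoc l U, D1_upper hUs (ht b), ← D1_eA, ← mul_assoc]
  have h2 : l * U * eC R ht (ht b) * ((aC ht U (ht b)).adjugate * (aC ht l (ht b)).adjugate) =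
      (aC ht U (ht b)).det • (l * eC R ht (ht b) * (aC ht l (ht b)).adjugate) := by
    rw [h1, ← mul_assoc, mul_assoc (l * eC R ht (ht b)) (aC ht U (ht b)), Matrix.mul_adjugate,
      Matrix.mul_smul, mul_one, Matrix.smul_mul]
  rw [h2, Matrix.smul_apply, smul_eq_mul]
  congr 1
  -- the column `b`
  have h3 : aC ht l (ht b) *ᵥ Pi.single b 1 = Pi.single b 1 := by
    funext a'
    rw [Matrix.mulVec_single_one]
    show aC ht l (ht b) a' b = _
    have h4 : (aC ht l (ht b) - 1) a' b = 0 := by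
      by_contra h0
      have h5 : aC ht l (ht b) - 1 = eC R ht (ht b) * (l - 1) * eC R ht (ht b) := by
        unfold aC
        rw [mul_sub, sub_mul, mul_one, D1_e_mul]
        abel
      rw [h5] at h0
      unfold eC at h0
      rw [Matrix.mul_diagonal, Matrix.diagonal_mul] at h0
      by_cases h6 : ht b ≤ ht a'
      · have h7 : (l - 1) a' b ≠ 0 := fun h8 => h0 (by rw [h8, mul_zero, zero_mul])
        exact absurd (hl a' b h7) (not_lt.2 h6)
      · exact h0 (by rw [if_neg h6, zero_mul, zero_mul])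
    rw [Matrix.sub_apply, sub_eq_zero] at h4
    rw [h4, Matrix.one_apply, Pi.single_apply]
  have h4 : (aC ht l (ht b)).adjugate *ᵥ Pi.single b 1 = Pi.single b 1 := by
    conv_lhs => rw [← h3]
    rw [Matrix.mulVec_mulVec, Matrix.adjugate_mul, det_low ht (D1_low_aC hl _), one_smul,
      Matrix.one_mulVec]
  have h5 : eC R ht (ht b) *ᵥ Pi.single b 1 = Pi.single b 1 := by
    funext a'
    rw [Matrix.mulVec_single_one]
    show eC R ht (ht b) a' b = _
    rw [D1_e_apply, Pi.single_apply]
    by_cases h6 : a' = b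
    · subst h6; simp
    · rw [if_neg h6, if_neg h6]
  have h6 : (l * eC R ht (ht b) * (aC ht l (ht b)).adjugate) *ᵥ Pi.single b 1 = l *ᵥ Pi.single b 1 := by
    rw [← Matrix.mulVec_mulVec, h4, ← Matrix.mulVec_mulVec, h5]
  have h7 := congrFun h6 a
  rw [Matrix.mulVec_single_one, Matrix.mulVec_single_one] at h7
  exact h7

/-- (row D1) The entries of the factor `u`, mirror image. -/
theorem rC_ldu {l u : Matrix ι ι R} (hl : LowM ht l) (hu : UpM ht u) (d : ι → R) (a b : ι) :
    rC ht (l * Matrix.diagonal d * u) a b = dC ht (l * Matrix.diagonal d * u) (ht a) * u a b := by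
  rw [D1_lT, ← D1_dT]
  have h1 : (l * Matrix.diagonal d * u)ᵀ = uᵀ * Matrix.diagonal d * lᵀ := by
    rw [Matrix.transpose_mul, Matrix.transpose_mul, Matrix.diagonal_transpose, mul_assoc]
  rw [h1]
  exact lC_ldu ht (D1_upT hu) (D1_lowT hl) d b a

/-- (row D1) compatibility with homomorphisms -/
theorem D1_a_map {R' : Type} [CommRing R'] (σ : R →+* R') (g : Matrix ι ι R) (c : ℤ) :
    (aC ht g c).map σ = aC ht (g.map σ) c := by
  ext a b
  unfold aC eC
  rw [Matrix.map_apply, Matrix.add_apply, Matrix.add_apply, Matrix.mul_diagonal, Matrix.mul_diagonal,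
    Matrix.diagonal_mul, Matrix.diagonal_mul, Matrix.sub_apply, Matrix.sub_apply, Matrix.one_apply,
    Matrix.one_apply, Matrix.diagonal_apply, Matrix.diagonal_apply, Matrix.map_apply]
  split_ifs <;> simp

theorem D1_e_map {R' : Type} [CommRing R'] (σ : R →+* R') (c : ℤ) :
    (eC R ht c).map σ = eC R' ht c := by
  ext a b
  rw [Matrix.map_apply, D1_e_apply, D1_e_apply]
  split_ifs <;> simp

theorem dC_map {R' : Type} [CommRing R'] (σ : R →+* R') (g : Matrix ι ι R) (c : ℤ) :
    σ (dC ht g c) = dC ht (g.map σ) c := by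
  unfold dC
  rw [RingHom.map_det, RingHom.mapMatrix_apply, D1_a_map]

theorem lC_map {R' : Type} [CommRing R'] (σ : R →+* R') (g : Matrix ι ι R) (a b : ι) :
    σ (lC ht g a b) = lC ht (g.map σ) a b := by
  have h1 : (g * eC R ht (ht b) * (aC ht g (ht b)).adjugate).map σ =
      g.map σ * eC R' ht (ht b) * (aC ht (g.map σ) (ht b)).adjugate := by
    rw [← D1_a_map, Matrix.map_mul, Matrix.map_mul, D1_e_map]
    congr 1
    exact RingHom.map_adjugate σ _
  exact congrFun (congrFun h1 a) b

theorem rC_map {R' : Type} [CommRing R'] (σ : R →+* R') (g : Matrix ι ι R) (a b : ι) :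
    σ (rC ht g a b) = rC ht (g.map σ) a b := by
  rw [D1_lT, D1_lT, lC_map]
  rfl

/-- (row D1) For a block upper triangular invertible matrix the minors are units and the factor `l` is `1`.
Proof.  Let `g' = g⁻¹`, `e = eC c`, `(1 - e) g e = 0`.  First `(1 - e) g' e = 0`: `e g' e` is a left inverse of `e g e` on the image of `e`: `(e g' e + 1 - e)(e g e + 1 - e) = 1` because
`g' g = 1` and `g e = e g e`; so also `(e g e + 1 - e)(e g' e + 1 - e) = 1` (`Matrix.mul_eq_one_comm`), `(1 - e) g' e = (1 - e) g' (e g e)(e g' e) = (1 - e) g' g e g' e = (1-e) e g' e = 0`.  So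
`aC g c` has the inverse `aC g' c`.  `g e adj(aC g) = det * g e (e g' e + 1 - e) = det * g e g' e = det * g g' e = det * e` (using `e g' e = g' e`). -/
theorem isUnit_dC {g g' : Matrix ι ι R} (hg : ∀ a b, g a b ≠ 0 → ht b ≤ ht a) (h : g * g' = 1) (c : ℤ) :
    IsUnit (dC ht g c) := by
  have h1 : g' * g = 1 := mul_eq_one_comm.1 h
  have h2 := D1_mul_up (g := g') hg c
  rw [h1, D1_one] at h2
  have h3 := congrArg Matrix.det h2
  rw [Matrix.det_one, Matrix.det_mul, mul_comm] at h3
  exact IsUnit.of_mul_eq_one _ h3.symm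

theorem lC_upper {g g' : Matrix ι ι R} (hg : ∀ a b, g a b ≠ 0 → ht b ≤ ht a) (h : g * g' = 1)
    (a b : ι) : lC ht g a b = dC ht g (ht b) * (1 : Matrix ι ι R) a b := by
  unfold lC dC
  rw [D1_upper hg, ← D1_eA, mul_assoc, Matrix.mul_adjugate, Matrix.mul_smul, mul_one,
    Matrix.smul_apply, smul_eq_mul, D1_e_apply, Matrix.one_apply]
  by_cases hab : a = b
  · subst hab; simp
  · rw [if_neg hab, if_neg hab]

/-- (row D1) mirror image for block lower triangular matrices -/
theorem isUnit_dC' {g g' : Matrix ι ι R} (hg : ∀ a b, g a b ≠ 0 → ht a ≤ ht b) (h : g * g' = 1) (c : ℤ) :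
    IsUnit (dC ht g c) := by
  have h1 : g' * g = 1 := mul_eq_one_comm.1 h
  rw [← D1_dT]
  exact isUnit_dC ht (g := gᵀ) (g' := g'ᵀ) (fun a b hab => hg b a hab)
    (by rw [← Matrix.transpose_mul, h1, Matrix.transpose_one]) c

theorem rC_lower {g g' : Matrix ι ι R} (hg : ∀ a b, g a b ≠ 0 → ht a ≤ ht b) (h : g * g' = 1)
    (a b : ι) : rC ht g a b = dC ht g (ht a) * (1 : Matrix ι ι R) a b := by
  have h1 : g' * g = 1 := mul_eq_one_comm.1 h
  rw [D1_lT, lC_upper ht (g := gᵀ) (g' := g'ᵀ) (fun a b hab => hg b a hab)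
    (by rw [← Matrix.transpose_mul, h1, Matrix.transpose_one]), D1_dT, Matrix.one_apply, Matrix.one_apply]
  congr 1
  exact if_congr eq_comm rfl rfl

end Pool.Agent.MTH
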