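import Pool.Agent.MTH.C2
import Pool.Agent.MTH.D1

/-! # MTH-D2 -/

namespace Pool.Agent.MTH

open Matrix
open Pool.Agent.MTF Pool.Agent.MTG
open Pool.Agent.MTD (ev)
open Pool.Agent.MP_c45d35_ag (chi)

variable {G : AffGrp} {n : ℕ} {D : RD n} (C : CD G D)

/-- the height of the basis vectors of `C.F` -/
noncomputable def hF (a : C.F.ι) : ℤ := D.ht2 (C.wt a)

/-- the matrix of coefficients of `C.F`, over `G.O` -/
def coM : Matrix C.F.ι C.F.ι G.O := Matrix.of fun a b => C.F.co a b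

/-- the product of the principal minors, an element of `G.O` -/
noncomputable def Dl : G.O := ∏ a : C.F.ι, dC (hF C) (coM C) (hF C a)

section
variable {R : Type} [CommRing R] [Algebra ℂ R]

/-- (row D2a) `dC` of the matrix of a point: `dC_map`. -/
theorem pt_dC (φ : G.Pt R) (c : ℤ) : φ (dC (hF C) (coM C) c) = dC (hF C) (C.F.pt φ) c :=
  dC_map (hF C) (φ.hom : G.O →+* R) (coM C) c

theorem pt_Dl (φ : G.Pt R) : φ (Dl C) = ∏ a : C.F.ι, dC (hF C) (C.F.pt φ) (hF C a) := by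
  unfold Dl
  rw [map_prod]
  exact Finset.prod_congr rfl fun a _ => pt_dC C φ _

/-- (row D2a) the unipotent points of sign `-1` are `LowM` -/
theorem D2a_low {u : G.Pt R} (hu : UU C (-1) u) : LowM (hF C) (C.F.pt u) := by
  intro a b h
  have h1 := hu a b h
  show D.ht2 (C.wt a) < D.ht2 (C.wt b)
  omega

/-- (row D2a) the unipotent points of sign `1` are `UpM` -/
theorem D2a_up {v : G.Pt R} (hv : UU C 1 v) : UpM (hF C) (C.F.pt v) := by
  intro a b h
  have h1 := hv a b h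
  show D.ht2 (C.wt b) < D.ht2 (C.wt a)
  omega

/-- (row D2a) the matrix of a point of the cell -/
theorem D2a_pt (u v : G.Pt R) (t : Fin n → Rˣ) : C.F.pt (u * tq C t * v) =
    C.F.pt u * Matrix.diagonal (fun a => ((chi (C.wt a) t : Rˣ) : R)) * C.F.pt v := by
  rw [Rep.pt_mul, Rep.pt_mul, tq_pt C t C.isW_F]

/-- (row D2a) On the big cell.  `UU C (-1) u` is `LowM` for `C.F.pt u`, `UU C 1 v` is `UpM`, `tq_pt` (`C.isW_F`), `dC_ldu`. -/
theorem dC_cell {u v : G.Pt R} (hu : UU C (-1) u) (hv : UU C 1 v) (t : Fin n → Rˣ) (c : ℤ) :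
    (dC (hF C) (C.F.pt (u * tq C t * v)) c) =
      ∏ a, if c ≤ hF C a then ((chi (C.wt a) t : Rˣ) : R) else 1 := by
  rw [D2a_pt]
  exact dC_ldu (hF C) (D2a_low C hu) (D2a_up C hv) _ c

/-- (row D2a) the minors are units on the cell -/
theorem D2a_unit {u v : G.Pt R} (hu : UU C (-1) u) (hv : UU C 1 v) (t : Fin n → Rˣ) (c : ℤ) :
    IsUnit (dC (hF C) (C.F.pt (u * tq C t * v)) c) := by
  rw [dC_cell C hu hv t c]
  have h : (∏ a, if c ≤ hF C a then ((chi (C.wt a) t : Rˣ) : R) else 1) =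
      ((∏ a, if c ≤ hF C a then chi (C.wt a) t else 1 : Rˣ) : R) := by
    rw [Units.coe_prod]
    refine Finset.prod_congr rfl fun a _ => ?_
    split_ifs <;> rfl
  rw [h]
  exact Units.isUnit _

theorem isUnit_Dl_cell {u v : G.Pt R} (hu : UU C (-1) u) (hv : UU C 1 v) (t : Fin n → Rˣ) :
    IsUnit ((u * tq C t * v) (Dl C)) := by
  rw [pt_Dl]
  exact IsUnit.prod_univ_iff.2 fun a => D2a_unit C hu hv t _

end

/-- (row D2a) `Dl ≠ 0`: its value at `1` is `1` (`dC_cell` with `u = v = 1`, `t = 1`). -/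
theorem Dl_ne : Dl C ≠ 0 := by
  intro h
  have h1 := isUnit_Dl_cell C (R := ℂ) (UU_one C (s := -1)) (UU_one C (s := 1)) 1
  rw [h, map_zero] at h1
  exact not_isUnit_zero h1

/-- (row D2a) points at which `Dl` is a unit extend to the localisation -/
theorem D2a_ext {B : Type} [CommRing B] [Algebra G.O B] [Algebra ℂ B]
    [IsScalarTower ℂ G.O B] [IsLocalization.Away (Dl C) B] {R : Type} [CommRing R] [Algebra ℂ R]
    (φ : G.Pt R) (h : IsUnit (φ (Dl C))) :
    ∃ σ : B →ₐ[ℂ] R, ∀ f : G.O, σ (algebraMap G.O B f) = φ f := by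
  have h1 : ∀ y : Submonoid.powers (Dl C), IsUnit (φ.hom y) := by
    rintro ⟨y, k, rfl⟩
    show IsUnit (φ.hom (Dl C ^ k))
    rw [map_pow]
    exact h.pow k
  refine ⟨IsLocalization.liftAlgHom (M := Submonoid.powers (Dl C)) (S := B) h1, fun f => ?_⟩
  rw [IsLocalization.liftAlgHom_apply]
  exact IsLocalization.lift_eq _ f

/-- (row D2a) Nonzero elements of the localisation `O[1/Dl]` can be tested on the cell: if `σ b = 0` for all homomorphisms `σ : B → ℂ` that come from points of the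
cell then `b = 0`.  Proof: `b = f / Dl^m` (`IsLocalization.Away`); `σ (algebraMap f) = f.1 x = 0` for all `x` in the cell (for `x = (u * tq t * v).toX` the evaluation `G.O → ℂ` at `x` extends to
`B` because `Dl.1 x ≠ 0`, `isUnit_Dl_cell`, `toX_apply`), so `f = 0` by `cell_dense`. -/
theorem loc_eq_zero (hG : IsDomain G.O) {B : Type} [CommRing B] [Algebra G.O B] [Algebra ℂ B]
    [IsScalarTower ℂ G.O B] [IsLocalization.Away (Dl C) B] (b : B)
    (h : ∀ (u v : G.Pt ℂ) (t : Fin n → ℂˣ), UU C (-1) u → UU C 1 v → ∀ σ : B →ₐ[ℂ] ℂ,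
      (∀ f : G.O, σ (algebraMap G.O B f) = (u * tq C t * v) f) → σ b = 0) : b = 0 := by
  obtain ⟨k, f, hf⟩ := IsLocalization.Away.surj (Dl C) b
  have h1 : f = 0 := by
    apply cell_dense C hG
    rintro x ⟨u, v, t, hu, hv, rfl⟩
    rw [AffGrp.Pt.toX_apply]
    obtain ⟨σ, hσ⟩ := D2a_ext C (B := B) (u * tq C t * v) (isUnit_Dl_cell C hu hv t)
    rw [← hσ, ← hf, map_mul, h u v t hu hv σ hσ, zero_mul]
  rw [h1, map_zero] at hf
  exact (IsUnit.mul_left_eq_zero ((IsLocalization.Away.algebraMap_isUnit (S := B) (Dl C)).pow k)).1 hf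

section D2b

theorem D2b_smul {M : Type*} [CommGroup M] (k : ℤ) (μ : Fin n → ℤ) (t : Fin n → M) :
    chi (k • μ) t = chi μ t ^ k := by
  unfold chi
  rw [← Finset.prod_zpow]
  refine Finset.prod_congr rfl fun j _ => ?_
  rw [← _root_.zpow_mul, Pi.smul_apply, smul_eq_mul, mul_comm]

theorem D2b_sum {M : Type*} [CommGroup M] {κ : Type*} (S : Finset κ) (μ : κ → Fin n → ℤ)
    (t : Fin n → M) : chi (∑ j ∈ S, μ j) t = ∏ j ∈ S, chi (μ j) t := by
  classical
  unfold chi
  rw [Finset.prod_comm]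
  refine Finset.prod_congr rfl fun k _ => ?_
  rw [Finset.sum_apply]
  induction S using Finset.induction_on with
  | empty => simp
  | insert a S ha ih => rw [Finset.sum_insert ha, Finset.prod_insert ha, _root_.zpow_add, ih]

theorem D2b_single {M : Type*} [CommGroup M] (k : Fin n) (t : Fin n → M) :
    chi (Pi.single k 1) t = t k := by
  classical
  unfold chi
  rw [Finset.prod_eq_single k]
  · rw [Pi.single_eq_same, zpow_one]
  · intro j _ hj
    rw [Pi.single_eq_of_ne hj, zpow_zero]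
  · intro h
    exact absurd (Finset.mem_univ k) h

include C in
/-- (row D2b) the weights generate -/
theorem D2b_gen (k : Fin n) : ∃ c : C.F.ι → ℤ, ∑ a, c a • C.wt a = Pi.single k 1 := by
  have h : (Pi.single k 1 : Fin n → ℤ) ∈ Submodule.span ℤ (Set.range C.wt) := by
    have h1 : (Pi.single k 1 : Fin n → ℤ) ∈ AddSubgroup.closure (Set.range C.wt) := by
      rw [C.gen]
      exact AddSubgroup.mem_top _
    rw [← Submodule.span_int_eq_addSubgroupClosure] at h1
    exact h1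
  exact (Submodule.mem_span_range_iff_exists_fun ℤ).1 h

/-- (row D2b) the coordinates of a torus element are determined by the weights -/
theorem D2b_coord {M : Type*} [CommGroup M] {k : Fin n} {c : C.F.ι → ℤ}
    (hc : ∑ a, c a • C.wt a = Pi.single k 1) (t : Fin n → M) :
    ∏ a, chi (C.wt a) t ^ c a = t k := by
  rw [← D2b_single k t, ← hc, D2b_sum]
  exact Finset.prod_congr rfl fun a _ => (D2b_smul _ _ _).symm

/-- (row D2b) `map` is a homomorphism -/
theorem D2b_map_inv {R R' : Type} [CommRing R] [Algebra ℂ R] [CommRing R'] [Algebra ℂ R']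
    (σ : R →ₐ[ℂ] R') (φ : G.Pt R) : (φ⁻¹).map σ = (φ.map σ)⁻¹ :=
  _root_.map_inv (MonoidHom.mk' (fun φ : G.Pt R => φ.map σ) (AffGrp.Pt.map_mul' σ)) φ

end D2b

/-- (row D2b) The decomposition of the universal point of `O[1/Dl]`.
Proof.  `B` as above, `φ : G.Pt B` the localisation map, `σ` as in `loc_eq_zero` (every `(u, v, t)` has such a `σ`: `IsLocalization.Away.lift`, `isUnit_Dl_cell`); `φ.map σ = u * tq C t * v`.
(1) `Lm : Matrix C.F.ι C.F.ι B`, `Lm a b := lC (hF C) (C.F.pt φ) a b / dC (hF C) (C.F.pt φ) (hF C b)` (`dC .. (hF C b)` divides `φ Dl`, so it is a unit).  By `lC_ldu`, `lC_map`, `dC_map`: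
`Lm.map σ = C.F.pt u`.  `exists_pt C.F C.faith Lm`: for `p` vanishing on the group, `σ (aeval Lm p) = aeval (C.F.pt u) p = 0` (`pt_eqs`), so `aeval Lm p = 0` by `loc_eq_zero`.  This gives
`u' : G.Pt B`, and `UU C (-1) u'` (entries tested by all `σ`: `loc_eq_zero`; if the inequality fails for `(a, b)` then the entry of `C.F.pt u - 1` is `0`).
(2) the same for `v'` with `rC`.
(3) `d := u'⁻¹ * φ * v'⁻¹`; `d.map σ = tq C t` (`map_mul'`, `pt_injective`), so the off-diagonal entries of `C.F.pt d` are `0` and its diagonal entries `q a` are units (`Rep.pt_mul_inv`: the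
inverse matrix is also diagonal).  `C.gen`: `Pi.single k 1 = ∑ a, c k a • C.wt a` with integers `c k a`; `t' k := ∏ a, (q a) ^ (c k a)`.  `chi (C.wt a) t' = q a`: test with all `σ`
(`chi (C.wt a) t = σ (q a)`, so `σ (t' k) = ∏ chi (C.wt a) t ^ (c k a) = chi (Pi.single k 1) t = t k`).  So `d = tq C t'` (`pt_injective`, `tq_pt`). -/
theorem ldu_univ (hG : IsDomain G.O) {B : Type} [CommRing B] [Algebra G.O B] [Algebra ℂ B]
    [IsScalarTower ℂ G.O B] [IsLocalization.Away (Dl C) B] (φ : G.Pt B)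
    (hφ : ∀ f : G.O, φ f = algebraMap G.O B f) :
    ∃ (u v : G.Pt B) (t : Fin n → Bˣ), UU C (-1) u ∧ UU C 1 v ∧ φ = u * tq C t * v := by
  classical
  -- testing with the complex points of the cell
  have key : ∀ b : B, (∀ (u v : G.Pt ℂ) (t : Fin n → ℂˣ), UU C (-1) u → UU C 1 v →
      ∀ σ : B →ₐ[ℂ] ℂ, φ.map σ = u * tq C t * v → σ b = 0) → b = 0 := by
    intro b hb
    apply loc_eq_zero C hG b
    intro u v t hu hv σ hσ
    refine hb u v t hu hv σ (AffGrp.Pt.ext fun f => ?_)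
    rw [AffGrp.Pt.map_apply, hφ, hσ]
  have hun : IsUnit (φ (Dl C)) := by
    rw [hφ]
    exact IsLocalization.Away.algebraMap_isUnit (S := B) (Dl C)
  rw [pt_Dl] at hun
  have hun' : ∀ a : C.F.ι, IsUnit (dC (hF C) (C.F.pt φ) (hF C a)) :=
    IsUnit.prod_univ_iff.1 hun
  choose δ hδ using hun'
  have hmapδ : ∀ (σ : B →ₐ[ℂ] ℂ) (a : C.F.ι),
      σ (((δ a)⁻¹ : Bˣ) : B) * dC (hF C) (C.F.pt (φ.map σ)) (hF C a) = 1 := by
    intro σ a
    have h1 : dC (hF C) (C.F.pt (φ.map σ)) (hF C a) = σ ((δ a : Bˣ) : B) := by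
      rw [hδ]
      exact (dC_map (hF C) (σ : B →+* ℂ) (C.F.pt φ) (hF C a)).symm
    rw [h1, ← map_mul, Units.inv_mul, map_one]
  -- the factor `u`
  let Lm : Matrix C.F.ι C.F.ι B := Matrix.of fun a b => (((δ b)⁻¹ : Bˣ) : B) * lC (hF C) (C.F.pt φ) a b
  have hLm : ∀ (u v : G.Pt ℂ) (t : Fin n → ℂˣ), UU C (-1) u → UU C 1 v →
      ∀ σ : B →ₐ[ℂ] ℂ, φ.map σ = u * tq C t * v → ∀ a b, σ (Lm a b) = C.F.pt u a b := by
    intro u v t hu hv σ hσ a b
    show σ ((((δ b)⁻¹ : Bˣ) : B) * lC (hF C) (C.F.pt φ) a b) = _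
    have h1 : σ (lC (hF C) (C.F.pt φ) a b) = lC (hF C) (C.F.pt (φ.map σ)) a b :=
      lC_map (hF C) (σ : B →+* ℂ) (C.F.pt φ) a b
    have h2 := hmapδ σ b
    rw [map_mul, h1]
    rw [hσ, D2a_pt] at h2 ⊢
    rw [lC_ldu (hF C) (D2a_low C hu) (D2a_up C hv), ← mul_assoc, h2, one_mul]
  obtain ⟨u', hu'⟩ := exists_pt C.F C.faith Lm (by
    intro p hp
    apply key
    intro u v t hu hv σ hσ
    have h1 : σ (MvPolynomial.aeval (fun ij : C.F.ι × C.F.ι => Lm ij.1 ij.2) p) =
        MvPolynomial.aeval (fun ij : C.F.ι × C.F.ι => C.F.pt u ij.1 ij.2) p := by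
      rw [← AlgHom.comp_apply, MvPolynomial.comp_aeval]
      congr 2
      funext ij
      exact hLm u v t hu hv σ hσ ij.1 ij.2
    rw [h1]
    exact pt_eqs C.F u p hp)
  have hu'map : ∀ (u v : G.Pt ℂ) (t : Fin n → ℂˣ), UU C (-1) u → UU C 1 v →
      ∀ σ : B →ₐ[ℂ] ℂ, φ.map σ = u * tq C t * v → u'.map σ = u := by
    intro u v t hu hv σ hσ
    apply Rep.pt_injective C.F C.faith
    rw [Rep.pt_map, hu']
    ext a b
    exact hLm u v t hu hv σ hσ a b
  have hU' : UU C (-1) u' := by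
    intro a b hab
    by_contra hcon
    apply hab
    apply key
    intro u v t hu hv σ hσ
    have h1 : σ ((C.F.pt u' - 1) a b) = (C.F.pt u - 1) a b := by
      rw [Matrix.sub_apply, Matrix.sub_apply, map_sub, hu', hLm u v t hu hv σ hσ a b,
        Matrix.one_apply, Matrix.one_apply]
      split_ifs <;> simp
    rw [h1]
    by_contra h2
    exact hcon (hu a b h2)
  -- the factor `v`
  let Rm : Matrix C.F.ι C.F.ι B := Matrix.of fun a b => (((δ a)⁻¹ : Bˣ) : B) * rC (hF C) (C.F.pt φ) a b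
  have hRm : ∀ (u v : G.Pt ℂ) (t : Fin n → ℂˣ), UU C (-1) u → UU C 1 v →
      ∀ σ : B →ₐ[ℂ] ℂ, φ.map σ = u * tq C t * v → ∀ a b, σ (Rm a b) = C.F.pt v a b := by
    intro u v t hu hv σ hσ a b
    show σ ((((δ a)⁻¹ : Bˣ) : B) * rC (hF C) (C.F.pt φ) a b) = _
    have h1 : σ (rC (hF C) (C.F.pt φ) a b) = rC (hF C) (C.F.pt (φ.map σ)) a b :=
      rC_map (hF C) (σ : B →+* ℂ) (C.F.pt φ) a b
    have h2 := hmapδ σ a
    rw [map_mul, h1]
    rw [hσ, D2a_pt] at h2 ⊢
    rw [rC_ldu (hF C) (D2a_low C hu) (D2a_up C hv), ← mul_assoc, h2, one_mul]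
  obtain ⟨v', hv'⟩ := exists_pt C.F C.faith Rm (by
    intro p hp
    apply key
    intro u v t hu hv σ hσ
    have h1 : σ (MvPolynomial.aeval (fun ij : C.F.ι × C.F.ι => Rm ij.1 ij.2) p) =
        MvPolynomial.aeval (fun ij : C.F.ι × C.F.ι => C.F.pt v ij.1 ij.2) p := by
      rw [← AlgHom.comp_apply, MvPolynomial.comp_aeval]
      congr 2
      funext ij
      exact hRm u v t hu hv σ hσ ij.1 ij.2
    rw [h1]
    exact pt_eqs C.F v p hp)
  have hv'map : ∀ (u v : G.Pt ℂ) (t : Fin n → ℂˣ), UU C (-1) u → UU C 1 v →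
      ∀ σ : B →ₐ[ℂ] ℂ, φ.map σ = u * tq C t * v → v'.map σ = v := by
    intro u v t hu hv σ hσ
    apply Rep.pt_injective C.F C.faith
    rw [Rep.pt_map, hv']
    ext a b
    exact hRm u v t hu hv σ hσ a b
  have hV' : UU C 1 v' := by
    intro a b hab
    by_contra hcon
    apply hab
    apply key
    intro u v t hu hv σ hσ
    have h1 : σ ((C.F.pt v' - 1) a b) = (C.F.pt v - 1) a b := by
      rw [Matrix.sub_apply, Matrix.sub_apply, map_sub, hv', hRm u v t hu hv σ hσ a b,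
        Matrix.one_apply, Matrix.one_apply]
      split_ifs <;> simp
    rw [h1]
    by_contra h2
    exact hcon (hv a b h2)
  -- the torus factor
  let d : G.Pt B := u'⁻¹ * φ * v'⁻¹
  have hdmap : ∀ (u v : G.Pt ℂ) (t : Fin n → ℂˣ), UU C (-1) u → UU C 1 v →
      ∀ σ : B →ₐ[ℂ] ℂ, φ.map σ = u * tq C t * v → d.map σ = tq C t := by
    intro u v t hu hv σ hσ
    show (u'⁻¹ * φ * v'⁻¹).map σ = _
    rw [AffGrp.Pt.map_mul', AffGrp.Pt.map_mul', D2b_map_inv, D2b_map_inv,
      hu'map u v t hu hv σ hσ, hv'map u v t hu hv σ hσ, hσ]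
    group
  have hdent : ∀ (u v : G.Pt ℂ) (t : Fin n → ℂˣ), UU C (-1) u → UU C 1 v →
      ∀ σ : B →ₐ[ℂ] ℂ, φ.map σ = u * tq C t * v → ∀ a b, σ (C.F.pt d a b) =
        Matrix.diagonal (fun a => ((chi (C.wt a) t : ℂˣ) : ℂ)) a b := by
    intro u v t hu hv σ hσ a b
    rw [← tq_pt C t C.isW_F, ← hdmap u v t hu hv σ hσ]
    rfl
  have hdoff : ∀ a b, a ≠ b → C.F.pt d a b = 0 := by
    intro a b hab
    apply key
    intro u v t hu hv σ hσ
    rw [hdent u v t hu hv σ hσ, Matrix.diagonal_apply_ne _ hab]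
  have hq1 : ∀ a, C.F.pt d a a * C.F.pt d⁻¹ a a = 1 := by
    intro a
    have h1 := congrFun (congrFun (Rep.pt_mul_inv C.F d) a) a
    rw [Matrix.mul_apply, Finset.sum_eq_single a] at h1
    · rw [h1, Matrix.one_apply_eq]
    · intro b _ hb
      rw [hdoff a b (Ne.symm hb), zero_mul]
    · intro h
      exact absurd (Finset.mem_univ a) h
  let q : C.F.ι → Bˣ := fun a => ⟨C.F.pt d a a, C.F.pt d⁻¹ a a, hq1 a, by rw [mul_comm]; exact hq1 a⟩
  choose c hc using D2b_gen C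
  let t' : Fin n → Bˣ := fun k => ∏ a, q a ^ c k a
  have hqσ : ∀ (u v : G.Pt ℂ) (t : Fin n → ℂˣ), UU C (-1) u → UU C 1 v →
      ∀ σ : B →ₐ[ℂ] ℂ, φ.map σ = u * tq C t * v → ∀ a,
        Units.map (σ : B →* ℂ) (q a) = chi (C.wt a) t := by
    intro u v t hu hv σ hσ a
    apply Units.ext
    show σ (C.F.pt d a a) = _
    rw [hdent u v t hu hv σ hσ, Matrix.diagonal_apply_eq]
  have htσ : ∀ (u v : G.Pt ℂ) (t : Fin n → ℂˣ), UU C (-1) u → UU C 1 v →
      ∀ σ : B →ₐ[ℂ] ℂ, φ.map σ = u * tq C t * v → ∀ k,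
        Units.map (σ : B →* ℂ) (t' k) = t k := by
    intro u v t hu hv σ hσ k
    show Units.map (σ : B →* ℂ) (∏ a, q a ^ c k a) = _
    rw [map_prod, ← D2b_coord C (hc k) t]
    refine Finset.prod_congr rfl fun a _ => ?_
    rw [map_zpow, hqσ u v t hu hv σ hσ a]
  have hchi : ∀ a, ((chi (C.wt a) t' : Bˣ) : B) = C.F.pt d a a := by
    intro a
    rw [← sub_eq_zero]
    apply key
    intro u v t hu hv σ hσ
    rw [map_sub, hdent u v t hu hv σ hσ, Matrix.diagonal_apply_eq]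
    have h1 : σ ((chi (C.wt a) t' : Bˣ) : B) = ((Units.map (σ : B →* ℂ) (chi (C.wt a) t') : ℂˣ) : ℂ) := rfl
    rw [h1, Pool.Agent.MP_c45d35_ag.chi_map]
    have h2 : (fun k => Units.map (σ : B →* ℂ) (t' k)) = t := funext fun k => htσ u v t hu hv σ hσ k
    rw [h2, sub_self]
  have hd : d = tq C t' := by
    apply Rep.pt_injective C.F C.faith
    rw [tq_pt C t' C.isW_F]
    ext a b
    by_cases hab : a = b
    · subst hab
      rw [Matrix.diagonal_apply_eq, hchi]
    · rw [hdoff a b hab, Matrix.diagonal_apply_ne _ hab]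
  refine ⟨u', v', t', hU', hV', ?_⟩
  rw [← hd]
  show φ = u' * (u'⁻¹ * φ * v'⁻¹) * v'
  group

section
variable {R : Type} [CommRing R] [Algebra ℂ R]

/-- (row D2b) L D U decomposition over any ring.  Proof: `ldu_univ` for `B := Localization.Away (Dl C)`; `φ` extends to `B →ₐ[ℂ] R`; map the decomposition
(`UU_map`, `tq_map`, `Pt.map_mul'`). -/
theorem exists_ldu (hG : IsDomain G.O) (φ : G.Pt R) (h : IsUnit (φ (Dl C))) :
    ∃ (u v : G.Pt R) (t : Fin n → Rˣ), UU C (-1) u ∧ UU C 1 v ∧ φ = u * tq C t * v := by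
  obtain ⟨u, v, t, hu, hv, e⟩ := ldu_univ C hG (B := Localization.Away (Dl C))
    (AffGrp.Pt.of (IsScalarTower.toAlgHom ℂ G.O (Localization.Away (Dl C)))) (fun f => rfl)
  obtain ⟨σ, hσ⟩ := D2a_ext C (B := Localization.Away (Dl C)) φ h
  have h1 : (AffGrp.Pt.of (IsScalarTower.toAlgHom ℂ G.O (Localization.Away (Dl C))) :
      G.Pt (Localization.Away (Dl C))).map σ = φ := AffGrp.Pt.ext fun f => hσ f
  refine ⟨u.map σ, v.map σ, fun k => Units.map (σ : _ →* R) (t k), UU_map C σ hu, UU_map C σ hv, ?_⟩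
  rw [← h1, e, AffGrp.Pt.map_mul', AffGrp.Pt.map_mul', tq_map C σ t]

/-- (row D2b) torus elements with equal points are equal -/
theorem D2b_tq_inj {t t' : Fin n → Rˣ} (h : tq C t = tq C t') : t = t' := by
  have h1 : ∀ a, chi (C.wt a) t = chi (C.wt a) t' := by
    intro a
    apply Units.ext
    have h2 := congrArg C.F.pt h
    rw [tq_pt C t C.isW_F, tq_pt C t' C.isW_F] at h2
    have h3 := congrFun (congrFun h2 a) a
    rwa [Matrix.diagonal_apply_eq, Matrix.diagonal_apply_eq] at h3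
  funext k
  obtain ⟨c, hc⟩ := D2b_gen C k
  rw [← D2b_coord C hc t, ← D2b_coord C hc t']
  exact Finset.prod_congr rfl fun a _ => by rw [h1]

/-- (row D2b) The factors are determined: the entries of `u` from `lC_ldu`, of `v` from `rC_ldu` (the minors are units), then `tq C t = tq C t'`, and `t = t'` because
`chi (C.wt a) t = chi (C.wt a) t'` for all `a` and `C.gen`. -/
theorem ldu_unique {u v u' v' : G.Pt R} {t t' : Fin n → Rˣ} (hu : UU C (-1) u) (hv : UU C 1 v)
    (hu' : UU C (-1) u') (hv' : UU C 1 v') (h : u * tq C t * v = u' * tq C t' * v') :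
    u = u' ∧ t = t' ∧ v = v' := by
  have hu1 : u = u' := by
    apply Rep.pt_injective C.F C.faith
    ext a b
    have h1 := lC_ldu (hF C) (D2a_low C hu) (D2a_up C hv) (fun a => ((chi (C.wt a) t : Rˣ) : R)) a b
    have h2 := lC_ldu (hF C) (D2a_low C hu') (D2a_up C hv') (fun a => ((chi (C.wt a) t' : Rˣ) : R)) a b
    rw [← D2a_pt] at h1 h2
    rw [← h, h1] at h2
    exact (D2a_unit C hu hv t _).mul_left_cancel h2
  have hv1 : v = v' := by
    apply Rep.pt_injective C.F C.faith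
    ext a b
    have h1 := rC_ldu (hF C) (D2a_low C hu) (D2a_up C hv) (fun a => ((chi (C.wt a) t : Rˣ) : R)) a b
    have h2 := rC_ldu (hF C) (D2a_low C hu') (D2a_up C hv') (fun a => ((chi (C.wt a) t' : Rˣ) : R)) a b
    rw [← D2a_pt] at h1 h2
    rw [← h, h1] at h2
    exact (D2a_unit C hu hv t _).mul_left_cancel h2
  subst hu1
  subst hv1
  exact ⟨rfl, D2b_tq_inj C (mul_left_cancel (mul_right_cancel h)), rfl⟩

/-- (row D2c) Block upper triangular points: `C.F.pt φ` and its inverse; `isUnit_dC`, so `φ Dl` is a unit (`pt_Dl`); `exists_ldu`; by `lC_ldu` and `lC_upper` the entries of `u` are those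
of `1`. -/
theorem exists_borel (hG : IsDomain G.O) (φ : G.Pt R)
    (h : ∀ a b, C.F.pt φ a b ≠ 0 → hF C b ≤ hF C a) :
    ∃ (v : G.Pt R) (t : Fin n → Rˣ), UU C 1 v ∧ φ = tq C t * v := by
  have hD : ∀ c, IsUnit (dC (hF C) (C.F.pt φ) c) := fun c =>
    isUnit_dC (hF C) h (Rep.pt_mul_inv C.F φ) c
  have hDl : IsUnit (φ (Dl C)) := by
    rw [pt_Dl]
    exact IsUnit.prod_univ_iff.2 fun a => hD _
  obtain ⟨u, v, t, hu, hv, e⟩ := exists_ldu C hG φ hDl
  refine ⟨v, t, hv, ?_⟩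
  have hu1 : u = 1 := by
    apply Rep.pt_injective C.F C.faith
    rw [Rep.pt_one]
    ext a b
    have h1 := lC_ldu (hF C) (D2a_low C hu) (D2a_up C hv) (fun a => ((chi (C.wt a) t : Rˣ) : R)) a b
    rw [← D2a_pt, ← e] at h1
    have h2 := lC_upper (hF C) h (Rep.pt_mul_inv C.F φ) a b
    rw [h1] at h2
    exact (hD _).mul_left_cancel h2
  rw [e, hu1, one_mul]

/-- (row D2c) Block lower triangular points: `isUnit_dC'`, `rC_lower`. -/
theorem exists_borel' (hG : IsDomain G.O) (φ : G.Pt R)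
    (h : ∀ a b, C.F.pt φ a b ≠ 0 → hF C a ≤ hF C b) :
    ∃ (u : G.Pt R) (t : Fin n → Rˣ), UU C (-1) u ∧ φ = u * tq C t := by
  have hD : ∀ c, IsUnit (dC (hF C) (C.F.pt φ) c) := fun c =>
    isUnit_dC' (hF C) h (Rep.pt_mul_inv C.F φ) c
  have hDl : IsUnit (φ (Dl C)) := by
    rw [pt_Dl]
    exact IsUnit.prod_univ_iff.2 fun a => hD _
  obtain ⟨u, v, t, hu, hv, e⟩ := exists_ldu C hG φ hDl
  refine ⟨u, t, hu, ?_⟩
  have hv1 : v = 1 := by
    apply Rep.pt_injective C.F C.faith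
    rw [Rep.pt_one]
    ext a b
    have h1 := rC_ldu (hF C) (D2a_low C hu) (D2a_up C hv) (fun a => ((chi (C.wt a) t : Rˣ) : R)) a b
    rw [← D2a_pt, ← e] at h1
    have h2 := rC_lower (hF C) h (Rep.pt_mul_inv C.F φ) a b
    rw [h1] at h2
    exact (hD _).mul_left_cancel h2
  rw [e, hv1, mul_one]

/-- (row D2c) Points that preserve the height are in the torus: `exists_borel`, and `v = 1` (its matrix is also `t⁻¹ φ`, block diagonal, so `(v - 1) a b ≠ 0` would give
`1 ≤ hF a - hF b = 0`). -/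
theorem exists_torus (hG : IsDomain G.O) (φ : G.Pt R)
    (h : ∀ a b, C.F.pt φ a b ≠ 0 → hF C a = hF C b) : ∃ t : Fin n → Rˣ, φ = tq C t := by
  obtain ⟨v, t, hv, e⟩ := exists_borel C hG φ fun a b hab => (h a b hab).ge
  refine ⟨t, ?_⟩
  have hv1 : v = 1 := by
    apply Rep.pt_injective C.F C.faith
    rw [Rep.pt_one]
    have h2 : ∀ a b, (C.F.pt v - 1) a b = 0 := by
      intro a b
      by_contra hab
      have h1 := hv a b hab
      have h3 : hF C a ≠ hF C b := by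
        intro h4
        have h5 : D.ht2 (C.wt a) = D.ht2 (C.wt b) := h4
        rw [h5] at h1
        omega
      have hne : a ≠ b := fun h4 => h3 (by rw [h4])
      apply h3
      apply h
      rw [e, Rep.pt_mul, tq_pt C t C.isW_F, Matrix.diagonal_mul]
      intro h6
      apply hab
      rw [Matrix.sub_apply, Matrix.one_apply_ne hne, sub_zero]
      exact (Units.mul_right_eq_zero _).1 h6
    ext a b
    exact sub_eq_zero.1 (h2 a b)
  rw [e, hv1, mul_one]

end

end Pool.Agent.MTH
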