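import Pool.Agent.MTH.E1
import Pool.Agent.MTH.D2

/-! # MTH-E2 -/

namespace Pool.Agent.MTH

open Matrix
open Pool.Agent.MTF Pool.Agent.MTG
open Pool.Agent.MTD (ev)
open Pool.Agent.MP_c45d35_ag (chi)

variable {G : AffGrp} {n : ℕ} {D : RD n} (C : CD G D)

/-- (row E2a) Chambers of complex regular points.  For an additive map `q : ℂ → ℚ` with `q (ev γ x) ≠ 0` for all roots there is `u : D.W` with
`D.Pos (u • γ) ↔ 0 < q (ev γ.1 x)`.
Proof.  `μ ↦ q (ev μ x)` is additive from `ℤ^n` to `ℚ`; clearing denominators and `exists_dual` (the form `B` is nondegenerate) there are `l : Fin n → ℤ` and a positive integer multiple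
`m` with `m * q (ev μ x) = B l μ` for all `μ`.  `exists_dom l` gives `u` with `u l` dominant; `B l γ = B (u l) (u γ) = cp (u γ) (u l) * cf` has the sign of `cp (u • γ) (u l)`, nonzero, and it
is `≥ 0` for `u • γ` positive (`Dom`), `≤ 0` for negative (`cp_ng`). -/
theorem exists_chamber (x : Fin n → ℂ) (q : ℂ →+ ℚ) (hq : ∀ γ : D.Rt, q (ev γ.1 x) ≠ 0) :
    ∃ u : D.W, ∀ γ : D.Rt, D.Pos (u • γ) ↔ 0 < q (ev γ.1 x) := by
  have hev : ∀ μ : Fin n → ℤ, q (ev μ x) = ∑ k, (μ k : ℚ) * q (x k) := by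
    intro μ
    unfold ev
    rw [map_sum]
    refine Finset.sum_congr rfl fun k _ => ?_
    have h1 : ((μ k : ℤ) : ℂ) * x k = μ k • x k := (zsmul_eq_mul _ _).symm
    rw [h1, map_zsmul, zsmul_eq_mul]
  let N : ℤ := ∏ k, ((q (x k)).den : ℤ)
  have hN : 0 < N := Finset.prod_pos fun k _ => by exact_mod_cast (q (x k)).pos
  have hf : ∀ k, ∃ f : ℤ, (f : ℚ) = (N : ℚ) * q (x k) := by
    intro k
    obtain ⟨m, hm⟩ : ((q (x k)).den : ℤ) ∣ N := Finset.dvd_prod_of_mem _ (Finset.mem_univ k)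
    refine ⟨m * (q (x k)).num, ?_⟩
    rw [hm]
    push_cast
    have h2 : ((q (x k)).den : ℚ) * q (x k) = (q (x k)).num := Rat.den_mul_eq_num _
    linear_combination (-(m : ℚ)) * h2
  choose f hf using hf
  obtain ⟨p, d, hd, hp⟩ := D.exists_dual f
  obtain ⟨u, hu⟩ := D.exists_dom p
  have hB : ∀ μ : Fin n → ℤ, ((D.B p μ : ℤ) : ℚ) = (d * N : ℚ) * q (ev μ x) := by
    intro μ
    rw [hp, hev]
    push_cast
    rw [Finset.mul_sum, Finset.mul_sum]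
    refine Finset.sum_congr rfl fun k _ => ?_
    rw [hf]
    ring
  have hdN : (0 : ℚ) < d * N := by
    have : (0 : ℤ) < d * N := mul_pos hd hN
    exact_mod_cast this
  have hcp : ∀ γ : D.Rt, D.cp (u • γ) (u.1 p) * D.cf γ = D.B p γ.1 := by
    intro γ
    rw [D.cp_smul_W, D.cp_cf, D.B_comm]
  refine ⟨u, fun γ => ⟨fun hpos => ?_, fun hpos => ?_⟩⟩
  · have h1 := hu _ hpos
    have h2 : 0 ≤ D.B p γ.1 := by
      rw [← hcp]
      exact mul_nonneg h1 (D.cf_pos γ).le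
    have h3 : (0 : ℚ) ≤ (d * N : ℚ) * q (ev γ.1 x) := by
      rw [← hB]
      exact_mod_cast h2
    have h4 : 0 ≤ q (ev γ.1 x) := nonneg_of_mul_nonneg_right h3 hdN
    exact lt_of_le_of_ne h4 (Ne.symm (hq γ))
  · by_contra hneg
    have h1 := hu _ ((D.pos_ng (u • γ)).2 hneg)
    rw [D.cp_ng] at h1
    have h2 : D.B p γ.1 ≤ 0 := by
      rw [← hcp]
      exact mul_nonpos_of_nonpos_of_nonneg (by omega) (D.cf_pos γ).le
    have h3 : (d * N : ℚ) * q (ev γ.1 x) ≤ 0 := by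
      rw [← hB]
      exact_mod_cast h2
    exact absurd h3 (not_le.2 (mul_pos hdN hpos))

/-- (row E2a) For finitely many nonzero complex numbers there is an additive map to `ℚ` that does not vanish on them: their `ℚ`-span `V` is finite-dimensional, extend to `ℂ` a linear form on `V`
that avoids the finitely many proper subspaces `{f | f z = 0}` of the dual space (`ℚ` is infinite: e.g. choose a basis of `V` and `f = (1, t, t², ..)` with `t` not a root of finitely many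
nonzero polynomials); `LinearMap.exists_extend`. -/
theorem exists_q (s : Finset ℂ) (hs : (0 : ℂ) ∉ s) : ∃ q : ℂ →+ ℚ, ∀ z ∈ s, q z ≠ 0 := by
  obtain ⟨f, hf⟩ := Module.exists_dual_forall_apply_ne_zero (K := ℚ) (M := ℂ)
    (fun z : s => (z : ℂ)) (fun z h => hs (h ▸ z.2))
  exact ⟨f.toAddMonoidHom, fun z hz => hf ⟨z, hz⟩⟩

/-! #### auxiliary lemmas for row E2b -/

theorem E2b_hx_add (x y : Fin n → ℂ) : (CD.hx (x + y) : LR D ℂ) = CD.hx x + CD.hx y := by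
  funext j
  rcases j with k | γ
  · rfl
  · show (0 : ℂ) = 0 + 0
    rw [add_zero]

theorem E2b_hx_smul (c : ℂ) (x : Fin n → ℂ) : (CD.hx (c • x) : LR D ℂ) = c • CD.hx x := by
  funext j
  rcases j with k | γ
  · rfl
  · show (0 : ℂ) = c * 0
    rw [mul_zero]

theorem E2b_hx_inj {x y : Fin n → ℂ} (h : (CD.hx x : LR D ℂ) = CD.hx y) : x = y :=
  funext fun k => congrFun h (Sum.inl k)

theorem E2b_single (μ : Fin n → ℤ) (k : Fin n) :
    ev μ (Pi.single k (1 : ℂ)) = ((μ k : ℤ) : ℂ) := by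
  unfold ev
  rw [Finset.sum_eq_single k]
  · rw [Pi.single_eq_same, mul_one]
  · intro j _ hj
    rw [Pi.single_eq_of_ne hj, mul_zero]
  · intro hk
    exact absurd (Finset.mem_univ k) hk

theorem E2b_ev_inj {μ ν : Fin n → ℤ} (h : ∀ z : Fin n → ℂ, ev μ z = ev ν z) : μ = ν := by
  funext k
  have := h (Pi.single k 1)
  rw [E2b_single, E2b_single] at this
  exact_mod_cast this

theorem E2b_ev_cv (μ : Fin n → ℤ) (γ : D.Rt) : ev μ (cv D ℂ γ) = ((D.cp γ μ : ℤ) : ℂ) := by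
  have h1 : μ = ∑ k, μ k • (Pi.single k (1 : ℤ) : Fin n → ℤ) := by
    funext j
    rw [Finset.sum_apply, Finset.sum_eq_single j]
    · rw [Pi.smul_apply, Pi.single_eq_same, smul_eq_mul, mul_one]
    · intro k _ hk
      rw [Pi.smul_apply, Pi.single_eq_of_ne (Ne.symm hk), smul_zero]
    · intro hk
      exact absurd (Finset.mem_univ j) hk
  have h2 : D.cp γ μ = ∑ k, μ k * D.cp γ (Pi.single k 1) := by
    conv_lhs => rw [h1]
    have h3 := map_sum (AddMonoidHom.mk' (D.cp γ) (D.cp_add γ))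
      (fun k => μ k • (Pi.single k (1 : ℤ) : Fin n → ℤ)) Finset.univ
    refine h3.trans (Finset.sum_congr rfl fun k _ => ?_)
    exact D.cp_smul _ _ _
  rw [h2]
  unfold ev cv
  push_cast
  rfl

theorem E2b_zero (φ : G.Pt ℂ) : Adp C φ (0 : LR D ℂ) = 0 := Matrix.mulVec_zero _

theorem E2b_A {φ : G.Pt ℂ} {x x' : Fin n → ℂ} (hx' : ∀ γ : D.Rt, ev γ.1 x' ≠ 0)
    (h : Adp C φ (CD.hx x) = CD.hx x') :
    ∃ A : (Fin n → ℂ) →ₗ[ℂ] (Fin n → ℂ), ∀ y, Adp C φ (CD.hx y) = CD.hx (A y) := by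
  refine ⟨{ toFun := fun y k => Adp C φ (CD.hx y) (Sum.inl k), map_add' := ?_,
            map_smul' := ?_ }, fun y => ?_⟩
  · intro y y'
    funext k
    rw [E2b_hx_add, Adp_add]
    rfl
  · intro c y
    funext k
    rw [E2b_hx_smul, Adp_smul]
    rfl
  · have h1 := Adp_br C φ (CD.hx x) (CD.hx y)
    have h2 : (Sum.elim (fun _ => 0) fun γ : D.Rt =>
        ev γ.1 x * (CD.hx y : LR D ℂ) (Sum.inr γ)) = (0 : LR D ℂ) := by
      funext j
      rcases j with k | γ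
      · rfl
      · show ev γ.1 x * 0 = 0
        rw [mul_zero]
    rw [h, br_hx, br_hx, h2, E2b_zero] at h1
    funext j
    rcases j with k | γ
    · rfl
    · have h3 := congrFun h1 (Sum.inr γ)
      have h4 : ev γ.1 x' * Adp C φ (CD.hx y) (Sum.inr γ) = 0 := h3.symm
      exact (mul_eq_zero.1 h4).resolve_left (hx' γ)

theorem E2b_wt {φ : G.Pt ℂ} {A : (Fin n → ℂ) →ₗ[ℂ] (Fin n → ℂ)}
    (hA : ∀ y, Adp C φ (CD.hx y) = CD.hx (A y)) {a b : C.F.ι} (hab : C.F.pt φ a b ≠ 0)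
    (y : Fin n → ℂ) : ev (C.wt a) (A y) = ev (C.wt b) y := by
  have h1 := pt_dm C C.F φ (CD.hx y)
  rw [hA, C.isW_F.dm_hx, C.isW_F.dm_hx] at h1
  have h2 := congrFun (congrFun h1 a) b
  rw [Matrix.mul_diagonal, Matrix.diagonal_mul] at h2
  exact mul_right_cancel₀ hab (by linear_combination -h2)

theorem E2b_mu {φ : G.Pt ℂ} {A : (Fin n → ℂ) →ₗ[ℂ] (Fin n → ℂ)}
    (hA : ∀ y, Adp C φ (CD.hx y) = CD.hx (A y)) (μ : Fin n → ℤ) :
    ∃ μ' : Fin n → ℤ, ∀ y, ev μ' (A y) = ev μ y := by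
  have h1 : μ ∈ AddSubgroup.closure (Set.range C.wt) := by rw [C.gen]; trivial
  induction h1 using AddSubgroup.closure_induction with
  | mem μ hμ =>
    obtain ⟨b, rfl⟩ := hμ
    have h2 : ∃ a, C.F.pt φ a b ≠ 0 := by
      by_contra hne
      push Not at hne
      have h3 := congrFun (congrFun (C.F.pt_inv_mul φ) b) b
      rw [Matrix.mul_apply, Finset.sum_eq_zero (fun a _ => by rw [hne a, mul_zero]),
        Matrix.one_apply_eq] at h3
      exact zero_ne_one h3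
    obtain ⟨a, ha⟩ := h2
    exact ⟨C.wt a, fun y => E2b_wt C hA ha y⟩
  | zero =>
    exact ⟨0, fun y => by
      rw [Pool.Agent.MTD.ev_zero_left, Pool.Agent.MTD.ev_zero_left]⟩
  | add μ ν _ _ h1 h2 =>
    obtain ⟨μ', h1⟩ := h1
    obtain ⟨ν', h2⟩ := h2
    exact ⟨μ' + ν', fun y => by
      rw [Pool.Agent.MTD.ev_add_left, Pool.Agent.MTD.ev_add_left, h1, h2]⟩
  | neg μ _ h =>
    obtain ⟨μ', h⟩ := h
    exact ⟨-μ', fun y => by
      rw [Pool.Agent.MTD.ev_neg_left, Pool.Agent.MTD.ev_neg_left, h]⟩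

theorem E2b_br_rv (y : Fin n → ℂ) (γ : D.Rt) :
    C.br (CD.hx y) (rv γ 1) = ev γ.1 y • (rv γ 1 : LR D ℂ) := by
  rw [br_hx]
  funext j
  rcases j with k | δ
  · show (0 : ℂ) = ev γ.1 y * (rv γ 1 : LR D ℂ) (Sum.inl k)
    have : (rv γ 1 : LR D ℂ) (Sum.inl k) = 0 := Pi.single_eq_of_ne (by simp) _
    rw [this, mul_zero]
  · show ev δ.1 y * (rv γ 1 : LR D ℂ) (Sum.inr δ) = ev γ.1 y * (rv γ 1 : LR D ℂ) (Sum.inr δ)
    by_cases h : δ = γ
    · rw [h]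
    · have : (rv γ 1 : LR D ℂ) (Sum.inr δ) = 0 :=
        Pi.single_eq_of_ne (by intro h'; exact h (Sum.inr.inj h')) _
      rw [this, mul_zero, mul_zero]

theorem E2b_rv_ne (γ : D.Rt) : (rv γ 1 : LR D ℂ) ≠ 0 := by
  intro h
  have h1 := congrFun h (Sum.inr γ)
  have h2 : (rv γ 1 : LR D ℂ) (Sum.inr γ) = 1 := Pi.single_eq_same _ _
  rw [h2] at h1
  exact one_ne_zero h1

theorem E2b_root {φ : G.Pt ℂ} {A : (Fin n → ℂ) →ₗ[ℂ] (Fin n → ℂ)}
    (hA : ∀ y, Adp C φ (CD.hx y) = CD.hx (A y)) {f : (Fin n → ℤ) → (Fin n → ℤ)}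
    (hf : ∀ μ ν, (∀ y, ev ν (A y) = ev μ y) → ν = f μ) (γ : D.Rt)
    (hγ : ∃ y : Fin n → ℂ, ev γ.1 y ≠ 0) :
    ∃ δ : D.Rt, δ.1 = f γ.1 ∧ ∃ c : ℂ, Adp C φ (rv γ 1) = c • rv δ 1 := by
  have hz : Adp C φ (rv γ 1) ≠ 0 := by
    intro h
    apply E2b_rv_ne γ
    rw [← Adp_one C (rv γ 1 : LR D ℂ), ← inv_mul_cancel φ, Adp_mul, h, E2b_zero]
  have hbr : ∀ y, C.br (CD.hx (A y)) (Adp C φ (rv γ 1)) = ev γ.1 y • Adp C φ (rv γ 1) := by
    intro y
    rw [← hA, ← Adp_br, E2b_br_rv, Adp_smul]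
  have hl : ∀ k, Adp C φ (rv γ 1) (Sum.inl k) = 0 := by
    intro k
    obtain ⟨y, hy⟩ := hγ
    have h1 := congrFun (hbr y) (Sum.inl k)
    rw [br_hx] at h1
    have h2 : (0 : ℂ) = ev γ.1 y * Adp C φ (rv γ 1) (Sum.inl k) := h1
    exact (mul_eq_zero.1 h2.symm).resolve_left hy
  have hr : ∀ δ : D.Rt, Adp C φ (rv γ 1) (Sum.inr δ) ≠ 0 → δ.1 = f γ.1 := by
    intro δ hδ
    apply hf
    intro y
    have h1 := congrFun (hbr y) (Sum.inr δ)
    rw [br_hx] at h1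
    have h2 : ev δ.1 (A y) * Adp C φ (rv γ 1) (Sum.inr δ) =
        ev γ.1 y * Adp C φ (rv γ 1) (Sum.inr δ) := h1
    exact mul_right_cancel₀ hδ h2
  obtain ⟨δ, hδ⟩ : ∃ δ : D.Rt, Adp C φ (rv γ 1) (Sum.inr δ) ≠ 0 := by
    by_contra hne
    push Not at hne
    apply hz
    funext j
    rcases j with k | δ
    · exact hl k
    · exact hne δ
  refine ⟨δ, hr δ hδ, Adp C φ (rv γ 1) (Sum.inr δ), ?_⟩
  funext j
  rcases j with k | δ'
  · rw [hl k]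
    have : (rv δ 1 : LR D ℂ) (Sum.inl k) = 0 := Pi.single_eq_of_ne (by simp) _
    rw [Pi.smul_apply, this, smul_zero]
  · rw [Pi.smul_apply, smul_eq_mul]
    by_cases h : δ' = δ
    · rw [h]
      have : (rv δ 1 : LR D ℂ) (Sum.inr δ) = 1 := Pi.single_eq_same _ _
      rw [this, mul_one]
    · have h1 : (rv δ 1 : LR D ℂ) (Sum.inr δ') = 0 :=
        Pi.single_eq_of_ne (by intro h'; exact h (Sum.inr.inj h')) _
      rw [h1, mul_zero]
      by_contra h2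
      exact h (Subtype.ext ((hr δ' h2).trans (hr δ hδ).symm))

theorem E2b_br_ng (γ : D.Rt) :
    C.br (rv γ (1 : ℂ)) (rv (D.ng γ) 1) = CD.hx (cv D ℂ γ) := by
  have h0 : ∀ k, C.br (rv γ (1 : ℂ)) (rv (D.ng γ) 1) k =
      C.sc (Sum.inr γ) (Sum.inr (D.ng γ)) k := by
    intro k
    unfold CD.br
    rw [Finset.sum_eq_single (Sum.inr γ), Finset.sum_eq_single (Sum.inr (D.ng γ))]
    · have h1 : (rv γ 1 : LR D ℂ) (Sum.inr γ) = 1 := Pi.single_eq_same _ _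
      have h2 : (rv (D.ng γ) 1 : LR D ℂ) (Sum.inr (D.ng γ)) = 1 := Pi.single_eq_same _ _
      rw [h1, h2, one_mul, one_mul]
      rfl
    · intro j _ hj
      have h2 : (rv (D.ng γ) 1 : LR D ℂ) j = 0 := Pi.single_eq_of_ne hj _
      rw [h2, mul_zero, zero_mul]
    · intro h
      exact absurd (Finset.mem_univ _) h
    · intro i _ hi
      have h2 : (rv γ 1 : LR D ℂ) i = 0 := Pi.single_eq_of_ne hi _
      exact Finset.sum_eq_zero fun j _ => by rw [h2, zero_mul, zero_mul]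
    · intro h
      exact absurd (Finset.mem_univ _) h
  funext j
  rw [h0]
  unfold CD.sc
  rw [C.e_ng, map_sum, Finsupp.finsetSum_apply]
  simp only [map_smul, Finsupp.smul_apply, Module.Basis.repr_self, smul_eq_mul]
  rcases j with k | δ
  · rw [Finset.sum_eq_single k]
    · rw [Finsupp.single_eq_same, mul_one]
      rfl
    · intro i _ hi
      rw [Finsupp.single_eq_of_ne (by intro h; exact hi (Sum.inl.inj h).symm), mul_zero]
    · intro h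
      exact absurd (Finset.mem_univ _) h
  · refine Finset.sum_eq_zero fun i _ => ?_
    rw [Finsupp.single_eq_of_ne (by simp), mul_zero]

theorem E2b_br_smul (c c' : ℂ) (z z' : LR D ℂ) :
    C.br (c • z) (c' • z') = (c * c') • C.br z z' := by
  funext k
  unfold CD.br
  rw [Pi.smul_apply, smul_eq_mul, Finset.mul_sum]
  refine Finset.sum_congr rfl fun i _ => ?_
  rw [Finset.mul_sum]
  refine Finset.sum_congr rfl fun j _ => ?_
  rw [Pi.smul_apply, Pi.smul_apply, smul_eq_mul, smul_eq_mul]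
  ring

/-- (row E2b) The automorphism of the lattice induced by an element that maps a regular `x` to a regular `x'`.
Proof.  `Adp C φ (hx y)` commutes with `Adp C φ (hx x) = hx x'` (`Adp_br`, `br_hx`: `[hx x, hx y] = 0`), so its root components vanish (`br_hx`, `x'` regular): it is `hx (A y)`, `A` linear; the
same for `φ⁻¹` gives the inverse of `A`.  `C.F`: `C.F.pt φ a b ≠ 0 → ∀ y, ev (C.wt b) y = ev (C.wt a) (A y)` (`pt_dm`, `dm_hx`).  Every column `b` has a nonzero entry, so for every weight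
`μ = C.wt b` there is `μ' = C.wt a` with `ev μ' (A y) = ev μ y`; by `C.gen` (`AddSubgroup.closure_induction`) for every `μ : Fin n → ℤ`; unique because `A` is surjective.  `σ μ := μ'`, additive; its inverse
comes from `φ⁻¹`.  Roots: `z := Adp C φ (rv γ 1) ≠ 0` satisfies `[hx (A y), z] = ev γ y • z` (`Adp_br`); its `inl` components vanish (choose `y` with `ev γ y ≠ 0`), a nonzero component `δ` has
`ev δ (A y) = ev γ y` for all `y`, so `δ = σ γ`: `σ γ` is a root and `z = c • rv (σ γ) 1`.  Coroots: `hx (A (cv γ)) = Adp C φ [rv γ 1, rv (ng γ) 1] = c c' [rv (σγ) 1, rv (ng (σγ)) 1]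
= c c' hx (cv (σ γ))`; pairing with `σ γ`: `2 = ev γ (cv γ) = ev (σ γ) (A (cv γ)) = 2 c c'`.  So `A (cv γ) = cv (σ γ)` and `cp (σγ) (σμ) = ev (σμ) (A (cv γ)) = ev μ (cv γ) = cp γ μ`. -/
theorem exists_sigma {φ : G.Pt ℂ} {x x' : Fin n → ℂ} (hx : ∀ γ : D.Rt, ev γ.1 x ≠ 0)
    (hx' : ∀ γ : D.Rt, ev γ.1 x' ≠ 0) (h : Adp C φ (CD.hx x) = CD.hx x') :
    ∃ (σ : (Fin n → ℤ) ≃+ (Fin n → ℤ)) (τ : D.Rt ≃ D.Rt) (A : (Fin n → ℂ) →ₗ[ℂ] (Fin n → ℂ)),
      (∀ y, Adp C φ (CD.hx y) = CD.hx (A y)) ∧ (∀ μ y, ev (σ μ) (A y) = ev μ y) ∧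
      (∀ γ : D.Rt, (τ γ).1 = σ γ.1) ∧ (∀ γ μ, D.cp (τ γ) (σ μ) = D.cp γ μ) ∧
      ∀ a b, C.F.pt φ a b ≠ 0 → C.wt a = σ (C.wt b) := by
  classical
  obtain ⟨A, hA⟩ := E2b_A C hx' h
  have h' : Adp C φ⁻¹ (CD.hx x') = CD.hx x := by
    rw [← h, ← Adp_mul, inv_mul_cancel, Adp_one]
  obtain ⟨A', hA'⟩ := E2b_A C hx h'
  have hAA' : ∀ y, A (A' y) = y := by
    intro y
    apply E2b_hx_inj (D := D)
    rw [← hA, ← hA', ← Adp_mul, mul_inv_cancel, Adp_one]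
  have hA'A : ∀ y, A' (A y) = y := by
    intro y
    apply E2b_hx_inj (D := D)
    rw [← hA', ← hA, ← Adp_mul, inv_mul_cancel, Adp_one]
  choose f hf using E2b_mu C hA
  choose g hg using E2b_mu C hA'
  have hfu : ∀ μ ν, (∀ y, ev ν (A y) = ev μ y) → ν = f μ := by
    intro μ ν h1
    apply E2b_ev_inj
    intro z
    rw [← hAA' z, h1, hf]
  have hgu : ∀ μ ν, (∀ y, ev ν (A' y) = ev μ y) → ν = g μ := by
    intro μ ν h1
    apply E2b_ev_inj
    intro z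
    rw [← hA'A z, h1, hg]
  let σ : (Fin n → ℤ) ≃+ (Fin n → ℤ) :=
    { toFun := f
      invFun := g
      left_inv := fun μ => (hgu (f μ) μ fun y => by rw [← hf μ (A' y), hAA']).symm
      right_inv := fun μ => (hfu (g μ) μ fun y => by rw [← hg μ (A y), hA'A]).symm
      map_add' := fun μ ν => (hfu (μ + ν) (f μ + f ν) fun y => by
        rw [Pool.Agent.MTD.ev_add_left, Pool.Agent.MTD.ev_add_left, hf, hf]).symm }
  have hσ : ∀ μ, σ μ = f μ := fun μ => rfl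
  have hroot := fun γ : D.Rt => E2b_root C hA hfu γ ⟨x, hx γ⟩
  choose τ0 hτ0 c hc using hroot
  have hinj : Function.Injective τ0 := by
    intro γ δ hγδ
    apply Subtype.ext
    apply σ.injective
    rw [hσ, hσ, ← hτ0, ← hτ0, hγδ]
  let τ : D.Rt ≃ D.Rt := Equiv.ofBijective τ0 (Finite.injective_iff_bijective.1 hinj)
  have hτ : ∀ γ, τ γ = τ0 γ := fun γ => rfl
  have hng : ∀ γ, τ0 (D.ng γ) = D.ng (τ0 γ) := by
    intro γ
    apply Subtype.ext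
    rw [hτ0, D.ng_val, D.ng_val, hτ0, ← hσ, ← hσ, map_neg]
  have hco : ∀ γ, A (cv D ℂ γ) = cv D ℂ (τ0 γ) := by
    intro γ
    have h1 : CD.hx (A (cv D ℂ γ)) = (c γ * c (D.ng γ)) • (CD.hx (cv D ℂ (τ0 γ)) : LR D ℂ) := by
      rw [← hA, ← E2b_br_ng C γ, Adp_br, hc, hc, E2b_br_smul, hng, E2b_br_ng]
    rw [← E2b_hx_smul] at h1
    have h2 : A (cv D ℂ γ) = (c γ * c (D.ng γ)) • cv D ℂ (τ0 γ) := E2b_hx_inj h1
    have h3 : (2 : ℂ) = (c γ * c (D.ng γ)) * 2 := by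
      have h4 := hf γ.1 (cv D ℂ γ)
      rw [h2, Pool.Agent.MTD.ev_smul, ← hτ0, E2b_ev_cv, E2b_ev_cv, D.cp_self, D.cp_self] at h4
      have : ((2 : ℤ) : ℂ) = 2 := by norm_num
      rw [this] at h4
      exact h4.symm
    have h5 : c γ * c (D.ng γ) = 1 := by
      have h6 : (c γ * c (D.ng γ) - 1) * 2 = 0 := by linear_combination -h3
      have h7 := (mul_eq_zero.1 h6).resolve_right two_ne_zero
      linear_combination h7
    rw [h2, h5, one_smul]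
  refine ⟨σ, τ, A, hA, fun μ y => hf μ y, fun γ => hτ0 γ, fun γ μ => ?_, fun a b hab => ?_⟩
  · have h1 := hf μ (cv D ℂ γ)
    rw [hco, E2b_ev_cv, E2b_ev_cv] at h1
    exact_mod_cast h1
  · exact hfu _ _ fun y => E2b_wt C hA hab y

theorem E2c_key (hG : IsDomain G.O) {φ φ₁ φ₂ : G.Pt ℂ} {u u' : D.W}
    (h1 : ∀ y : Fin n → ℂ, Adp C φ₁ (CD.hx y) = CD.hx (wx u y))
    (h2 : ∀ y : Fin n → ℂ, Adp C φ₂ (CD.hx y) = CD.hx (wx u' y))
    {σ : (Fin n → ℤ) ≃+ (Fin n → ℤ)} {τ : D.Rt ≃ D.Rt}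
    (hcp : ∀ γ μ, D.cp (τ γ) (σ μ) = D.cp γ μ)
    (hsupp : ∀ a b, C.F.pt φ a b ≠ 0 → C.wt a = σ (C.wt b))
    (hpos : ∀ γ : D.Rt, D.Pos (u' • τ γ) ↔ D.Pos (u • γ)) :
    ∃ t : Fin n → ℂˣ, φ₂ * φ * φ₁⁻¹ = tq C t := by
  classical
  have h1' : ∀ y : Fin n → ℂ, Adp C φ₁⁻¹ (CD.hx y) = CD.hx (wx u⁻¹ y) := by
    intro y
    have h3 : (CD.hx y : LR D ℂ) = Adp C φ₁ (CD.hx (wx u⁻¹ y)) := by
      rw [h1, ← wx_mul, mul_inv_cancel, wx_one]
    rw [h3, ← Adp_mul, inv_mul_cancel, Adp_one]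
  let e : D.Rt ≃ D.Rt := ((MulAction.toPerm u'⁻¹ : Equiv.Perm D.Rt).trans τ.symm).trans
    (MulAction.toPerm u : Equiv.Perm D.Rt)
  have he : ∀ γ, e γ = u • τ.symm (u'⁻¹ • γ) := fun γ => rfl
  have hepos : ∀ γ, D.Pos (e γ) ↔ D.Pos γ := by
    intro γ
    rw [he, ← hpos, Equiv.apply_symm_apply, smul_inv_smul]
  have hecp : ∀ γ (μ : Fin n → ℤ), D.cp γ (u'.1 (σ ((u⁻¹).1 μ))) = D.cp (e γ) μ := by
    intro γ μ
    calc D.cp γ (u'.1 (σ ((u⁻¹).1 μ)))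
        = D.cp (u' • (u'⁻¹ • γ)) (u'.1 (σ ((u⁻¹).1 μ))) := by rw [smul_inv_smul]
      _ = D.cp (u'⁻¹ • γ) (σ ((u⁻¹).1 μ)) := D.cp_smul_W _ _ _
      _ = D.cp (τ (τ.symm (u'⁻¹ • γ))) (σ ((u⁻¹).1 μ)) := by rw [Equiv.apply_symm_apply]
      _ = D.cp (τ.symm (u'⁻¹ • γ)) ((u⁻¹).1 μ) := hcp _ _
      _ = D.cp (e γ) μ := (D.cp_smul' _ _ _).symm
  have hht : ∀ μ : Fin n → ℤ, D.ht2 (u'.1 (σ ((u⁻¹).1 μ))) = D.ht2 μ := by
    intro μ
    unfold RD.ht2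
    refine Fintype.sum_equiv (e.subtypeEquiv fun γ => (hepos γ).symm) _ _ fun γ => ?_
    exact hecp γ.1 μ
  apply exists_torus C hG
  intro a b hab
  rw [Rep.pt_mul, Rep.pt_mul] at hab
  obtain ⟨d, -, hd⟩ := Finset.exists_ne_zero_of_sum_ne_zero hab
  have hd1 : (C.F.pt φ₂ * C.F.pt φ) a d ≠ 0 := left_ne_zero_of_mul hd
  have hd2 : C.F.pt φ₁⁻¹ d b ≠ 0 := right_ne_zero_of_mul hd
  obtain ⟨c, -, hc⟩ := Finset.exists_ne_zero_of_sum_ne_zero hd1
  have hc1 : C.F.pt φ₂ a c ≠ 0 := left_ne_zero_of_mul hc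
  have hc2 : C.F.pt φ c d ≠ 0 := right_ne_zero_of_mul hc
  have k1 := nw_supp C C.isW_F h2 a c hc1
  have k2 := hsupp c d hc2
  have k3 := nw_supp C C.isW_F h1' d b hd2
  show D.ht2 (C.wt a) = D.ht2 (C.wt b)
  rw [k1, k2, k3, hht]

/-- (row E2c) An element of `G` that maps a regular `x` to a regular `x'`: `x'` is in the Weyl orbit of `x`, and if `x' = x` then the element is in the torus.
Proof.  `σ, τ, A` from `exists_sigma`, `q` from `exists_q` for `{ev γ x} ∪ {ev γ x'}`, `u`, `u'` from `exists_chamber` for `x`, `x'` (with the same `q`; take `u' = u` if `x' = x`).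
`ev (τ γ) x' = ev γ x`, so `Pos (u' • τ γ) ↔ Pos (u • γ)`.  `n_u`, `n_{u'}` from `exists_nw`; `ψ := n_{u'} φ n_u⁻¹`; `Adp C ψ (hx y) = hx (wx u' (A (wx u⁻¹ y)))`.
`C.F.pt ψ a b ≠ 0 → C.wt a = u' (σ (u⁻¹ (C.wt b)))` (`nw_supp`, product of three matrices), and `ht2 (u' (σ (u⁻¹ μ))) = ∑_{γ > 0} cp γ (..) = ∑_{γ > 0} cp (u • τ⁻¹ (u'⁻¹ • γ)) μ = ht2 μ` because
`γ ↦ u • τ⁻¹ (u'⁻¹ • γ)` permutes the positive roots.  So `exists_torus` applies: `ψ = tq C t`, `Adp C ψ (hx y) = hx y` (`Adp_tq`), hence `wx u' (A (wx u⁻¹ y)) = y` for all `y`, `A y = wx (u'⁻¹ u) y`.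
If `x' = x`, `u' = u`: `φ = n_u⁻¹ (tq C t) n_u` preserves all weight spaces (`nw_supp` for `n_u` and its inverse), so by `exists_torus` it is in the torus. -/
theorem exists_W_of_conj (hG : IsDomain G.O) {φ : G.Pt ℂ} {x x' : Fin n → ℂ}
    (hx : ∀ γ : D.Rt, ev γ.1 x ≠ 0) (hx' : ∀ γ : D.Rt, ev γ.1 x' ≠ 0)
    (h : Adp C φ (CD.hx x) = CD.hx x') :
    (∃ u : D.W, x' = wx u x) ∧ (x' = x → ∃ t : Fin n → ℂˣ, φ = tq C t) := by
  classical
  obtain ⟨σ, τ, A, hA, hσ, hτ, hcp, hsupp⟩ := exists_sigma C hx hx' h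
  have hAx : A x = x' := E2b_hx_inj (D := D) (by rw [← hA, h])
  have hevτ : ∀ γ : D.Rt, ev (τ γ).1 x' = ev γ.1 x := by
    intro γ
    rw [hτ, ← hAx, hσ]
  obtain ⟨q, hq⟩ := exists_q (Finset.univ.image fun γ : D.Rt => ev γ.1 x) (by
    intro h0
    obtain ⟨γ, -, hγ⟩ := Finset.mem_image.1 h0
    exact hx γ hγ)
  have hq1 : ∀ γ : D.Rt, q (ev γ.1 x) ≠ 0 := fun γ =>
    hq _ (Finset.mem_image.2 ⟨γ, Finset.mem_univ _, rfl⟩)
  have hq2 : ∀ γ : D.Rt, q (ev γ.1 x') ≠ 0 := by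
    intro γ
    have := hevτ (τ.symm γ)
    rw [Equiv.apply_symm_apply] at this
    rw [this]
    exact hq1 _
  obtain ⟨u, hu⟩ := exists_chamber x q hq1
  refine ⟨?_, ?_⟩
  · obtain ⟨u', hu'⟩ := exists_chamber x' q hq2
    obtain ⟨φ₁, h1⟩ := exists_nw C u
    obtain ⟨φ₂, h2⟩ := exists_nw C u'
    obtain ⟨t, ht⟩ := E2c_key C hG h1 h2 hcp hsupp (fun γ => by rw [hu', hu, hevτ])
    have h3 : Adp C (φ₂ * φ * φ₁⁻¹) (CD.hx (wx u x)) = CD.hx (wx u x) := by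
      rw [ht, Adp_tq]
      funext j
      rcases j with k | γ
      · rfl
      · show _ * (0 : ℂ) = 0
        rw [mul_zero]
    have h5 : Adp C (φ₂ * φ * φ₁⁻¹) (CD.hx (wx u x)) = CD.hx (wx u' x') := by
      rw [← h1, ← Adp_mul, inv_mul_cancel_right, Adp_mul, h, h2]
    have h4 : wx u' x' = wx u x := E2b_hx_inj (D := D) (h5.symm.trans h3)
    refine ⟨u'⁻¹ * u, ?_⟩
    rw [wx_mul, ← h4, ← wx_mul, inv_mul_cancel, wx_one]
  · intro hxx
    obtain ⟨φ₁, h1⟩ := exists_nw C u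
    obtain ⟨t, ht⟩ := E2c_key C hG h1 h1 hcp hsupp (fun γ => by
      rw [hu, hu, ← hevτ γ, hxx])
    have h1' : ∀ y : Fin n → ℂ, Adp C φ₁⁻¹ (CD.hx y) = CD.hx (wx u⁻¹ y) := by
      intro y
      have h3 : (CD.hx y : LR D ℂ) = Adp C φ₁ (CD.hx (wx u⁻¹ y)) := by
        rw [h1, ← wx_mul, mul_inv_cancel, wx_one]
      rw [h3, ← Adp_mul, inv_mul_cancel, Adp_one]
    have hφ : φ = φ₁⁻¹ * (tq C t) * φ₁ := by
      rw [← ht]
      group
    apply exists_torus C hG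
    intro a b hab
    rw [hφ, Rep.pt_mul, Rep.pt_mul, tq_pt C t C.isW_F] at hab
    obtain ⟨d, -, hd⟩ := Finset.exists_ne_zero_of_sum_ne_zero hab
    have hd1 : (C.F.pt φ₁⁻¹ * Matrix.diagonal fun a => ((chi (C.wt a) t : ℂˣ) : ℂ)) a d ≠ 0 :=
      left_ne_zero_of_mul hd
    have hd2 : C.F.pt φ₁ d b ≠ 0 := right_ne_zero_of_mul hd
    rw [Matrix.mul_diagonal] at hd1
    have hd3 : C.F.pt φ₁⁻¹ a d ≠ 0 := left_ne_zero_of_mul hd1
    have k1 := nw_supp C C.isW_F h1' a d hd3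
    have k2 := nw_supp C C.isW_F h1 d b hd2
    show D.ht2 (C.wt a) = D.ht2 (C.wt b)
    rw [k1, k2, D.W_inv_apply']

end Pool.Agent.MTH
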