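import Pool.Agent.MTH.A0

/-! # MTH-A1 : points given by matrices -/

namespace Pool.Agent.MTH

open Matrix
open Pool.Agent.MTF Pool.Agent.MTG
open Pool.Agent.MTD (ev)
open Pool.Agent.MP_c45d35_ag (chi)

variable {G : AffGrp} {R : Type} [CommRing R] [Algebra ℂ R]

/-- evaluation at a point of `G` -/
def a1_ev (x : G.X) : G.O →ₐ[ℂ] ℂ where
  toFun f := f.1 x
  map_one' := rfl
  map_mul' _ _ := rfl
  map_zero' := rfl
  map_add' _ _ := rfl
  commutes' _ := rfl

theorem a1_co (E : MTF.Rep G) (p : MvPolynomial (E.ι × E.ι) ℂ)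
    (hp : ∀ x : G.X, MvPolynomial.aeval (fun ij : E.ι × E.ι => E.ρ x ij.1 ij.2) p = 0) :
    MvPolynomial.aeval (fun ij : E.ι × E.ι => E.co ij.1 ij.2) p = 0 := by
  apply AffGrp.O_ext
  intro x
  have h1 := MvPolynomial.comp_aeval_apply (f := fun ij : E.ι × E.ι => E.co ij.1 ij.2) (a1_ev x) p
  exact h1.trans (hp x)

theorem a1_surj (E : MTF.Rep G) (hE : E.Faithful) (f : G.O) :
    ∃ p : MvPolynomial (E.ι × E.ι) ℂ, MvPolynomial.aeval (fun ij : E.ι × E.ι => E.co ij.1 ij.2) p = f := by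
  have h1 : f ∈ Algebra.adjoin ℂ (Set.range fun p : E.ι × E.ι => E.co p.1 p.2) := by
    have h2 : Algebra.adjoin ℂ (Set.range fun p : E.ι × E.ι => E.co p.1 p.2) = ⊤ := hE
    rw [h2]
    exact Algebra.mem_top
  rw [Algebra.adjoin_range_eq_range_aeval] at h1
  exact h1

/-- (row A1) A matrix over `R` that satisfies all polynomial equations of the group in a faithful representation is the
matrix of a point.
Proof.  Let `ev : MvPolynomial (E.ι × E.ι) ℂ →ₐ[ℂ] G.O` be `aeval (fun p => E.co p.1 p.2)`; it is surjective (`hE : adjoin (range co) = ⊤`,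
`Algebra.adjoin_range_eq_range_aeval`), and `(ev p).1 x = aeval (fun p => E.ρ x p.1 p.2) p` (evaluation at `x` is an algebra homomorphism).  So
`ker ev ≤ ker (aeval g)` by `h` (`O_ext`), and `aeval g` factors through `ev` : `Ideal.Quotient.liftₐ` with
`Ideal.quotientKerAlgEquivOfSurjective`.  The factor `φ : G.O →ₐ R` has `φ (E.co a b) = g a b`. -/
theorem exists_pt (E : MTF.Rep G) (hE : E.Faithful) (g : Matrix E.ι E.ι R)
    (h : ∀ p : MvPolynomial (E.ι × E.ι) ℂ,
      (∀ x : G.X, MvPolynomial.aeval (fun ij : E.ι × E.ι => E.ρ x ij.1 ij.2) p = 0) →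
      MvPolynomial.aeval (fun ij : E.ι × E.ι => g ij.1 ij.2) p = 0) : ∃ φ : G.Pt R, E.pt φ = g := by
  have hs : Function.Surjective (MvPolynomial.aeval (R := ℂ) (fun ij : E.ι × E.ι => E.co ij.1 ij.2)) :=
    a1_surj E hE
  have hk : ∀ p : MvPolynomial (E.ι × E.ι) ℂ,
      MvPolynomial.aeval (fun ij : E.ι × E.ι => E.co ij.1 ij.2) p = 0 →
      MvPolynomial.aeval (fun ij : E.ι × E.ι => g ij.1 ij.2) p = 0 := by
    intro p hp
    refine h p fun x => ?_
    have h1 := MvPolynomial.comp_aeval_apply (f := fun ij : E.ι × E.ι => E.co ij.1 ij.2) (a1_ev x) p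
    rw [hp, map_zero] at h1
    exact h1.symm
  let φ : G.O →ₐ[ℂ] R :=
    AlgHom.liftOfSurjective (MvPolynomial.aeval (R := ℂ) (fun ij : E.ι × E.ι => E.co ij.1 ij.2)) hs
      (MvPolynomial.aeval (R := ℂ) (fun ij : E.ι × E.ι => g ij.1 ij.2)) (fun p hp => hk p hp)
  refine ⟨AffGrp.Pt.of φ, ?_⟩
  ext a b
  rw [Rep.pt_apply]
  show φ (E.co a b) = g a b
  have h1 : E.co a b = MvPolynomial.aeval (R := ℂ) (fun ij : E.ι × E.ι => E.co ij.1 ij.2)
      (MvPolynomial.X (a, b)) := by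
    rw [MvPolynomial.aeval_X]
  rw [h1]
  refine (AlgHom.liftOfSurjective_apply _ hs _ _ (MvPolynomial.X (a, b))).trans ?_
  rw [MvPolynomial.aeval_X]

/-- converse: a point satisfies the equations.  `aeval (E.pt φ) p = φ (aeval co p)` and `aeval co p = 0`. -/
theorem pt_eqs (E : MTF.Rep G) (φ : G.Pt R) (p : MvPolynomial (E.ι × E.ι) ℂ)
    (hp : ∀ x : G.X, MvPolynomial.aeval (fun ij : E.ι × E.ι => E.ρ x ij.1 ij.2) p = 0) :
    MvPolynomial.aeval (fun ij : E.ι × E.ι => E.pt φ ij.1 ij.2) p = 0 := by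
  have h1 := MvPolynomial.comp_aeval_apply (f := fun ij : E.ι × E.ι => E.co ij.1 ij.2) φ.hom p
  rw [a1_co E p hp, map_zero] at h1
  exact h1.symm

/-- Every regular function is a polynomial in the coefficients of a faithful representation. -/
theorem exists_poly (E : MTF.Rep G) (hE : E.Faithful) (f : G.O) :
    ∃ p : MvPolynomial (E.ι × E.ι) ℂ, MvPolynomial.aeval (fun ij : E.ι × E.ι => E.co ij.1 ij.2) p = f :=
  a1_surj E hE f

/-- The direct sum with a faithful representation is faithful.  Its coefficients `inl, inl` are those of `E`, `inr, inr` those of `F`, so the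
algebra they generate contains the coefficients of `E`. -/
theorem rsum_faithful (E F : MTF.Rep G) (hE : E.Faithful) : (rsum E F).Faithful := by
  have h2 : Algebra.adjoin ℂ (Set.range fun p : E.ι × E.ι => E.co p.1 p.2) = ⊤ := hE
  show Algebra.adjoin ℂ (Set.range fun p : (rsum E F).ι × (rsum E F).ι => (rsum E F).co p.1 p.2) = ⊤
  rw [eq_top_iff, ← h2]
  refine Algebra.adjoin_mono ?_
  rintro _ ⟨p, rfl⟩
  exact ⟨(Sum.inl p.1, Sum.inl p.2), rfl⟩

/-- the matrix of a point in a direct sum (entrywise: `φ 0 = 0`) -/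
theorem rsum_pt (E F : MTF.Rep G) (φ : G.Pt R) :
    (rsum E F).pt φ = Matrix.fromBlocks (E.pt φ) 0 0 (F.pt φ) := by
  ext (a | a) (b | b)
  · rfl
  · exact map_zero φ
  · exact map_zero φ
  · rfl

theorem rsum_d (E F : MTF.Rep G) (y : G.Lie) :
    (rsum E F).d y = Matrix.fromBlocks (E.d y) 0 0 (F.d y) := by
  ext (a | a) (b | b)
  · rfl
  · exact map_zero y.1
  · exact map_zero y.1
  · rfl

/-- Complex points are elements of `G`. -/
theorem pt_toX (E : MTF.Rep G) (φ : G.Pt ℂ) : E.ρ φ.toX = E.pt φ := by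
  ext a b
  exact φ.toX_apply (E.co a b)

end Pool.Agent.MTH
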