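import Pool.Agent.MTH.A5
import Pool.Agent.MTH.A1

/-! # MTH-G1 -/

namespace Pool.Agent.MTH

open Matrix
open Pool.Agent.MTF Pool.Agent.MTG
open Pool.Agent.MTD (ev)
open Pool.Agent.MP_c45d35_ag (chi)

variable {G : AffGrp} {n : ℕ} {D : RD n} (C : CD G D)

/-- the dual representation -/
noncomputable def rdual (E : MTF.Rep G) : MTF.Rep G where
  ι := E.ι
  ρ :=
    { toFun := fun x => (E.ρ x⁻¹)ᵀ
      map_one' := by rw [inv_one, map_one, Matrix.transpose_one]
      map_mul' := fun x y => by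
        rw [← Matrix.transpose_mul, ← map_mul, _root_.mul_inv_rev] }
  mem a b := G.inv_mem _ (E.mem b a)

/-- the tensor product -/
noncomputable def rtens (E F : MTF.Rep G) : MTF.Rep G where
  ι := E.ι × F.ι
  ρ :=
    { toFun := fun x => Matrix.of fun p q => E.ρ x p.1 q.1 * F.ρ x p.2 q.2
      map_one' := by
        ext p q
        rw [Matrix.of_apply, map_one, map_one, Matrix.one_apply, Matrix.one_apply, Matrix.one_apply]
        by_cases h1 : p.1 = q.1 <;> by_cases h2 : p.2 = q.2 <;>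
          simp [h1, h2, Prod.ext_iff]
      map_mul' := fun x y => by
        ext p q
        rw [Matrix.of_apply, map_mul, map_mul, Matrix.mul_apply, Matrix.mul_apply, Matrix.mul_apply,
          Finset.sum_mul_sum, Fintype.sum_prod_type]
        refine Finset.sum_congr rfl fun i _ => Finset.sum_congr rfl fun j _ => ?_
        rw [Matrix.of_apply, Matrix.of_apply]
        ring }
  mem p q := G.O.mul_mem (E.mem p.1 q.1) (F.mem p.2 q.2)

/-- the trivial representation -/
noncomputable def rtriv (G : AffGrp) : MTF.Rep G where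
  ι := Unit
  ρ := 1
  mem a b := by
    have h : (fun x : G.X => (1 : G.X →* Matrix Unit Unit ℂ) x a b) = (1 : G.X → ℂ) := by
      funext x
      rw [MonoidHom.one_apply, Matrix.one_apply, if_pos (Subsingleton.elim a b)]
      rfl
    rw [h]
    exact G.O.one_mem

theorem mthG1a_one (y : G.Lie) : y.1 (1 : G.O) = 0 := by
  have h1 := y.2 1 1
  rw [mul_one, AffGrp.O_one] at h1
  linear_combination -h1

/-- the coefficients of the inverse -/
noncomputable def mthG1a_J (E : MTF.Rep G) (a b : E.ι) : G.O :=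
  ⟨fun x => E.ρ x⁻¹ a b, G.inv_mem _ (E.mem a b)⟩

theorem mthG1a_sum (E : MTF.Rep G) (a b : E.ι) :
    ∑ c, E.co a c * mthG1a_J E c b = if a = b then 1 else 0 := by
  apply AffGrp.O_ext
  intro x
  rw [AffGrp.O_sum]
  have h1 : ∑ c, (E.co a c * mthG1a_J E c b).1 x = (E.ρ x * E.ρ x⁻¹) a b := by
    rw [Matrix.mul_apply]
    rfl
  rw [h1, ← map_mul, mul_inv_cancel, map_one, Matrix.one_apply]
  by_cases h : a = b
  · rw [if_pos h, if_pos h, AffGrp.O_one]
  · rw [if_neg h, if_neg h, AffGrp.O_zero]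

theorem mthG1a_co (E : MTF.Rep G) (a b : E.ι) : (E.co a b).1 1 = if a = b then 1 else 0 := by
  show E.ρ 1 a b = _
  rw [map_one, Matrix.one_apply]

theorem mthG1a_J1 (E : MTF.Rep G) (a b : E.ι) :
    (mthG1a_J E a b).1 1 = if a = b then 1 else 0 := by
  show E.ρ 1⁻¹ a b = _
  rw [inv_one, map_one, Matrix.one_apply]

theorem mthG1a_dual (E : MTF.Rep G) (y : G.Lie) (a b : E.ι) :
    (rdual E).d y a b = - E.d y b a := by
  have h1 := congrArg y.1 (mthG1a_sum E b a)
  have h2 : y.1 (if b = a then (1 : G.O) else 0) = 0 := by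
    by_cases h : b = a
    · rw [if_pos h, mthG1a_one]
    · rw [if_neg h, map_zero]
  rw [h2, map_sum] at h1
  have h3 : ∀ c, y.1 (E.co b c * mthG1a_J E c a) =
      (if b = c then y.1 (mthG1a_J E c a) else 0) + (if c = a then y.1 (E.co b c) else 0) := by
    intro c
    rw [y.2, mthG1a_co, mthG1a_J1, ite_mul, one_mul, zero_mul, ite_mul, one_mul, zero_mul]
  rw [Finset.sum_congr rfl fun c _ => h3 c, Finset.sum_add_distrib, Finset.sum_ite_eq,
    Finset.sum_ite_eq', if_pos (Finset.mem_univ _), if_pos (Finset.mem_univ _)] at h1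
  have h4 : (rdual E).d y a b = y.1 (mthG1a_J E b a) := rfl
  rw [h4]
  have h5 : E.d y b a = y.1 (E.co b a) := rfl
  rw [h5]
  linear_combination h1

theorem mthG1a_diag {ι : Type} [DecidableEq ι] (w : ι → ℤ) (a b : ι) :
    - (Matrix.diagonal (fun a => ((w a : ℤ) : ℂ))) b a =
      Matrix.diagonal (fun a => (((- w a : ℤ)) : ℂ)) a b := by
  rw [Matrix.diagonal_apply, Matrix.diagonal_apply]
  by_cases h : a = b
  · subst h
    rw [if_pos rfl, if_pos rfl, Int.cast_neg]
  · rw [if_neg (Ne.symm h), if_neg h, neg_zero]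

theorem mthG1a_diag2 {ι κ : Type} [DecidableEq ι] [DecidableEq κ] (w : ι → ℤ) (v : κ → ℤ)
    (p q : ι × κ) :
    ((if p.1 = q.1 then (Matrix.diagonal (fun a => ((v a : ℤ) : ℂ))) p.2 q.2 else 0) +
      (if p.2 = q.2 then (Matrix.diagonal (fun a => ((w a : ℤ) : ℂ))) p.1 q.1 else 0)) =
      Matrix.diagonal (fun p : ι × κ => ((w p.1 + v p.2 : ℤ) : ℂ)) p q := by
  rw [Matrix.diagonal_apply, Matrix.diagonal_apply, Matrix.diagonal_apply]
  obtain ⟨p1, p2⟩ := p
  obtain ⟨q1, q2⟩ := q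
  by_cases h1 : p1 = q1
  · by_cases h2 : p2 = q2
    · subst h1
      subst h2
      simp only [if_true, Int.cast_add]
      ring
    · have h3 : ¬ ((p1, p2) = (q1, q2)) := fun h => h2 (congrArg Prod.snd h)
      rw [if_neg h3]
      simp only [h2, if_false, ite_self, add_zero]
  · have h3 : ¬ ((p1, p2) = (q1, q2)) := fun h => h1 (congrArg Prod.fst h)
    rw [if_neg h3]
    simp only [h1, if_false, ite_self, add_zero]

theorem mthG1a_tens (E F : MTF.Rep G) (y : G.Lie) (p q : E.ι × F.ι) :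
    (rtens E F).d y p q = (if p.1 = q.1 then F.d y p.2 q.2 else 0) +
      (if p.2 = q.2 then E.d y p.1 q.1 else 0) := by
  have h1 : (rtens E F).d y p q = y.1 (E.co p.1 q.1 * F.co p.2 q.2) := rfl
  rw [h1, y.2, mthG1a_co, mthG1a_co, ite_mul, one_mul, zero_mul, ite_mul, one_mul, zero_mul]
  rfl

/-- (row G1a) `d` of the dual: apply the point derivation to `E.ρ x * E.ρ x⁻¹ = 1` : `(rdual E).d y a b = - E.d y b a`. -/
theorem isW_dual {E : MTF.Rep G} {w : E.ι → Fin n → ℤ} (hE : C.IsW E w) :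
    C.IsW (rdual E) (fun a => - w a) := by
  refine ⟨fun k => ?_⟩
  ext a b
  refine (mthG1a_dual E (C.h k) a b).trans ?_
  rw [hE.d_h k]
  exact mthG1a_diag (fun a => w a k) a b

/-- (row G1a) Leibniz rule: `(rtens E F).d y p q = E.d y p.1 q.1 * δ + δ * F.d y p.2 q.2`. -/
theorem isW_tens {E F : MTF.Rep G} {w : E.ι → Fin n → ℤ} {v : F.ι → Fin n → ℤ} (hE : C.IsW E w)
    (hF : C.IsW F v) : C.IsW (rtens E F) (fun p => w p.1 + v p.2) := by
  refine ⟨fun k => ?_⟩
  ext p q
  refine (mthG1a_tens E F (C.h k) p q).trans ?_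
  rw [hE.d_h k, hF.d_h k]
  exact mthG1a_diag2 (fun a => w a k) (fun a => v a k) p q

theorem isW_triv : C.IsW (rtriv G) (fun _ => 0) := by
  refine ⟨fun k => ?_⟩
  ext a b
  have h1 : (rtriv G).co a b = 1 := by
    apply AffGrp.O_ext
    intro x
    exact Matrix.one_apply_eq ()
  have h2 : (rtriv G).d (C.h k) a b = (C.h k).1 ((rtriv G).co a b) := rfl
  rw [h2, h1, mthG1a_one, Matrix.diagonal_apply]
  simp

/-- (row G1a) `rsum_d` -/
theorem isW_sum {E F : MTF.Rep G} {w : E.ι → Fin n → ℤ} {v : F.ι → Fin n → ℤ} (hE : C.IsW E w)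
    (hF : C.IsW F v) : C.IsW (rsum E F) (Sum.elim w v) := by
  refine ⟨fun k => ?_⟩
  rw [rsum_d, hE.d_h k, hF.d_h k, Matrix.fromBlocks_diagonal]
  congr 1
  funext a
  rcases a with a | a <;> rfl

/-- (row G1a) Every element of `ℤ^n` is a weight of some representation: the set of these is a subgroup (`rtens`, `rdual`, `rtriv`) containing the weights of `C.F`; `C.gen`,
`AddSubgroup.closure_induction`. -/
theorem exists_wt (μ : Fin n → ℤ) : ∃ (E : MTF.Rep G) (w : E.ι → Fin n → ℤ), C.IsW E w ∧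
    ∃ a, w a = μ := by
  have h1 : μ ∈ AddSubgroup.closure (Set.range C.wt) := by
    rw [C.gen]
    exact AddSubgroup.mem_top μ
  induction h1 using AddSubgroup.closure_induction with
  | mem x hx =>
    obtain ⟨a, rfl⟩ := hx
    exact ⟨C.F, C.wt, C.isW_F, a, rfl⟩
  | zero => exact ⟨rtriv G, fun _ => 0, isW_triv C, (), rfl⟩
  | add x y _ _ hx hy =>
    obtain ⟨E, w, hE, a, ha⟩ := hx
    obtain ⟨F, v, hF, b, hb⟩ := hy
    exact ⟨rtens E F, _, isW_tens C hE hF, (a, b), by rw [← ha, ← hb]⟩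
  | neg x _ hx =>
    obtain ⟨E, w, hE, a, ha⟩ := hx
    exact ⟨rdual E, _, isW_dual C hE, a, by rw [← ha]⟩

/-- The final model: a faithful representation in a weight basis `Fin N`, sorted by height, whose weights contain the basis vectors of `ℤ^n`, and which contains the adjoint
representation as a direct summand (columns `J j`). -/
structure FM where
  N : ℕ
  π : G.X →* Matrix (Fin N) (Fin N) ℂ
  ent : ∀ i j, (fun x => π x i j) ∈ G.O
  wt : Fin N → Fin n → ℤ
  faith : (⟨Fin N, π, ent⟩ : MTF.Rep G).Faithful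
  isW : C.IsW ⟨Fin N, π, ent⟩ wt
  sorted : ∀ i j : Fin N, i ≤ j → D.ht2 (wt j) ≤ D.ht2 (wt i)
  std : ∀ k, ∃ i, wt i = Pi.single k 1
  J : Fin n ⊕ D.Rt → Fin N
  J_inj : Function.Injective J
  J_wt : ∀ j, wt (J j) = wA j
  blk : ∀ x i j, π x (J i) (J j) = (AdR C).ρ x i j
  blk0 : ∀ x i j, i ∉ Set.range J → π x i (J j) = 0
  blk0' : ∀ x i j, i ∉ Set.range J → π x (J j) i = 0

theorem mthG1b_std (s : Finset (Fin n)) : ∃ (E : MTF.Rep G) (w : E.ι → Fin n → ℤ), C.IsW E w ∧
    ∀ k ∈ s, ∃ a, w a = Pi.single k 1 := by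
  classical
  induction s using Finset.induction_on with
  | empty => exact ⟨rtriv G, fun _ => 0, isW_triv C, fun k hk => (Finset.notMem_empty k hk).elim⟩
  | insert k s _ ih =>
    obtain ⟨E, w, hE, hs⟩ := ih
    obtain ⟨F, v, hF, b, hb⟩ := exists_wt C (Pi.single k 1)
    refine ⟨rsum E F, Sum.elim w v, isW_sum C hE hF, fun i hi => ?_⟩
    rcases Finset.mem_insert.1 hi with rfl | hi
    · exact ⟨Sum.inr b, hb⟩
    · obtain ⟨a, ha⟩ := hs i hi
      exact ⟨Sum.inl a, ha⟩

/-- renaming the basis -/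
noncomputable def mthG1b_π {N : ℕ} (E : MTF.Rep G) (τ : Fin N ≃ E.ι) :
    G.X →* Matrix (Fin N) (Fin N) ℂ where
  toFun x := (E.ρ x).submatrix τ τ
  map_one' := by rw [map_one, Matrix.submatrix_one_equiv]
  map_mul' x y := by rw [map_mul, Matrix.submatrix_mul_equiv]

theorem mthG1b_faithful {N : ℕ} (E : MTF.Rep G) (τ : Fin N ≃ E.ι) (h : E.Faithful) :
    (⟨Fin N, mthG1b_π E τ, fun i j => E.mem (τ i) (τ j)⟩ : MTF.Rep G).Faithful := by
  have h1 : (Set.range fun p : Fin N × Fin N =>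
      (⟨Fin N, mthG1b_π E τ, fun i j => E.mem (τ i) (τ j)⟩ : MTF.Rep G).co p.1 p.2) =
      Set.range fun p : E.ι × E.ι => E.co p.1 p.2 := by
    ext f
    constructor
    · rintro ⟨p, rfl⟩
      exact ⟨(τ p.1, τ p.2), rfl⟩
    · rintro ⟨p, rfl⟩
      refine ⟨(τ.symm p.1, τ.symm p.2), ?_⟩
      show E.co (τ (τ.symm p.1)) (τ (τ.symm p.2)) = E.co p.1 p.2
      rw [τ.apply_symm_apply, τ.apply_symm_apply]
  show Algebra.adjoin ℂ _ = ⊤
  rw [h1]
  exact h

theorem mthG1b_sort {ι : Type} [Fintype ι] (w : ι → Fin n → ℤ) :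
    ∃ (N : ℕ) (τ : Fin N ≃ ι), ∀ i j : Fin N, i ≤ j → D.ht2 (w (τ j)) ≤ D.ht2 (w (τ i)) := by
  refine ⟨Fintype.card ι, (Tuple.sort fun i => - D.ht2 (w ((Fintype.equivFin ι).symm i))).trans
    (Fintype.equivFin ι).symm, fun i j hij => ?_⟩
  have h1 := Tuple.monotone_sort (fun i => - D.ht2 (w ((Fintype.equivFin ι).symm i))) hij
  exact neg_le_neg_iff.1 h1

theorem mthG1b_d {N : ℕ} (E : MTF.Rep G) (τ : Fin N ≃ E.ι) (y : G.Lie) (i j : Fin N) :
    (⟨Fin N, mthG1b_π E τ, fun i j => E.mem (τ i) (τ j)⟩ : MTF.Rep G).d y i j =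
      E.d y (τ i) (τ j) := rfl

theorem mthG1b_isW {N : ℕ} (E : MTF.Rep G) (τ : Fin N ≃ E.ι) (w : E.ι → Fin n → ℤ)
    (hW : C.IsW E w) :
    C.IsW (⟨Fin N, mthG1b_π E τ, fun i j => E.mem (τ i) (τ j)⟩ : MTF.Rep G)
      (fun i => w (τ i)) := by
  refine ⟨fun k => ?_⟩
  ext i j
  refine (mthG1b_d E τ (C.h k) i j).trans ?_
  rw [hW.d_h k, Matrix.diagonal_apply, Matrix.diagonal_apply]
  exact if_congr τ.injective.eq_iff rfl rfl

theorem mthG1b_fm (E : MTF.Rep G) (w : E.ι → Fin n → ℤ) (hW : C.IsW E w) (hf : E.Faithful)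
    (hstd : ∀ k, ∃ a, w a = Pi.single k 1) (s : Fin n ⊕ D.Rt → E.ι) (hs : Function.Injective s)
    (hwt : ∀ j, w (s j) = wA j) (hblk : ∀ x i j, E.ρ x (s i) (s j) = (AdR C).ρ x i j)
    (hblk0 : ∀ x a j, a ∉ Set.range s → E.ρ x a (s j) = 0)
    (hblk0' : ∀ x a j, a ∉ Set.range s → E.ρ x (s j) a = 0) : Nonempty (FM C) := by
  obtain ⟨N, τ, hτ⟩ := mthG1b_sort (D := D) w
  have hr : ∀ i : Fin N, i ∉ Set.range (fun j => τ.symm (s j)) → τ i ∉ Set.range s := by
    rintro i hi ⟨j, hj⟩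
    exact hi ⟨j, by
      show τ.symm (s j) = i
      rw [hj, τ.symm_apply_apply]⟩
  refine ⟨{ N := N, π := mthG1b_π E τ, ent := fun i j => E.mem (τ i) (τ j),
            wt := fun i => w (τ i), faith := mthG1b_faithful E τ hf, isW := mthG1b_isW C E τ w hW,
            sorted := hτ, std := fun k => ?_,
            J := fun j => τ.symm (s j), J_inj := τ.symm.injective.comp hs, J_wt := fun j => ?_,
            blk := fun x i j => ?_, blk0 := fun x i j hi => ?_, blk0' := fun x i j hi => ?_ }⟩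
  · obtain ⟨a, ha⟩ := hstd k
    refine ⟨τ.symm a, ?_⟩
    show w (τ (τ.symm a)) = _
    rw [τ.apply_symm_apply]
    exact ha
  · show w (τ (τ.symm (s j))) = _
    rw [τ.apply_symm_apply]
    exact hwt j
  · show E.ρ x (τ (τ.symm (s i))) (τ (τ.symm (s j))) = _
    rw [τ.apply_symm_apply, τ.apply_symm_apply]
    exact hblk x i j
  · show E.ρ x (τ i) (τ (τ.symm (s j))) = 0
    rw [τ.apply_symm_apply]
    exact hblk0 x _ j (hr i hi)
  · show E.ρ x (τ (τ.symm (s j))) (τ i) = 0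
    rw [τ.apply_symm_apply]
    exact hblk0' x _ j (hr i hi)

/-- (row G1b) Existence.  A finite direct sum `E := rsum C.F (rsum (AdR C) E')` with `E'` a direct sum of representations from `exists_wt (Pi.single k 1)`, `k : Fin n` (induction over a
list), `w` its weights (`isW_sum`, `isW_AdR`), faithful (`rsum_faithful`).  Order: a bijection `σ : Fin (card E.ι) ≃ E.ι` such that `i ↦ - ht2 (w (σ i))` is monotone (`Tuple.sort` for
`fun i => - ht2 (w (e i))`, `e = (Fintype.equivFin _).symm`); `π x i j := E.ρ x (σ i) (σ j)`; faithful and `IsW` are preserved by renaming the basis. -/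
theorem exists_FM : Nonempty (FM C) := by
  obtain ⟨E', w', hE', hstd⟩ := mthG1b_std C Finset.univ
  have hW : C.IsW (rsum C.F (rsum (AdR C) E')) (Sum.elim C.wt (Sum.elim (wA (D := D)) w')) :=
    isW_sum C C.isW_F (isW_sum C (isW_AdR C) hE')
  have hf : (rsum C.F (rsum (AdR C) E')).Faithful := rsum_faithful _ _ C.faith
  refine mthG1b_fm C (rsum C.F (rsum (AdR C) E')) _ hW hf (fun k => ?_)
    (fun j => Sum.inr (Sum.inl j)) ?_ (fun j => rfl) (fun x i j => rfl) ?_ ?_
  · obtain ⟨a, ha⟩ := hstd k (Finset.mem_univ k)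
    exact ⟨Sum.inr (Sum.inr a), ha⟩
  · exact Sum.inr_injective.comp Sum.inl_injective
  · intro x a j ha
    rcases a with a | a | a
    · rfl
    · exact (ha ⟨a, rfl⟩).elim
    · rfl
  · intro x a j ha
    rcases a with a | a | a
    · rfl
    · exact (ha ⟨a, rfl⟩).elim
    · rfl

variable {C}

/-- the representation of the final model -/
@[reducible] def FM.E (M : FM C) : MTF.Rep G := ⟨Fin M.N, M.π, M.ent⟩

/-- Cartan data with the final model as the faithful representation. -/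
noncomputable def FM.C' (M : FM C) : CD G D where
  bs := C.bs
  h_h := C.h_h
  h_e := C.h_e
  e_ng := C.e_ng
  e_br := C.e_br
  e_co := C.e_co
  F := M.E
  wt := M.wt
  faith := M.faith
  d_h := M.isW.d_h
  gen := by
    rw [eq_top_iff]
    intro μ _
    have h1 : μ = ∑ k, μ k • (Pi.single k 1 : Fin n → ℤ) := by
      funext j
      simp [Finset.sum_apply, Pi.single_apply]
    rw [h1]
    refine sum_mem fun k _ => zsmul_mem (AddSubgroup.subset_closure ?_) _
    obtain ⟨i, hi⟩ := M.std k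
    exact ⟨i, hi⟩

theorem FM.isW_iff (M : FM C) (E : MTF.Rep G) (w : E.ι → Fin n → ℤ) :
    M.C'.IsW E w ↔ C.IsW E w := ⟨fun h => ⟨h.d_h⟩, fun h => ⟨h.d_h⟩⟩

end Pool.Agent.MTH
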