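import Pool.Agent.MTH.K1
import Pool.Agent.MTG.YF4
import Pool.Agent.MTG.IA4
import Pool.Agent.MTG.JE
import Pool.Agent.MTG.B1l
import Pool.Agent.MTF.E6
import Pool.Agent.MTF.FG5
import Pool.Agent.MTG.ZA3

/-! # MTH-L1 : the `TQ` datum of a semisimple group and finite generation -/

namespace Pool.Agent.MTH

open Matrix
open Pool.Agent.MTF Pool.Agent.MTG
open Pool.Agent.MTD (ev)
open Pool.Agent.MP_c45d35_ag (chi)

open Pool.Agent.MTX.SLD (AA fm0)
open RD (KK aK)

variable {G : AffGrp} {n : ℕ} {D : RD n}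

theorem hinv_d (hG : G.Semi) (C : CD G D) (q : AA n) (hq : ∀ w : D.W, w • q = q) :
    ∃ s : MvPolynomial (Fin n ⊕ D.Rt) ℂ, q = MvPolynomial.aeval C.sx s := C.inv_mem hG.dom q hq

/-- All the inputs for the root side. -/
theorem gin (hG : G.Semi) (C : CD G D) : GIn (D := D) C.Db C.cA where
  c_w := C.cA_w
  pc := C.gin_pc hG
  hw := fun l hl => C.gin_hw hG l hl
  dec := C.dec
  cr := AffGrp.exists_reynolds hG
  kill := hG.kill
  jac := C.jac
  ext := by
    obtain ⟨N, Dt, ⟨m⟩⟩ := exists_model C (CD.eqJ D).symm hG (hinv_d hG C)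
    exact m.ext_field

/-- The TQ datum of a semisimple group. -/
theorem exists_TQ (hG : G.Semi) (C : CD G D) : TQ C.TQd := (gin hG C).tq

/-- Finite generation in genus 0. -/
theorem hFin_d (hG : G.Semi) (C : CD G D) (L : Type) [Finite L] [DecidableEq L] [Nonempty L] :
    FGA (exists_TQ hG C) 0 (fun _ : L => true) :=
  hFin_C C (CD.eqJ D).symm hG (hinv_d hG C) (gin hG C) (exists_TQ hG C) L

/-- Finite generation of all rings. -/
theorem fg_d (hG : G.Semi) (C : CD G D) (g : ℕ) (L : Type) [Finite L] [DecidableEq L] (ε : L → Bool) :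
    FGA (exists_TQ hG C) g ε := fg_all (exists_TQ hG C) (hFin_d hG C) g L ε

end Pool.Agent.MTH
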