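import Pool.Agent.MTH.C1
import Pool.Agent.MTG.B1

/-! # MTH-F1 -/

namespace Pool.Agent.MTH

open Matrix
open Pool.Agent.MTF Pool.Agent.MTG
open Pool.Agent.MTD (ev)
open Pool.Agent.MP_c45d35_ag (chi)

variable {G : AffGrp} {n : ℕ} {D : RD n} (C : CD G D)

/-- left translations become right translations under `f ↦ f̌ = (x ↦ f x⁻¹)` -/
theorem inv_lt (x : G.X) (f : G.O) :
    AffGrp.Pt.invO G (G.lt x f) = G.rt x⁻¹ (AffGrp.Pt.invO G f) := by
  apply AffGrp.O_ext
  intro y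
  show f.1 (x * y⁻¹) = f.1 (y * x⁻¹)⁻¹
  rw [_root_.mul_inv_rev, inv_inv]

theorem inv_inv' (f : G.O) : AffGrp.Pt.invO G (AffGrp.Pt.invO G f) = f := by
  apply AffGrp.O_ext
  intro y
  show f.1 y⁻¹⁻¹ = f.1 y
  rw [inv_inv]

theorem const_mul_apply {R : Type} [CommRing R] [Algebra ℂ R] (x : G.X) (φ : G.Pt R) (f : G.O) :
    (AffGrp.Pt.const R x * φ) f = φ (G.lt x f) := by
  obtain ⟨m, a, b, h⟩ := G.mul_mem f.1 f.2
  rw [AffGrp.Pt.mul_apply _ _ f a b h]
  have h1 : G.lt x f = ∑ i, ((a i).1 x) • b i := by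
    apply AffGrp.O_ext
    intro y
    rw [AffGrp.O_sum]
    exact h x y
  rw [h1, map_sum]
  refine Finset.sum_congr rfl fun i _ => ?_
  rw [map_smul, AffGrp.Pt.const_apply, Algebra.smul_def]

/-- `∑ b, c b • u b` -/
noncomputable def F1a_th {U : Submodule ℂ G.O} {κ : Type} [Fintype κ] (u : Module.Basis κ ℂ U) :
    (κ → ℂ) →ₗ[ℂ] G.O := U.subtype ∘ₗ u.equivFun.symm.toLinearMap

theorem F1a_th_apply {U : Submodule ℂ G.O} {κ : Type} [Fintype κ] (u : Module.Basis κ ℂ U) (c : κ → ℂ) :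
    F1a_th u c = ∑ b, c b • (u b).1 := by
  show ((u.equivFun.symm c : U) : G.O) = _
  rw [Module.Basis.equivFun_symm_apply]
  push_cast
  rfl

theorem F1a_th_mem {U : Submodule ℂ G.O} {κ : Type} [Fintype κ] (u : Module.Basis κ ℂ U) (c : κ → ℂ) :
    F1a_th u c ∈ U := (u.equivFun.symm c).2

theorem F1a_th_inj {U : Submodule ℂ G.O} {κ : Type} [Fintype κ] (u : Module.Basis κ ℂ U) :
    Function.Injective (F1a_th u) := fun c c' h =>
  u.equivFun.symm.injective (Subtype.ext h)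

theorem F1a_th_surj {U : Submodule ℂ G.O} {κ : Type} [Fintype κ] (u : Module.Basis κ ℂ U) {f : G.O}
    (hf : f ∈ U) : ∃ c, F1a_th u c = f := by
  refine ⟨u.equivFun ⟨f, hf⟩, ?_⟩
  show ((u.equivFun.symm (u.equivFun ⟨f, hf⟩) : U) : G.O) = f
  rw [LinearEquiv.symm_apply_apply]

theorem F1a_th_rt {U : Submodule ℂ G.O} (E : MTF.Rep G) (u : Module.Basis E.ι ℂ U)
    (h : ∀ (x y : G.X) (b : E.ι), ((u b).1).1 (y * x) = ∑ a, E.ρ x a b * ((u a).1).1 y)
    (x : G.X) (c : E.ι → ℂ) : G.rt x (F1a_th u c) = F1a_th u ((E.ρ x).mulVec c) := by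
  apply AffGrp.O_ext
  intro y
  rw [F1a_th_apply, F1a_th_apply]
  show (∑ b, c b • (u b).1 : G.O).1 (y * x) = _
  rw [AffGrp.O_sum, AffGrp.O_sum]
  simp only [AffGrp.O_smul, h, Matrix.mulVec, dotProduct, Finset.mul_sum, Finset.sum_mul]
  rw [Finset.sum_comm]
  refine Finset.sum_congr rfl fun a _ => Finset.sum_congr rfl fun b _ => ?_
  ring

/-- `invO` as a linear map -/
noncomputable def F1a_J (G : AffGrp) : G.O →ₗ[ℂ] G.O := (AffGrp.Pt.invO G).toLinearMap

theorem F1a_JJ (f : G.O) : F1a_J G (F1a_J G f) = f := inv_inv' f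

theorem F1a_J_inj : Function.Injective (F1a_J G) := fun f g h => by
  rw [← F1a_JJ f, h, F1a_JJ]

theorem F1a_rt_J (x : G.X) (f : G.O) : G.rt x (F1a_J G f) = F1a_J G (G.lt x⁻¹ f) := by
  have h := inv_lt x⁻¹ f
  rw [inv_inv] at h
  exact h.symm

theorem F1a_lt_J (x : G.X) (f : G.O) : G.lt x (F1a_J G f) = F1a_J G (G.rt x⁻¹ f) := by
  apply F1a_J_inj
  rw [F1a_JJ]
  have h := inv_lt x (F1a_J G f)
  have h2 : AffGrp.Pt.invO G (F1a_J G f) = f := inv_inv' f
  rw [h2] at h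
  exact h

/-- (row F1a) Complete reducibility for right translations.  `exists_rep_of_stable U` gives `E`, the basis `u` of `U`; `θ c = ∑ b, c b • u b` is an isomorphism of `E.ι → ℂ` with `U`
and `rt x (θ c) = θ (ρ(x) c)`.  Apply `AffGrp.exists_compl` to the preimage of `N`. -/
theorem compl_rt (hG : G.Semi) (U N : Submodule ℂ G.O) [FiniteDimensional ℂ U]
    (hU : ∀ f ∈ U, ∀ x : G.X, G.rt x f ∈ U) (hN : ∀ f ∈ N, ∀ x : G.X, G.rt x f ∈ N) (h : N ≤ U) :
    ∃ N' : Submodule ℂ G.O, (∀ f ∈ N', ∀ x : G.X, G.rt x f ∈ N') ∧ N ⊓ N' = ⊥ ∧ N ⊔ N' = U := by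
  obtain ⟨E, u, hu⟩ := AffGrp.exists_rep_of_stable U hU
  obtain ⟨U', hc, hst⟩ := AffGrp.exists_compl hG E (N.comap (F1a_th u)) (by
    intro x c hc
    show F1a_th u ((E.ρ x).mulVec c) ∈ N
    rw [← F1a_th_rt E u hu]
    exact hN _ hc x)
  refine ⟨U'.map (F1a_th u), ?_, ?_, ?_⟩
  · rintro _ ⟨c, hcU, rfl⟩ x
    rw [F1a_th_rt E u hu]
    exact Submodule.mem_map_of_mem (hst x c hcU)
  · rw [eq_bot_iff]
    rintro f ⟨hf, c, hcU, rfl⟩
    have h1 : c ∈ N.comap (F1a_th u) ⊓ U' := ⟨hf, hcU⟩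
    rw [hc.inf_eq_bot, Submodule.mem_bot] at h1
    rw [h1, map_zero]
    exact Submodule.zero_mem _
  · apply le_antisymm
    · refine sup_le h ?_
      rintro _ ⟨c, _, rfl⟩
      exact F1a_th_mem u c
    · intro f hf
      obtain ⟨c, rfl⟩ := F1a_th_surj u hf
      have h1 : c ∈ N.comap (F1a_th u) ⊔ U' := by
        rw [hc.sup_eq_top]
        exact Submodule.mem_top
      obtain ⟨c1, hc1, c2, hc2, rfl⟩ := Submodule.mem_sup.1 h1
      rw [map_add]
      exact Submodule.add_mem_sup hc1 (Submodule.mem_map_of_mem hc2)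

/-- (row F1a) the same for left translations: `compl_rt` for the images under `invO` (`inv_lt`, `inv_inv'`). -/
theorem compl_lt (hG : G.Semi) (U N : Submodule ℂ G.O) [FiniteDimensional ℂ U]
    (hU : ∀ f ∈ U, ∀ x : G.X, G.lt x f ∈ U) (hN : ∀ f ∈ N, ∀ x : G.X, G.lt x f ∈ N) (h : N ≤ U) :
    ∃ N' : Submodule ℂ G.O, (∀ f ∈ N', ∀ x : G.X, G.lt x f ∈ N') ∧ N ⊓ N' = ⊥ ∧ N ⊔ N' = U := by
  have hJJ : (F1a_J G) ∘ₗ (F1a_J G) = LinearMap.id := LinearMap.ext F1a_JJ
  have hmm : ∀ V : Submodule ℂ G.O, (V.map (F1a_J G)).map (F1a_J G) = V := by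
    intro V
    rw [← Submodule.map_comp, hJJ, Submodule.map_id]
  obtain ⟨N', h1, h2, h3⟩ := compl_rt hG (U.map (F1a_J G)) (N.map (F1a_J G)) (by
      rintro _ ⟨f, hf, rfl⟩ x
      rw [F1a_rt_J]
      exact Submodule.mem_map_of_mem (hU f hf _)) (by
      rintro _ ⟨f, hf, rfl⟩ x
      rw [F1a_rt_J]
      exact Submodule.mem_map_of_mem (hN f hf _)) (Submodule.map_mono h)
  refine ⟨N'.map (F1a_J G), ?_, ?_, ?_⟩
  · rintro _ ⟨f, hf, rfl⟩ x
    rw [F1a_lt_J]
    exact Submodule.mem_map_of_mem (h1 f hf _)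
  · rw [eq_bot_iff]
    rintro _ ⟨hf, f, hfN, rfl⟩
    have h4 : f ∈ N.map (F1a_J G) ⊓ N' := ⟨⟨F1a_J G f, hf, F1a_JJ f⟩, hfN⟩
    rw [h2, Submodule.mem_bot] at h4
    rw [h4, map_zero]
    exact Submodule.zero_mem _
  · have h4 := congrArg (fun V : Submodule ℂ G.O => V.map (F1a_J G)) h3
    simp only [Submodule.map_sup, hmm] at h4
    exact h4

/-- (row F1a) Finitely many functions are contained in a finite-dimensional left stable subspace of any left stable subspace `M` that contains them: the span of all their left translates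
(finite-dimensional by `AffGrp.mul_mem`, `f (x y) = ∑ a_i x * b_i y`: the translates are in the span of the `b_i`). -/
theorem exists_lt_stable (M : Submodule ℂ G.O) (hM : ∀ f ∈ M, ∀ x : G.X, G.lt x f ∈ M) (s : Finset G.O)
    (hs : ∀ f ∈ s, f ∈ M) : ∃ U : Submodule ℂ G.O, FiniteDimensional ℂ U ∧ U ≤ M ∧
      (∀ f ∈ s, f ∈ U) ∧ ∀ f ∈ U, ∀ x : G.X, G.lt x f ∈ U := by
  choose m a b hab using fun f : G.O => G.mul_mem f.1 f.2
  let S : Set G.O := ⋃ f ∈ s, Set.range fun x : G.X => G.lt x f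
  have hS : ∀ f ∈ s, ∀ x : G.X, G.lt x f ∈ S := fun f hf x => Set.mem_biUnion hf ⟨x, rfl⟩
  refine ⟨Submodule.span ℂ S, ?_, ?_, ?_, ?_⟩
  · let T : Set G.O := ⋃ f ∈ s, Set.range (b f)
    have hT : T.Finite := Set.Finite.biUnion s.finite_toSet fun f _ => Set.finite_range _
    have : FiniteDimensional ℂ (Submodule.span ℂ T) := FiniteDimensional.span_of_finite ℂ hT
    refine Submodule.finiteDimensional_of_le (S₂ := Submodule.span ℂ T) (Submodule.span_le.2 ?_)
    intro g hg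
    obtain ⟨f, hf, x, rfl⟩ := Set.mem_iUnion₂.1 hg
    have h1 : G.lt x f = ∑ i, ((a f i).1 x) • b f i := by
      apply AffGrp.O_ext
      intro y
      rw [AffGrp.O_sum]
      exact hab f x y
    show G.lt x f ∈ Submodule.span ℂ T
    rw [h1]
    exact Submodule.sum_mem _ fun i _ => Submodule.smul_mem _ _
      (Submodule.subset_span (Set.mem_biUnion hf ⟨i, rfl⟩))
  · rw [Submodule.span_le]
    intro g hg
    obtain ⟨f, hf, x, rfl⟩ := Set.mem_iUnion₂.1 hg
    exact hM f (hs f hf) x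
  · intro f hf
    have h1 := hS f hf 1
    rw [AffGrp.lt_one] at h1
    exact Submodule.subset_span h1
  · intro f hf x
    induction hf using Submodule.span_induction with
    | mem g hg =>
      obtain ⟨f, hf, y, rfl⟩ := Set.mem_iUnion₂.1 hg
      show G.lt x (G.lt y f) ∈ _
      rw [AffGrp.lt_lt]
      exact Submodule.subset_span (hS f hf _)
    | zero => rw [map_zero]; exact Submodule.zero_mem _
    | add g g' _ _ h1 h2 => rw [map_add]; exact Submodule.add_mem _ h1 h2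
    | smul r g _ h1 => rw [map_smul]; exact Submodule.smul_mem _ _ h1

/-- (row F1b) Every nonzero representation contains a nonzero vector fixed by the unipotent group of sign `s`.
Proof.  `exists_weight C E`: `F`, `w`, `Q`, `Q'` with `Q' * E.ρ x * Q = F.ρ x`.  `F.ι` is nonempty; take `a` with `s * ht2 (w a)` maximal; then the column `a` of `F.pt u` is the basis vector `e_a`
(`UU_uni`: `UniM D w s 1 (F.pt u)`), `c := Q e_a` (i.e. `fun i => Q i a`) is fixed by `E.ρ u.toX = Q * F.ρ u.toX * Q'` (`pt_toX`), and nonzero because `Q' c = e_a`. -/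
theorem exists_fixed_vec {s : ℤ} (hs : s = 1 ∨ s = -1) (E : MTF.Rep G) [Nonempty E.ι] :
    ∃ c : E.ι → ℂ, c ≠ 0 ∧ ∀ u : G.Pt ℂ, UU C s u → (E.ρ u.toX).mulVec c = c := by
  obtain ⟨F, w, Q, Q', hW, hQQ, hQQ', h⟩ := exists_weight C E
  have hne : Nonempty F.ι := by
    by_contra h0
    rw [not_nonempty_iff] at h0
    obtain ⟨a⟩ := (inferInstance : Nonempty E.ι)
    have h1 := congrFun (congrFun hQQ a) a
    rw [Matrix.mul_apply, Matrix.one_apply_eq, Finset.univ_eq_empty, Finset.sum_empty] at h1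
    exact zero_ne_one h1
  obtain ⟨a, ha⟩ := Finite.exists_max fun a : F.ι => s * D.ht2 (w a)
  refine ⟨fun i => Q i a, ?_, ?_⟩
  · intro h0
    have h1 := congrFun (congrFun hQQ' a) a
    rw [Matrix.mul_apply, Matrix.one_apply_eq] at h1
    have h2 : ∀ j, Q j a = 0 := fun j => congrFun h0 j
    simp only [h2, mul_zero, Finset.sum_const_zero] at h1
    exact zero_ne_one h1
  · intro u hu
    have h1 := UU_uni C hs hu hW
    have h2 : ∀ b, F.pt u b a = (1 : Matrix F.ι F.ι ℂ) b a := by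
      intro b
      rw [← sub_eq_zero]
      by_contra h3
      have h4 := h1 b a h3
      have h5 := ha b
      rw [mul_sub] at h4
      omega
    have h3 : E.ρ u.toX * Q = Q * F.ρ u.toX := by
      rw [← h, ← Matrix.mul_assoc, ← Matrix.mul_assoc, hQQ, Matrix.one_mul]
    funext i
    have h4 := congrFun (congrFun h3 i) a
    rw [pt_toX, Matrix.mul_apply, Matrix.mul_apply] at h4
    show ∑ j, E.ρ u.toX i j * Q j a = Q i a
    rw [pt_toX, h4, show (∑ j, Q i j * F.ρ u.toX j a) = ∑ j, Q i j * (1 : Matrix F.ι F.ι ℂ) j a from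
      Finset.sum_congr rfl fun j _ => by rw [pt_toX, h2], ← Matrix.mul_apply, Matrix.mul_one]

/-- (row F1b) The same for spaces of functions and right translations: `exists_rep_of_stable`, `exists_fixed_vec`. -/
theorem exists_fixed_rt {s : ℤ} (hs : s = 1 ∨ s = -1) (N : Submodule ℂ G.O) [FiniteDimensional ℂ N]
    (hN : ∀ f ∈ N, ∀ x : G.X, G.rt x f ∈ N) (h0 : N ≠ ⊥) :
    ∃ f ∈ N, f ≠ 0 ∧ ∀ u : G.Pt ℂ, UU C s u → G.rt u.toX f = f := by
  obtain ⟨E, u, hu⟩ := AffGrp.exists_rep_of_stable N hN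
  have hne : Nonempty E.ι := by
    by_contra h1
    rw [not_nonempty_iff] at h1
    apply h0
    rw [eq_bot_iff]
    intro f hf
    obtain ⟨c, rfl⟩ := F1a_th_surj u hf
    rw [F1a_th_apply, Finset.univ_eq_empty, Finset.sum_empty]
    exact Submodule.zero_mem _
  obtain ⟨c, hc0, hc⟩ := exists_fixed_vec C hs E
  refine ⟨F1a_th u c, F1a_th_mem u c, ?_, ?_⟩
  · intro h1
    exact hc0 (F1a_th_inj u (by rw [h1, map_zero]))
  · intro v hv
    rw [F1a_th_rt E u hu, hc v hv]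

/-- (row F1b) and for left translations: `inv_lt`, `inv_inv'`, `UU_inv`, `toX_inv`. -/
theorem exists_fixed_lt {s : ℤ} (hs : s = 1 ∨ s = -1) (N : Submodule ℂ G.O) [FiniteDimensional ℂ N]
    (hN : ∀ f ∈ N, ∀ x : G.X, G.lt x f ∈ N) (h0 : N ≠ ⊥) :
    ∃ f ∈ N, f ≠ 0 ∧ ∀ u : G.Pt ℂ, UU C s u → G.lt u.toX f = f := by
  obtain ⟨_, ⟨f, hf, rfl⟩, hf0, hfix⟩ := exists_fixed_rt C hs (N.map (F1a_J G)) (by
      rintro _ ⟨f, hf, rfl⟩ x
      rw [F1a_rt_J]
      exact Submodule.mem_map_of_mem (hN f hf _)) (by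
      intro h1
      apply h0
      rw [eq_bot_iff]
      intro f hf
      have h2 : F1a_J G f ∈ N.map (F1a_J G) := Submodule.mem_map_of_mem hf
      rw [h1, Submodule.mem_bot] at h2
      rw [Submodule.mem_bot, ← F1a_JJ f, h2, map_zero])
  refine ⟨f, hf, fun h1 => hf0 (by rw [h1, map_zero]), fun u hu => ?_⟩
  have h1 := hfix u⁻¹ (UU_inv C hu)
  rw [F1a_rt_J, toX_inv, inv_inv] at h1
  exact F1a_J_inj h1

end Pool.Agent.MTH
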