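import Pool.Agent.MTG.Y2
import Pool.Agent.MTG.G5
import Pool.Agent.MTF.E0

/-!
# MTH : the group of a connected semisimple `G`, unipotent subgroups, big cell : definitions

`mexp` : exponential of a nilpotent matrix.  `Sp s m z` : all components of `z` have height `≥ m / 2` with
respect to the sign `s = 1` (positive roots) or `s = -1` (negative roots).  `UniM w s m g` : the matrix
`g - 1` raises the height by at least `m / 2` (sign `s`).
-/

namespace Pool.Agent.MTH

open Matrix
open Pool.Agent.MTF Pool.Agent.MTG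
open Pool.Agent.MTD (ev)
open Pool.Agent.MP_c45d35_ag (chi)

section mexp
variable {R : Type} [CommRing R] [Algebra ℂ R]

/-- exponential of a nilpotent matrix -/
noncomputable def mexp {ι : Type} [Fintype ι] [DecidableEq ι] (A : Matrix ι ι R) : Matrix ι ι R :=
  ∑ k ∈ Finset.range (Fintype.card ι), (algebraMap ℂ R (1 / (k.factorial : ℂ))) • A ^ k

end mexp

/-- direct sum of representations -/
noncomputable def rsum {G : AffGrp} (E F : MTF.Rep G) : MTF.Rep G where
  ι := E.ι ⊕ F.ι
  ρ :=
    { toFun := fun x => Matrix.fromBlocks (E.ρ x) 0 0 (F.ρ x)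
      map_one' := by rw [map_one, map_one, Matrix.fromBlocks_one]
      map_mul' := fun x y => by
        rw [map_mul, map_mul, Matrix.fromBlocks_multiply]
        simp }
  mem := by
    rintro (a | a) (b | b)
    · exact E.mem a b
    · exact Subalgebra.algebraMap_mem _ (0 : ℂ)
    · exact Subalgebra.algebraMap_mem _ (0 : ℂ)
    · exact F.mem a b

section
variable {n : ℕ} {D : RD n} {R : Type} [CommRing R]

/-- `z` has components of height `≥ m` (measured by `s * ht2`) only -/
def Sp (s m : ℤ) (z : LR D R) : Prop :=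
  (∀ k, z (Sum.inl k) ≠ 0 → m ≤ 0) ∧ ∀ γ, z (Sum.inr γ) ≠ 0 → m ≤ s * D.ht2 γ.1

/-- `g - 1` raises the height by at least `m` (measured by `s * ht2`) -/
def UniM (D : RD n) {ι : Type} [DecidableEq ι] (w : ι → Fin n → ℤ) (s m : ℤ)
    (g : Matrix ι ι R) : Prop :=
  ∀ a b, (g - 1) a b ≠ 0 → m ≤ s * (D.ht2 (w a) - D.ht2 (w b))

/-- `2 ρ^∨` as a point of `R^n` -/
noncomputable def hv (D : RD n) (R : Type) [CommRing R] : Fin n → R := fun k => ((D.ht2 (Pi.single k 1) : ℤ) : R)

/-- the coroot as a point of `R^n` -/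
def cv (D : RD n) (R : Type) [CommRing R] (γ : D.Rt) : Fin n → R :=
  fun k => ((D.cp γ (Pi.single k 1) : ℤ) : R)

end

variable {G : AffGrp} {n : ℕ} {D : RD n} (C : CD G D)

section
variable {R : Type} [CommRing R] [Algebra ℂ R]

open Classical in
/-- the point `exp z`, for `z` in the nilpotent subalgebra -/
noncomputable def ex (z : LR D R) : G.Pt R :=
  if h : ∃ φ : G.Pt R, ∀ E : MTF.Rep G, E.pt φ = mexp (C.dm E z) then h.choose else 1

open Classical in
/-- the point `t` of the torus -/
noncomputable def tq (t : Fin n → Rˣ) : G.Pt R :=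
  if h : ∃ φ : G.Pt R, ∀ (E : MTF.Rep G) (w : E.ι → Fin n → ℤ), C.IsW E w →
      E.pt φ = Matrix.diagonal fun a => ((chi (w a) t : Rˣ) : R) then h.choose else 1

/-- the unipotent group of the sign `s` -/
def UU (s : ℤ) (φ : G.Pt R) : Prop := UniM D C.wt s 1 (C.F.pt φ)

end

end Pool.Agent.MTH
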