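import Pool.Agent.MTH.A1

/-! # MTH-A2 : exponentials of nilpotent elements, complex points -/

namespace Pool.Agent.MTH

open Matrix
open Pool.Agent.MTF Pool.Agent.MTG
open Pool.Agent.MTD (ev)
open Pool.Agent.MP_c45d35_ag (chi)

variable {G : AffGrp}

/-- the derivation `∂_Y` of `ℂ[X_ij]` with `∂_Y X_ij = (X Y)_ij = ∑ k, X_ik Y_kj` -/
noncomputable def dY {ι : Type} [Fintype ι] (Y : Matrix ι ι ℂ) :
    Derivation ℂ (MvPolynomial (ι × ι) ℂ) (MvPolynomial (ι × ι) ℂ) :=
  MvPolynomial.mkDerivation ℂ fun ij => ∑ k, MvPolynomial.C (Y k ij.2) * MvPolynomial.X (ij.1, k)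

/-- (row A2) `∂_Y` with `Y = E.d y` is the left invariant derivative.
Proof.  Induction on `p` (`MvPolynomial.induction_on`): `E.der_co` on the variables, `G.der_leib`, and `G.der y (algebraMap c) = 0` (from `der_leib`
for `1 * 1`). -/
theorem aeval_dY (E : MTF.Rep G) (y : G.Lie) (p : MvPolynomial (E.ι × E.ι) ℂ) :
    MvPolynomial.aeval (fun ij : E.ι × E.ι => E.co ij.1 ij.2) (dY (E.d y) p) =
      G.der y (MvPolynomial.aeval (fun ij : E.ι × E.ι => E.co ij.1 ij.2) p) := by
  have h1 : G.der y 1 = 0 := by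
    have h := G.der_leib y 1 1
    rw [mul_one, one_mul] at h
    exact left_eq_add.1 h
  induction p using MvPolynomial.induction_on with
  | C c =>
    have h2 : dY (E.d y) (MvPolynomial.C c) = 0 := MvPolynomial.derivation_C _ _
    rw [h2, map_zero, MvPolynomial.aeval_C, Algebra.algebraMap_eq_smul_one, map_smul, h1, smul_zero]
  | add p q hp hq =>
    rw [map_add, map_add, map_add, map_add, hp, hq]
  | mul_X p ij hp =>
    have h2 : dY (E.d y) (MvPolynomial.X ij) =
        ∑ k, MvPolynomial.C (E.d y k ij.2) * MvPolynomial.X (ij.1, k) :=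
      MvPolynomial.mkDerivation_X _ _ _
    rw [Derivation.leibniz, h2, map_add, smul_eq_mul, smul_eq_mul, map_mul, map_mul, hp, map_mul,
      MvPolynomial.aeval_X, AffGrp.der_leib, Rep.der_co, map_sum]
    congr 2
    refine Finset.sum_congr rfl fun k _ => ?_
    rw [map_mul, MvPolynomial.aeval_C, MvPolynomial.aeval_X, Algebra.smul_def]

/-- a nilpotent matrix of size `N` has `Y ^ N = 0` -/
theorem mthA2_pow_card {ι : Type} [Fintype ι] [DecidableEq ι] {Y : Matrix ι ι ℂ}
    (hY : IsNilpotent Y) : Y ^ Fintype.card ι = 0 := by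
  have h1 := Matrix.isNilpotent_charpoly_sub_pow_of_isNilpotent hY
  have h2 : Y.charpoly = Polynomial.X ^ Fintype.card ι := sub_eq_zero.1 h1.eq_zero
  have h3 := Matrix.aeval_self_charpoly Y
  rw [h2, map_pow, Polynomial.aeval_X] at h3
  exact h3

/-- the entries of `exp (c Y)` as polynomials in `c` -/
noncomputable def mthA2_M {ι : Type} [Fintype ι] [DecidableEq ι] (Y : Matrix ι ι ℂ) (i j : ι) :
    Polynomial ℂ :=
  ∑ k ∈ Finset.range (Fintype.card ι),
    Polynomial.C ((1 / (k.factorial : ℂ)) * (Y ^ k) i j) * Polynomial.X ^ k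

/-- the substitution homomorphism -/
noncomputable def mthA2_A {ι : Type} [Fintype ι] [DecidableEq ι] (Y : Matrix ι ι ℂ) :
    MvPolynomial (ι × ι) ℂ →ₐ[ℂ] Polynomial ℂ :=
  MvPolynomial.aeval fun ij => mthA2_M Y ij.1 ij.2

theorem mthA2_der_M {ι : Type} [Fintype ι] [DecidableEq ι] {Y : Matrix ι ι ℂ}
    (hY : Y ^ Fintype.card ι = 0) (i j : ι) :
    Polynomial.derivative (mthA2_M Y i j) = ∑ l, Polynomial.C (Y l j) * mthA2_M Y i l := by
  have e1 : ∑ l, Polynomial.C (Y l j) * mthA2_M Y i l =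
      ∑ k ∈ Finset.range (Fintype.card ι),
        Polynomial.C ((1 / (k.factorial : ℂ)) * (Y ^ (k + 1)) i j) * Polynomial.X ^ k := by
    unfold mthA2_M
    simp only [Finset.mul_sum]
    rw [Finset.sum_comm]
    refine Finset.sum_congr rfl fun k _ => ?_
    rw [pow_succ, Matrix.mul_apply, Finset.mul_sum, map_sum, Finset.sum_mul]
    refine Finset.sum_congr rfl fun l _ => ?_
    rw [← mul_assoc, ← Polynomial.C_mul]
    congr 2
    ring
  rw [e1]
  unfold mthA2_M
  obtain ⟨N, hN⟩ : ∃ N, Fintype.card ι = N + 1 :=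
    ⟨Fintype.card ι - 1, by have := Fintype.card_pos_iff.2 ⟨i⟩; omega⟩
  rw [hN] at hY ⊢
  rw [Finset.sum_range_succ', Finset.sum_range_succ, Polynomial.derivative_add, hY]
  simp only [Matrix.zero_apply, mul_zero, Polynomial.C_0, zero_mul, add_zero, pow_zero, mul_one,
    Polynomial.derivative_C, Polynomial.derivative_sum]
  refine Finset.sum_congr rfl fun k _ => ?_
  rw [Polynomial.derivative_C_mul_X_pow, Nat.add_sub_cancel]
  congr 2
  have hk : ((k + 1 : ℕ) : ℂ) ≠ 0 := Nat.cast_ne_zero.2 (Nat.succ_ne_zero k)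
  have hk2 : ((k.factorial : ℕ) : ℂ) ≠ 0 := Nat.cast_ne_zero.2 (Nat.factorial_ne_zero k)
  rw [Nat.factorial_succ, Nat.cast_mul]
  field_simp

theorem mthA2_der_A {ι : Type} [Fintype ι] [DecidableEq ι] {Y : Matrix ι ι ℂ}
    (hY : Y ^ Fintype.card ι = 0) (q : MvPolynomial (ι × ι) ℂ) :
    Polynomial.derivative (mthA2_A Y q) = mthA2_A Y (dY Y q) := by
  induction q using MvPolynomial.induction_on with
  | C c =>
    have h2 : dY Y (MvPolynomial.C c) = 0 := MvPolynomial.derivation_C _ _
    have h3 : mthA2_A Y (MvPolynomial.C c) = Polynomial.C c := MvPolynomial.aeval_C _ _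
    rw [h2, map_zero, h3, Polynomial.derivative_C]
  | add p q hp hq =>
    rw [map_add, map_add, map_add, map_add, hp, hq]
  | mul_X p ij hp =>
    have h2 : dY Y (MvPolynomial.X ij) = ∑ k, MvPolynomial.C (Y k ij.2) * MvPolynomial.X (ij.1, k) :=
      MvPolynomial.mkDerivation_X _ _ _
    have h3 : ∀ ij : ι × ι, mthA2_A Y (MvPolynomial.X ij) = mthA2_M Y ij.1 ij.2 :=
      fun ij => MvPolynomial.aeval_X _ _
    have h4 : ∀ c : ℂ, mthA2_A Y (MvPolynomial.C c) = Polynomial.C c :=
      fun c => MvPolynomial.aeval_C _ _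
    have h5 : mthA2_A Y (∑ k, MvPolynomial.C (Y k ij.2) * MvPolynomial.X (ij.1, k)) =
        ∑ k, Polynomial.C (Y k ij.2) * mthA2_M Y ij.1 k := by
      rw [map_sum]
      refine Finset.sum_congr rfl fun k _ => ?_
      rw [map_mul, h3, h4]
    have e1 : mthA2_A Y (p * MvPolynomial.X ij) = mthA2_A Y p * mthA2_M Y ij.1 ij.2 := by
      rw [map_mul, h3]
    have e2 : mthA2_A Y (dY Y (p * MvPolynomial.X ij)) =
        mthA2_A Y p * (∑ k, Polynomial.C (Y k ij.2) * mthA2_M Y ij.1 k) +
          mthA2_M Y ij.1 ij.2 * mthA2_A Y (dY Y p) := by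
      rw [Derivation.leibniz, h2, map_add, smul_eq_mul, smul_eq_mul, map_mul, map_mul, h5, h3]
    rw [e1, e2, Polynomial.derivative_mul, mthA2_der_M hY, hp]
    ring

/-- evaluation of the substitution homomorphism -/
theorem mthA2_eval {ι : Type} [Fintype ι] [DecidableEq ι] (Y : Matrix ι ι ℂ) (c : ℂ)
    (g : Matrix ι ι ℂ) (hg : ∀ i j, (mthA2_M Y i j).eval c = g i j) (q : MvPolynomial (ι × ι) ℂ) :
    (mthA2_A Y q).eval c = MvPolynomial.aeval (fun ij : ι × ι => g ij.1 ij.2) q := by
  have h : (Polynomial.aeval c).comp (mthA2_A Y) =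
      MvPolynomial.aeval (fun ij : ι × ι => g ij.1 ij.2) := by
    apply MvPolynomial.algHom_ext
    intro ij
    rw [AlgHom.comp_apply, MvPolynomial.aeval_X]
    have h3 : mthA2_A Y (MvPolynomial.X ij) = mthA2_M Y ij.1 ij.2 := MvPolynomial.aeval_X _ _
    rw [h3, ← hg]
    rfl
  rw [← h]
  rfl

/-- (row A2) The exponential of a nilpotent element is in the group.
Proof.  `exists_pt E hE (mexp (E.d y))` (then `x := φ.toX`, `pt_toX`).  Let `p` vanish on the group.  Consider the algebra homomorphism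
`A : MvPolynomial (E.ι × E.ι) ℂ →ₐ[ℂ] Polynomial ℂ`, `X_ij ↦ (mexp (c Y))_ij = ∑ k < card, c^k / k! (Y^k)_ij` (a matrix of polynomials in `c`, `Y = E.d y`,
`Y ^ card = 0`, from `hy` and `Matrix` nilpotency: `IsNilpotent` implies `Y ^ card ι = 0` (`Matrix.isNilpotent...`/charpoly or
`Module.End`: the minimal exponent is at most the dimension)).
CLAIM `derivative (A q) = A (dY Y q)` for all `q`: both sides are derivations along `A`; on `X_ij`: `d/dc mexp(cY) = mexp(cY) Y` (uses
`Y ^ card = 0`).  So the `k`-th derivative of `A p` at `0` is `(A ((dY Y)^[k] p))(0) = aeval (1 : Matrix) ((dY Y)^[k] p)`, and `(dY Y)^[k] p` vanishes on the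
group by `aeval_dY` (`aeval co p = 0` in `G.O`), in particular at `1 = E.ρ 1`.  A complex polynomial all of whose derivatives vanish at `0` is `0`
(`Polynomial.hasseDeriv`/`coeff_iterate_derivative`); evaluate `A p` at `c = 1`. -/
theorem exp_complex (E : MTF.Rep G) (hE : E.Faithful) (y : G.Lie) (hy : IsNilpotent (E.d y)) :
    ∃ x : G.X, E.ρ x = mexp (E.d y) := by
  have hY := mthA2_pow_card hy
  have hco : ∀ (q : MvPolynomial (E.ι × E.ι) ℂ) (x : G.X),
      (MvPolynomial.aeval (fun ij : E.ι × E.ι => E.co ij.1 ij.2) q).1 x =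
        MvPolynomial.aeval (fun ij : E.ι × E.ι => E.ρ x ij.1 ij.2) q := by
    intro q x
    let evx : G.O →ₐ[ℂ] ℂ :=
      { toFun := fun f => f.1 x
        map_one' := rfl
        map_mul' := fun _ _ => rfl
        map_zero' := rfl
        map_add' := fun _ _ => rfl
        commutes' := fun _ => rfl }
    have h : evx.comp (MvPolynomial.aeval (fun ij : E.ι × E.ι => E.co ij.1 ij.2)) =
        MvPolynomial.aeval (fun ij : E.ι × E.ι => E.ρ x ij.1 ij.2) := by
      apply MvPolynomial.algHom_ext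
      intro ij
      rw [AlgHom.comp_apply, MvPolynomial.aeval_X, MvPolynomial.aeval_X]
      rfl
    rw [← h]
    rfl
  have hmain : ∀ p : MvPolynomial (E.ι × E.ι) ℂ,
      (∀ x : G.X, MvPolynomial.aeval (fun ij : E.ι × E.ι => E.ρ x ij.1 ij.2) p = 0) →
      MvPolynomial.aeval (fun ij : E.ι × E.ι => mexp (E.d y) ij.1 ij.2) p = 0 := by
    intro p hp
    have h0 : MvPolynomial.aeval (fun ij : E.ι × E.ι => E.co ij.1 ij.2) p = 0 := by
      apply AffGrp.O_ext
      intro x
      rw [hco, hp]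
      rfl
    have h1 : ∀ k : ℕ, MvPolynomial.aeval (fun ij : E.ι × E.ι => E.co ij.1 ij.2)
        ((dY (E.d y))^[k] p) = 0 := by
      intro k
      induction k with
      | zero => exact h0
      | succ k ih => rw [Function.iterate_succ_apply', aeval_dY, ih, map_zero]
    have h2 : ∀ k : ℕ, Polynomial.derivative^[k] (mthA2_A (E.d y) p) =
        mthA2_A (E.d y) ((dY (E.d y))^[k] p) := by
      intro k
      induction k with
      | zero => rfl
      | succ k ih =>
        rw [Function.iterate_succ_apply', Function.iterate_succ_apply', ih, mthA2_der_A hY]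
    have hM0 : ∀ i j : E.ι, (mthA2_M (E.d y) i j).eval 0 = (1 : Matrix E.ι E.ι ℂ) i j := by
      intro i j
      unfold mthA2_M
      obtain ⟨N, hN⟩ : ∃ N, Fintype.card E.ι = N + 1 :=
        ⟨Fintype.card E.ι - 1, by have := Fintype.card_pos_iff.2 ⟨i⟩; omega⟩
      rw [hN, Finset.sum_range_succ', Polynomial.eval_add, Polynomial.eval_finsetSum,
        Finset.sum_eq_zero, zero_add]
      · simp
      · intro k _
        rw [Polynomial.eval_mul, Polynomial.eval_pow, Polynomial.eval_X, zero_pow (Nat.succ_ne_zero k),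
          mul_zero]
    have h3 : ∀ k : ℕ, (Polynomial.derivative^[k] (mthA2_A (E.d y) p)).coeff 0 = 0 := by
      intro k
      rw [Polynomial.coeff_zero_eq_eval_zero, h2, mthA2_eval _ 0 1 hM0]
      have h4 := hco ((dY (E.d y))^[k] p) 1
      rw [h1, map_one] at h4
      rw [← h4]
      rfl
    have h5 : mthA2_A (E.d y) p = 0 := by
      apply Polynomial.ext
      intro k
      have h6 := h3 k
      rw [Polynomial.coeff_iterate_derivative, zero_add, Nat.descFactorial_self, nsmul_eq_mul] at h6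
      rw [Polynomial.coeff_zero]
      exact (mul_eq_zero.1 h6).resolve_left (Nat.cast_ne_zero.2 (Nat.factorial_ne_zero k))
    have hM1 : ∀ i j : E.ι, (mthA2_M (E.d y) i j).eval 1 = mexp (E.d y) i j := by
      intro i j
      unfold mthA2_M mexp
      rw [Polynomial.eval_finsetSum, Matrix.sum_apply]
      refine Finset.sum_congr rfl fun k _ => ?_
      rw [Polynomial.eval_mul, Polynomial.eval_pow, Polynomial.eval_X, Polynomial.eval_C, one_pow,
        mul_one, Matrix.smul_apply, smul_eq_mul]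
      rfl
    rw [← mthA2_eval _ 1 _ hM1, h5, Polynomial.eval_zero]
  obtain ⟨φ, hφ⟩ := exists_pt E hE (mexp (E.d y)) hmain
  exact ⟨φ.toX, by rw [pt_toX, hφ]⟩

end Pool.Agent.MTH
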