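import Pool.Agent.MTH.A0
import Pool.Agent.MTG.YC6

/-! # MTH-WR -/

namespace Pool.Agent.MTH

open Matrix
open Pool.Agent.MTF Pool.Agent.MTG
open Pool.Agent.MTD (ev)
open Pool.Agent.MP_c45d35_ag (chi)

variable {G : AffGrp} {n : ℕ} {D : RD n} (C : CD G D)

theorem wr_eig (k : Fin n) (f : G.O) :
    f ∈ Submodule.span ℂ {g : G.O | ∃ m : ℤ, G.der (C.h k) g = ((m : ℤ) : ℂ) • g} := by
  set S : Set G.O := {g : G.O | ∃ m : ℤ, G.der (C.h k) g = ((m : ℤ) : ℂ) • g} with hS
  have hmul : Submodule.span ℂ S * Submodule.span ℂ S ≤ Submodule.span ℂ S := by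
    rw [Submodule.span_mul_span]
    refine Submodule.span_le.2 ?_
    rintro _ ⟨a, ⟨m, hm⟩, b, ⟨m', hm'⟩, rfl⟩
    refine Submodule.subset_span ⟨m + m', ?_⟩
    show G.der (C.h k) (a * b) = _
    rw [AffGrp.der_leib, hm, hm', mul_smul_comm, mul_smul_comm, mul_comm b a, ← add_smul]
    congr 1
    push_cast
    ring
  have h1 : G.der (C.h k) 1 = 0 := by
    have h := G.der_leib (C.h k) (1 : G.O) (1 : G.O)
    rw [one_mul, one_mul] at h
    exact left_eq_add.1 h
  have hf : f ∈ Algebra.adjoin ℂ (Set.range fun p : C.F.ι × C.F.ι => C.F.co p.1 p.2) := by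
    have h := C.faith
    unfold Rep.Faithful at h
    rw [h]
    exact Algebra.mem_top
  induction hf using Algebra.adjoin_induction with
  | mem f hf =>
    obtain ⟨⟨a, b⟩, rfl⟩ := hf
    refine Submodule.subset_span ⟨C.wt b k, ?_⟩
    show G.der (C.h k) (C.F.co a b) = ((C.wt b k : ℤ) : ℂ) • C.F.co a b
    have h2 : C.F.d (C.h k) = Matrix.diagonal fun a => ((C.wt a k : ℤ) : ℂ) := C.d_h k
    rw [Rep.der_co, h2, Finset.sum_eq_single b]
    · rw [Matrix.diagonal_apply_eq]
    · intro c _ hc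
      rw [Matrix.diagonal_apply_ne _ hc, zero_smul]
    · intro h
      exact absurd (Finset.mem_univ b) h
  | algebraMap c =>
    rw [Algebra.algebraMap_eq_smul_one]
    refine Submodule.smul_mem _ _ (Submodule.subset_span ⟨0, ?_⟩)
    rw [h1, Int.cast_zero, zero_smul]
  | add f g _ _ ihf ihg => exact Submodule.add_mem _ ihf ihg
  | mul f g _ _ ihf ihg => exact hmul (Submodule.mul_mem_mul ihf ihg)

/-- the polynomial with simple integral roots -/
noncomputable def wr_P (Ω : Finset ℤ) : Polynomial ℂ :=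
  ∏ m ∈ Ω, (Polynomial.X - Polynomial.C ((m : ℤ) : ℂ))

theorem wr_mono {V : Type} [AddCommGroup V] [Module ℂ V] (δ : Module.End ℂ V) {Ω Ω' : Finset ℤ} (h : Ω ⊆ Ω')
    {v : V} (hv : Polynomial.aeval δ (wr_P Ω) v = 0) : Polynomial.aeval δ (wr_P Ω') v = 0 := by
  unfold wr_P at *
  rw [← Finset.prod_sdiff h, map_mul, Module.End.mul_apply, hv, map_zero]

theorem wr_pol (k : Fin n) (f : G.O) :
    ∃ Ω : Finset ℤ, Polynomial.aeval (G.der (C.h k)) (wr_P Ω) f = 0 := by
  have hf := wr_eig C k f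
  induction hf using Submodule.span_induction with
  | mem g hg =>
    obtain ⟨m, hm⟩ := hg
    refine ⟨{m}, ?_⟩
    unfold wr_P
    rw [Finset.prod_singleton, map_sub, Polynomial.aeval_X, Polynomial.aeval_C, LinearMap.sub_apply, hm,
      Module.algebraMap_end_apply, sub_self]
  | zero => exact ⟨∅, map_zero _⟩
  | add g g' _ _ h h' =>
    obtain ⟨Ω, h⟩ := h
    obtain ⟨Ω', h'⟩ := h'
    refine ⟨Ω ∪ Ω', ?_⟩
    rw [map_add, wr_mono _ Finset.subset_union_left h, wr_mono _ Finset.subset_union_right h', add_zero]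
  | smul c g _ h =>
    obtain ⟨Ω, h⟩ := h
    exact ⟨Ω, by rw [map_smul, h, smul_zero]⟩

/-- the operator of `x` -/
noncomputable def wrM (E : MTF.Rep G) (x : G.Lie) : Module.End ℂ (E.ι → ℂ) := Matrix.toLin' (E.d x)

/-- the coefficient map of a row -/
noncomputable def wr_T (E : MTF.Rep G) (a : E.ι) : (E.ι → ℂ) →ₗ[ℂ] G.O where
  toFun v := ∑ b, v b • E.co a b
  map_add' v v' := by
    rw [← Finset.sum_add_distrib]
    exact Finset.sum_congr rfl fun b _ => add_smul _ _ _
  map_smul' c v := by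
    rw [Finset.smul_sum]
    exact Finset.sum_congr rfl fun b _ => mul_smul _ _ _

theorem wr_T_der (E : MTF.Rep G) (a : E.ι) (x : G.Lie) (v : E.ι → ℂ) :
    G.der x (wr_T E a v) = wr_T E a (wrM E x v) := by
  show G.der x (∑ b, v b • E.co a b) = ∑ c, (wrM E x v) c • E.co a c
  rw [map_sum]
  have h : ∀ b, G.der x (v b • E.co a b) = ∑ c, (E.d x c b * v b) • E.co a c := by
    intro b
    rw [map_smul, Rep.der_co, Finset.smul_sum]
    refine Finset.sum_congr rfl fun c _ => ?_
    rw [smul_smul, mul_comm]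
  simp only [h]
  rw [Finset.sum_comm]
  refine Finset.sum_congr rfl fun c _ => ?_
  rw [← Finset.sum_smul]
  rfl

theorem wr_T_aeval (E : MTF.Rep G) (a : E.ι) (x : G.Lie) (p : Polynomial ℂ) (v : E.ι → ℂ) :
    Polynomial.aeval (G.der x) p (wr_T E a v) = wr_T E a (Polynomial.aeval (wrM E x) p v) := by
  induction p using Polynomial.induction_on generalizing v with
  | C c => rw [Polynomial.aeval_C, Polynomial.aeval_C, Module.algebraMap_end_apply, Module.algebraMap_end_apply,
      map_smul]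
  | add p q hp hq => rw [map_add, LinearMap.add_apply, hp, hq, map_add, LinearMap.add_apply, map_add]
  | monomial k c h =>
    rw [pow_succ, ← mul_assoc, map_mul (Polynomial.aeval (G.der x)) _ Polynomial.X, Module.End.mul_apply,
      Polynomial.aeval_X, wr_T_der, h, map_mul (Polynomial.aeval (wrM E x)) _ Polynomial.X, Module.End.mul_apply,
      Polynomial.aeval_X]

theorem wr_T_one (E : MTF.Rep G) (a : E.ι) (v : E.ι → ℂ) : (wr_T E a v).1 1 = v a := by
  show (∑ b, v b • E.co a b : G.O).1 1 = v a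
  rw [AffGrp.O_sum, Finset.sum_eq_single a]
  · show v a * E.ρ 1 a a = v a
    rw [map_one, Matrix.one_apply_eq, mul_one]
  · intro b _ hb
    show v b * E.ρ 1 a b = 0
    rw [map_one, Matrix.one_apply_ne (Ne.symm hb), mul_zero]
  · intro h
    exact absurd (Finset.mem_univ a) h

theorem wr_ann (E : MTF.Rep G) (k : Fin n) :
    ∃ Ω : Finset ℤ, Polynomial.aeval (wrM E (C.h k)) (wr_P Ω) = 0 := by
  classical
  choose Ω hΩ using fun f : G.O => wr_pol C k f
  refine ⟨Finset.univ.biUnion fun a => Finset.univ.biUnion fun b => Ω (E.co a b), ?_⟩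
  refine LinearMap.ext fun v => ?_
  funext a
  have h1 : Polynomial.aeval (G.der (C.h k))
      (wr_P (Finset.univ.biUnion fun a => Finset.univ.biUnion fun b => Ω (E.co a b))) (wr_T E a v) = 0 := by
    show Polynomial.aeval (G.der (C.h k)) _ (∑ b, v b • E.co a b) = 0
    rw [map_sum]
    refine Finset.sum_eq_zero fun b _ => ?_
    rw [map_smul, wr_mono _ ?_ (hΩ (E.co a b)), smul_zero]
    intro m hm
    rw [Finset.mem_biUnion]
    refine ⟨a, Finset.mem_univ _, ?_⟩
    rw [Finset.mem_biUnion]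
    exact ⟨b, Finset.mem_univ _, hm⟩
  rw [wr_T_aeval] at h1
  refine (wr_T_one E a _).symm.trans ?_
  rw [h1]
  rfl

theorem wr_ss (E : MTF.Rep G) (k : Fin n) : (wrM E (C.h k)).IsSemisimple := by
  obtain ⟨Ω, hΩ⟩ := wr_ann C E k
  refine Module.End.isSemisimple_of_squarefree_aeval_eq_zero ?_ hΩ
  refine Polynomial.Separable.squarefree ?_
  unfold wr_P
  rw [Polynomial.separable_prod_X_sub_C_iff']
  intro a _ b _ hab
  exact_mod_cast hab

theorem wr_top (E : MTF.Rep G) :
    ⨆ χ : Fin n → ℂ, ⨅ k, (wrM E (C.h k)).eigenspace (χ k) = ⊤ := by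
  have h := Module.End.iSup_iInf_maxGenEigenspace_eq_top_of_iSup_maxGenEigenspace_eq_top_of_commute
    (fun k => wrM E (C.h k)) (fun i j _ => by
      have h1 := E.d_lie (C.h i) (C.h j)
      have h2 : ⁅C.h i, C.h j⁆ = 0 := C.h_h i j
      rw [h2, map_zero] at h1
      show wrM E (C.h i) * wrM E (C.h j) =
        wrM E (C.h j) * wrM E (C.h i)
      unfold wrM
      rw [Module.End.mul_eq_comp, Module.End.mul_eq_comp, ← Matrix.toLin'_mul, ← Matrix.toLin'_mul,
        (sub_eq_zero.1 h1.symm)])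
    (fun i => Module.End.iSup_maxGenEigenspace_eq_top _)
  simp only [fun k => (wr_ss C E k).isFinitelySemisimple.maxGenEigenspace_eq_eigenspace] at h
  exact h

theorem wr_int (E : MTF.Rep G) (k : Fin n) (v : E.ι → ℂ) (c : ℂ) (hv : v ≠ 0)
    (h : (E.d (C.h k)).mulVec v = c • v) : ∃ m : ℤ, c = (m : ℂ) := by
  obtain ⟨Ω, hΩ⟩ := wr_ann C E k
  have h1 : (wrM E (C.h k)).HasEigenvector c v := by
    refine ⟨?_, hv⟩
    rw [Module.End.mem_eigenspace_iff]
    exact h
  have h2 := Module.End.aeval_apply_of_hasEigenvector (p := wr_P Ω) h1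
  rw [hΩ] at h2
  have h3 : Polynomial.eval c (wr_P Ω) = 0 := by
    have h4 : Polynomial.eval c (wr_P Ω) • v = 0 := h2.symm
    exact (smul_eq_zero.1 h4).resolve_right hv
  unfold wr_P at h3
  rw [Polynomial.eval_prod, Finset.prod_eq_zero_iff] at h3
  obtain ⟨m, _, hm⟩ := h3
  refine ⟨m, ?_⟩
  rw [Polynomial.eval_sub, Polynomial.eval_X, Polynomial.eval_C] at hm
  exact sub_eq_zero.1 hm

/-- (helper13's row) Every representation is conjugate to one in weight basis. -/
theorem exists_weight (E : MTF.Rep G) : ∃ (F : MTF.Rep G) (w : F.ι → Fin n → ℤ)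
    (Q : Matrix E.ι F.ι ℂ) (Q' : Matrix F.ι E.ι ℂ), C.IsW F w ∧ Q * Q' = 1 ∧ Q' * Q = 1 ∧
      ∀ x, Q' * E.ρ x * Q = F.ρ x := by
  classical
  obtain ⟨F, χ, Q, Q', hd, -, h1, h2, h3⟩ := exists_weight_basis G E
    (Submodule.span ℂ (Set.range fun k => C.h k)) (by
      intro v
      have hv : v ∈ (⨆ χ : Fin n → ℂ, ⨅ k, (wrM E (C.h k)).eigenspace (χ k)) := by
        rw [wr_top]
        exact Submodule.mem_top
      refine (iSup_le fun χ => ?_ : (⨆ χ : Fin n → ℂ, ⨅ k, (wrM E (C.h k)).eigenspace (χ k)) ≤ _) hv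
      intro w hw
      refine Submodule.subset_span ?_
      rw [Submodule.mem_iInf] at hw
      refine ⟨(∑ k, χ k • C.bs.coord (Sum.inl k)).comp (Submodule.subtype _), ?_⟩
      rintro ⟨x, hx⟩
      show (E.d x).mulVec w = (∑ k, χ k • C.bs.coord (Sum.inl k)) x • w
      induction hx using Submodule.span_induction with
      | mem x hx =>
        obtain ⟨k, rfl⟩ := hx
        have h4 : (E.d (C.h k)).mulVec w = χ k • w := Module.End.mem_eigenspace_iff.1 (hw k)
        show (E.d (C.h k)).mulVec w = (∑ k, χ k • C.bs.coord (Sum.inl k)) (C.bs (Sum.inl k)) • w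
        rw [h4, LinearMap.sum_apply, Finset.sum_eq_single k]
        · rw [LinearMap.smul_apply, Module.Basis.coord_apply, Module.Basis.repr_self, Finsupp.single_eq_same,
            smul_eq_mul, mul_one]
        · intro j _ hj
          rw [LinearMap.smul_apply, Module.Basis.coord_apply, Module.Basis.repr_self,
            Finsupp.single_eq_of_ne (by simpa using hj), smul_zero]
        · intro h
          exact absurd (Finset.mem_univ k) h
      | zero => rw [map_zero, map_zero, Matrix.zero_mulVec, zero_smul]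
      | add x y _ _ hx hy => rw [map_add, map_add, Matrix.add_mulVec, hx, hy, add_smul]
      | smul c x _ hx => rw [map_smul, map_smul, Matrix.smul_mulVec, hx, smul_eq_mul, mul_smul])
  have hk : ∀ k, C.h k ∈ Submodule.span ℂ (Set.range fun k => C.h k) := fun k =>
    Submodule.subset_span ⟨k, rfl⟩
  have hint : ∀ a k, ∃ m : ℤ, χ a ⟨C.h k, hk k⟩ = (m : ℂ) := by
    intro a k
    refine wr_int C F k (Pi.single a 1) _ ?_ ?_
    · intro h0
      have h5 := congrFun h0 a
      rw [Pi.single_eq_same] at h5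
      exact one_ne_zero h5
    · have h4 := hd ⟨C.h k, hk k⟩
      show (F.d (C.h k)).mulVec (Pi.single a 1) = _
      have h4' : F.d (C.h k) = Matrix.diagonal fun a => χ a ⟨C.h k, hk k⟩ := h4
      rw [h4']
      funext c
      rw [Matrix.mulVec_diagonal, Pi.smul_apply, smul_eq_mul]
      by_cases hc : c = a
      · subst hc
        rfl
      · rw [Pi.single_eq_of_ne hc, mul_zero, mul_zero]
  choose w hw using hint
  refine ⟨F, w, Q', Q.transpose, ⟨fun k => ?_⟩, h2, h1, h3⟩
  have h4 : F.d (C.h k) = Matrix.diagonal fun a => χ a ⟨C.h k, hk k⟩ := hd ⟨C.h k, hk k⟩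
  rw [h4]
  congr 1
  funext a
  exact hw a k

end Pool.Agent.MTH
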