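import Pool.Agent.MTH.A2
import Pool.Agent.MTH.WR

/-! # MTH-A3 -/

namespace Pool.Agent.MTH

open Matrix
open Pool.Agent.MTF Pool.Agent.MTG
open Pool.Agent.MTD (ev)
open Pool.Agent.MP_c45d35_ag (chi)

variable {G : AffGrp} {n : ℕ} {D : RD n} (C : CD G D)

/-- A matrix that strictly raises a function is nilpotent.  Proof: `(A ^ k) a b ≠ 0` implies that there is a path
`b = c_0, c_1, .., c_k = a` with `f c_0 < f c_1 < ..`, i.e. by induction there are `k + 1` values of `f` `≤ f a`, all different: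
state the induction as: `(A ^ k) a b ≠ 0 → k < card {c | f c ≤ f a}`. -/
theorem pow_card_eq_zero {R : Type} [CommRing R] {ι : Type} [Fintype ι] [DecidableEq ι]
    (A : Matrix ι ι R) (f : ι → ℤ) (h : ∀ a b, A a b ≠ 0 → f b < f a) :
    A ^ Fintype.card ι = 0 := by
  classical
  have key : ∀ (k : ℕ) (a b : ι), (A ^ k) a b ≠ 0 →
      k < (Finset.univ.filter fun c => f c ≤ f a).card := by
    intro k
    induction k with
    | zero =>
      intro a b _
      exact Finset.card_pos.2 ⟨a, Finset.mem_filter.2 ⟨Finset.mem_univ _, le_refl _⟩⟩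
    | succ k ih =>
      intro a b hab
      rw [pow_succ', Matrix.mul_apply] at hab
      obtain ⟨c, -, hc⟩ := Finset.exists_ne_zero_of_sum_ne_zero hab
      have h1 : A a c ≠ 0 := left_ne_zero_of_mul hc
      have h2 : (A ^ k) c b ≠ 0 := right_ne_zero_of_mul hc
      have h3 := h a c h1
      have h4 := ih c b h2
      have h5 : (Finset.univ.filter fun d => f d ≤ f c).card <
          (Finset.univ.filter fun d => f d ≤ f a).card := by
        apply Finset.card_lt_card
        refine ⟨fun d hd => ?_, fun hsub => ?_⟩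
        · rw [Finset.mem_filter] at hd ⊢
          exact ⟨Finset.mem_univ _, hd.2.trans h3.le⟩
        · have h6 := hsub (Finset.mem_filter.2 ⟨Finset.mem_univ a, le_refl _⟩)
          rw [Finset.mem_filter] at h6
          omega
      omega
  ext a b
  by_contra hne
  have h1 := key _ a b hne
  have h2 : (Finset.univ.filter fun c => f c ≤ f a).card ≤ Fintype.card ι := by
    rw [← Finset.card_univ]
    exact Finset.card_le_card (Finset.filter_subset _ _)
  omega

/-- (row A3) Support of `dm` in a weight basis: `C.dm E z a b = ∑ j, z j * (E.d (C.bs j)) a b`; the term `j = inl k` is diagonal (`hE.d_h`), the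
term `j = inr γ` is nonzero only for `w a = w b + γ` (`hE.d_e`), then `ht2 (w a) - ht2 (w b) = ht2 γ` (`ht2_add`). -/
theorem dm_supp {R : Type} [CommRing R] [Algebra ℂ R] {E : MTF.Rep G} {w : E.ι → Fin n → ℤ}
    (hE : C.IsW E w) {s m : ℤ} {z : LR D R} (hz : Sp s m z) (a b : E.ι)
    (h : C.dm E z a b ≠ 0) : m ≤ s * (D.ht2 (w a) - D.ht2 (w b)) := by
  rw [C.dm_apply] at h
  obtain ⟨j, -, hj⟩ := Finset.exists_ne_zero_of_sum_ne_zero h
  have h1 : z j ≠ 0 := left_ne_zero_of_mul hj
  have h2 : E.d (C.bs j) a b ≠ 0 := fun h0 => hj (by rw [h0, map_zero, mul_zero])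
  rcases j with k | γ
  · have h3 := hz.1 k h1
    have h4 : E.d (C.bs (Sum.inl k)) = Matrix.diagonal fun a => ((w a k : ℤ) : ℂ) := hE.d_h k
    rw [h4, Matrix.diagonal_apply] at h2
    have h5 : a = b := by
      by_contra hne
      exact h2 (if_neg hne)
    rw [h5, sub_self, mul_zero]
    exact h3
  · have h3 := hz.2 γ h1
    have h4 := hE.d_e γ a b h2
    rw [h4, D.ht2_add, add_sub_cancel_left]
    exact h3

/-- the matrix of an element in a conjugate representation -/
theorem A3a_conj {R : Type} [CommRing R] [Algebra ℂ R] {E F : MTF.Rep G} (Q : Matrix E.ι F.ι ℂ)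
    (Q' : Matrix F.ι E.ι ℂ) (h : ∀ x, E.ρ x = Q * F.ρ x * Q') (z : LR D R) :
    C.dm E z = Q.map (algebraMap ℂ R) * C.dm F z * Q'.map (algebraMap ℂ R) := by
  have hd : ∀ y : G.Lie, E.d y = Q * F.d y * Q' := by
    intro y
    ext a b
    have h1 : E.co a b = ∑ c, ∑ c', (Q a c * Q' c' b) • F.co c c' := by
      apply AffGrp.O_ext
      intro x
      show E.ρ x a b = _
      rw [h, AffGrp.O_sum, Matrix.mul_apply]
      simp only [Matrix.mul_apply, AffGrp.O_sum, AffGrp.O_smul, Rep.co_apply, Finset.sum_mul]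
      rw [Finset.sum_comm]
      refine Finset.sum_congr rfl fun c _ => Finset.sum_congr rfl fun c' _ => ?_
      ring
    rw [Rep.d_apply, h1, map_sum]
    simp only [Matrix.mul_apply, map_sum, map_smul, smul_eq_mul, Finset.sum_mul]
    rw [Finset.sum_comm]
    refine Finset.sum_congr rfl fun c _ => Finset.sum_congr rfl fun c' _ => ?_
    rw [Rep.d_apply]
    ring
  unfold CD.dm
  rw [Matrix.mul_sum, Matrix.sum_mul]
  refine Finset.sum_congr rfl fun j _ => ?_
  rw [hd, Matrix.map_mul, Matrix.map_mul, Matrix.mul_smul, Matrix.smul_mul]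

/-- (row A3) `dm` of an element of positive height is nilpotent in every representation.
Proof: `exists_weight` gives `F`, `Q`, `Q'` with `E.ρ x = Q * F.ρ x * Q'`, so `E.d y = Q * F.d y * Q'` for all `y` (apply the point derivation `y` to the
entries, which are `ℂ`-combinations) and `C.dm E z = Q C.dm F z Q'` (constant matrices mapped to `R`).  In `F`: `pow_card_eq_zero` with
`f a = s * ht2 (w a)`, `dm_supp` (`m = 1`).  `card E.ι = card F.ι` (invertible rectangular matrices: `Matrix.square_of_invertible`-type lemma or linear equivalence);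
`(Q A Q') ^ k = Q A ^ k Q'` for `k ≥ 1` (and `Q Q' = 1` for `k = 0`). -/
theorem dm_nilp {R : Type} [CommRing R] [Algebra ℂ R] (E : MTF.Rep G) {s : ℤ} {z : LR D R}
    (hz : Sp s 1 z) : C.dm E z ^ Fintype.card E.ι = 0 := by
  obtain ⟨F, w, Q, Q', hF, h1, h2, h3⟩ := exists_weight C E
  have h4 : ∀ x, E.ρ x = Q * F.ρ x * Q' := by
    intro x
    rw [← h3 x, ← Matrix.mul_assoc, ← Matrix.mul_assoc, h1, Matrix.one_mul, Matrix.mul_assoc, h1,
      Matrix.mul_one]
  have hcard : Fintype.card E.ι = Fintype.card F.ι := Matrix.square_of_invertible Q Q' h1 h2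
  have hQ : Q.map (algebraMap ℂ R) * Q'.map (algebraMap ℂ R) = 1 := by
    rw [← Matrix.map_mul, h1, Matrix.map_one _ (map_zero _) (map_one _)]
  have hQ' : Q'.map (algebraMap ℂ R) * Q.map (algebraMap ℂ R) = 1 := by
    rw [← Matrix.map_mul, h2, Matrix.map_one _ (map_zero _) (map_one _)]
  have hpow : ∀ k : ℕ, C.dm E z ^ k =
      Q.map (algebraMap ℂ R) * C.dm F z ^ k * Q'.map (algebraMap ℂ R) := by
    intro k
    induction k with
    | zero => rw [pow_zero, pow_zero, Matrix.mul_one, hQ]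
    | succ k ih =>
      rw [pow_succ, ih, A3a_conj C Q Q' h4 z, pow_succ]
      calc Q.map (algebraMap ℂ R) * C.dm F z ^ k * Q'.map (algebraMap ℂ R) *
            (Q.map (algebraMap ℂ R) * C.dm F z * Q'.map (algebraMap ℂ R))
          = Q.map (algebraMap ℂ R) * C.dm F z ^ k *
            (Q'.map (algebraMap ℂ R) * Q.map (algebraMap ℂ R)) *
            (C.dm F z * Q'.map (algebraMap ℂ R)) := by simp only [Matrix.mul_assoc]
        _ = Q.map (algebraMap ℂ R) * (C.dm F z ^ k * C.dm F z) * Q'.map (algebraMap ℂ R) := by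
          rw [hQ', Matrix.mul_one]
          simp only [Matrix.mul_assoc]
  have h5 : C.dm F z ^ Fintype.card F.ι = 0 :=
    pow_card_eq_zero (C.dm F z) (fun a => s * D.ht2 (w a)) fun a b hab => by
      have h6 := dm_supp C hF hz a b hab
      rw [mul_sub] at h6
      show s * D.ht2 (w b) < s * D.ht2 (w a)
      omega
  rw [hpow, hcard, h5, Matrix.mul_zero, Matrix.zero_mul]

/-- the exponential commutes with homomorphisms of algebras -/
theorem A3b_mexp_map {R R' : Type} [CommRing R] [Algebra ℂ R] [CommRing R'] [Algebra ℂ R']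
    (σ : R →ₐ[ℂ] R') {ι : Type} [Fintype ι] [DecidableEq ι] (A : Matrix ι ι R) :
    (mexp A).map σ = mexp (A.map σ) := by
  have h1 : ∀ k : ℕ, (A ^ k).map σ = (A.map σ) ^ k := by
    intro k
    exact map_pow (σ.mapMatrix (m := ι)) A k
  unfold mexp
  ext a b
  rw [Matrix.map_apply, Matrix.sum_apply, Matrix.sum_apply, map_sum]
  refine Finset.sum_congr rfl fun k _ => ?_
  rw [Matrix.smul_apply, Matrix.smul_apply, smul_eq_mul, smul_eq_mul, map_mul,
    AlgHomClass.commutes, ← h1, Matrix.map_apply]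

/-- a longer sum for the exponential of a nilpotent matrix -/
theorem A3b_mexp_eq {R : Type} [CommRing R] [Algebra ℂ R] {ι : Type} [Fintype ι] [DecidableEq ι]
    (A : Matrix ι ι R) (hA : A ^ Fintype.card ι = 0) {N : ℕ} (hN : Fintype.card ι ≤ N) :
    ∑ k ∈ Finset.range N, (algebraMap ℂ R (1 / (k.factorial : ℂ))) • A ^ k = mexp A := by
  unfold mexp
  symm
  refine Finset.sum_subset (Finset.range_subset_range.2 hN) fun k _ hk => ?_
  rw [Finset.mem_range, not_lt] at hk
  rw [← Nat.sub_add_cancel hk, pow_add, hA, mul_zero, smul_zero]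

/-- the exponential of a block diagonal matrix -/
theorem A3b_mexp_blocks {R : Type} [CommRing R] [Algebra ℂ R] {ι κ : Type} [Fintype ι]
    [DecidableEq ι] [Fintype κ] [DecidableEq κ] (A : Matrix ι ι R) (B : Matrix κ κ R)
    (hA : A ^ Fintype.card ι = 0) (hB : B ^ Fintype.card κ = 0) :
    mexp (Matrix.fromBlocks A 0 0 B) = Matrix.fromBlocks (mexp A) 0 0 (mexp B) := by
  have hpow : ∀ k : ℕ, (Matrix.fromBlocks A 0 0 B) ^ k = Matrix.fromBlocks (A ^ k) 0 0 (B ^ k) := by
    intro k
    induction k with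
    | zero => rw [pow_zero, pow_zero, pow_zero, Matrix.fromBlocks_one]
    | succ k ih =>
      rw [pow_succ, ih, Matrix.fromBlocks_multiply, pow_succ, pow_succ]
      simp
  have h1 : Fintype.card (ι ⊕ κ) = Fintype.card ι + Fintype.card κ := Fintype.card_sum
  rw [← A3b_mexp_eq A hA (N := Fintype.card (ι ⊕ κ)) (by omega),
    ← A3b_mexp_eq B hB (N := Fintype.card (ι ⊕ κ)) (by omega)]
  unfold mexp
  generalize Fintype.card (ι ⊕ κ) = N
  induction N with
  | zero =>
    rw [Finset.range_zero, Finset.sum_empty, Finset.sum_empty, Finset.sum_empty,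
      Matrix.fromBlocks_zero]
  | succ N ih =>
    rw [Finset.sum_range_succ, ih, Finset.sum_range_succ, Finset.sum_range_succ, hpow,
      Matrix.fromBlocks_smul, Matrix.fromBlocks_add, smul_zero, smul_zero, add_zero, add_zero]

/-- the matrix of an element in a direct sum -/
theorem A3b_dm_rsum {R : Type} [CommRing R] [Algebra ℂ R] (E F : MTF.Rep G) (z : LR D R) :
    C.dm (rsum E F) z = Matrix.fromBlocks (C.dm E z) 0 0 (C.dm F z) := by
  ext a b
  rw [C.dm_apply]
  simp only [rsum_d]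
  rcases a with a | a <;> rcases b with b | b
  · rw [Matrix.fromBlocks_apply₁₁, C.dm_apply]
    rfl
  · rw [Matrix.fromBlocks_apply₁₂]
    refine Finset.sum_eq_zero fun j _ => ?_
    rw [Matrix.fromBlocks_apply₁₂, Matrix.zero_apply, map_zero, mul_zero]
  · rw [Matrix.fromBlocks_apply₂₁]
    refine Finset.sum_eq_zero fun j _ => ?_
    rw [Matrix.fromBlocks_apply₂₁, Matrix.zero_apply, map_zero, mul_zero]
  · rw [Matrix.fromBlocks_apply₂₂, C.dm_apply]
    rfl

/-- the support condition and homomorphisms -/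
theorem A3b_Sp_map {R R' : Type} [CommRing R] [Algebra ℂ R] [CommRing R'] [Algebra ℂ R']
    (σ : R →ₐ[ℂ] R') {s m : ℤ} {z : LR D R} (hz : Sp s m z) : Sp s m (fun j => σ (z j)) :=
  ⟨fun k hk => hz.1 k fun h0 => hk (by
      show σ (z (Sum.inl k)) = 0
      rw [h0, map_zero]),
    fun γ hγ => hz.2 γ fun h0 => hγ (by
      show σ (z (Sum.inr γ)) = 0
      rw [h0, map_zero])⟩

/-- the exponential point, for a faithful representation -/
theorem A3b_faithful {R : Type} [CommRing R] [Algebra ℂ R] {s : ℤ} {z : LR D R} (hz : Sp s 1 z)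
    (E : MTF.Rep G) (hE : E.Faithful) : ∃ φ : G.Pt R, E.pt φ = mexp (C.dm E z) := by
  classical
  refine exists_pt E hE (mexp (C.dm E z)) fun p hp => ?_
  -- the generic element
  let zg : LR D (MvPolynomial {γ : D.Rt // 1 ≤ s * D.ht2 γ.1} ℂ) :=
    Sum.elim (fun _ => 0) fun γ =>
      if h : 1 ≤ s * D.ht2 γ.1 then MvPolynomial.X ⟨γ, h⟩ else 0
  have hzg : Sp s 1 zg := by
    refine ⟨fun k hk => absurd rfl hk, fun γ hγ => ?_⟩
    by_contra hc
    exact hγ (dif_neg hc)
  -- its value at a point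
  have hval : ∀ {T : Type} [CommRing T] [Algebra ℂ T]
      (θ : MvPolynomial {γ : D.Rt // 1 ≤ s * D.ht2 γ.1} ℂ →ₐ[ℂ] T),
      MvPolynomial.aeval (fun ij : E.ι × E.ι => mexp (C.dm E (fun j => θ (zg j))) ij.1 ij.2) p =
        θ (MvPolynomial.aeval (fun ij : E.ι × E.ι => mexp (C.dm E zg) ij.1 ij.2) p) := by
    intro T _ _ θ
    rw [← AlgHom.comp_apply, MvPolynomial.comp_aeval]
    refine congrArg (fun f => MvPolynomial.aeval (R := ℂ) f p) ?_
    funext ij
    rw [← C.dm_map, ← A3b_mexp_map]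
    rfl
  let θ : MvPolynomial {γ : D.Rt // 1 ≤ s * D.ht2 γ.1} ℂ →ₐ[ℂ] R :=
    MvPolynomial.aeval fun γ => z (Sum.inr γ.1)
  have hz' : (fun j => θ (zg j)) = z := by
    funext j
    rcases j with k | γ
    · have h1 : z (Sum.inl k) = 0 := by
        by_contra hne
        have := hz.1 k hne
        omega
      rw [h1]
      exact map_zero θ
    · show θ (if h : 1 ≤ s * D.ht2 γ.1 then MvPolynomial.X ⟨γ, h⟩ else 0) = z (Sum.inr γ)
      by_cases h : 1 ≤ s * D.ht2 γ.1
      · rw [dif_pos h]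
        exact MvPolynomial.aeval_X _ _
      · have h1 : z (Sum.inr γ) = 0 := by
          by_contra hne
          exact h (hz.2 γ hne)
        rw [dif_neg h, h1]
        exact map_zero θ
  have h0 : MvPolynomial.aeval (fun ij : E.ι × E.ι => mexp (C.dm E zg) ij.1 ij.2) p = 0 := by
    apply MvPolynomial.funext
    intro c
    rw [map_zero]
    have h1 := hval (MvPolynomial.aeval c : MvPolynomial {γ : D.Rt // 1 ≤ s * D.ht2 γ.1} ℂ →ₐ[ℂ] ℂ)
    rw [← MvPolynomial.coe_aeval_eq_eval]
    show MvPolynomial.aeval c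
      (MvPolynomial.aeval (fun ij : E.ι × E.ι => mexp (C.dm E zg) ij.1 ij.2) p) = 0
    rw [← h1]
    obtain ⟨zc, hzc⟩ : ∃ zc : LR D ℂ, zc = fun j => MvPolynomial.aeval c (zg j) := ⟨_, rfl⟩
    have hsp : Sp s 1 zc := by
      rw [hzc]
      exact A3b_Sp_map (MvPolynomial.aeval c :
        MvPolynomial {γ : D.Rt // 1 ≤ s * D.ht2 γ.1} ℂ →ₐ[ℂ] ℂ) hzg
    have hnil := dm_nilp C E hsp
    rw [C.dm_complex] at hnil
    obtain ⟨x, hx⟩ := exp_complex E hE _ ⟨_, hnil⟩
    have h2 := hp x
    rw [hx, ← C.dm_complex, hzc] at h2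
    exact h2
  have h1 := hval θ
  rw [hz', h0, map_zero] at h1
  exact h1

/-- (row A3) The exponential point, with coefficients in any algebra.
Proof.  First for a faithful `E₀`: `exists_pt E₀ hE₀ (mexp (C.dm E₀ z))`.  Let `p` vanish on the group.  Let `S := {j | z j ≠ 0 or j = inr γ with 1 ≤ s * ht2 γ}`;
take `σ := {γ : D.Rt // 1 ≤ s * D.ht2 γ.1}` and the generic element `zg : LR D (MvPolynomial σ ℂ)` (`X γ` at `inr γ`, `0` elsewhere);
`z` is the image of `zg` under `θ = aeval (fun γ => z (inr γ))` (the `inl` entries of `z` vanish by `hz.1`).  `P := aeval (mexp (C.dm E₀ zg)) p` satisfies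
`aeval (mexp (C.dm E₀ z)) p = θ P` (`dm_map`, `mexp` commutes with algebra homomorphisms) and the same for all complex values `c : σ → ℂ`; for these
`mexp (C.dm E₀ z_c) = E₀.ρ x` by `exp_complex` (`C.dm_complex`, `dm_nilp`), so `eval c P = 0` for all `c`, `P = 0` (`MvPolynomial.funext`).
For arbitrary `E`: let `φ₀` be the point for `C.F` and `φ₁` the point for the faithful `rsum C.F E` (`rsum_faithful`).  `rsum_pt`, `rsum_d`:
`mexp` of a block diagonal matrix is block diagonal with blocks `∑_{k < card + card'} A^k / k!`, equal to `mexp` of the blocks by `dm_nilp`.  The `F`-block shows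
`C.F.pt φ₁ = C.F.pt φ₀`, so `φ₁ = φ₀` (`pt_injective`, `C.faith`), and the `E`-block is the claim. -/
theorem exists_ex {R : Type} [CommRing R] [Algebra ℂ R] {s : ℤ} {z : LR D R} (hz : Sp s 1 z) :
    ∃ φ : G.Pt R, ∀ E : MTF.Rep G, E.pt φ = mexp (C.dm E z) := by
  obtain ⟨φ₀, hφ₀⟩ := A3b_faithful C hz C.F C.faith
  refine ⟨φ₀, fun E => ?_⟩
  obtain ⟨φ₁, hφ₁⟩ := A3b_faithful C hz (rsum C.F E) (rsum_faithful C.F E C.faith)
  rw [rsum_pt, A3b_dm_rsum] at hφ₁
  have h1 := hφ₁.trans (A3b_mexp_blocks (C.dm C.F z) (C.dm E z) (dm_nilp C C.F hz)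
    (dm_nilp C E hz))
  obtain ⟨h2, -, -, h3⟩ := Matrix.fromBlocks_inj.1 h1
  have h4 : φ₁ = φ₀ := C.F.pt_injective C.faith (h2.trans hφ₀.symm)
  rw [← h4]
  exact h3

theorem ex_pt {R : Type} [CommRing R] [Algebra ℂ R] {s : ℤ} {z : LR D R} (hz : Sp s 1 z)
    (E : MTF.Rep G) : E.pt (ex C z) = mexp (C.dm E z) := by
  classical
  have h := exists_ex C hz
  unfold ex
  rw [dif_pos h]
  exact h.choose_spec E

/-- (row A3) `exp` commutes with change of coefficients: `pt_injective` for `C.F`, `ex_pt`, `dm_map`. -/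
theorem ex_map {R R' : Type} [CommRing R] [Algebra ℂ R] [CommRing R'] [Algebra ℂ R'] (σ : R →ₐ[ℂ] R')
    {s : ℤ} {z : LR D R} (hz : Sp s 1 z) : (ex C z).map σ = ex C (fun j => σ (z j)) := by
  apply C.F.pt_injective C.faith
  rw [C.F.pt_map, ex_pt C hz, ex_pt C (A3b_Sp_map σ hz), A3b_mexp_map, C.dm_map]

end Pool.Agent.MTH
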