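import Pool.Agent.MTH.A2
import Pool.Agent.MTH.WR

/-! # MTH-A4 -/

namespace Pool.Agent.MTH

open Matrix
open Pool.Agent.MTF Pool.Agent.MTG
open Pool.Agent.MTD (ev)
open Pool.Agent.MP_c45d35_ag (chi)

variable {G : AffGrp} {n : ℕ} {D : RD n} (C : CD G D)

/-- the operator `q ↦ ∂_k q + c q` -/
noncomputable def a4aOp {ι : Type} [Fintype ι] [DecidableEq ι] (w : ι → Fin n → ℤ)
    (kc : Fin n × ℂ) (q : MvPolynomial (ι × ι) ℂ) : MvPolynomial (ι × ι) ℂ :=
  dY (Matrix.diagonal fun a => ((w a kc.1 : ℤ) : ℂ)) q + MvPolynomial.C kc.2 * q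

theorem a4a_add {ι : Type} [Fintype ι] [DecidableEq ι] (w : ι → Fin n → ℤ)
    (l : List (Fin n × ℂ)) (p q : MvPolynomial (ι × ι) ℂ) :
    l.foldr (a4aOp w) (p + q) = l.foldr (a4aOp w) p + l.foldr (a4aOp w) q := by
  induction l with
  | nil => rfl
  | cons kc l ih =>
    rw [List.foldr_cons, List.foldr_cons, List.foldr_cons, ih]
    unfold a4aOp
    rw [map_add]
    ring

theorem a4a_C {ι : Type} [Fintype ι] [DecidableEq ι] (w : ι → Fin n → ℤ)
    (l : List (Fin n × ℂ)) (c : ℂ) :
    l.foldr (a4aOp w) (MvPolynomial.C c) = MvPolynomial.C (c * (l.map fun kc => kc.2).prod) := by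
  induction l with
  | nil => simp
  | cons kc l ih =>
    rw [List.foldr_cons, ih]
    unfold a4aOp
    rw [MvPolynomial.derivation_C, zero_add, ← MvPolynomial.C_mul, List.map_cons, List.prod_cons]
    congr 1
    ring

theorem a4a_dX {ι : Type} [Fintype ι] [DecidableEq ι] (d : ι → ℂ) (i j : ι) :
    dY (Matrix.diagonal d) (MvPolynomial.X (i, j)) =
      MvPolynomial.C (d j) * MvPolynomial.X (i, j) := by
  unfold dY
  rw [MvPolynomial.mkDerivation_X, Finset.sum_eq_single j]
  · show MvPolynomial.C (Matrix.diagonal d j j) * _ = _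
    rw [Matrix.diagonal_apply_eq]
  · intro k _ hk
    show MvPolynomial.C (Matrix.diagonal d k j) * _ = _
    rw [Matrix.diagonal_apply_ne _ hk, MvPolynomial.C_0, zero_mul]
  · intro h
    exact absurd (Finset.mem_univ _) h

theorem a4a_mulX {ι : Type} [Fintype ι] [DecidableEq ι] (w : ι → Fin n → ℤ)
    (l : List (Fin n × ℂ)) (p : MvPolynomial (ι × ι) ℂ) (i j : ι) :
    l.foldr (a4aOp w) (p * MvPolynomial.X (i, j)) =
      (l.map fun kc => (kc.1, kc.2 + ((w j kc.1 : ℤ) : ℂ))).foldr (a4aOp w) p *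
        MvPolynomial.X (i, j) := by
  induction l with
  | nil => rfl
  | cons kc l ih =>
    rw [List.foldr_cons, ih, List.map_cons, List.foldr_cons]
    unfold a4aOp
    rw [Derivation.leibniz, a4a_dX, smul_eq_mul, smul_eq_mul, MvPolynomial.C_add]
    ring

theorem a4a_laurent {ι : Type} [Fintype ι] [DecidableEq ι] (w : ι → Fin n → ℤ) (g : Matrix ι ι ℂ)
    (p : MvPolynomial (ι × ι) ℂ) : ∃ b : (Fin n → ℤ) →₀ ℂ,
      (∀ {R : Type} [CommRing R] [Algebra ℂ R] (t : Fin n → Rˣ),
        MvPolynomial.aeval (fun ij : ι × ι => ((g.map (algebraMap ℂ R)) *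
          Matrix.diagonal fun a => ((chi (w a) t : Rˣ) : R)) ij.1 ij.2) p =
          b.sum fun ν c => algebraMap ℂ R c * ((chi ν t : Rˣ) : R)) ∧
      ∀ (l : List (Fin n × ℂ)), MvPolynomial.aeval (fun ij : ι × ι => g ij.1 ij.2)
          (l.foldr (a4aOp w) p) =
        b.sum fun ν c => c * (l.map fun kc => ((ν kc.1 : ℤ) : ℂ) + kc.2).prod := by
  classical
  induction p using MvPolynomial.induction_on with
  | C c =>
    refine ⟨Finsupp.single 0 c, ?_, ?_⟩
    · intro R _ _ t
      rw [Finsupp.sum_single_index (by rw [map_zero, zero_mul]), MvPolynomial.aeval_C,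
        Pool.Agent.MP_c45d35_ag.chi_zero, Units.val_one, mul_one]
    · intro l
      rw [Finsupp.sum_single_index (by rw [zero_mul]), a4a_C, MvPolynomial.aeval_C]
      show c * _ = c * _
      congr 2
      refine List.map_congr_left fun kc _ => ?_
      show kc.2 = (((0 : Fin n → ℤ) kc.1 : ℤ) : ℂ) + kc.2
      simp
  | add p q hp hq =>
    obtain ⟨b, hb1, hb2⟩ := hp
    obtain ⟨b', hb1', hb2'⟩ := hq
    refine ⟨b + b', ?_, ?_⟩
    · intro R _ _ t
      rw [map_add, hb1, hb1', Finsupp.sum_add_index' (fun ν => by rw [map_zero, zero_mul])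
        (fun ν c c' => by rw [map_add, add_mul])]
    · intro l
      rw [a4a_add, map_add, hb2, hb2', Finsupp.sum_add_index' (fun ν => by rw [zero_mul])
        (fun ν c c' => by rw [add_mul])]
  | mul_X p ij hp =>
    obtain ⟨b, hb1, hb2⟩ := hp
    obtain ⟨i, j⟩ := ij
    refine ⟨g i j • b.mapDomain (fun ν => ν + w j), ?_, ?_⟩
    · intro R _ _ t
      rw [map_mul, MvPolynomial.aeval_X, hb1,
        Finsupp.sum_smul_index (fun ν => by rw [map_zero, zero_mul]),
        Finsupp.sum_mapDomain_index (fun ν => by rw [mul_zero, map_zero, zero_mul])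
        (fun ν c c' => by rw [mul_add, map_add, add_mul]), Finsupp.sum_mul]
      refine Finsupp.sum_congr fun ν _ => ?_
      show _ * ((g.map (algebraMap ℂ R)) * Matrix.diagonal fun a => ((chi (w a) t : Rˣ) : R)) i j = _
      rw [Matrix.mul_diagonal, Pool.Agent.MP_c45d35_ag.chi_add, Units.val_mul, map_mul,
        Matrix.map_apply]
      ring
    · intro l
      rw [a4a_mulX, map_mul, MvPolynomial.aeval_X, hb2,
        Finsupp.sum_smul_index (fun ν => by rw [zero_mul]),
        Finsupp.sum_mapDomain_index (fun ν => by rw [mul_zero, zero_mul])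
        (fun ν c c' => by rw [mul_add, add_mul]), Finsupp.sum_mul]
      refine Finsupp.sum_congr fun ν _ => ?_
      have h1 : (List.map (fun kc : Fin n × ℂ => ((ν kc.1 : ℤ) : ℂ) + kc.2)
          (List.map (fun kc : Fin n × ℂ => (kc.1, kc.2 + ((w j kc.1 : ℤ) : ℂ))) l)) =
          List.map (fun kc : Fin n × ℂ => (((ν + w j) kc.1 : ℤ) : ℂ) + kc.2) l := by
        rw [List.map_map]
        refine List.map_congr_left fun kc _ => ?_
        show ((ν kc.1 : ℤ) : ℂ) + (kc.2 + ((w j kc.1 : ℤ) : ℂ)) =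
          ((ν kc.1 + w j kc.1 : ℤ) : ℂ) + kc.2
        push_cast
        ring
      rw [h1]
      show _ * g i j = _
      ring

/-- (row A4) Support of a family of Laurent polynomials: `p ↦ p(g · diag(t^{w a}))` is a Laurent polynomial in `t`.
`E` in weight basis.  For `x : G.X` (or any complex matrix `g`) and `p` there is a finitely supported `b : (Fin n → ℤ) →₀ ℂ` with
`aeval (g * diag (chi (w a) t)) p = ∑ ν, b ν * chi ν t` for all `t` in all `ℂ`-algebras, and such that for every `k` the polynomial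
`dY (diag (w a k)) p` has the coefficients `ν k * b ν`.
Proof: induction on `p` (`MvPolynomial.induction_on`); `b` for the constant `c` is `single 0 c`, for a sum the sum, for `p * X (i,j)` it is `b` shifted by `w j` and
multiplied by `g i j`: `chi (ν + w j) t = chi ν t * chi (w j) t`; `dY (diag d) (X (i,j)) = d j * X (i,j)`.
[`AddMonoidAlgebra ℂ (Fin n → ℤ)` may be used instead of Finsupp inside the proof.] -/
theorem laurent {ι : Type} [Fintype ι] [DecidableEq ι] (w : ι → Fin n → ℤ) (g : Matrix ι ι ℂ)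
    (p : MvPolynomial (ι × ι) ℂ) : ∃ b : (Fin n → ℤ) →₀ ℂ,
      (∀ {R : Type} [CommRing R] [Algebra ℂ R] (t : Fin n → Rˣ),
        MvPolynomial.aeval (fun ij : ι × ι => ((g.map (algebraMap ℂ R)) *
          Matrix.diagonal fun a => ((chi (w a) t : Rˣ) : R)) ij.1 ij.2) p =
          b.sum fun ν c => algebraMap ℂ R c * ((chi ν t : Rˣ) : R)) ∧
      ∀ (l : List (Fin n)), MvPolynomial.aeval (fun ij : ι × ι => g ij.1 ij.2)
          (l.foldr (fun k q => dY (Matrix.diagonal fun a => ((w a k : ℤ) : ℂ)) q) p) =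
        b.sum fun ν c => c * (l.map fun k => ((ν k : ℤ) : ℂ)).prod := by
  obtain ⟨b, hb1, hb2⟩ := a4a_laurent w g p
  refine ⟨b, hb1, fun l => ?_⟩
  have h1 := hb2 (l.map fun k => (k, 0))
  rw [List.foldr_map] at h1
  have h2 : (fun (k : Fin n) (q : MvPolynomial (ι × ι) ℂ) => a4aOp w (k, 0) q) =
      fun k q => dY (Matrix.diagonal fun a => ((w a k : ℤ) : ℂ)) q := by
    funext k q
    unfold a4aOp
    rw [MvPolynomial.C_0, zero_mul, add_zero]
  rw [h2] at h1
  rw [h1]
  refine Finsupp.sum_congr fun ν _ => ?_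
  rw [List.map_map]
  congr 2
  refine List.map_congr_left fun k _ => ?_
  show ((ν k : ℤ) : ℂ) + 0 = _
  rw [add_zero]

/-- (row A4) A finitely supported function on `ℤ^n` all of whose moments vanish is `0`: if `∑ b ν * ∏_{k ∈ l} ν k = 0` for all lists `l` then `∑ b ν * q(ν) = 0` for
all polynomials `q` in `n` variables; choose `q` with `q(ν₀) = 1` and `q(ν) = 0` for the other `ν` in the support. -/
theorem moments (b : (Fin n → ℤ) →₀ ℂ)
    (h : ∀ l : List (Fin n), (b.sum fun ν c => c * (l.map fun k => ((ν k : ℤ) : ℂ)).prod) = 0) :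
    b = 0 := by
  classical
  have key : ∀ (q : MvPolynomial (Fin n) ℂ) (l : List (Fin n)),
      (b.sum fun ν c => c * (l.map fun k => ((ν k : ℤ) : ℂ)).prod *
        MvPolynomial.eval (fun k => ((ν k : ℤ) : ℂ)) q) = 0 := by
    intro q
    induction q using MvPolynomial.induction_on with
    | C a =>
      intro l
      have h1 := h l
      simp only [MvPolynomial.eval_C]
      rw [← Finsupp.sum_mul, h1, zero_mul]
    | add p q hp hq =>
      intro l
      simp only [map_add, mul_add]
      rw [Finsupp.sum_add, hp, hq, add_zero]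
    | mul_X p k hp =>
      intro l
      rw [← hp (k :: l)]
      refine Finsupp.sum_congr fun ν _ => ?_
      rw [map_mul, MvPolynomial.eval_X, List.map_cons, List.prod_cons]
      ring
  ext ν₀
  rw [Finsupp.zero_apply]
  by_contra hne
  have hk : ∀ ν : Fin n → ℤ, ∃ k : Fin n, ν ≠ ν₀ → ν k ≠ ν₀ k := by
    intro ν
    by_cases hν : ν = ν₀
    · by_cases hn : Nonempty (Fin n)
      · obtain ⟨k⟩ := hn
        exact ⟨k, fun h' => absurd hν h'⟩
      · exfalso
        have hn0 : n = 0 := by
          by_contra h0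
          exact hn ⟨⟨0, Nat.pos_of_ne_zero h0⟩⟩
        subst hn0
        have h1 := h []
        have h2 : b.support ⊆ {ν₀} := by
          intro ν _
          rw [Finset.mem_singleton]
          exact Subsingleton.elim _ _
        rw [Finsupp.sum_of_support_subset b h2 _ (by intros; rw [zero_mul]),
          Finset.sum_singleton] at h1
        simp at h1
        exact hne h1
    · have : ∃ k, ν k ≠ ν₀ k := by
        by_contra hno
        push Not at hno
        exact hν (funext hno)
      obtain ⟨k, hk⟩ := this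
      exact ⟨k, fun _ => hk⟩
  choose κ hκ using hk
  have h1 := key (∏ ν ∈ b.support.erase ν₀,
    (MvPolynomial.X (κ ν) - MvPolynomial.C ((ν (κ ν) : ℤ) : ℂ))) []
  unfold Finsupp.sum at h1
  rw [Finset.sum_eq_single ν₀] at h1
  · beta_reduce at h1
    rw [List.map_nil, List.prod_nil, mul_one, map_prod] at h1
    rcases mul_eq_zero.1 h1 with h2 | h2
    · exact hne h2
    · rw [Finset.prod_eq_zero_iff] at h2
      obtain ⟨ν, hν, h3⟩ := h2
      rw [map_sub, MvPolynomial.eval_X, MvPolynomial.eval_C, sub_eq_zero] at h3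
      exact hκ ν (Finset.ne_of_mem_erase hν) (Int.cast_injective h3).symm
  · intro ν hν hνne
    beta_reduce
    have h5 : MvPolynomial.eval (fun k => ((ν k : ℤ) : ℂ))
        (∏ ν' ∈ b.support.erase ν₀,
          (MvPolynomial.X (κ ν') - MvPolynomial.C ((ν' (κ ν') : ℤ) : ℂ))) = 0 := by
      rw [map_prod]
      refine Finset.prod_eq_zero (Finset.mem_erase.2 ⟨hνne, hν⟩) ?_
      rw [map_sub, MvPolynomial.eval_X, MvPolynomial.eval_C, sub_self]
    rw [List.map_nil, List.prod_nil, mul_one, h5, mul_zero]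
  · intro hν
    exact absurd (Finsupp.mem_support_iff.2 hne) hν

/-- the torus point in a faithful representation in weight basis -/
theorem mthA4b_aux {R : Type} [CommRing R] [Algebra ℂ R] (t : Fin n → Rˣ) (E : MTF.Rep G)
    (hE : E.Faithful) (w : E.ι → Fin n → ℤ) (hw : C.IsW E w) :
    ∃ φ : G.Pt R, E.pt φ = Matrix.diagonal fun a => ((chi (w a) t : Rˣ) : R) := by
  refine exists_pt E hE _ fun p hp => ?_
  obtain ⟨b, hb1, hb2⟩ := laurent w (1 : Matrix E.ι E.ι ℂ) p
  have hco : ∀ (q : MvPolynomial (E.ι × E.ι) ℂ) (x : G.X),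
      (MvPolynomial.aeval (fun ij : E.ι × E.ι => E.co ij.1 ij.2) q).1 x =
        MvPolynomial.aeval (fun ij : E.ι × E.ι => E.ρ x ij.1 ij.2) q := by
    intro q x
    let evx : G.O →ₐ[ℂ] ℂ :=
      { toFun := fun f => f.1 x
        map_one' := rfl
        map_mul' := fun _ _ => rfl
        map_zero' := rfl
        map_add' := fun _ _ => rfl
        commutes' := fun _ => rfl }
    have h : evx.comp (MvPolynomial.aeval (fun ij : E.ι × E.ι => E.co ij.1 ij.2)) =
        MvPolynomial.aeval (fun ij : E.ι × E.ι => E.ρ x ij.1 ij.2) := by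
      apply MvPolynomial.algHom_ext
      intro ij
      rw [AlgHom.comp_apply, MvPolynomial.aeval_X, MvPolynomial.aeval_X]
      rfl
    rw [← h]
    rfl
  have h0 : ∀ l : List (Fin n), MvPolynomial.aeval (fun ij : E.ι × E.ι => E.co ij.1 ij.2)
      (l.foldr (fun k q => dY (Matrix.diagonal fun a => ((w a k : ℤ) : ℂ)) q) p) = 0 := by
    intro l
    induction l with
    | nil =>
      apply AffGrp.O_ext
      intro x
      rw [hco]
      exact hp x
    | cons k l ih =>
      rw [List.foldr_cons, ← hw.d_h k, aeval_dY, ih, map_zero]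
  have hb0 : b = 0 := by
    refine moments b fun l => ?_
    rw [← hb2 l]
    have h1 := hco (l.foldr (fun k q => dY (Matrix.diagonal fun a => ((w a k : ℤ) : ℂ)) q) p) 1
    rw [h0, map_one] at h1
    rw [← h1]
    rfl
  have h2 := hb1 (R := R) t
  rw [hb0, Finsupp.sum_zero_index, Matrix.map_one _ (map_zero _) (map_one _), one_mul] at h2
  exact h2

/-- (row A4) The torus is in the group.  Proof: `exists_pt C.F C.faith`.  Let `p` vanish on the group, `b` from `laurent` with `g = 1`.  The polynomials `l.foldr ..` vanish on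
the group: `C.d_h k` says that the diagonal matrix is `C.F.d (C.bs (inl k))`, `aeval_dY`.  So all moments of `b` vanish (`g = 1 = C.F.ρ 1`), `b = 0`, and the value of
`p` at the diagonal matrix is `0`.
For arbitrary `E` in weight basis: apply this to the faithful representation `rsum C.F E` (its weights are `Sum.elim C.wt w`, `rsum_d`; redo the argument for a general faithful
representation in weight basis), and compare the `C.F`-blocks (`pt_injective`), as in `exists_ex`. -/
theorem exists_tq {R : Type} [CommRing R] [Algebra ℂ R] (t : Fin n → Rˣ) :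
    ∃ φ : G.Pt R, ∀ (E : MTF.Rep G) (w : E.ι → Fin n → ℤ), C.IsW E w →
      E.pt φ = Matrix.diagonal fun a => ((chi (w a) t : Rˣ) : R) := by
  obtain ⟨φ₀, h₀⟩ := mthA4b_aux C t C.F C.faith C.wt C.isW_F
  refine ⟨φ₀, fun E w hw => ?_⟩
  have hW : C.IsW (rsum C.F E) (Sum.elim C.wt w) := by
    constructor
    intro k
    rw [rsum_d, C.isW_F.d_h, hw.d_h]
    refine Matrix.ext fun a b => ?_
    rcases a with a | a <;> rcases b with b | b
    · show (Matrix.diagonal fun a => ((C.wt a k : ℤ) : ℂ)) a b =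
        (Matrix.diagonal fun a => ((Sum.elim C.wt w a k : ℤ) : ℂ)) (Sum.inl a) (Sum.inl b)
      rw [Matrix.diagonal_apply, Matrix.diagonal_apply]
      by_cases hab : a = b
      · rw [if_pos hab, if_pos (by rw [hab])]
        rfl
      · rw [if_neg hab, if_neg (fun h => hab (Sum.inl_injective h))]
    · show (0 : ℂ) = (Matrix.diagonal fun a => ((Sum.elim C.wt w a k : ℤ) : ℂ)) (Sum.inl a) (Sum.inr b)
      rw [Matrix.diagonal_apply_ne _ (fun h => by cases h)]
    · show (0 : ℂ) = (Matrix.diagonal fun a => ((Sum.elim C.wt w a k : ℤ) : ℂ)) (Sum.inr a) (Sum.inl b)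
      rw [Matrix.diagonal_apply_ne _ (fun h => by cases h)]
    · show (Matrix.diagonal fun a => ((w a k : ℤ) : ℂ)) a b =
        (Matrix.diagonal fun a => ((Sum.elim C.wt w a k : ℤ) : ℂ)) (Sum.inr a) (Sum.inr b)
      rw [Matrix.diagonal_apply, Matrix.diagonal_apply]
      by_cases hab : a = b
      · rw [if_pos hab, if_pos (by rw [hab])]
        rfl
      · rw [if_neg hab, if_neg (fun h => hab (Sum.inr_injective h))]
  obtain ⟨φ₁, h₁⟩ := mthA4b_aux C t (rsum C.F E) (rsum_faithful C.F E C.faith) _ hW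
  rw [rsum_pt] at h₁
  have hF : C.F.pt φ₁ = C.F.pt φ₀ := by
    rw [h₀]
    refine Matrix.ext fun a b => ?_
    have h2 := congrFun (congrFun h₁ (Sum.inl a)) (Sum.inl b)
    refine Eq.trans h2 ?_
    rw [Matrix.diagonal_apply, Matrix.diagonal_apply]
    by_cases hab : a = b
    · rw [if_pos hab, if_pos (by rw [hab])]
      rfl
    · rw [if_neg hab]
      exact if_neg (fun h => hab (Sum.inl_injective h))
  have hφ : φ₁ = φ₀ := C.F.pt_injective C.faith hF
  rw [← hφ]
  refine Matrix.ext fun a b => ?_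
  have h2 := congrFun (congrFun h₁ (Sum.inr a)) (Sum.inr b)
  refine Eq.trans h2 ?_
  rw [Matrix.diagonal_apply, Matrix.diagonal_apply]
  by_cases hab : a = b
  · rw [if_pos hab, if_pos (by rw [hab])]
    rfl
  · rw [if_neg hab]
    exact if_neg (fun h => hab (Sum.inr_injective h))

theorem tq_pt {R : Type} [CommRing R] [Algebra ℂ R] (t : Fin n → Rˣ)
    {E : MTF.Rep G} {w : E.ι → Fin n → ℤ} (hE : C.IsW E w) :
    E.pt (tq C t) = Matrix.diagonal fun a => ((chi (w a) t : Rˣ) : R) := by
  classical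
  have h := exists_tq C t
  unfold tq
  rw [dif_pos h]
  exact h.choose_spec E w hE

/-- (row A4) `pt_injective` for `C.F`, `tq_pt`, `chi_mul`-type lemma for the product of units -/
theorem tq_mul {R : Type} [CommRing R] [Algebra ℂ R] (t t' : Fin n → Rˣ) :
    tq C (t * t') = tq C t * tq C t' := by
  apply C.F.pt_injective C.faith
  rw [C.F.pt_mul, tq_pt C _ C.isW_F, tq_pt C _ C.isW_F, tq_pt C _ C.isW_F,
    Matrix.diagonal_mul_diagonal]
  congr 1
  funext a
  rw [Pool.Agent.MP_c45d35_ag.chi_mul, Units.val_mul]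

/-- (row A4) change of coefficients, `chi_map` -/
theorem tq_map {R R' : Type} [CommRing R] [Algebra ℂ R] [CommRing R'] [Algebra ℂ R'] (σ : R →ₐ[ℂ] R')
    (t : Fin n → Rˣ) : (tq C t).map σ = tq C (fun k => Units.map (σ : R →* R') (t k)) := by
  apply C.F.pt_injective C.faith
  rw [C.F.pt_map, tq_pt C _ C.isW_F, tq_pt C _ C.isW_F, Matrix.diagonal_map (map_zero σ)]
  congr 1
  funext a
  have h := Pool.Agent.MP_c45d35_ag.chi_map (Units.map (σ : R →* R')) (C.wt a) t
  rw [← h]
  rfl

end Pool.Agent.MTH
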