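import Pool.Agent.MTH.A0
import Pool.Agent.MTG.B1f

/-! # MTH-A5 -/

namespace Pool.Agent.MTH

open Matrix
open Pool.Agent.MTF Pool.Agent.MTG
open Pool.Agent.MTD (ev)
open Pool.Agent.MP_c45d35_ag (chi)

variable {G : AffGrp} {n : ℕ} {D : RD n} (C : CD G D)

/-- `Ad` is multiplicative -/
theorem Ad_mul (x y : G.X) (v : G.Lie) : G.Ad (x * y) v = G.Ad x (G.Ad y v) := by
  apply G.Lie_ext
  intro f
  show v.1 (G.cj (x * y) f) = v.1 (G.cj y (G.cj x f))
  congr 1
  apply AffGrp.O_ext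
  intro z
  show f.1 (x * y * z * (x * y)⁻¹) = f.1 (x * (y * z * y⁻¹) * x⁻¹)
  congr 1
  group

theorem Ad_one (v : G.Lie) : G.Ad 1 v = v := by
  apply G.Lie_ext
  intro f
  show v.1 (G.cj 1 f) = v.1 f
  congr 1
  apply AffGrp.O_ext
  intro z
  show f.1 (1 * z * 1⁻¹) = f.1 z
  congr 1
  group

/-- a linear form on matrices in terms of the matrix units -/
theorem mthA5a_lin {ι : Type} [Fintype ι] [DecidableEq ι] (l : Matrix ι ι ℂ →ₗ[ℂ] ℂ)
    (M : Matrix ι ι ℂ) : l M = ∑ a, ∑ b, M a b * l (Matrix.single a b 1) := by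
  conv_lhs => rw [Matrix.matrix_eq_sum_single M]
  rw [map_sum]
  refine Finset.sum_congr rfl fun a _ => ?_
  rw [map_sum]
  refine Finset.sum_congr rfl fun b _ => ?_
  have h : Matrix.single a b (M a b) = M a b • Matrix.single a b (1 : ℂ) := by
    rw [Matrix.smul_single, smul_eq_mul, mul_one]
  rw [h, map_smul, smul_eq_mul]

/-- the coefficients of the inverse -/
def mthA5a_coI (F : MTF.Rep G) (a b : F.ι) : G.O := ⟨fun x => F.ρ x⁻¹ a b, G.inv_mem _ (F.mem a b)⟩

/-- the derivative of the coefficients of the inverse -/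
theorem mthA5a_coI_d (F : MTF.Rep G) (u : G.Lie) (a b : F.ι) :
    u.1 (mthA5a_coI F a b) = - F.d u a b := by
  have h1 : ∑ e, F.co a e * mthA5a_coI F e b = algebraMap ℂ G.O ((1 : Matrix F.ι F.ι ℂ) a b) := by
    apply AffGrp.O_ext
    intro x
    rw [AffGrp.O_sum]
    have h1 : F.ρ x * F.ρ x⁻¹ = 1 := by rw [← map_mul, mul_inv_cancel, map_one]
    have h2 := congrFun (congrFun h1 a) b
    rw [Matrix.mul_apply] at h2
    exact h2
  have h2 := congrArg u.1 h1
  have h3 : u.1 (1 : G.O) = 0 := by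
    have := u.2 1 1
    rw [mul_one] at this
    have h2 : (1 : G.O).1 1 = 1 := rfl
    rw [h2] at this
    linear_combination -this
  rw [Algebra.algebraMap_eq_smul_one, map_smul, h3, smul_zero, map_sum] at h2
  have h4 : ∀ e, u.1 (F.co a e * mthA5a_coI F e b) =
      (1 : Matrix F.ι F.ι ℂ) a e * u.1 (mthA5a_coI F e b) +
        (1 : Matrix F.ι F.ι ℂ) e b * F.d u a e := by
    intro e
    rw [u.2]
    have h5 : (F.co a e).1 1 = (1 : Matrix F.ι F.ι ℂ) a e := by
      show F.ρ 1 a e = _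
      rw [map_one]
    have h6 : (mthA5a_coI F e b).1 1 = (1 : Matrix F.ι F.ι ℂ) e b := by
      show F.ρ 1⁻¹ e b = _
      rw [inv_one, map_one]
    rw [h5, h6]
    rfl
  simp only [h4] at h2
  rw [Finset.sum_add_distrib] at h2
  have h7 : ∑ e, (1 : Matrix F.ι F.ι ℂ) a e * u.1 (mthA5a_coI F e b) = u.1 (mthA5a_coI F a b) := by
    rw [Finset.sum_eq_single a]
    · rw [Matrix.one_apply_eq, one_mul]
    · intro e _ he
      rw [Matrix.one_apply_ne he.symm, zero_mul]
    · intro h; exact absurd (Finset.mem_univ _) h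
  have h8 : ∑ e, (1 : Matrix F.ι F.ι ℂ) e b * F.d u a e = F.d u a b := by
    rw [Finset.sum_eq_single b]
    · rw [Matrix.one_apply_eq, one_mul]
    · intro e _ he
      rw [Matrix.one_apply_ne he, zero_mul]
    · intro h; exact absurd (Finset.mem_univ _) h
  rw [h7, h8] at h2
  exact eq_neg_of_add_eq_zero_left h2

/-- the function `x ↦ l (F(x) M F(x⁻¹))` -/
noncomputable def mthA5a_g (F : MTF.Rep G) (l : Matrix F.ι F.ι ℂ →ₗ[ℂ] ℂ) (M : Matrix F.ι F.ι ℂ) :
    G.O :=
  ∑ a, ∑ b, ∑ c, ∑ c', (l (Matrix.single a b 1) * M c' c) • (F.co a c' * mthA5a_coI F c b)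

theorem mthA5a_g_apply (F : MTF.Rep G) (l : Matrix F.ι F.ι ℂ →ₗ[ℂ] ℂ) (M : Matrix F.ι F.ι ℂ)
    (x : G.X) : (mthA5a_g F l M).1 x = l (F.ρ x * M * F.ρ x⁻¹) := by
  rw [mthA5a_lin l]
  unfold mthA5a_g
  simp only [AffGrp.O_sum, AffGrp.O_smul, AffGrp.O_mul, Matrix.mul_apply, Finset.sum_mul]
  refine Finset.sum_congr rfl fun a _ => Finset.sum_congr rfl fun b _ =>
    Finset.sum_congr rfl fun c _ => Finset.sum_congr rfl fun c' _ => ?_
  show _ * (F.ρ x a c' * F.ρ x⁻¹ c b) = _
  ring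

theorem mthA5a_g_d (F : MTF.Rep G) (l : Matrix F.ι F.ι ℂ →ₗ[ℂ] ℂ) (M : Matrix F.ι F.ι ℂ)
    (u : G.Lie) : u.1 (mthA5a_g F l M) = l (F.d u * M - M * F.d u) := by
  rw [mthA5a_lin l]
  unfold mthA5a_g
  simp only [map_sum, map_smul]
  refine Finset.sum_congr rfl fun a _ => Finset.sum_congr rfl fun b _ => ?_
  have h4 : ∀ c c', u.1 (F.co a c' * mthA5a_coI F c b) =
      (1 : Matrix F.ι F.ι ℂ) c b * F.d u a c' - (1 : Matrix F.ι F.ι ℂ) a c' * F.d u c b := by
    intro c c'
    rw [u.2, mthA5a_coI_d]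
    have h5 : (F.co a c').1 1 = (1 : Matrix F.ι F.ι ℂ) a c' := by
      show F.ρ 1 a c' = _
      rw [map_one]
    have h6 : (mthA5a_coI F c b).1 1 = (1 : Matrix F.ι F.ι ℂ) c b := by
      show F.ρ 1⁻¹ c b = _
      rw [inv_one, map_one]
    rw [h5, h6]
    show _ + _ * F.d u a c' = _
    ring
  simp only [h4, smul_eq_mul]
  have e1 : ∑ c, ∑ c', l (Matrix.single a b 1) * M c' c *
      ((1 : Matrix F.ι F.ι ℂ) c b * F.d u a c' - (1 : Matrix F.ι F.ι ℂ) a c' * F.d u c b) =
      (∑ c, (∑ c', F.d u a c' * M c' c) * (1 : Matrix F.ι F.ι ℂ) c b -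
        ∑ c, (∑ c', (1 : Matrix F.ι F.ι ℂ) a c' * M c' c) * F.d u c b) *
        l (Matrix.single a b 1) := by
    rw [← Finset.sum_sub_distrib, Finset.sum_mul]
    refine Finset.sum_congr rfl fun c _ => ?_
    rw [Finset.sum_mul, Finset.sum_mul, ← Finset.sum_sub_distrib, Finset.sum_mul]
    refine Finset.sum_congr rfl fun c' _ => ?_
    ring
  rw [e1]
  congr 1
  have e2 : ∑ c, (∑ c', F.d u a c' * M c' c) * (1 : Matrix F.ι F.ι ℂ) c b =
      (F.d u * M * (1 : Matrix F.ι F.ι ℂ) : Matrix F.ι F.ι ℂ) a b := by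
    rw [Matrix.mul_apply]
    exact Finset.sum_congr rfl fun c _ => by rw [Matrix.mul_apply]
  have e3 : ∑ c, (∑ c', (1 : Matrix F.ι F.ι ℂ) a c' * M c' c) * F.d u c b =
      ((1 : Matrix F.ι F.ι ℂ) * M * F.d u : Matrix F.ι F.ι ℂ) a b := by
    rw [Matrix.mul_apply]
    exact Finset.sum_congr rfl fun c _ => by rw [Matrix.mul_apply]
  rw [e2, e3, Matrix.mul_one, Matrix.one_mul, Matrix.sub_apply]

/-- the coordinates of `Ad x v` -/
theorem mthA5a_main (C : CD G D) (v : G.Lie) (i : Fin n ⊕ D.Rt) : ∃ g : G.O,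
    (∀ x, g.1 x = C.bs.repr (G.Ad x v) i) ∧ ∀ u : G.Lie, u.1 g = C.bs.repr ⁅u, v⁆ i := by
  obtain ⟨lam, hlam⟩ := LinearMap.exists_leftInverse_of_injective C.F.d
    (LinearMap.ker_eq_bot.2 (AffGrp.d_injective C.F C.faith))
  have hl : ∀ w : G.Lie, ((C.bs.coord i).comp lam) (C.F.d w) = C.bs.repr w i := by
    intro w
    have h1 : lam (C.F.d w) = w := LinearMap.congr_fun hlam w
    rw [LinearMap.comp_apply, h1]
    rfl
  refine ⟨mthA5a_g C.F ((C.bs.coord i).comp lam) (C.F.d v), fun x => ?_, fun u => ?_⟩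
  · rw [mthA5a_g_apply, ← C.F.d_Ad, hl]
  · rw [mthA5a_g_d, ← C.F.d_lie, hl]

/-- (row A5) The coefficients of the adjoint representation are regular.  Proof: `C.F.d (G.Ad x v) = C.F.ρ x * C.F.d v * C.F.ρ x⁻¹` (`Rep.d_Ad`), whose entries
are regular functions of `x` (`G.inv_mem`); `C.F.d` is injective (`AffGrp.d_injective`, `C.faith`), so there is a linear map `λ` from matrices to `G.Lie` with
`λ (C.F.d v) = v` (`LinearMap.exists_leftInverse_of_injective`), and `C.bs.repr (G.Ad x v) k = C.bs.coord k (λ (..))` is a `ℂ`-combination of entries. -/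
theorem Ad_mem (i j : Fin n ⊕ D.Rt) : (fun x => C.bs.repr (G.Ad x (C.bs j)) i) ∈ G.O := by
  obtain ⟨g, hg, _⟩ := mthA5a_main C (C.bs j) i
  have h : (fun x => C.bs.repr (G.Ad x (C.bs j)) i) = g.1 := funext fun x => (hg x).symm
  rw [h]
  exact g.2

/-- the adjoint representation -/
noncomputable def AdR : MTF.Rep G where
  ι := Fin n ⊕ D.Rt
  ρ :=
    { toFun := fun x => Matrix.of fun i j => C.bs.repr (G.Ad x (C.bs j)) i
      map_one' := by
        ext i j
        rw [Matrix.of_apply, Ad_one, Matrix.one_apply, C.bs.repr_self, Finsupp.single_apply]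
        exact if_congr eq_comm rfl rfl
      map_mul' := fun x y => by
        ext i j
        rw [Matrix.of_apply, Matrix.mul_apply, Ad_mul]
        conv_lhs => rw [← C.bs.sum_repr (G.Ad y (C.bs j)), map_sum, map_sum, Finsupp.finsetSum_apply]
        refine Finset.sum_congr rfl fun k _ => ?_
        rw [map_smul, map_smul, Finsupp.smul_apply, smul_eq_mul, mul_comm]
        rfl }
  mem i j := Ad_mem C i j

/-- the weights of the adjoint representation -/
def wA : Fin n ⊕ D.Rt → Fin n → ℤ := Sum.elim (fun _ => 0) fun γ => γ.1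

/-- (row A5) The derivative of the adjoint representation is `ad`: `(AdR C).d v i j = C.bs.repr ⁅v, C.bs j⁆ i`.
Proof: `(AdR C).d v i j = v (x ↦ C.bs.repr (G.Ad x (C.bs j)) i)`.  With `λ` as in `Ad_mem`: this function is `ℓ (F(x) F(b_j) F(x⁻¹))` with a linear form `ℓ` on matrices; the
point derivation `v` of the entries of `F.ρ x⁻¹` is `- F.d v` (apply `v` to `F.ρ x * F.ρ x⁻¹ = 1`, entrywise Leibniz rule), so the value is
`ℓ (F.d v * F.d b_j - F.d b_j * F.d v) = ℓ (F.d ⁅v, b_j⁆)` (`Rep.d_lie`). -/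
theorem AdR_d (v : G.Lie) (i j : Fin n ⊕ D.Rt) :
    (AdR C).d v i j = C.bs.repr ⁅v, C.bs j⁆ i := by
  obtain ⟨g, hg, hd⟩ := mthA5a_main C (C.bs j) i
  rw [← hd v]
  show v.1 ((AdR C).co i j) = v.1 g
  congr 1
  apply AffGrp.O_ext
  intro x
  rw [hg]
  rfl

/-- (row A5) from `AdR_d`, `C.h_h`, `C.h_e`. -/
theorem isW_AdR : C.IsW (AdR C) (wA (D := D)) := by
  constructor
  intro k
  refine Matrix.ext fun i j => ?_
  rw [AdR_d]
  rcases j with j | γ
  · rw [C.h_h, map_zero, Finsupp.zero_apply, Matrix.diagonal_apply]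
    by_cases hij : i = Sum.inl j
    · subst hij
      rw [if_pos rfl]
      show (0 : ℂ) = (((0 : Fin n → ℤ) k : ℤ) : ℂ)
      simp
    · exact (if_neg hij).symm
  · rw [C.h_e, map_smul, C.bs.repr_self, Finsupp.smul_apply, Finsupp.single_apply,
      Matrix.diagonal_apply]
    by_cases hij : i = Sum.inr γ
    · subst hij
      rw [if_pos rfl, if_pos rfl, smul_eq_mul, mul_one]
      rfl
    · rw [if_neg (fun h => hij h.symm), smul_zero]
      exact (if_neg hij).symm

variable {R : Type} [CommRing R] [Algebra ℂ R]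

/-- the adjoint action of a point on the Lie algebra with coefficients -/
noncomputable def Adp (φ : G.Pt R) (z : LR D R) : LR D R := ((AdR C).pt φ).mulVec z

theorem Adp_mul (φ ψ : G.Pt R) (z : LR D R) : Adp C (φ * ψ) z = Adp C φ (Adp C ψ z) := by
  unfold Adp
  rw [Rep.pt_mul]
  exact (Matrix.mulVec_mulVec z _ _).symm

theorem Adp_one (z : LR D R) : Adp C (1 : G.Pt R) z = z := by
  unfold Adp
  rw [Rep.pt_one]
  exact Matrix.one_mulVec z

theorem Adp_add (φ : G.Pt R) (z z' : LR D R) : Adp C φ (z + z') = Adp C φ z + Adp C φ z' :=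
  Matrix.mulVec_add _ _ _

theorem Adp_smul (φ : G.Pt R) (r : R) (z : LR D R) : Adp C φ (r • z) = r • Adp C φ z :=
  Matrix.mulVec_smul _ _ _

/-- the identity between regular functions behind `pt_dm` -/
theorem A5b_id (E : MTF.Rep G) (j : Fin n ⊕ D.Rt) (a b : E.ι) :
    ∑ c, (E.d (C.bs j) c b) • E.co a c =
      ∑ i, ∑ c, (E.d (C.bs i) a c) • ((AdR C).co i j * E.co c b) := by
  apply AffGrp.O_ext
  intro x
  have h1 : E.d (G.Ad x (C.bs j)) * E.ρ x = E.ρ x * E.d (C.bs j) := by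
    rw [E.d_Ad, Matrix.mul_assoc, ← map_mul, inv_mul_cancel, map_one, Matrix.mul_one]
  have h2 : E.d (G.Ad x (C.bs j)) = ∑ i, C.bs.repr (G.Ad x (C.bs j)) i • E.d (C.bs i) := by
    conv_lhs => rw [← C.bs.sum_repr (G.Ad x (C.bs j)), map_sum]
    exact Finset.sum_congr rfl fun i _ => map_smul _ _ _
  rw [h2] at h1
  have h3 := congrFun (congrFun h1 a) b
  rw [Matrix.sum_mul, Matrix.sum_apply, Matrix.mul_apply] at h3
  rw [AffGrp.O_sum, AffGrp.O_sum]
  simp only [AffGrp.O_sum, AffGrp.O_smul, AffGrp.O_mul, Rep.co_apply]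
  have h4 : ∀ c, E.d (C.bs j) c b * E.ρ x a c = E.ρ x a c * E.d (C.bs j) c b := fun c => mul_comm _ _
  simp only [h4]
  rw [← h3]
  refine Finset.sum_congr rfl fun i _ => ?_
  rw [Matrix.mul_apply]
  refine Finset.sum_congr rfl fun c _ => ?_
  rw [Matrix.smul_apply, smul_eq_mul]
  show _ = E.d (C.bs i) a c * (C.bs.repr (G.Ad x (C.bs j)) i * E.ρ x c b)
  ring

/-- (row A5) `φ z = (Ad φ z) φ` in every representation.  Proof: entrywise; both sides are `φ` of elements of `G.O` (with coefficients `z`): for complex points it is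
`Rep.d_Ad` and `G.Ad x (C.bs j) = ∑ i, C.bs.repr (..) i • C.bs i`.  So for every `j` the identity
`∑ c, E.co a c * (E.d (C.bs j)) c b = ∑ i, ∑ c, (AdR C).co i j * (E.d (C.bs i)) a c * E.co c b` holds in `G.O`; apply `φ`, multiply by `z j` and sum over `j`. -/
theorem pt_dm (E : MTF.Rep G) (φ : G.Pt R) (z : LR D R) :
    E.pt φ * C.dm E z = C.dm E (Adp C φ z) * E.pt φ := by
  ext a b
  rw [Matrix.mul_apply, Matrix.mul_apply]
  have h1 : ∀ j, ∑ c, φ (E.co a c) * algebraMap ℂ R (E.d (C.bs j) c b) =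
      ∑ i, ∑ c, φ ((AdR C).co i j) * (algebraMap ℂ R (E.d (C.bs i) a c) * φ (E.co c b)) := by
    intro j
    have h2 := congrArg φ (A5b_id C E j a b)
    simp only [map_sum, map_mul, Algebra.smul_def, AlgHomClass.commutes] at h2
    refine Eq.trans (Finset.sum_congr rfl fun c _ => mul_comm _ _) (h2.trans ?_)
    refine Finset.sum_congr rfl fun i _ => Finset.sum_congr rfl fun c _ => ?_
    ring
  have h3 : ∑ c, E.pt φ a c * C.dm E z c b =
      ∑ j, z j * ∑ c, φ (E.co a c) * algebraMap ℂ R (E.d (C.bs j) c b) := by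
    simp only [C.dm_apply, Rep.pt_apply, Finset.mul_sum]
    rw [Finset.sum_comm]
    refine Finset.sum_congr rfl fun j _ => Finset.sum_congr rfl fun c _ => ?_
    ring
  have h4 : ∑ c, C.dm E (Adp C φ z) a c * E.pt φ c b =
      ∑ j, z j * ∑ i, ∑ c, φ ((AdR C).co i j) *
        (algebraMap ℂ R (E.d (C.bs i) a c) * φ (E.co c b)) := by
    have h5 : ∀ i, Adp C φ z i = ∑ j, φ ((AdR C).co i j) * z j := fun i => rfl
    simp only [C.dm_apply, Rep.pt_apply, Finset.mul_sum, Finset.sum_mul, h5]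
    rw [Finset.sum_comm]
    refine Eq.trans (Finset.sum_congr rfl fun i _ => Finset.sum_comm) ?_
    rw [Finset.sum_comm]
    refine Finset.sum_congr rfl fun j _ => Finset.sum_congr rfl fun i _ =>
      Finset.sum_congr rfl fun c _ => ?_
    ring
  rw [h3, h4]
  exact Finset.sum_congr rfl fun j _ => by rw [h1]

/-- (row A5) `dm` in the adjoint representation is `ad`: `AdR_d`, `C.br`, `C.sc`. -/
theorem dm_AdR (z z' : LR D R) : (C.dm (AdR C) z).mulVec z' = C.br z z' := by
  funext k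
  show ∑ j, C.dm (AdR C) z k j * z' j = ∑ i, ∑ j, z i * z' j * algebraMap ℂ R (C.sc i j k)
  rw [Finset.sum_comm]
  refine Finset.sum_congr rfl fun j _ => ?_
  rw [C.dm_apply, Finset.sum_mul]
  refine Finset.sum_congr rfl fun i _ => ?_
  rw [AdR_d]
  show z i * algebraMap ℂ R (C.sc i j k) * z' j = _
  ring

/-- (row A5) `dm` in a faithful representation is injective.  For complex `z` it is `d_injective`; the complex matrices `E.d (C.bs j)` are linearly independent over `ℂ`, so there are linear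
forms `ℓ i` on matrices over `ℂ` with `ℓ i (E.d (C.bs j)) = δ_ij`; extend them to matrices over `R`. -/
theorem dm_inj (E : MTF.Rep G) (hE : E.Faithful) {z z' : LR D R} (h : C.dm E z = C.dm E z') : z = z' := by
  classical
  obtain ⟨lam, hlam⟩ := LinearMap.exists_leftInverse_of_injective E.d
    (LinearMap.ker_eq_bot.2 (AffGrp.d_injective E hE))
  -- recovering the coefficients
  have key : ∀ (y : LR D R) (i : Fin n ⊕ D.Rt), y i =
      ∑ a, ∑ b, C.dm E y a b * algebraMap ℂ R (C.bs.repr (lam (Matrix.single a b 1)) i) := by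
    intro y i
    have h1 : ∀ j, ∑ a, ∑ b, E.d (C.bs j) a b * C.bs.repr (lam (Matrix.single a b 1)) i =
        if j = i then 1 else 0 := by
      intro j
      have h2 : E.d (C.bs j) = ∑ a, ∑ b, E.d (C.bs j) a b • Matrix.single a b (1 : ℂ) := by
        conv_lhs => rw [Matrix.matrix_eq_sum_single (E.d (C.bs j))]
        refine Finset.sum_congr rfl fun a _ => Finset.sum_congr rfl fun b _ => ?_
        rw [Matrix.smul_single, smul_eq_mul, mul_one]
      have h3 : lam (E.d (C.bs j)) = C.bs j := LinearMap.congr_fun hlam (C.bs j)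
      have h4 : C.bs.repr (lam (E.d (C.bs j))) i = if j = i then 1 else 0 := by
        rw [h3, C.bs.repr_self, Finsupp.single_apply]
      rw [← h4]
      conv_rhs => rw [h2]
      simp only [map_sum, map_smul, Finsupp.finsetSum_apply, Finsupp.smul_apply, smul_eq_mul]
    have h5 : ∑ a, ∑ b, C.dm E y a b * algebraMap ℂ R (C.bs.repr (lam (Matrix.single a b 1)) i) =
        ∑ j, y j * algebraMap ℂ R
          (∑ a, ∑ b, E.d (C.bs j) a b * C.bs.repr (lam (Matrix.single a b 1)) i) := by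
      simp only [C.dm_apply, map_sum, map_mul, Finset.mul_sum, Finset.sum_mul]
      refine Eq.trans (Finset.sum_congr rfl fun a _ => Finset.sum_comm) ?_
      rw [Finset.sum_comm]
      refine Finset.sum_congr rfl fun j _ => Finset.sum_congr rfl fun a _ =>
        Finset.sum_congr rfl fun b _ => ?_
      ring
    rw [h5]
    simp only [h1]
    rw [Finset.sum_eq_single i]
    · rw [if_pos rfl, map_one, mul_one]
    · intro j _ hj
      rw [if_neg hj, map_zero, mul_zero]
    · intro hi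
      exact absurd (Finset.mem_univ i) hi
  funext i
  rw [key z i, key z' i, h]

/-- (row A5) `Ad φ` is compatible with the bracket: `dm_inj`, `pt_dm`, `dm_br` for `C.F` (`Rep.pt_mul_inv`). -/
theorem Adp_br (φ : G.Pt R) (z z' : LR D R) :
    Adp C φ (C.br z z') = C.br (Adp C φ z) (Adp C φ z') := by
  apply dm_inj C C.F C.faith
  have h1 : ∀ A B : Matrix C.F.ι C.F.ι R, A * C.F.pt φ = B * C.F.pt φ → A = B := by
    intro A B h
    have h2 := congrArg (fun M => M * C.F.pt φ⁻¹) h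
    simp only [Matrix.mul_assoc, Rep.pt_mul_inv, Matrix.mul_one] at h2
    exact h2
  apply h1
  rw [← pt_dm, C.dm_br, C.dm_br, Matrix.mul_sub, Matrix.sub_mul, ← Matrix.mul_assoc,
    ← Matrix.mul_assoc, pt_dm, pt_dm, Matrix.mul_assoc, Matrix.mul_assoc, pt_dm, pt_dm,
    Matrix.mul_assoc, Matrix.mul_assoc]

/-- change of coefficients -/
theorem Adp_map {R' : Type} [CommRing R'] [Algebra ℂ R'] (σ : R →ₐ[ℂ] R') (φ : G.Pt R) (z : LR D R) :
    (fun j => σ (Adp C φ z j)) = Adp C (φ.map σ) (fun j => σ (z j)) := by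
  funext j
  unfold Adp
  simp only [Matrix.mulVec, dotProduct, map_sum, map_mul]
  rfl

end Pool.Agent.MTH
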