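import Pool.Agent.MTH.A3
import Pool.Agent.MTH.A5

/-! # MTH-B1 -/

namespace Pool.Agent.MTH

open Matrix
open Pool.Agent.MTF Pool.Agent.MTG
open Pool.Agent.MTD (ev)
open Pool.Agent.MP_c45d35_ag (chi)

variable {G : AffGrp} {n : ℕ} {D : RD n} (C : CD G D)
variable {R : Type} [CommRing R] [Algebra ℂ R]

theorem Sp_zero {s m : ℤ} : Sp s m (0 : LR D R) :=
  ⟨fun _ h => absurd rfl h, fun _ h => absurd rfl h⟩

theorem Sp_mono {s m m' : ℤ} (h : m' ≤ m) {z : LR D R} (hz : Sp s m z) : Sp s m' z :=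
  ⟨fun k hk => h.trans (hz.1 k hk), fun γ hγ => h.trans (hz.2 γ hγ)⟩

/-- (row B1a) elementary -/
theorem Sp_add {s m : ℤ} {z z' : LR D R} (hz : Sp s m z) (hz' : Sp s m z') : Sp s m (z + z') := by
  refine ⟨fun k hk => ?_, fun γ hγ => ?_⟩
  · by_cases h : z (Sum.inl k) = 0
    · refine hz'.1 k fun h' => hk ?_
      rw [Pi.add_apply, h, h', add_zero]
    · exact hz.1 k h
  · by_cases h : z (Sum.inr γ) = 0
    · refine hz'.2 γ fun h' => hγ ?_
      rw [Pi.add_apply, h, h', add_zero]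
    · exact hz.2 γ h

theorem Sp_neg {s m : ℤ} {z : LR D R} (hz : Sp s m z) : Sp s m (-z) := by
  refine ⟨fun k hk => hz.1 k fun h => hk ?_, fun γ hγ => hz.2 γ fun h => hγ ?_⟩
  · rw [Pi.neg_apply, h, neg_zero]
  · rw [Pi.neg_apply, h, neg_zero]

theorem Sp_smul {s m : ℤ} (r : R) {z : LR D R} (hz : Sp s m z) : Sp s m (r • z) := by
  refine ⟨fun k hk => hz.1 k fun h => hk ?_, fun γ hγ => hz.2 γ fun h => hγ ?_⟩
  · rw [Pi.smul_apply, h, smul_zero]
  · rw [Pi.smul_apply, h, smul_zero]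

theorem Sp_map {R' : Type} [CommRing R'] [Algebra ℂ R'] (σ : R →ₐ[ℂ] R') {s m : ℤ} {z : LR D R}
    (hz : Sp s m z) : Sp s m (fun j => σ (z j)) := by
  refine ⟨fun k hk => hz.1 k fun h => hk ?_, fun γ hγ => hz.2 γ fun h => hγ ?_⟩
  · show σ (z (Sum.inl k)) = 0
    rw [h, map_zero]
  · show σ (z (Sum.inr γ)) = 0
    rw [h, map_zero]

/-- (row B1a) For `m` larger than all heights `Sp s m z` means `z = 0`.  (`M := 1 + ∑ γ, |ht2 γ|`.) -/
theorem exists_Sp_zero (D : RD n) : ∃ M : ℤ, ∀ (R : Type) [CommRing R] (s : ℤ), (s = 1 ∨ s = -1) →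
    ∀ z : LR D R, Sp s M z → z = 0 := by
  refine ⟨1 + ∑ γ : D.Rt, |D.ht2 γ.1|, fun R _ s hs z hz => ?_⟩
  have h0 : 0 ≤ ∑ γ : D.Rt, |D.ht2 γ.1| := Finset.sum_nonneg fun γ _ => abs_nonneg _
  funext j
  by_contra hne
  have hne' : z j ≠ 0 := hne
  rcases j with k | γ
  · have h1 := hz.1 k hne'
    omega
  · have h1 := hz.2 γ hne'
    have h2 : |D.ht2 γ.1| ≤ ∑ γ : D.Rt, |D.ht2 γ.1| :=
      Finset.single_le_sum (f := fun γ : D.Rt => |D.ht2 γ.1|) (fun γ _ => abs_nonneg _)
        (Finset.mem_univ γ)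
    have h3 := le_abs_self (D.ht2 γ.1)
    have h4 := neg_abs_le (D.ht2 γ.1)
    rcases hs with hs | hs
    · rw [hs] at h1
      omega
    · rw [hs] at h1
      omega

/-- `Sp` in terms of the weights of the adjoint representation -/
theorem B1a_iff {S : Type} [CommRing S] {s m : ℤ} {z : LR D S} :
    Sp s m z ↔ ∀ j, z j ≠ 0 → m ≤ s * D.ht2 (wA (D := D) j) := by
  have h0 : D.ht2 (0 : Fin n → ℤ) = 0 := by
    have := D.ht2_add 0 0
    rw [add_zero] at this
    omega
  constructor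
  · intro h j hj
    rcases j with k | γ
    · have h1 := h.1 k hj
      have h2 : wA (D := D) (Sum.inl k) = 0 := rfl
      rw [h2, h0, mul_zero]
      exact h1
    · exact h.2 γ hj
  · intro h
    refine ⟨fun k hk => ?_, fun γ hγ => h (Sum.inr γ) hγ⟩
    have h1 := h (Sum.inl k) hk
    have h2 : wA (D := D) (Sum.inl k) = 0 := rfl
    rw [h2, h0, mul_zero] at h1
    exact h1

/-- a coordinate of a multiple of a basis vector -/
theorem B1a_repr (c : ℂ) (i k : Fin n ⊕ D.Rt) :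
    C.bs.repr (c • C.bs i) k = if i = k then c else 0 := by
  classical
  rw [map_smul, Finsupp.smul_apply, C.bs.repr_self, Finsupp.single_apply, smul_eq_mul]
  split_ifs
  · rw [mul_one]
  · rw [mul_zero]

/-- (row B1a) structure constants respect the weights: `C.sc i j k ≠ 0 → wA k = wA i + wA j`.  From `C.h_h`, `C.h_e` (and antisymmetry `lie_skew`), `C.e_ng`,
`C.e_br`, `C.e_co` (`⁅E γ, E δ⁆` with `δ ≠ ng γ` is a multiple of `E (γ+δ)` or `0`). -/
theorem sc_wt (i j k : Fin n ⊕ D.Rt) (h : C.sc i j k ≠ 0) :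
    wA (D := D) k = wA (D := D) i + wA (D := D) j := by
  unfold CD.sc at h
  rcases i with a | γ
  · rcases j with b | γ
    · rw [C.h_h, map_zero] at h
      exact absurd rfl h
    · rw [C.h_e, B1a_repr] at h
      have h1 : (Sum.inr γ : Fin n ⊕ D.Rt) = k := by
        by_contra hne
        exact h (if_neg hne)
      rw [← h1]
      show γ.1 = 0 + γ.1
      rw [zero_add]
  · rcases j with b | δ
    · rw [← lie_skew, C.h_e, ← neg_smul, B1a_repr] at h
      have h1 : (Sum.inr γ : Fin n ⊕ D.Rt) = k := by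
        by_contra hne
        exact h (if_neg hne)
      rw [← h1]
      show γ.1 = γ.1 + 0
      rw [add_zero]
    · by_cases hδ : δ = D.ng γ
      · subst hδ
        rw [C.e_ng, map_sum, Finsupp.finsetSum_apply] at h
        obtain ⟨a, -, ha⟩ := Finset.exists_ne_zero_of_sum_ne_zero h
        rw [B1a_repr] at ha
        have h1 : (Sum.inl a : Fin n ⊕ D.Rt) = k := by
          by_contra hne
          exact ha (if_neg hne)
        rw [← h1]
        show (0 : Fin n → ℤ) = γ.1 + (D.ng γ).1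
        rw [D.ng_val, add_neg_cancel]
      · by_cases hμ : ∃ μ : D.Rt, μ.1 = γ.1 + δ.1
        · obtain ⟨μ, hμ⟩ := hμ
          obtain ⟨c, hc⟩ := C.e_br γ δ μ hμ
          rw [hc, B1a_repr] at h
          have h1 : (Sum.inr μ : Fin n ⊕ D.Rt) = k := by
            by_contra hne
            exact h (if_neg hne)
          rw [← h1]
          exact hμ
        · push Not at hμ
          rw [C.e_co γ δ hδ hμ, map_zero] at h
          exact absurd rfl h

/-- (row B1a) from `sc_wt` -/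
theorem Sp_br {s m m' : ℤ} {z z' : LR D R} (hz : Sp s m z) (hz' : Sp s m' z') :
    Sp s (m + m') (C.br z z') := by
  rw [B1a_iff] at hz hz' ⊢
  intro k hk
  obtain ⟨i, -, hi⟩ := Finset.exists_ne_zero_of_sum_ne_zero (hk : ∑ i, ∑ j,
    z i * z' j * algebraMap ℂ R (C.sc i j k) ≠ 0)
  obtain ⟨j, -, hj⟩ := Finset.exists_ne_zero_of_sum_ne_zero hi
  have h1 : C.sc i j k ≠ 0 := fun h0 => hj (by rw [h0, map_zero, mul_zero])
  have h2 : z i * z' j ≠ 0 := left_ne_zero_of_mul hj
  have h3 := hz i (left_ne_zero_of_mul h2)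
  have h4 := hz' j (right_ne_zero_of_mul h2)
  rw [sc_wt C i j k h1, D.ht2_add, mul_add]
  omega

/-- (row B1a) `[x, z]_γ = γ(x) z_γ`, `[x, z]_k = 0`. -/
theorem br_hx (x : Fin n → R) (z : LR D R) : C.br (CD.hx x) z =
    Sum.elim (fun _ => 0) fun γ => ev γ.1 x * z (Sum.inr γ) := by
  funext k
  show ∑ i, ∑ j, (CD.hx x : LR D R) i * z j * algebraMap ℂ R (C.sc i j k) = _
  rw [Fintype.sum_sum_type]
  have h1 : ∑ γ : D.Rt, ∑ j, (CD.hx x : LR D R) (Sum.inr γ) * z j *
      algebraMap ℂ R (C.sc (Sum.inr γ) j k) = 0 := by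
    refine Finset.sum_eq_zero fun γ _ => Finset.sum_eq_zero fun j _ => ?_
    show (0 : R) * z j * _ = 0
    rw [zero_mul, zero_mul]
  rw [h1, add_zero]
  have h2 : ∀ a : Fin n, ∑ j, (CD.hx x : LR D R) (Sum.inl a) * z j *
      algebraMap ℂ R (C.sc (Sum.inl a) j k) =
      ∑ γ : D.Rt, x a * z (Sum.inr γ) *
        algebraMap ℂ R (if (Sum.inr γ : Fin n ⊕ D.Rt) = k then ((γ.1 a : ℤ) : ℂ) else 0) := by
    intro a
    rw [Fintype.sum_sum_type]
    have h3 : ∑ b : Fin n, (CD.hx x : LR D R) (Sum.inl a) * z (Sum.inl b) *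
        algebraMap ℂ R (C.sc (Sum.inl a) (Sum.inl b) k) = 0 := by
      refine Finset.sum_eq_zero fun b _ => ?_
      have h4 : C.sc (Sum.inl a) (Sum.inl b) k = 0 := by
        unfold CD.sc
        rw [C.h_h, map_zero]
        rfl
      rw [h4, map_zero, mul_zero]
    rw [h3, zero_add]
    refine Finset.sum_congr rfl fun γ _ => ?_
    have h4 : C.sc (Sum.inl a) (Sum.inr γ) k =
        if (Sum.inr γ : Fin n ⊕ D.Rt) = k then ((γ.1 a : ℤ) : ℂ) else 0 := by
      unfold CD.sc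
      rw [C.h_e, B1a_repr]
    rw [h4]
    rfl
  simp only [h2]
  rcases k with b | δ
  · show _ = (0 : R)
    refine Finset.sum_eq_zero fun a _ => Finset.sum_eq_zero fun γ _ => ?_
    rw [if_neg (fun h => Sum.inr_ne_inl h), map_zero, mul_zero]
  · show _ = ev δ.1 x * z (Sum.inr δ)
    unfold ev
    rw [Finset.sum_mul]
    refine Finset.sum_congr rfl fun a _ => ?_
    rw [Finset.sum_eq_single δ]
    · rw [if_pos rfl, map_intCast]
      ring
    · intro γ _ hγ
      rw [if_neg (fun h => hγ (Sum.inr_injective h)), map_zero, mul_zero]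
    · intro h
      exact absurd (Finset.mem_univ δ) h

/-- (row B1a) antisymmetry -/
theorem br_neg (z z' : LR D R) : C.br z' z = - C.br z z' := by
  funext k
  show ∑ i, ∑ j, z' i * z j * algebraMap ℂ R (C.sc i j k) =
    - ∑ i, ∑ j, z i * z' j * algebraMap ℂ R (C.sc i j k)
  rw [Finset.sum_comm, ← Finset.sum_neg_distrib]
  refine Finset.sum_congr rfl fun j _ => ?_
  rw [← Finset.sum_neg_distrib]
  refine Finset.sum_congr rfl fun i _ => ?_
  have h1 : C.sc i j k = - C.sc j i k := by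
    unfold CD.sc
    rw [← lie_skew, map_neg]
    rfl
  rw [h1, map_neg]
  ring

/-- a longer sum for the exponential of a nilpotent matrix -/
theorem B1b_mexp_eq {ι : Type} [Fintype ι] [DecidableEq ι]
    (A : Matrix ι ι R) (hA : A ^ Fintype.card ι = 0) {N : ℕ} (hN : Fintype.card ι ≤ N) :
    mexp A = ∑ k ∈ Finset.range N, (algebraMap ℂ R (1 / (k.factorial : ℂ))) • A ^ k := by
  unfold mexp
  refine Finset.sum_subset (Finset.range_subset_range.2 hN) fun k _ hk => ?_
  rw [Finset.mem_range, not_lt] at hk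
  rw [← Nat.sub_add_cancel hk, pow_add, hA, mul_zero, smul_zero]

theorem B1b_Sp_sum {κ : Type} (t : Finset κ) {s m : ℤ} {f : κ → LR D R}
    (h : ∀ i ∈ t, Sp s m (f i)) : Sp s m (∑ i ∈ t, f i) := by
  classical
  induction t using Finset.induction_on with
  | empty =>
    rw [Finset.sum_empty]
    exact ⟨fun _ h => absurd rfl h, fun _ h => absurd rfl h⟩
  | insert a t ha ih =>
    rw [Finset.sum_insert ha]
    exact Sp_add (h a (Finset.mem_insert_self a t))
      (ih fun i hi => h i (Finset.mem_insert_of_mem hi))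

/-- (row B1b) `exp z = 1 + ad z + ..` on the Lie algebra.
Proof.  `(AdR C).pt (ex C z) = mexp (C.dm (AdR C) z) = ∑ k < card, (1/k!) (ad z)^k` (`ex_pt`, `dm_AdR`).  The terms `k ≥ 2` applied to `z'` are in `Sp s (k m + m')`,
`k m + m' ≥ 2 m + m'` (`Sp_br`, `Sp_mono`).  If `card ≤ 1` then there are no roots (roots come in pairs), `z = 0` (`hz.1`, `1 ≤ m`) and, if `card = 0`, everything is `0`. -/
theorem Adp_ex {s m m' : ℤ} (hm : 1 ≤ m) {z z' : LR D R} (hz : Sp s m z) (hz' : Sp s m' z') :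
    Sp s (2 * m + m') (Adp C (ex C z) z' - z' - C.br z z') := by
  have hz1 : Sp s 1 z := Sp_mono hm hz
  obtain ⟨A, hA⟩ : ∃ A : Matrix (Fin n ⊕ D.Rt) (Fin n ⊕ D.Rt) R, A = C.dm (AdR C) z := ⟨_, rfl⟩
  have hnil : A ^ Fintype.card (Fin n ⊕ D.Rt) = 0 := by
    rw [hA]
    exact dm_nilp C (AdR C) hz1
  have hbr : ∀ y : LR D R, A.mulVec y = C.br z y := by
    intro y
    rw [hA]
    exact dm_AdR C z y
  have hpow : ∀ k : ℕ, Sp s (k * m + m') ((A ^ k).mulVec z') := by
    intro k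
    induction k with
    | zero =>
      rw [pow_zero, Matrix.one_mulVec]
      refine Sp_mono ?_ hz'
      push_cast
      linarith
    | succ k ih =>
      rw [pow_succ', ← Matrix.mulVec_mulVec, hbr]
      refine Sp_mono ?_ (Sp_br C hz ih)
      push_cast
      linarith
  have h1 : Adp C (ex C z) z' = (mexp A).mulVec z' := by
    unfold Adp
    rw [ex_pt C hz1, hA]
    rfl
  have h2 : mexp A = 1 + A + ∑ k ∈ Finset.range (Fintype.card (Fin n ⊕ D.Rt)),
      (algebraMap ℂ R (1 / ((k + 2).factorial : ℂ))) • A ^ (k + 2) := by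
    rw [B1b_mexp_eq A hnil (N := Fintype.card (Fin n ⊕ D.Rt) + 2) (by omega),
      Finset.sum_range_succ', Finset.sum_range_succ']
    have e0 : (algebraMap ℂ R (1 / ((0 : ℕ).factorial : ℂ))) • A ^ 0 = 1 := by
      rw [Nat.factorial_zero, Nat.cast_one, div_one, map_one, one_smul, pow_zero]
    have e1 : (algebraMap ℂ R (1 / ((0 + 1 : ℕ).factorial : ℂ))) • A ^ (0 + 1) = A := by
      rw [zero_add, Nat.factorial_one, Nat.cast_one, div_one, map_one, one_smul, pow_one]
    rw [e0, e1]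
    abel
  have h3 : Adp C (ex C z) z' - z' - C.br z z' = ∑ k ∈ Finset.range (Fintype.card (Fin n ⊕ D.Rt)),
      (algebraMap ℂ R (1 / ((k + 2).factorial : ℂ))) • (A ^ (k + 2)).mulVec z' := by
    rw [h1, h2, Matrix.add_mulVec, Matrix.add_mulVec, Matrix.one_mulVec, hbr, Matrix.sum_mulVec]
    simp only [Matrix.smul_mulVec]
    abel
  rw [h3]
  refine B1b_Sp_sum _ fun k _ => Sp_smul _ (Sp_mono ?_ (hpow (k + 2)))
  push_cast
  have h4 : 0 ≤ (k : ℤ) * m := mul_nonneg (by positivity) (by linarith)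
  linarith

/-- (row B1b) products of matrices -/
theorem UniM_one {ι : Type} [Fintype ι] [DecidableEq ι] (w : ι → Fin n → ℤ) (s m : ℤ) :
    UniM D w s m (1 : Matrix ι ι R) := by
  intro a b h
  exact absurd (by rw [sub_self]; rfl) h

/-- (row B1b) `g g' - 1 = (g - 1)(g' - 1) + (g - 1) + (g' - 1)`; `0 ≤ m` -/
theorem UniM_mul {ι : Type} [Fintype ι] [DecidableEq ι] (w : ι → Fin n → ℤ) {s m : ℤ} (hm : 0 ≤ m)
    {g g' : Matrix ι ι R} (h : UniM D w s m g) (h' : UniM D w s m g') : UniM D w s m (g * g') := by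
  intro a b hab
  have h1 : g * g' - 1 = (g - 1) * (g' - 1) + (g - 1) + (g' - 1) := by
    rw [sub_mul, mul_sub, mul_sub, one_mul, mul_one, one_mul]
    abel
  rw [h1, Matrix.add_apply, Matrix.add_apply] at hab
  by_cases h2 : (g' - 1) a b = 0
  · by_cases h3 : (g - 1) a b = 0
    · rw [h2, h3, add_zero, add_zero, Matrix.mul_apply] at hab
      obtain ⟨c, -, hc⟩ := Finset.exists_ne_zero_of_sum_ne_zero hab
      have h4 := h a c (left_ne_zero_of_mul hc)
      have h5 := h' c b (right_ne_zero_of_mul hc)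
      have h6 : s * (D.ht2 (w a) - D.ht2 (w b)) =
          s * (D.ht2 (w a) - D.ht2 (w c)) + s * (D.ht2 (w c) - D.ht2 (w b)) := by ring
      omega
    · exact h a b h3
  · exact h' a b h2

/-- (row B1b) Inverse.  `g' = 1 - (g - 1) g'`; iterate: `g' = ∑ k < K, (-(g-1))^k + (-(g-1))^K g'` and `(g - 1)^card = 0` by `pow_card_eq_zero`
(`f a = s * ht2 (w a)`, `1 ≤ m`). -/
theorem UniM_inv {ι : Type} [Fintype ι] [DecidableEq ι] (w : ι → Fin n → ℤ) {s m : ℤ} (hm : 1 ≤ m)
    {g g' : Matrix ι ι R} (h : UniM D w s m g) (h' : g * g' = 1) : UniM D w s m g' := by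
  classical
  intro a b hab
  by_contra hlt
  have h1 : g' - 1 = -(g - 1) - (g - 1) * (g' - 1) := by
    rw [sub_mul, mul_sub, mul_sub, one_mul, mul_one, one_mul, h']
    abel
  obtain ⟨a0, ha0, hmin⟩ := Finset.exists_min_image
    (Finset.univ.filter fun a => (g' - 1) a b ≠ 0 ∧ ¬ m ≤ s * (D.ht2 (w a) - D.ht2 (w b)))
    (fun a => s * D.ht2 (w a)) ⟨a, Finset.mem_filter.2 ⟨Finset.mem_univ _, hab, hlt⟩⟩
  rw [Finset.mem_filter] at ha0
  obtain ⟨-, h2, h3⟩ := ha0
  have h4 : (g - 1) a0 b = 0 := by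
    by_contra hne
    exact h3 (h a0 b hne)
  rw [h1, Matrix.sub_apply, Matrix.neg_apply, h4, neg_zero, zero_sub, neg_ne_zero,
    Matrix.mul_apply] at h2
  obtain ⟨c, -, hc⟩ := Finset.exists_ne_zero_of_sum_ne_zero h2
  have h5 := h a0 c (left_ne_zero_of_mul hc)
  have h6 := right_ne_zero_of_mul hc
  have h7 : s * (D.ht2 (w a0) - D.ht2 (w b)) =
      s * (D.ht2 (w a0) - D.ht2 (w c)) + s * (D.ht2 (w c) - D.ht2 (w b)) := by ring
  have h8 := hmin c (Finset.mem_filter.2 ⟨Finset.mem_univ _, h6, by omega⟩)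
  have h9 : s * (D.ht2 (w a0) - D.ht2 (w c)) = s * D.ht2 (w a0) - s * D.ht2 (w c) := by ring
  omega

/-- (row B1b) The exponential point is unipotent in weight representations: `ex_pt`, `dm_supp`; the terms `k ≥ 1` of `mexp`. -/
theorem UniM_ex {s m : ℤ} (hm : 1 ≤ m) {z : LR D R} (hz : Sp s m z) {E : MTF.Rep G}
    {w : E.ι → Fin n → ℤ} (hE : C.IsW E w) : UniM D w s m (E.pt (ex C z)) := by
  have hz1 : Sp s 1 z := Sp_mono hm hz
  obtain ⟨A, hA⟩ : ∃ A : Matrix E.ι E.ι R, A = C.dm E z := ⟨_, rfl⟩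
  have hnil : A ^ Fintype.card E.ι = 0 := by
    rw [hA]
    exact dm_nilp C E hz1
  have hpow : ∀ (k : ℕ) (a b : E.ι), (A ^ (k + 1)) a b ≠ 0 →
      m ≤ s * (D.ht2 (w a) - D.ht2 (w b)) := by
    intro k
    induction k with
    | zero =>
      intro a b hab
      rw [zero_add, pow_one, hA] at hab
      exact dm_supp C hE hz a b hab
    | succ k ih =>
      intro a b hab
      rw [pow_succ', Matrix.mul_apply] at hab
      obtain ⟨c, -, hc⟩ := Finset.exists_ne_zero_of_sum_ne_zero hab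
      have h1 := left_ne_zero_of_mul hc
      rw [hA] at h1
      have h2 := dm_supp C hE hz a c h1
      have h3 := ih c b (right_ne_zero_of_mul hc)
      have h4 : s * (D.ht2 (w a) - D.ht2 (w b)) =
          s * (D.ht2 (w a) - D.ht2 (w c)) + s * (D.ht2 (w c) - D.ht2 (w b)) := by ring
      omega
  intro a b hab
  rw [ex_pt C hz1, ← hA, B1b_mexp_eq A hnil (N := Fintype.card E.ι + 1) (by omega),
    Finset.sum_range_succ'] at hab
  have e0 : (algebraMap ℂ R (1 / ((0 : ℕ).factorial : ℂ))) • A ^ 0 = 1 := by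
    rw [Nat.factorial_zero, Nat.cast_one, div_one, map_one, one_smul, pow_zero]
  rw [e0, add_sub_cancel_right, Matrix.sum_apply] at hab
  obtain ⟨k, -, hk⟩ := Finset.exists_ne_zero_of_sum_ne_zero hab
  rw [Matrix.smul_apply, smul_eq_mul] at hk
  exact hpow k a b (right_ne_zero_of_mul hk)

theorem B1b_ht0 : D.ht2 (0 : Fin n → ℤ) = 0 := by
  have := D.ht2_add 0 0
  rw [add_zero] at this
  omega

theorem B1b_le {s m : ℤ} {z : LR D R} (h : Sp s m z) (j : Fin n ⊕ D.Rt) (hj : z j ≠ 0) :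
    m ≤ s * D.ht2 (wA (D := D) j) := by
  rcases j with k | γ
  · have h1 := h.1 k hj
    have h2 : wA (D := D) (Sum.inl k) = 0 := rfl
    rw [h2, B1b_ht0, mul_zero]
    exact h1
  · exact h.2 γ hj

/-- (row B1b) A matrix that is unipotent for the height acts on the Lie algebra by adding terms of greater height. -/
theorem Sp_UniM {s m m' : ℤ} {g : Matrix (Fin n ⊕ D.Rt) (Fin n ⊕ D.Rt) R}
    (hg : UniM D (wA (D := D)) s m g) {z : LR D R} (hz : Sp s m' z) :
    Sp s (m + m') (g.mulVec z - z) := by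
  have key : ∀ j, (g.mulVec z - z) j ≠ 0 → m + m' ≤ s * D.ht2 (wA (D := D) j) := by
    intro j hj
    have h1 : g.mulVec z - z = (g - 1).mulVec z := by
      rw [Matrix.sub_mulVec, Matrix.one_mulVec]
    rw [h1] at hj
    obtain ⟨b, -, hb⟩ := Finset.exists_ne_zero_of_sum_ne_zero (hj : ∑ b, (g - 1) j b * z b ≠ 0)
    have h2 := hg j b (left_ne_zero_of_mul hb)
    have h3 := B1b_le hz b (right_ne_zero_of_mul hb)
    rw [mul_sub] at h2
    omega
  refine ⟨fun k hk => ?_, fun γ hγ => key (Sum.inr γ) hγ⟩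
  have h1 := key (Sum.inl k) hk
  have h2 : wA (D := D) (Sum.inl k) = 0 := rfl
  rw [h2, B1b_ht0, mul_zero] at h1
  exact h1

end Pool.Agent.MTH
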