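import Pool.Agent.MTH.B1

/-! # MTH-B2 -/

namespace Pool.Agent.MTH

open Matrix
open Pool.Agent.MTF Pool.Agent.MTG
open Pool.Agent.MTD (ev)
open Pool.Agent.MP_c45d35_ag (chi)

variable {G : AffGrp} {n : ℕ} {D : RD n} (C : CD G D)
variable {R : Type} [CommRing R] [Algebra ℂ R]

/-- (row B2) One step.  `x` with `ev γ x` a unit for all roots `γ` with `m ≤ s * ht2 γ`; `y = hx x + Z`, `y' = hx x + Z'`, `Z`, `Z'` of positive height, `Z' - Z` of height
`≥ m`: there is an exponential that moves `y` to `y'` up to height `m + 1`.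
Proof.  `Y γ := (Z - Z') γ / ev γ x` if `m ≤ s * ht2 γ`, else `0`, `Sp s m Y`.  By `Adp_ex` (twice: with `z' = hx x`, `m' = 0` and with `z' = Z`, `m' = 1`)
`Ad(exp Y) y = hx x + [Y, hx x] + Z + (terms in Sp (m+1))`, and `[Y, hx x]_γ = - ev γ x * Y γ = (Z' - Z) γ` (`br_hx`, `br_neg`). -/
theorem step_U {s m : ℤ} (hm : 1 ≤ m) {x : Fin n → R}
    (hx : ∀ γ : D.Rt, m ≤ s * D.ht2 γ.1 → IsUnit (ev γ.1 x)) {Z Z' : LR D R} (hZ : Sp s 1 Z)
    (hZ' : Sp s 1 Z') (h : Sp s m (Z' - Z)) :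
    ∃ Y : LR D R, Sp s m Y ∧ ∃ Z'' : LR D R, Sp s 1 Z'' ∧
      Adp C (ex C Y) (CD.hx x + Z) = CD.hx x + Z'' ∧ Sp s (m + 1) (Z' - Z'') := by
  classical
  have hv0 : ∀ γ : D.Rt, ∃ v : R, m ≤ s * D.ht2 γ.1 → ev γ.1 x * v = 1 := by
    intro γ
    by_cases h1 : m ≤ s * D.ht2 γ.1
    · obtain ⟨v, hv⟩ := (hx γ h1).exists_right_inv
      exact ⟨v, fun _ => hv⟩
    · exact ⟨0, fun h2 => absurd h2 h1⟩
  choose v hv using hv0
  obtain ⟨Y, hYd⟩ : ∃ Y : LR D R, Y = Sum.elim (fun _ => (0 : R)) (fun γ : D.Rt =>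
      if m ≤ s * D.ht2 γ.1 then (Z (Sum.inr γ) - Z' (Sum.inr γ)) * v γ else 0) :=
    ⟨_, rfl⟩
  have hY : Sp s m Y := by
    refine ⟨fun k hk => absurd (by rw [hYd]; rfl) hk, fun γ hγ => ?_⟩
    by_contra hc
    apply hγ
    rw [hYd]
    exact if_neg hc
  have hx0 : Sp s 0 (CD.hx x : LR D R) :=
    ⟨fun _ _ => le_refl _, fun γ hγ => absurd rfl hγ⟩
  have hbr : C.br Y (CD.hx x) = Z' - Z := by
    rw [br_neg, br_hx]
    funext j
    rcases j with k | γ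
    · have h1 : (Z' - Z) (Sum.inl k) = 0 := by
        by_contra hne
        have := h.1 k hne
        omega
      rw [h1]
      show -(0 : R) = 0
      rw [neg_zero]
    · show -(ev γ.1 x * Y (Sum.inr γ)) = (Z' - Z) (Sum.inr γ)
      by_cases hγ : m ≤ s * D.ht2 γ.1
      · have h1 : Y (Sum.inr γ) = (Z (Sum.inr γ) - Z' (Sum.inr γ)) * v γ := by
          rw [hYd]
          exact if_pos hγ
        have h2 := hv γ hγ
        rw [h1, Pi.sub_apply]
        linear_combination (Z' (Sum.inr γ) - Z (Sum.inr γ)) * h2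
      · have h1 : Y (Sum.inr γ) = 0 := by
          rw [hYd]
          exact if_neg hγ
        have h2 : (Z' - Z) (Sum.inr γ) = 0 := by
          by_contra hne
          exact hγ (h.2 γ hne)
        rw [h1, h2, mul_zero, neg_zero]
  have hE1 := Adp_ex C hm hY hx0
  have hE2 := Adp_ex C hm hY hZ
  have hE3 := Sp_br C hY hZ
  have hdiff : Z' - (Adp C (ex C Y) (CD.hx x + Z) - CD.hx x) =
      -((Adp C (ex C Y) (CD.hx x) - CD.hx x - C.br Y (CD.hx x)) +
        (Adp C (ex C Y) Z - Z - C.br Y Z) + C.br Y Z) := by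
    rw [Adp_add, hbr]
    abel
  have hd : Sp s (m + 1) (Z' - (Adp C (ex C Y) (CD.hx x + Z) - CD.hx x)) := by
    rw [hdiff]
    exact Sp_neg (Sp_add (Sp_add (Sp_mono (by omega) hE1) (Sp_mono (by omega) hE2)) hE3)
  refine ⟨Y, hY, Adp C (ex C Y) (CD.hx x + Z) - CD.hx x, ?_, (add_sub_cancel _ _).symm, hd⟩
  have h1 : Adp C (ex C Y) (CD.hx x + Z) - CD.hx x =
      Z' + -(Z' - (Adp C (ex C Y) (CD.hx x + Z) - CD.hx x)) := by abel
  rw [h1]
  exact Sp_add hZ' (Sp_neg (Sp_mono (by omega) hd))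

/-- (row B2) If `ev γ x` is a unit for all roots with `m ≤ s * ht2 γ` then `x + Z` and `x + Z'` are conjugate under the unipotent group as soon as `Z' - Z` has height
`≥ m` only.  Induction with `step_U` up to the bound of `exists_Sp_zero`; the product of the exponentials is unipotent in every weight representation
(`UniM_ex`, `UniM_mul`, `UniM_one`; `Rep.pt_mul`). -/
theorem exists_U' {s m : ℤ} (hs : s = 1 ∨ s = -1) (hm : 1 ≤ m) {x : Fin n → R}
    (hx : ∀ γ : D.Rt, m ≤ s * D.ht2 γ.1 → IsUnit (ev γ.1 x)) {Z Z' : LR D R} (hZ : Sp s 1 Z)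
    (hZ' : Sp s 1 Z') (h : Sp s m (Z' - Z)) :
    ∃ φ : G.Pt R, (∀ (E : MTF.Rep G) (w : E.ι → Fin n → ℤ), C.IsW E w → UniM D w s m (E.pt φ)) ∧
      Adp C φ (CD.hx x + Z) = CD.hx x + Z' := by
  obtain ⟨M, hM⟩ := exists_Sp_zero D
  have key : ∀ (k : ℕ) (m : ℤ), 1 ≤ m → M ≤ m + k →
      (∀ γ : D.Rt, m ≤ s * D.ht2 γ.1 → IsUnit (ev γ.1 x)) → ∀ Z : LR D R, Sp s 1 Z →
      Sp s m (Z' - Z) → ∃ φ : G.Pt R,
        (∀ (E : MTF.Rep G) (w : E.ι → Fin n → ℤ), C.IsW E w → UniM D w s m (E.pt φ)) ∧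
        Adp C φ (CD.hx x + Z) = CD.hx x + Z' := by
    intro k
    induction k with
    | zero =>
      intro m hm hMm _ Z _ h
      have h1 := hM R s hs (Z' - Z) (Sp_mono (by push_cast at hMm; omega) h)
      refine ⟨1, fun E w _ => ?_, ?_⟩
      · rw [Rep.pt_one]
        exact UniM_one w s m
      · rw [Adp_one, sub_eq_zero.1 h1]
    | succ k ih =>
      intro m hm hMm hx Z hZ h
      obtain ⟨Y, hY, Z'', hZ'', hA, hd⟩ := step_U C hm hx hZ hZ' h
      obtain ⟨φ, hφ, hφA⟩ := ih (m + 1) (by omega) (by push_cast at hMm; omega)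
        (fun γ hγ => hx γ (by omega)) Z'' hZ'' hd
      refine ⟨φ * ex C Y, fun E w hE => ?_, ?_⟩
      · rw [Rep.pt_mul]
        refine UniM_mul w (by omega) (fun a b hab => ?_) (UniM_ex C hm hY hE)
        have h1 := hφ E w hE a b hab
        omega
      · rw [Adp_mul, hA, hφA]
  exact key (M - m).toNat m hm (by omega) hx Z hZ h

/-- (row B2) special case `Z = 0`, `m = 1` -/
theorem exists_U {s : ℤ} (hs : s = 1 ∨ s = -1) {x : Fin n → R}
    (hx : ∀ γ : D.Rt, IsUnit (ev γ.1 x)) {Z : LR D R} (hZ : Sp s 1 Z) :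
    ∃ φ : G.Pt R, (∀ (E : MTF.Rep G) (w : E.ι → Fin n → ℤ), C.IsW E w → UniM D w s 1 (E.pt φ)) ∧
      Adp C φ (CD.hx x) = CD.hx x + Z := by
  obtain ⟨φ, h1, h2⟩ := exists_U' C hs le_rfl (fun γ _ => hx γ) (Z := 0) (Z' := Z) Sp_zero hZ
    (by rw [sub_zero]; exact hZ)
  exact ⟨φ, h1, by rw [add_zero] at h2; exact h2⟩

end Pool.Agent.MTH
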