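import Pool.Agent.MTH.B2
import Pool.Agent.MTH.A4

/-! # MTH-B3 -/

namespace Pool.Agent.MTH

open Matrix
open Pool.Agent.MTF Pool.Agent.MTG
open Pool.Agent.MTD (ev)
open Pool.Agent.MP_c45d35_ag (chi)

variable {G : AffGrp} {n : ℕ} {D : RD n} (C : CD G D)
variable {R : Type} [CommRing R] [Algebra ℂ R]

theorem b3a_ht2 (D : RD n) (μ : Fin n → ℤ) : D.ht2 μ = ∑ k, μ k * D.ht2 (Pi.single k 1) := by
  let f : (Fin n → ℤ) →+ ℤ := AddMonoidHom.mk' D.ht2 D.ht2_add
  have h1 : μ = ∑ k, μ k • (Pi.single k 1 : Fin n → ℤ) := by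
    funext j
    rw [Finset.sum_apply]
    simp [Pi.single_apply]
  have h2 : f μ = ∑ k, f (μ k • (Pi.single k 1 : Fin n → ℤ)) := by
    conv_lhs => rw [h1]
    rw [map_sum]
  exact h2.trans (Finset.sum_congr rfl fun k _ => D.ht2_smul _ _)

theorem b3a_ht2_neg (D : RD n) (μ : Fin n → ℤ) : D.ht2 (-μ) = - D.ht2 μ := by
  have h := D.ht2_smul (-1) μ
  rw [neg_one_smul, neg_one_mul] at h
  exact h

theorem b3a_ht2_ne (D : RD n) (γ : D.Rt) : D.ht2 γ.1 ≠ 0 := by
  by_cases h : D.Pos γ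
  · exact (D.ht2_pos h).1.ne'
  · have h1 := (D.ht2_pos ((D.pos_ng γ).2 h)).1
    rw [D.ng_val, b3a_ht2_neg] at h1
    omega

theorem b3a_isUnit {R : Type} [CommRing R] [Algebra ℂ R] {m : ℤ} (hm : m ≠ 0) :
    IsUnit ((m : ℤ) : R) := by
  have h1 : IsUnit ((m : ℤ) : ℂ) := isUnit_iff_ne_zero.2 (Int.cast_ne_zero.2 hm)
  have h2 := h1.map (algebraMap ℂ R)
  rwa [map_intCast] at h2

/-- (row B3) `ev μ (hv D R) = ht2 μ`: both sides are additive in `μ` (`ht2_add`, `ht2_smul`), equal on `Pi.single k 1`. -/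
theorem ev_hv (μ : Fin n → ℤ) : ev μ (hv D R) = ((D.ht2 μ : ℤ) : R) := by
  rw [b3a_ht2]
  unfold ev hv
  push_cast
  rfl

/-- (row B3) roots have nonzero height (`ht2_pos`, `pos_ng`, `ht2` of `ng γ` is `- ht2 γ`); nonzero integers are units in a `ℂ`-algebra. -/
theorem isUnit_ht (γ : D.Rt) : IsUnit (ev γ.1 (hv D R)) := by
  rw [ev_hv]
  exact b3a_isUnit (b3a_ht2_ne D γ)

theorem b3a_d_inl (k : Fin n) (a b : C.F.ι) (hab : a ≠ b) : C.F.d (C.bs (Sum.inl k)) a b = 0 := by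
  rw [C.d_h k, Matrix.diagonal_apply_ne _ hab]

theorem b3a_ne_of_wt {γ : D.Rt} {a b : C.F.ι} (h : C.wt a = C.wt b + γ.1) : a ≠ b := by
  intro hab
  rw [hab] at h
  exact D.Rt_ne γ (left_eq_add.1 h)

/-- (row B3) the coordinates of `y` can be read off from the matrix of `y` in `C.F`: if all entries `(a, b)` with `wt a = wt b + γ` vanish then `y γ = 0`.
Proof: `C.F.d (C.e γ) ≠ 0` (`d_injective`, basis vector), so it has a nonzero entry `(a, b)`, `wt a = wt b + γ` (`isW_F`, `IsW.d_e`); at this entry the other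
basis vectors have entry `0` (`IsW.d_e` and `γ ≠ γ'`; `C.d_h`: diagonal, `γ.1 ≠ 0`); `dm_apply`; a nonzero complex number is a unit in `R`. -/
theorem coord_root {y : LR D R} (γ : D.Rt)
    (h : ∀ a b, C.wt a = C.wt b + γ.1 → C.dm C.F y a b = 0) : y (Sum.inr γ) = 0 := by
  classical
  have h1 : C.F.d (C.bs (Sum.inr γ)) ≠ 0 := by
    intro h0
    apply C.bs.ne_zero (Sum.inr γ)
    apply AffGrp.d_injective C.F C.faith
    rw [h0, map_zero]
  obtain ⟨a, b, hab⟩ : ∃ a b, C.F.d (C.bs (Sum.inr γ)) a b ≠ 0 := by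
    by_contra hno
    push Not at hno
    apply h1
    ext a b
    exact hno a b
  have h2 : C.wt a = C.wt b + γ.1 := C.isW_F.d_e γ a b hab
  have h3 := h a b h2
  rw [C.dm_apply, Finset.sum_eq_single (Sum.inr γ)] at h3
  · have h4 : IsUnit (algebraMap ℂ R (C.F.d (C.bs (Sum.inr γ)) a b)) :=
      (isUnit_iff_ne_zero.2 hab).map (algebraMap ℂ R)
    exact (h4.mul_left_eq_zero).1 h3
  · rintro (k | δ) _ hj
    · rw [b3a_d_inl C k a b (b3a_ne_of_wt C h2), map_zero, mul_zero]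
    · by_cases h5 : C.F.d (C.bs (Sum.inr δ)) a b = 0
      · rw [h5, map_zero, mul_zero]
      · exfalso
        have h6 : C.wt a = C.wt b + δ.1 := C.isW_F.d_e δ a b h5
        apply hj
        rw [h2] at h6
        rw [Subtype.ext (add_left_cancel h6).symm]
  · intro h5
    exact absurd (Finset.mem_univ _) h5

theorem b3a_dm_diag (y : LR D R) (a : C.F.ι) :
    C.dm C.F y a a = ev (C.wt a) (fun k => y (Sum.inl k)) := by
  classical
  rw [C.dm_apply, Fintype.sum_sum_type]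
  have h1 : ∀ γ : D.Rt, y (Sum.inr γ) * algebraMap ℂ R (C.F.d (C.bs (Sum.inr γ)) a a) = 0 := by
    intro γ
    by_cases h5 : C.F.d (C.bs (Sum.inr γ)) a a = 0
    · rw [h5, map_zero, mul_zero]
    · exact absurd rfl (b3a_ne_of_wt C (C.isW_F.d_e γ a a h5))
  rw [Finset.sum_eq_zero (s := (Finset.univ : Finset D.Rt)) (fun γ _ => h1 γ), add_zero]
  unfold ev
  refine Finset.sum_congr rfl fun k _ => ?_
  rw [C.d_h k, Matrix.diagonal_apply_eq, map_intCast, mul_comm]

/-- (row B3) the diagonal entries determine the Cartan part: `C.dm C.F y a a = ev (C.wt a) (y ∘ inl)` (root vectors have zero diagonal: `Rt_ne`), and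
`C.gen` (the weights generate, `ev` is additive in the weight; `ev (Pi.single k 1) x = x k`). -/
theorem coord_cartan {y : LR D R} (x : Fin n → R) (h : ∀ a, C.dm C.F y a a = ev (C.wt a) x) (k : Fin n) :
    y (Sum.inl k) = x k := by
  classical
  have h1 : ∀ μ : Fin n → ℤ, μ ∈ AddSubgroup.closure (Set.range C.wt) →
      ev μ (fun k => y (Sum.inl k)) = ev μ x := by
    intro μ hμ
    induction hμ using AddSubgroup.closure_induction with
    | mem z hz =>
      obtain ⟨a, rfl⟩ := hz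
      rw [← b3a_dm_diag, h]
    | zero => rw [MTD.ev_zero_left, MTD.ev_zero_left]
    | add z z' _ _ h1 h2 => rw [MTD.ev_add_left, MTD.ev_add_left, h1, h2]
    | neg z _ h1 => rw [MTD.ev_neg_left, MTD.ev_neg_left, h1]
  have h2 : ∀ z : Fin n → R, ev (Pi.single k 1 : Fin n → ℤ) z = z k := by
    intro z
    unfold ev
    rw [Finset.sum_eq_single k]
    · rw [Pi.single_eq_same, Int.cast_one, one_mul]
    · intro j _ hj
      rw [Pi.single_eq_of_ne hj, Int.cast_zero, zero_mul]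
    · intro h5
      exact absurd (Finset.mem_univ _) h5
  have h3 := h1 (Pi.single k 1) (by rw [C.gen]; exact AddSubgroup.mem_top _)
  rw [h2, h2] at h3
  exact h3

theorem b3a_conj (φ : G.Pt R) (z : LR D R) :
    C.dm C.F (Adp C φ z) = C.F.pt φ * C.dm C.F z * C.F.pt φ⁻¹ := by
  rw [pt_dm C C.F φ z, Matrix.mul_assoc, Rep.pt_mul_inv, Matrix.mul_one]

theorem b3a_dm_hv : C.dm C.F (CD.hx (hv D R)) =
    Matrix.diagonal fun a => ((D.ht2 (C.wt a) : ℤ) : R) := by
  rw [C.isW_F.dm_hx]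
  exact congrArg Matrix.diagonal (funext fun a => ev_hv _)

theorem b3a_supp {ι : Type} [Fintype ι] [DecidableEq ι] (w : ι → Fin n → ℤ) {s : ℤ}
    {g g' : Matrix ι ι R} (hg : UniM D w s 1 g) (hg' : UniM D w s 1 g') (d : ι → R) (a b : ι)
    (h : (g * Matrix.diagonal d * g' - Matrix.diagonal d) a b ≠ 0) :
    1 ≤ s * (D.ht2 (w a) - D.ht2 (w b)) := by
  classical
  have h1 : g * Matrix.diagonal d * g' - Matrix.diagonal d =
      (g - 1) * Matrix.diagonal d + Matrix.diagonal d * (g' - 1) +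
        ((g - 1) * Matrix.diagonal d) * (g' - 1) := by
    noncomm_ring
  by_contra hlt
  apply h
  have h2 : (g - 1) a b = 0 := by
    by_contra h3
    exact hlt (hg a b h3)
  have h3 : (g' - 1) a b = 0 := by
    by_contra h3
    exact hlt (hg' a b h3)
  rw [h1, Matrix.add_apply, Matrix.add_apply, Matrix.mul_diagonal, Matrix.diagonal_mul, h2, h3,
    zero_mul, mul_zero, add_zero, zero_add, Matrix.mul_apply]
  refine Finset.sum_eq_zero fun c _ => ?_
  rw [Matrix.mul_diagonal]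
  by_cases h4 : (g - 1) a c = 0
  · rw [h4, zero_mul, zero_mul]
  · by_cases h5 : (g' - 1) c b = 0
    · rw [h5, mul_zero]
    · exfalso
      have h6 := hg a c h4
      have h7 := hg' c b h5
      apply hlt
      have h8 : s * (D.ht2 (w a) - D.ht2 (w b)) = s * (D.ht2 (w a) - D.ht2 (w c)) +
        s * (D.ht2 (w c) - D.ht2 (w b)) := by ring
      omega

/-- (row B3) Unipotent points move `2ρ^∨` by an element of positive height.
Proof: `y := Adp C φ (hx hv)`; `C.dm C.F y = g * diag (ht2 (wt a)) * g'`, `g = C.F.pt φ`, `g' = C.F.pt φ⁻¹` (`pt_dm`, `isW_F.dm_hx`, `ev_hv`), both `UniM .. s 1` (`UniM_inv`).  So the entry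
`(a, b)` of `C.dm C.F y - diag (ht2 (wt a))` is nonzero only if `1 ≤ s * (ht2 (wt a) - ht2 (wt b))`.  `coord_root` for `γ` with `s * ht2 γ ≤ 0` and `coord_cartan`. -/
theorem UU_hv {s : ℤ} {φ : G.Pt R} (hφ : UU C s φ) :
    ∃ Z : LR D R, Sp s 1 Z ∧ Adp C φ (CD.hx (hv D R)) = CD.hx (hv D R) + Z := by
  classical
  have hφ' : UniM D C.wt s 1 (C.F.pt φ⁻¹) := UniM_inv _ le_rfl hφ (Rep.pt_mul_inv _ φ)
  have key : ∀ a b, (C.dm C.F (Adp C φ (CD.hx (hv D R))) -
      Matrix.diagonal fun a => ((D.ht2 (C.wt a) : ℤ) : R)) a b ≠ 0 →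
      1 ≤ s * (D.ht2 (C.wt a) - D.ht2 (C.wt b)) := by
    intro a b h
    rw [b3a_conj, b3a_dm_hv] at h
    exact b3a_supp C.wt hφ hφ' _ a b h
  refine ⟨Adp C φ (CD.hx (hv D R)) - CD.hx (hv D R), ⟨fun k hk => ?_, fun γ hγ => ?_⟩, ?_⟩
  · exfalso
    apply hk
    rw [Pi.sub_apply, sub_eq_zero]
    refine coord_cartan C (hv D R) (fun a => ?_) k
    by_contra hne
    have h1 := key a a (by
      rw [Matrix.sub_apply, Matrix.diagonal_apply_eq, sub_ne_zero]
      rw [ev_hv] at hne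
      exact hne)
    rw [sub_self, mul_zero] at h1
    omega
  · by_contra hlt
    apply hγ
    have h2 : (CD.hx (hv D R) : LR D R) (Sum.inr γ) = 0 := rfl
    rw [Pi.sub_apply, h2, sub_zero]
    refine coord_root C γ fun a b hab => ?_
    by_contra hne
    have h1 := key a b (by
      rw [Matrix.sub_apply, Matrix.diagonal_apply_ne _ (b3a_ne_of_wt C hab), sub_zero]
      exact hne)
    apply hlt
    rw [hab, D.ht2_add, add_sub_cancel_left] at h1
    exact h1
  · rw [add_sub_cancel]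

/-- (row B3) A unipotent point that fixes `2ρ^∨` is `1`.  Proof: `g = C.F.pt φ` commutes with `diag (ht2 (wt a))` (`pt_dm`), so `(ht2 (wt a) - ht2 (wt b)) * (g - 1) a b = 0`; an entry of
`g - 1` can be nonzero only if the integer factor is nonzero, hence a unit. `pt_injective`, `C.faith`. -/
theorem UU_eq_one {s : ℤ} {φ : G.Pt R} (hφ : UU C s φ)
    (h : Adp C φ (CD.hx (hv D R)) = CD.hx (hv D R)) : φ = 1 := by
  classical
  apply C.F.pt_injective C.faith
  rw [Rep.pt_one]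
  have h1 := pt_dm C C.F φ (CD.hx (hv D R))
  rw [h, b3a_dm_hv] at h1
  ext a b
  by_contra hne
  have h2 := hφ a b (by rw [Matrix.sub_apply, sub_ne_zero]; exact hne)
  have h3 : D.ht2 (C.wt a) - D.ht2 (C.wt b) ≠ 0 := by
    intro h0
    rw [h0, mul_zero] at h2
    omega
  have h4 : a ≠ b := by
    intro h0
    apply h3
    rw [h0, sub_self]
  have h5 := congrFun (congrFun h1 a) b
  rw [Matrix.mul_diagonal, Matrix.diagonal_mul] at h5
  apply hne
  rw [Matrix.one_apply_ne h4]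
  have h6 : IsUnit (((D.ht2 (C.wt a) - D.ht2 (C.wt b) : ℤ)) : R) := b3a_isUnit h3
  apply (h6.mul_right_eq_zero).1
  push_cast
  linear_combination -h5

theorem UU_one {s : ℤ} : UU C s (1 : G.Pt R) := by
  unfold UU
  rw [Rep.pt_one]
  exact UniM_one _ _ _

theorem UU_mul {s : ℤ} {φ ψ : G.Pt R} (h : UU C s φ) (h' : UU C s ψ) : UU C s (φ * ψ) := by
  unfold UU
  rw [Rep.pt_mul]
  exact UniM_mul _ zero_le_one h h'

theorem UU_inv {s : ℤ} {φ : G.Pt R} (h : UU C s φ) : UU C s φ⁻¹ :=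
  UniM_inv _ le_rfl h (Rep.pt_mul_inv _ φ)

/-- (row B3) entrywise -/
theorem UU_map {R' : Type} [CommRing R'] [Algebra ℂ R'] (σ : R →ₐ[ℂ] R') {s : ℤ} {φ : G.Pt R}
    (h : UU C s φ) : UU C s (φ.map σ) := by
  classical
  intro a b hab
  refine h a b fun h0 => hab ?_
  rw [Rep.pt_map, Matrix.sub_apply, Matrix.map_apply]
  rw [Matrix.sub_apply, sub_eq_zero] at h0
  rw [h0, Matrix.one_apply, Matrix.one_apply]
  split_ifs
  · rw [map_one, sub_self]
  · rw [map_zero, sub_self]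

theorem UU_ex {s : ℤ} {z : LR D R} (hz : Sp s 1 z) : UU C s (ex C z) := UniM_ex C le_rfl hz C.isW_F

/-- (row B3) Unipotent points are unipotent in every weight representation.  Proof: `Z` from `UU_hv`, `φ'` from `exists_U` (`x = hv`, `isUnit_ht`) with the same `Z`; `φ'⁻¹ * φ` is `UU` and
fixes `2ρ^∨`, so `φ = φ'` (`UU_eq_one`). -/
theorem UU_uni {s : ℤ} (hs : s = 1 ∨ s = -1) {φ : G.Pt R} (hφ : UU C s φ) {E : MTF.Rep G}
    {w : E.ι → Fin n → ℤ} (hE : C.IsW E w) : UniM D w s 1 (E.pt φ) := by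
  obtain ⟨Z, hZ, h1⟩ := UU_hv C hφ
  obtain ⟨φ', h2, h3⟩ := exists_U C hs (x := hv D R) (fun γ => isUnit_ht γ) hZ
  have h4 : UU C s φ' := h2 C.F C.wt C.isW_F
  have h5 : φ'⁻¹ * φ = 1 := by
    refine UU_eq_one C (s := s) (UU_mul C (UU_inv C h4) hφ) ?_
    rw [Adp_mul, h1, ← h3, ← Adp_mul, inv_mul_cancel, Adp_one]
  have h6 : φ = φ' := (inv_mul_eq_one.1 h5).symm
  rw [h6]
  exact h2 E w hE

/-- (row B3) `Ad φ z - z` has greater height: `UU_uni` for `AdR C` (`isW_AdR`), `Sp_UniM`. -/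
theorem UU_Adp {s m : ℤ} (hs : s = 1 ∨ s = -1) {φ : G.Pt R} (hφ : UU C s φ) {z : LR D R}
    (hz : Sp s m z) : Sp s (1 + m) (Adp C φ z - z) :=
  Sp_UniM (UU_uni C hs hφ (isW_AdR C)) hz

/-- (row B3) A unipotent point that fixes a regular `x` is `1`.  Proof: `Ad φ h = h + Z` (`UU_hv`); `0 = Ad φ [x, h] = [Ad φ x, Ad φ h] = [x, h + Z] = [x, Z]` (`Adp_br`, `br_hx`), so
`ev γ x * Z γ = 0`, `Z = 0` (`Z (inl k) = 0` by height), `UU_eq_one`. -/
theorem UU_eq_one' {s : ℤ} {φ : G.Pt R} (hφ : UU C s φ) {x : Fin n → R}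
    (hx : ∀ γ : D.Rt, IsUnit (ev γ.1 x)) (h : Adp C φ (CD.hx x) = CD.hx x) : φ = 1 := by
  obtain ⟨Z, hZ, h1⟩ := UU_hv C hφ
  have h2 : C.br (CD.hx x) (CD.hx (hv D R)) = 0 := by
    rw [br_hx]
    funext j
    rcases j with k | γ
    · rfl
    · show ev γ.1 x * 0 = 0
      rw [mul_zero]
  have h3 := Adp_br C φ (CD.hx x) (CD.hx (hv D R))
  rw [h2, h, h1, br_hx] at h3
  have h4 : Adp C φ (0 : LR D R) = 0 := by
    unfold Adp
    exact Matrix.mulVec_zero _
  rw [h4] at h3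
  have h5 : Z = 0 := by
    funext j
    rcases j with k | γ
    · by_contra h6
      have h7 := hZ.1 k h6
      omega
    · have h6 : (0 : R) = ev γ.1 x * (0 + Z (Sum.inr γ)) := congrFun h3 (Sum.inr γ)
      rw [zero_add] at h6
      exact ((hx γ).mul_right_eq_zero).1 h6.symm
  refine UU_eq_one C hφ ?_
  rw [h1, h5, add_zero]

/-- (row B3) the torus acts on the root vectors by characters: `tq_pt` for `AdR C`. -/
theorem Adp_tq (t : Fin n → Rˣ) (z : LR D R) : Adp C (tq C t) z =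
    Sum.elim (fun k => z (Sum.inl k)) fun γ => ((chi γ.1 t : Rˣ) : R) * z (Sum.inr γ) := by
  classical
  unfold Adp
  rw [tq_pt C t (isW_AdR C)]
  funext j
  have h1 := Matrix.mulVec_diagonal (fun a => ((chi (wA (D := D) a) t : Rˣ) : R)) z j
  refine Eq.trans h1 ?_
  rcases j with k | γ
  · have h2 : chi (wA (D := D) (Sum.inl k)) t = 1 :=
      Pool.Agent.MP_c45d35_ag.chi_zero t
    show ((chi (wA (D := D) (Sum.inl k)) t : Rˣ) : R) * z (Sum.inl k) = z (Sum.inl k)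
    rw [h2, Units.val_one, one_mul]
  · rfl

/-- (row B3) The torus normalises the unipotent groups: `tq_pt`, entries of `t g t⁻¹`. -/
theorem UU_conj {s : ℤ} {φ : G.Pt R} (hφ : UU C s φ) (t : Fin n → Rˣ) :
    UU C s (tq C t * φ * (tq C t)⁻¹) := by
  classical
  have h1 := tq_pt C t C.isW_F
  have h2 := C.F.pt_mul_inv (tq C t)
  rw [h1] at h2
  have h3 : ∀ a b, a ≠ b → C.F.pt (tq C t)⁻¹ a b = 0 := by
    intro a b hab
    have h4 := congrFun (congrFun h2 a) b
    rw [Matrix.diagonal_mul, Matrix.one_apply_ne hab] at h4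
    exact (Units.isUnit _).mul_right_eq_zero.1 h4
  intro a b hab
  refine hφ a b fun h0 => hab ?_
  have h5 : C.F.pt (tq C t * φ * (tq C t)⁻¹) - 1 =
      Matrix.diagonal (fun a => ((chi (C.wt a) t : Rˣ) : R)) * (C.F.pt φ - 1) *
        C.F.pt (tq C t)⁻¹ := by
    rw [Rep.pt_mul, Rep.pt_mul, h1, Matrix.mul_sub, Matrix.sub_mul, Matrix.mul_one, h2]
  rw [h5, Matrix.mul_apply]
  refine Finset.sum_eq_zero fun c _ => ?_
  by_cases hc : c = b
  · rw [hc, Matrix.diagonal_mul, h0, mul_zero, zero_mul]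
  · rw [h3 c b hc, mul_zero]

end Pool.Agent.MTH
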