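import Pool.Agent.MTH.B3
import Pool.Agent.MTH.A4

/-! # MTH-C1 -/

namespace Pool.Agent.MTH

open Matrix
open Pool.Agent.MTF Pool.Agent.MTG
open Pool.Agent.MTD (ev)
open Pool.Agent.MP_c45d35_ag (chi)

variable {G : AffGrp} {n : ℕ} {D : RD n} (C : CD G D)

/-- (row C1) A complex point is determined by its element of `G` (`toX_apply`). -/
theorem toX_inj {φ ψ : G.Pt ℂ} (h : φ.toX = ψ.toX) : φ = ψ := by
  apply AffGrp.Pt.ext
  intro f
  rw [← φ.toX_apply, ← ψ.toX_apply, h]

/-- (row C1) `G.sep`: `f (φ ψ) = ∑ φ(a_i) ψ(b_i)` (`Pt.mul_apply`, `toX_apply`, `G.mul_mem`). -/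
theorem toX_mul (φ ψ : G.Pt ℂ) : (φ * ψ).toX = φ.toX * ψ.toX := by
  apply G.sep
  intro f hf
  obtain ⟨m, a, b, hab⟩ := G.mul_mem f hf
  have h1 := (φ * ψ).toX_apply ⟨f, hf⟩
  rw [AffGrp.Pt.mul_apply φ ψ ⟨f, hf⟩ a b hab] at h1
  have h2 : f (φ * ψ).toX = ∑ i, φ (a i) * ψ (b i) := h1
  rw [h2, hab]
  exact Finset.sum_congr rfl fun i _ => by rw [φ.toX_apply, ψ.toX_apply]

theorem toX_one : (1 : G.Pt ℂ).toX = 1 := by
  apply G.sep
  intro f hf
  exact (1 : G.Pt ℂ).toX_apply ⟨f, hf⟩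

theorem toX_inv (φ : G.Pt ℂ) : (φ⁻¹).toX = (φ.toX)⁻¹ := by
  apply eq_inv_of_mul_eq_one_left
  rw [← toX_mul, inv_mul_cancel, toX_one]

theorem toX_const (x : G.X) : (AffGrp.Pt.const ℂ x).toX = x := by
  apply G.sep
  intro f hf
  exact (AffGrp.Pt.const ℂ x).toX_apply ⟨f, hf⟩

theorem const_toX (φ : G.Pt ℂ) : AffGrp.Pt.const ℂ φ.toX = φ := by
  apply AffGrp.Pt.ext
  intro f
  exact φ.toX_apply f

/-- (row C1) The adjoint action of complex points: `G.Ad x v` in the basis `C.bs`. -/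
theorem Ad_toX (φ : G.Pt ℂ) (z : LR D ℂ) :
    G.Ad φ.toX (∑ j, z j • C.bs j) = ∑ j, Adp C φ z j • C.bs j := by
  have h1 : ∀ i j, (AdR C).pt φ i j = C.bs.repr (G.Ad φ.toX (C.bs j)) i := by
    intro i j
    exact (φ.toX_apply ((AdR C).co i j)).symm
  have h2 : ∀ i, Adp C φ z i = ∑ j, C.bs.repr (G.Ad φ.toX (C.bs j)) i * z j := by
    intro i
    show ∑ j, (AdR C).pt φ i j * z j = _
    exact Finset.sum_congr rfl fun j _ => by rw [h1]
  rw [map_sum]
  simp only [h2, Finset.sum_smul]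
  rw [Finset.sum_comm]
  refine Finset.sum_congr rfl fun j _ => ?_
  rw [map_smul]
  conv_lhs => rw [← C.bs.sum_repr (G.Ad φ.toX (C.bs j)), Finset.smul_sum]
  refine Finset.sum_congr rfl fun i _ => ?_
  rw [smul_smul, mul_comm]

/-- (row C1) left invariant derivatives of right translates: `(der v f)(x g) = (der (Ad g v) (rt g f))(x)`:
`v (y ↦ f (x g y)) = v (y ↦ f (x (g y g⁻¹) g)) = (Ad g v) (y ↦ f (x y g))`. -/
theorem der_rt (v : G.Lie) (f : G.O) (x g : G.X) :
    (G.der v f).1 (x * g) = (G.der (G.Ad g v) (G.rt g f)).1 x := by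
  show v.1 (G.lt (x * g) f) = v.1 (G.cj g (G.lt x (G.rt g f)))
  have h : G.lt (x * g) f = G.cj g (G.lt x (G.rt g f)) := by
    apply AffGrp.O_ext
    intro y
    show f.1 (x * g * y) = f.1 (x * (g * y * g⁻¹) * g)
    have h2 : x * (g * y * g⁻¹) * g = x * g * y := by group
    rw [h2]
  rw [h]

theorem C1b_eval (E : MTF.Rep G) (z : G.X) (q : MvPolynomial (E.ι × E.ι) ℂ) :
    (MvPolynomial.aeval (fun ij : E.ι × E.ι => E.co ij.1 ij.2) q).1 z =
      MvPolynomial.aeval (fun ij : E.ι × E.ι => E.ρ z ij.1 ij.2) q := by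
  have h1 : ∀ f : G.O, f.1 z = (AffGrp.Pt.const ℂ z).hom f := fun f => rfl
  rw [h1]
  exact MvPolynomial.comp_aeval_apply _ _ _

theorem C1b_sum_pow {ι : Type} [Fintype ι] [DecidableEq ι] (X Y : Matrix ι ι ℂ) (c : ℂ) (i j : ι) :
    (X * mexp (c • Y)) i j = ∑ k ∈ Finset.range (Fintype.card ι),
      ((1 / (k.factorial : ℂ)) * (X * Y ^ k) i j) * c ^ k := by
  unfold mexp
  rw [Matrix.mul_sum, Matrix.sum_apply]
  refine Finset.sum_congr rfl fun k _ => ?_
  rw [smul_pow, Matrix.mul_smul, Matrix.mul_smul, Matrix.smul_apply, Matrix.smul_apply,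
    smul_eq_mul, smul_eq_mul, Algebra.algebraMap_self, RingHom.id_apply]
  ring

/-- (row C1) If `f` vanishes on the curve `x exp(c y)`, `c ∈ ℂ`, then its derivative in the direction `y` vanishes at `x`.
Proof.  `f = aeval C.F.co p` (`exists_poly`).  `f (x * (ex C (c • y)).toX) = aeval (C.F.ρ x * mexp (c • C.F.d y')) p`, `y' = ∑ y j • C.bs j` (`pt_toX`, `ex_pt`,
`C.dm_complex`), the value at `c` of the polynomial `A p ∈ ℂ[c]`, `A` the algebra homomorphism with `X_ij ↦ (C.F.ρ x * mexp(c Y))_ij`.  It vanishes for all `c`, so `A p = 0`; its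
derivative at `0` is `aeval (C.F.ρ x) (dY Y p)` (derivation along `A` at `c = 0`: on `X_ij`: `(C.F.ρ x * Y)_ij`; if `card ≤ 1` then `Y = 0`, by nilpotency), which is
`(G.der y' f).1 x` by `aeval_dY`. -/
theorem der_ex {s : ℤ} {y : LR D ℂ} (hy : Sp s 1 y) (f : G.O) (x : G.X)
    (h : ∀ c : ℂ, f.1 (x * (ex C (c • y)).toX) = 0) : (G.der (∑ j, y j • C.bs j) f).1 x = 0 := by
  obtain ⟨p, rfl⟩ := exists_poly C.F C.faith f
  set Y : Matrix C.F.ι C.F.ι ℂ := C.F.d (∑ j, y j • C.bs j) with hY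
  have hdm : C.dm C.F y = Y := C.dm_complex C.F y
  have hnil : Y ^ Fintype.card C.F.ι = 0 := by rw [← hdm]; exact dm_nilp C C.F hy
  have hsp : ∀ c : ℂ, Sp s 1 (c • y) := by
    intro c
    refine ⟨fun k hk => hy.1 k fun h0 => hk ?_, fun γ hγ => hy.2 γ fun h0 => hγ ?_⟩
    · rw [Pi.smul_apply, h0, smul_zero]
    · rw [Pi.smul_apply, h0, smul_zero]
  have hρ : ∀ c : ℂ, C.F.ρ (x * (ex C (c • y)).toX) = C.F.ρ x * mexp (c • Y) := by
    intro c
    rw [map_mul, pt_toX, ex_pt C (hsp c), C.dm_smul, hdm]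
  obtain ⟨A, hAX⟩ : ∃ A : MvPolynomial (C.F.ι × C.F.ι) ℂ →ₐ[ℂ] Polynomial ℂ,
      ∀ ij, A (MvPolynomial.X ij) = ∑ k ∈ Finset.range (Fintype.card C.F.ι),
        Polynomial.C ((1 / (k.factorial : ℂ)) * (C.F.ρ x * Y ^ k) ij.1 ij.2) *
          Polynomial.X ^ k := ⟨MvPolynomial.aeval _, fun ij => MvPolynomial.aeval_X _ _⟩
  have hev : ∀ (c : ℂ) q, (A q).eval c =
      MvPolynomial.aeval (fun ij : C.F.ι × C.F.ι => (C.F.ρ x * mexp (c • Y)) ij.1 ij.2) q := by
    intro c q
    have h1 : ((Polynomial.aeval c).comp A) = MvPolynomial.aeval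
        (fun ij : C.F.ι × C.F.ι => (C.F.ρ x * mexp (c • Y)) ij.1 ij.2) := by
      apply MvPolynomial.algHom_ext
      intro ij
      rw [AlgHom.comp_apply, MvPolynomial.aeval_X, hAX, C1b_sum_pow, map_sum]
      refine Finset.sum_congr rfl fun k _ => ?_
      rw [map_mul, map_pow, Polynomial.aeval_X, Polynomial.aeval_C]
      rfl
    have h2 := DFunLike.congr_fun h1 q
    rw [← h2, AlgHom.comp_apply, Polynomial.coe_aeval_eq_eval]
  have hAp : A p = 0 := by
    apply Polynomial.funext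
    intro c
    rw [hev, Polynomial.eval_zero, ← hρ, ← C1b_eval]
    exact h c
  have hcard : ∀ i : C.F.ι, 0 < Fintype.card C.F.ι := fun i => Fintype.card_pos_iff.2 ⟨i⟩
  have hm0 : ∀ i j, (C.F.ρ x * mexp ((0 : ℂ) • Y)) i j = C.F.ρ x i j := by
    intro i j
    rw [C1b_sum_pow, Finset.sum_eq_single_of_mem 0 (Finset.mem_range.2 (hcard i))]
    · simp
    · intro k _ hk
      rw [zero_pow hk, mul_zero]
  have hder : ∀ q, (Polynomial.derivative (A q)).eval 0 =
      MvPolynomial.aeval (fun ij : C.F.ι × C.F.ι => C.F.ρ x ij.1 ij.2) (dY Y q) := by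
    intro q
    induction q using MvPolynomial.induction_on with
    | C a =>
      have h1 : A (MvPolynomial.C a) = Polynomial.C a := A.commutes a
      have h2 : dY Y (MvPolynomial.C a) = 0 := (dY Y).map_algebraMap a
      rw [h1, h2, Polynomial.derivative_C, Polynomial.eval_zero, map_zero]
    | add q r hq hr =>
      rw [map_add, map_add, map_add, map_add, Polynomial.eval_add, hq, hr]
    | mul_X q ij hq =>
      rw [map_mul, Polynomial.derivative_mul, Polynomial.eval_add, Polynomial.eval_mul,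
        Polynomial.eval_mul, hq, Derivation.leibniz, map_add, smul_eq_mul, smul_eq_mul, map_mul,
        map_mul, MvPolynomial.aeval_X]
      have h1 : (A (MvPolynomial.X ij)).eval 0 = C.F.ρ x ij.1 ij.2 := by
        rw [hev, MvPolynomial.aeval_X, hm0]
      have h2 : (A q).eval 0 =
          MvPolynomial.aeval (fun ij : C.F.ι × C.F.ι => C.F.ρ x ij.1 ij.2) q := by
        rw [hev]
        have : (fun ij : C.F.ι × C.F.ι => (C.F.ρ x * mexp ((0 : ℂ) • Y)) ij.1 ij.2) =
            fun ij : C.F.ι × C.F.ι => C.F.ρ x ij.1 ij.2 := funext fun ij => hm0 _ _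
        rw [this]
      have h3 : (Polynomial.derivative (A (MvPolynomial.X ij))).eval 0 =
          (C.F.ρ x * Y) ij.1 ij.2 := by
        have h4 : (Polynomial.derivative (A (MvPolynomial.X ij))).eval 0 =
            (A (MvPolynomial.X ij)).coeff 1 := by
          rw [← Polynomial.coeff_zero_eq_eval_zero, Polynomial.coeff_derivative]
          simp
        rw [h4, hAX, Polynomial.finsetSum_coeff]
        simp only [Polynomial.coeff_C_mul, Polynomial.coeff_X_pow]
        by_cases h5 : 1 < Fintype.card C.F.ι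
        · rw [Finset.sum_eq_single_of_mem 1 (Finset.mem_range.2 h5)]
          · simp
          · intro k _ hk
            rw [if_neg (fun h6 => hk h6.symm), mul_zero]
        · have h6 : Fintype.card C.F.ι = 1 := by
            have := hcard ij.1
            omega
          have h7 : Y = 0 := by
            have := hnil
            rw [h6, pow_one] at this
            exact this
          rw [h6, Finset.sum_range_one, h7]
          simp
      have h8 : MvPolynomial.aeval (fun ij : C.F.ι × C.F.ι => C.F.ρ x ij.1 ij.2)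
          (dY Y (MvPolynomial.X ij)) = (C.F.ρ x * Y) ij.1 ij.2 := by
        unfold dY
        rw [MvPolynomial.mkDerivation_X, map_sum, Matrix.mul_apply]
        refine Finset.sum_congr rfl fun k _ => ?_
        rw [map_mul, MvPolynomial.aeval_C, MvPolynomial.aeval_X, mul_comm]
        rfl
      rw [h1, h2, h3, h8]
      ring
  rw [← aeval_dY, C1b_eval, ← hder, hAp, Polynomial.derivative_zero, Polynomial.eval_zero]

/-- (row C1) The same for the torus.  Proof: `f = aeval C.F.co p`; `laurent C.wt (C.F.ρ x) p` gives `b` with `f (x t) = ∑ b ν chi ν t` (`tq_pt`, `pt_toX`); it vanishes for all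
`t : Fin n → ℂˣ`, so `b = 0` (independence of characters: `MP_c45d35_ag.chi_indep`), and the second part of `laurent` for `l = [k]` with
`aeval_dY` (`C.d_h k`) gives the claim. -/
theorem der_tq (k : Fin n) (f : G.O) (x : G.X)
    (h : ∀ t : Fin n → ℂˣ, f.1 (x * (tq C t).toX) = 0) :
    (G.der (C.bs (Sum.inl k)) f).1 x = 0 := by
  obtain ⟨p, rfl⟩ := exists_poly C.F C.faith f
  obtain ⟨b, hb1, hb2⟩ := laurent C.wt (C.F.ρ x) p
  have hb : b = 0 := by
    apply Pool.Agent.MP_c45d35_ag.chi_indep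
    intro t
    have h1 := h t
    rw [C1b_eval, map_mul, pt_toX, tq_pt C t C.isW_F] at h1
    have h2 := hb1 t
    have h3 : (C.F.ρ x).map (algebraMap ℂ ℂ) = C.F.ρ x := by
      ext i j
      rfl
    rw [h3, h1] at h2
    exact h2.symm
  have h4 := hb2 [k]
  rw [hb, Finsupp.sum_zero_index] at h4
  rw [← aeval_dY, C1b_eval, C.d_h k]
  exact h4

end Pool.Agent.MTH
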