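import Pool.Agent.MTH.C1
import Pool.Agent.MTG.B1a

/-! # MTH-C2 -/

namespace Pool.Agent.MTH

open Matrix
open Pool.Agent.MTF Pool.Agent.MTG
open Pool.Agent.MTD (ev)
open Pool.Agent.MP_c45d35_ag (chi)

variable {G : AffGrp} {n : ℕ} {D : RD n} (C : CD G D)

/-- the big cell `U⁻ T U⁺` (complex points) -/
def InCell (x : G.X) : Prop := ∃ (u v : G.Pt ℂ) (t : Fin n → ℂˣ),
  UU C (-1) u ∧ UU C 1 v ∧ x = (u * tq C t * v).toX

theorem C2_tq_one : tq C (1 : Fin n → ℂˣ) = 1 := by
  have h := tq_mul C (1 : Fin n → ℂˣ) 1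
  rw [mul_one] at h
  exact (mul_eq_left.1 h.symm)

/-- the value of the derivative as a linear function of the direction -/
noncomputable def C2_L (f : G.O) (y : G.X) : G.Lie →ₗ[ℂ] ℂ where
  toFun v := (G.der v f).1 y
  map_add' _ _ := rfl
  map_smul' _ _ := rfl

/-- (row C2) The big cell is dense.
Proof.  `AffGrp.eq_zero_of_der hG J` with `J := {f | ∀ x, InCell C x → f.1 x = 0}` (a submodule); `1 = (1 * tq 1 * 1).toX` is in the cell (`tq C 1 = 1` by `pt_injective`/`tq_mul`).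
Let `f ∈ J`, `v₀ : G.Lie`, `x = (u * tq t * v).toX`.  By `der_rt` `(der v₀ f)(x) = (der v₁ (rt v.toX f)) (u tq t)` with `v₁ = Ad v.toX v₀ = ∑ z j • C.bs j`; `der` is linear in `v₁`;
split `z = z⁻ + z⁰ + z⁺` (`Sp (-1) 1 z⁻`, `Sp 1 1 z⁺`, `z⁰ = hx _`).
`z⁺`: `der_ex` at `(u tq t).toX` for `rt v f`: `f (u tq t ex(c z⁺) v) = 0` because `ex(c z⁺) * v` is `UU 1` (`UU_ex`, `UU_mul`).
`z⁰`: `der_tq` for each `k`: `f (u tq t tq t' v) = 0` (`tq_mul`).
`z⁻`: apply `der_rt` again with `g = tq t`: `(der z⁻ (rt v f)) (u tq t) = (der (Ad (tq t) z⁻) (rt (tq t) (rt v f))) (u)` and `Ad (tq t) z⁻ =: z'` has `Sp (-1) 1 z'` (`Adp_tq`, `Ad_toX`);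
`der_ex` at `u.toX`: `f (u ex(c z') tq t v) = 0` because `u * ex(c z')` is `UU (-1)`.
(`toX_mul` everywhere.) -/
theorem cell_dense (hG : IsDomain G.O) (f : G.O) (h : ∀ x, InCell C x → f.1 x = 0) : f = 0 := by
  classical
  let J : Submodule ℂ G.O :=
    { carrier := {f | ∀ x, InCell C x → f.1 x = 0}
      add_mem' := by
        intro a b ha hb x hx
        show a.1 x + b.1 x = 0
        rw [ha x hx, hb x hx, add_zero]
      zero_mem' := fun x _ => rfl
      smul_mem' := by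
        intro c a ha x hx
        show c * a.1 x = 0
        rw [ha x hx, mul_zero] }
  refine AffGrp.eq_zero_of_der hG J ?_ ?_ f h
  · intro f hf
    refine hf 1 ⟨1, 1, 1, UU_one C, UU_one C, ?_⟩
    rw [C2_tq_one, mul_one, mul_one, toX_one]
  · rintro f hf v₀ x ⟨u, v, t, hu, hv, rfl⟩
    rw [toX_mul, der_rt]
    have hz : G.Ad v.toX v₀ = ∑ j, C.bs.repr (G.Ad v.toX v₀) j • C.bs j := (C.bs.sum_repr _).symm
    generalize (C.bs.repr (G.Ad v.toX v₀) : Fin n ⊕ D.Rt → ℂ) = z at hz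
    rw [hz]
    let zp : LR D ℂ := Sum.elim (fun _ => 0) fun γ => if 1 ≤ D.ht2 γ.1 then z (Sum.inr γ) else 0
    let zm : LR D ℂ := Sum.elim (fun _ => 0) fun γ => if 1 ≤ - D.ht2 γ.1 then z (Sum.inr γ) else 0
    let z0 : LR D ℂ := Sum.elim (fun k => z (Sum.inl k)) fun _ => 0
    have hht : ∀ γ : D.Rt, D.ht2 γ.1 ≠ 0 := by
      intro γ h0
      have h1 := isUnit_ht (D := D) (R := ℂ) γ
      rw [ev_hv, h0] at h1
      simp at h1
    have hsum : z = fun j => zm j + z0 j + zp j := by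
      funext j
      rcases j with k | γ
      · show z (Sum.inl k) = 0 + z (Sum.inl k) + 0
        ring
      · show z (Sum.inr γ) = (if 1 ≤ - D.ht2 γ.1 then z (Sum.inr γ) else 0) + 0 +
          (if 1 ≤ D.ht2 γ.1 then z (Sum.inr γ) else 0)
        have := hht γ
        rcases lt_or_gt_of_ne this with h1 | h1
        · rw [if_pos (by omega), if_neg (by omega)]
          ring
        · rw [if_neg (by omega), if_pos (by omega)]
          ring
    have hp : Sp 1 1 zp := by
      refine ⟨fun k hk => absurd rfl hk, fun γ hγ => ?_⟩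
      by_contra hcon
      apply hγ
      show (if 1 ≤ D.ht2 γ.1 then z (Sum.inr γ) else 0) = 0
      rw [if_neg (by omega)]
    have hm : Sp (-1) 1 zm := by
      refine ⟨fun k hk => absurd rfl hk, fun γ hγ => ?_⟩
      by_contra hcon
      apply hγ
      show (if 1 ≤ - D.ht2 γ.1 then z (Sum.inr γ) else 0) = 0
      rw [if_neg (by omega)]
    have key : C2_L (G.rt v.toX f) ((u * tq C t).toX) (∑ j, z j • C.bs j) =
        C2_L (G.rt v.toX f) ((u * tq C t).toX) (∑ j, zm j • C.bs j) +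
        ∑ k, z (Sum.inl k) * C2_L (G.rt v.toX f) ((u * tq C t).toX) (C.bs (Sum.inl k)) +
        C2_L (G.rt v.toX f) ((u * tq C t).toX) (∑ j, zp j • C.bs j) := by
      have e1 : (∑ j, z j • C.bs j) = (∑ j, zm j • C.bs j) + (∑ j, z0 j • C.bs j) + (∑ j, zp j • C.bs j) := by
        conv_lhs => rw [hsum]
        simp only [add_smul, Finset.sum_add_distrib]
      have e2 : (∑ j, z0 j • C.bs j) = ∑ k, z (Sum.inl k) • C.bs (Sum.inl k) := by
        rw [Fintype.sum_sum_type]
        simp [z0]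
      have e3 : C2_L (G.rt v.toX f) ((u * tq C t).toX) (∑ k, z (Sum.inl k) • C.bs (Sum.inl k)) =
          ∑ k, z (Sum.inl k) * C2_L (G.rt v.toX f) ((u * tq C t).toX) (C.bs (Sum.inl k)) := by
        rw [map_sum]
        exact Finset.sum_congr rfl fun k _ => map_smul _ _ _
      rw [e1, e2, map_add, map_add, e3]
    show C2_L (G.rt v.toX f) ((u * tq C t).toX) (∑ j, z j • C.bs j) = 0
    rw [key]
    have k1 : C2_L (G.rt v.toX f) ((u * tq C t).toX) (∑ j, zp j • C.bs j) = 0 := by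
      refine der_ex C hp (G.rt v.toX f) ((u * tq C t).toX) fun c => ?_
      show f.1 ((u * tq C t).toX * (ex C (c • zp)).toX * v.toX) = 0
      refine hf _ ⟨u, ex C (c • zp) * v, t, hu, UU_mul C (UU_ex C (Sp_smul c hp)) hv, ?_⟩
      rw [← toX_mul, ← toX_mul, mul_assoc (u * tq C t)]
    have k2 : ∀ k, C2_L (G.rt v.toX f) ((u * tq C t).toX) (C.bs (Sum.inl k)) = 0 := by
      intro k
      refine der_tq C k (G.rt v.toX f) ((u * tq C t).toX) fun t' => ?_
      show f.1 ((u * tq C t).toX * (tq C t').toX * v.toX) = 0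
      refine hf _ ⟨u, v, t * t', hu, hv, ?_⟩
      rw [← toX_mul, ← toX_mul, tq_mul, mul_assoc u]
    have k3 : C2_L (G.rt v.toX f) ((u * tq C t).toX) (∑ j, zm j • C.bs j) = 0 := by
      show (G.der (∑ j, zm j • C.bs j) (G.rt v.toX f)).1 ((u * tq C t).toX) = 0
      rw [toX_mul, der_rt, Ad_toX]
      have hm' : Sp (-1) 1 (Adp C (tq C t) zm) := by
        rw [Adp_tq]
        refine ⟨fun k hk => absurd rfl hk, fun γ hγ => hm.2 γ fun h0 => hγ ?_⟩
        show ((chi γ.1 t : ℂˣ) : ℂ) * zm (Sum.inr γ) = 0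
        rw [h0, mul_zero]
      refine der_ex C hm' (G.rt (tq C t).toX (G.rt v.toX f)) u.toX fun c => ?_
      show f.1 (u.toX * (ex C (c • Adp C (tq C t) zm)).toX * (tq C t).toX * v.toX) = 0
      refine hf _ ⟨u * ex C (c • Adp C (tq C t) zm), v, t,
        UU_mul C hu (UU_ex C (Sp_smul c hm')), hv, ?_⟩
      rw [← toX_mul, ← toX_mul, ← toX_mul]
    rw [k1, k3]
    simp [k2]

/-- (row C2) Consequently a nonzero function does not vanish identically on the cell, and if `d` does not vanish at any point of the cell and `f` vanishes on the cell where ..: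
the product form used later: `f * g = 0` on the cell implies `f = 0` or `g = 0`. -/
theorem cell_mul (hG : IsDomain G.O) (f g : G.O) (h : ∀ x, InCell C x → f.1 x * g.1 x = 0) :
    f = 0 ∨ g = 0 := by
  have h1 : f * g = 0 := cell_dense C hG (f * g) fun x hx => h x hx
  exact mul_eq_zero.1 h1

end Pool.Agent.MTH
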