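import Pool.Agent.MTH.B3
import Pool.Agent.MTH.C1

/-! # MTH-E1 -/

namespace Pool.Agent.MTH

open Matrix
open Pool.Agent.MTF Pool.Agent.MTG
open Pool.Agent.MTD (ev)
open Pool.Agent.MP_c45d35_ag (chi)

variable {G : AffGrp} {n : ℕ} {D : RD n} (C : CD G D)

section
variable {R : Type} [CommRing R] [Algebra ℂ R]

/-- the root vector with coefficient `r` -/
noncomputable def rv (γ : D.Rt) (r : R) : LR D R := Pi.single (Sum.inr γ) r

/-- `n_γ(c) = exp(c e_γ) exp(-c⁻¹ e_{-γ}) exp(c e_γ)`, for a unit `c` -/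
noncomputable def nn (γ : D.Rt) (c : Rˣ) : G.Pt R :=
  ex C (rv γ (c : R)) * ex C (rv (D.ng γ) (-((c⁻¹ : Rˣ) : R))) * ex C (rv γ (c : R))

theorem E1a_rv_inl (γ : D.Rt) (r : R) (k : Fin n) : (rv γ r : LR D R) (Sum.inl k) = 0 :=
  Pi.single_eq_of_ne (by simp) _

theorem E1a_rv_same (γ : D.Rt) (r : R) : (rv γ r : LR D R) (Sum.inr γ) = r :=
  Pi.single_eq_same _ _

theorem E1a_rv_ne {γ δ : D.Rt} (h : δ ≠ γ) (r : R) : (rv γ r : LR D R) (Sum.inr δ) = 0 :=
  Pi.single_eq_of_ne (fun h' => h (Sum.inr.inj h')) _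

theorem E1a_rv (γ : D.Rt) (r : R) : (rv γ r : LR D R) = r • rv γ 1 := by
  funext j
  rw [Pi.smul_apply, smul_eq_mul]
  rcases j with k | δ
  · rw [E1a_rv_inl, E1a_rv_inl, mul_zero]
  · by_cases h : δ = γ
    · subst h
      rw [E1a_rv_same, E1a_rv_same, mul_one]
    · rw [E1a_rv_ne h, E1a_rv_ne h, mul_zero]

theorem E1a_br_smul (c c' : R) (z z' : LR D R) :
    C.br (c • z) (c' • z') = (c * c') • C.br z z' := by
  funext k
  unfold CD.br
  rw [Pi.smul_apply, smul_eq_mul, Finset.mul_sum]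
  refine Finset.sum_congr rfl fun i _ => ?_
  rw [Finset.mul_sum]
  refine Finset.sum_congr rfl fun j _ => ?_
  rw [Pi.smul_apply, Pi.smul_apply, smul_eq_mul, smul_eq_mul]
  ring

theorem E1a_br_zero (z : LR D R) : C.br z 0 = 0 := by
  have := E1a_br_smul C (1 : R) 0 z 0
  rw [one_smul, zero_smul, mul_zero, zero_smul] at this
  exact this

theorem E1a_br_hx (x : Fin n → R) (γ : D.Rt) :
    C.br (CD.hx x) (rv γ 1) = ev γ.1 x • (rv γ 1 : LR D R) := by
  rw [br_hx]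
  funext j
  rw [Pi.smul_apply, smul_eq_mul]
  rcases j with k | δ
  · rw [E1a_rv_inl, mul_zero]
    rfl
  · show ev δ.1 x * (rv γ 1 : LR D R) (Sum.inr δ) = _
    by_cases h : δ = γ
    · rw [h]
    · rw [E1a_rv_ne h, mul_zero, mul_zero]

theorem E1a_br_rv (γ δ : D.Rt) (k : Fin n ⊕ D.Rt) :
    C.br (rv γ (1 : R)) (rv δ 1) k = algebraMap ℂ R (C.sc (Sum.inr γ) (Sum.inr δ) k) := by
  unfold CD.br
  rw [Finset.sum_eq_single (Sum.inr γ), Finset.sum_eq_single (Sum.inr δ)]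
  · rw [E1a_rv_same, E1a_rv_same, one_mul, one_mul]
  · intro j _ hj
    have h2 : (rv δ 1 : LR D R) j = 0 := Pi.single_eq_of_ne hj _
    rw [h2, mul_zero, zero_mul]
  · intro h
    exact absurd (Finset.mem_univ _) h
  · intro i _ hi
    have h2 : (rv γ 1 : LR D R) i = 0 := Pi.single_eq_of_ne hi _
    exact Finset.sum_eq_zero fun j _ => by rw [h2, zero_mul, zero_mul]
  · intro h
    exact absurd (Finset.mem_univ _) h

theorem E1a_br_self (γ : D.Rt) : C.br (rv γ (1 : R)) (rv γ 1) = 0 := by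
  funext k
  rw [E1a_br_rv]
  unfold CD.sc
  rw [lie_self, map_zero, Finsupp.zero_apply, map_zero]
  rfl

theorem E1a_br_ng (γ : D.Rt) :
    C.br (rv γ (1 : R)) (rv (D.ng γ) 1) = CD.hx (cv D R γ) := by
  funext j
  rw [E1a_br_rv]
  unfold CD.sc
  rw [C.e_ng, map_sum, Finsupp.finsetSum_apply]
  simp only [map_smul, Finsupp.smul_apply, Module.Basis.repr_self, smul_eq_mul]
  rcases j with k | δ
  · rw [Finset.sum_eq_single k]
    · rw [Finsupp.single_eq_same, mul_one, map_intCast]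
      rfl
    · intro i _ hi
      rw [Finsupp.single_eq_of_ne (by intro h; exact hi (Sum.inl.inj h).symm), mul_zero]
    · intro h
      exact absurd (Finset.mem_univ _) h
  · rw [Finset.sum_eq_zero fun i _ => ?_, map_zero]
    · rfl
    · rw [Finsupp.single_eq_of_ne (by simp), mul_zero]

theorem E1a_ev_cv (μ : Fin n → ℤ) (γ : D.Rt) : ev μ (cv D R γ) = ((D.cp γ μ : ℤ) : R) := by
  have h1 : μ = ∑ k, μ k • (Pi.single k (1 : ℤ) : Fin n → ℤ) := by
    funext j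
    rw [Finset.sum_apply, Finset.sum_eq_single j]
    · rw [Pi.smul_apply, Pi.single_eq_same, smul_eq_mul, mul_one]
    · intro k _ hk
      rw [Pi.smul_apply, Pi.single_eq_of_ne (Ne.symm hk), smul_zero]
    · intro hk
      exact absurd (Finset.mem_univ j) hk
  have h2 : D.cp γ μ = ∑ k, μ k * D.cp γ (Pi.single k 1) := by
    conv_lhs => rw [h1]
    have h3 := map_sum (AddMonoidHom.mk' (D.cp γ) (D.cp_add γ))
      (fun k => μ k • (Pi.single k (1 : ℤ) : Fin n → ℤ)) Finset.univ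
    refine h3.trans (Finset.sum_congr rfl fun k _ => ?_)
    exact D.cp_smul _ _ _
  rw [h2]
  unfold ev cv
  push_cast
  rfl

theorem E1a_card (γ : D.Rt) : 3 ≤ Fintype.card (Fin n ⊕ D.Rt) := by
  classical
  rw [Fintype.card_sum, Fintype.card_fin]
  have h1 : 1 ≤ n := by
    by_contra h
    have h0 : n = 0 := by omega
    subst h0
    exact D.Rt_ne γ (funext fun k => k.elim0)
  have h2 : 2 ≤ Fintype.card D.Rt := by
    have h3 : D.ng γ ≠ γ := by
      intro h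
      have h4 := D.pos_ng γ
      rw [h] at h4
      tauto
    have h5 : 1 < Fintype.card D.Rt := Fintype.one_lt_card_iff.2 ⟨D.ng γ, γ, h3⟩
    omega
  omega

theorem E1a_exp {s : ℤ} {z : LR D R} (hz : Sp s 1 z) (hN : 3 ≤ Fintype.card (Fin n ⊕ D.Rt))
    {z' z1 z2 : LR D R} (h1 : C.br z z' = z1) (h2 : C.br z z1 = z2) (h3 : C.br z z2 = 0) :
    Adp C (ex C z) z' = z' + z1 + algebraMap ℂ R (1 / 2) • z2 := by
  have hT : ∀ k, ((C.dm (AdR C) z) ^ (k + 3)).mulVec z' = 0 := by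
    intro k
    rw [pow_succ, ← Matrix.mulVec_mulVec, dm_AdR, h1, pow_succ, ← Matrix.mulVec_mulVec, dm_AdR, h2,
      pow_succ, ← Matrix.mulVec_mulVec, dm_AdR, h3]
    exact Matrix.mulVec_zero _
  have hsum : ∀ (S : Finset ℕ) (M : ℕ → Matrix (AdR C).ι (AdR C).ι R),
      (∑ k ∈ S, M k).mulVec z' = ∑ k ∈ S, (M k).mulVec z' := by
    intro S M
    classical
    induction S using Finset.induction_on with
    | empty => rw [Finset.sum_empty, Finset.sum_empty, Matrix.zero_mulVec]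
    | insert a S ha ih =>
      rw [Finset.sum_insert ha, Finset.sum_insert ha, Matrix.add_mulVec, ih]
  unfold Adp
  rw [ex_pt C hz (AdR C)]
  unfold mexp
  rw [hsum]
  have hsub : Finset.range 3 ⊆ Finset.range (Fintype.card (AdR C).ι) :=
    Finset.range_subset_range.2 hN
  rw [← Finset.sum_subset hsub]
  · have e0 : ((C.dm (AdR C) z) ^ 0).mulVec z' = z' := by
      rw [pow_zero]
      exact Matrix.one_mulVec _
    have e1 : ((C.dm (AdR C) z) ^ 1).mulVec z' = z1 := by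
      rw [pow_one, dm_AdR, h1]
    have e2 : ((C.dm (AdR C) z) ^ 2).mulVec z' = z2 := by
      rw [pow_two, ← Matrix.mulVec_mulVec, dm_AdR, dm_AdR, h1, h2]
    rw [Finset.sum_range_succ, Finset.sum_range_succ, Finset.sum_range_one,
      Matrix.smul_mulVec, Matrix.smul_mulVec, Matrix.smul_mulVec, e0, e1, e2]
    have f0 : algebraMap ℂ R (1 / ((Nat.factorial 0 : ℕ) : ℂ)) = 1 := by simp
    have f1 : algebraMap ℂ R (1 / ((Nat.factorial 1 : ℕ) : ℂ)) = 1 := by simp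
    have f2 : (1 / ((Nat.factorial 2 : ℕ) : ℂ)) = 1 / 2 := by simp
    rw [f0, f1, f2]
    show (1 : R) • z' + (1 : R) • z1 + _ = _
    rw [one_smul, one_smul]
    rfl
  · intro k _ hk
    have hk3 : 3 ≤ k := by
      by_contra h
      exact hk (Finset.mem_range.2 (by omega))
    obtain ⟨m, rfl⟩ := Nat.exists_eq_add_of_le hk3
    rw [Matrix.smul_mulVec, add_comm 3 m, hT, smul_zero]

/-- (row E1) every root has a sign: `Sp s 1 (rv γ r)` for `s = 1` or `s = -1`; `ht2_pos`, `pos_ng`. -/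
theorem Sp_rv (γ : D.Rt) (r : R) : ∃ s : ℤ, (s = 1 ∨ s = -1) ∧ Sp s 1 (rv γ r) := by
  have key : ∀ s : ℤ, 1 ≤ s * D.ht2 γ.1 → Sp s 1 (rv γ r) := by
    intro s hs
    refine ⟨fun k hk => absurd (E1a_rv_inl γ r k) hk, fun δ hδ => ?_⟩
    have : δ = γ := by
      by_contra h
      exact hδ (E1a_rv_ne h r)
    rw [this]
    exact hs
  by_cases h : D.Pos γ
  · exact ⟨1, Or.inl rfl, key 1 (by have := (D.ht2_pos h).1; omega)⟩
  · have h1 := (D.ht2_pos ((D.pos_ng γ).2 h)).1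
    have h2 : D.ht2 (D.ng γ).1 = -D.ht2 γ.1 := by
      have h3 := D.ht2_smul (-1) γ.1
      rw [neg_one_smul] at h3
      rw [D.ng_val, h3]
      ring
    exact ⟨-1, Or.inr rfl, key (-1) (by omega)⟩

/-- (row E1) `exp(r e_γ)` on the Cartan subalgebra: `Ad(exp(r e_γ)) (hx x) = hx x - r γ(x) e_γ`.
Proof: `(AdR C).pt (ex C z) = mexp (C.dm (AdR C) z)` (`ex_pt`), `[r e_γ, hx x] = - r γ(x) e_γ` (`br_hx`, `br_neg`) and `[e_γ, e_γ] = 0`, so the terms `k ≥ 2` vanish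
(`dm_AdR`); `card ≥ 3` because there are roots and `n ≥ 1`. -/
theorem ex_hx (γ : D.Rt) (r : R) (x : Fin n → R) :
    Adp C (ex C (rv γ r)) (CD.hx x) = CD.hx x - (r * ev γ.1 x) • rv γ 1 := by
  obtain ⟨s, -, hz⟩ := Sp_rv (D := D) γ r
  have h1 : C.br (rv γ r) (CD.hx x) = -((r * ev γ.1 x) • (rv γ 1 : LR D R)) := by
    rw [br_neg C (CD.hx x), E1a_rv γ r]
    have h2 := E1a_br_smul C (1 : R) r (CD.hx x) (rv γ 1)
    rw [one_smul, one_mul] at h2
    rw [h2, E1a_br_hx, smul_smul]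
  have h2 : C.br (rv γ r) (-((r * ev γ.1 x) • (rv γ 1 : LR D R))) = 0 := by
    rw [← neg_smul, E1a_rv γ r, E1a_br_smul, E1a_br_self, smul_zero]
  rw [E1a_exp C hz (E1a_card γ) h1 h2 (E1a_br_zero C _), smul_zero, add_zero, sub_eq_add_neg]

/-- (row E1) `Ad(exp(r e_{-γ})) e_γ = e_γ - r hx (γ^∨) - r² e_{-γ}`.  With `[e_γ, e_{-γ}] = hx (cv γ)` (`C.e_ng`): `[r e_{-γ}, e_γ] = - r hx (cv γ)`,
`[r e_{-γ}, - r hx (cv γ)] = r² [hx (cv γ), e_{-γ}] = -2 r² e_{-γ}`, `(1/2) (-2 r²) = - r²`, the next term is `0`. -/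
theorem ex_ng (γ : D.Rt) (r : R) :
    Adp C (ex C (rv (D.ng γ) r)) (rv γ 1) = rv γ 1 - r • CD.hx (cv D R γ) - (r ^ 2) • rv (D.ng γ) 1 := by
  obtain ⟨s, -, hz⟩ := Sp_rv (D := D) (D.ng γ) r
  have h1 : C.br (rv (D.ng γ) r) (rv γ 1) = -(r • (CD.hx (cv D R γ) : LR D R)) := by
    rw [br_neg C (rv γ 1), E1a_rv (D.ng γ) r]
    have h2 := E1a_br_smul C (1 : R) r (rv γ 1) (rv (D.ng γ) 1)
    rw [one_smul, one_mul] at h2
    rw [h2, E1a_br_ng]
  have h2 : C.br (rv (D.ng γ) r) (-(r • (CD.hx (cv D R γ) : LR D R))) =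
      -((2 * r ^ 2) • (rv (D.ng γ) 1 : LR D R)) := by
    rw [← neg_smul, E1a_rv (D.ng γ) r, E1a_br_smul, br_neg C (CD.hx (cv D R γ)), E1a_br_hx,
      D.ng_val, Pool.Agent.MTD.ev_neg_left, E1a_ev_cv, D.cp_self, ← neg_smul, smul_smul, ← neg_smul]
    congr 1
    push_cast
    ring
  have h3 : C.br (rv (D.ng γ) r) (-((2 * r ^ 2) • (rv (D.ng γ) 1 : LR D R))) = 0 := by
    rw [← neg_smul, E1a_rv (D.ng γ) r, E1a_br_smul, E1a_br_self, smul_zero]
  rw [E1a_exp C hz (E1a_card γ) h1 h2 h3, smul_neg, smul_smul, sub_eq_add_neg, sub_eq_add_neg]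
  congr 3
  have h4 : algebraMap ℂ R (1 / 2) * 2 = 1 := by
    have : (2 : R) = algebraMap ℂ R 2 := (map_ofNat (algebraMap ℂ R) 2).symm
    rw [this, ← map_mul]
    norm_num
  linear_combination r ^ 2 * h4

/-- (row E1) the reflection: `Ad(n_γ(c)) (hx x) = hx (x - γ(x) γ^∨)`.
Proof: with `e = rv γ 1`, `f = rv (ng γ) 1`, `h = hx (cv γ)`, `a = γ(x)`.  `Ad(exp(c e)) x = x - c a e`.  `Ad(exp(-c⁻¹ f)) x = x - c⁻¹ a f` (`ex_hx` for `ng γ`: `(-c⁻¹) * ev (-γ) x = c⁻¹ a`),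
`Ad(exp(-c⁻¹ f)) e = e + c⁻¹ h - c⁻² f` (`ex_ng`).  So after two factors: `x - c⁻¹ a f - c a (e + c⁻¹ h - c⁻² f) = x - a h - c a e`.  `Ad(exp(c e))`: on `x - a h = hx (x - a γ^∨)`, whose
`γ`-value is `a - 2a = - a`: `x - a h + c a e`; on `e`: `e`.  Total `x - a h`. -/
theorem nn_hx (γ : D.Rt) (c : Rˣ) (x : Fin n → R) :
    Adp C (nn C γ c) (CD.hx x) = CD.hx (x - ev γ.1 x • cv D R γ) := by
  have hsub : ∀ (φ : G.Pt R) (z z' : LR D R), Adp C φ (z - z') = Adp C φ z - Adp C φ z' := by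
    intro φ z z'
    rw [sub_eq_add_neg, ← neg_one_smul R z', Adp_add, Adp_smul, neg_one_smul, ← sub_eq_add_neg]
  have hhx : (CD.hx (x - ev γ.1 x • cv D R γ) : LR D R) =
      CD.hx x - ev γ.1 x • CD.hx (cv D R γ) := by
    funext j
    rcases j with k | δ
    · rfl
    · show (0 : R) = 0 - ev γ.1 x * 0
      rw [mul_zero, sub_zero]
  have hc : (c : R) * ((c⁻¹ : Rˣ) : R) = 1 := Units.mul_inv c
  unfold nn
  rw [Adp_mul, Adp_mul, ex_hx, hsub, Adp_smul, ex_hx, ex_ng, D.ng_val,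
    Pool.Agent.MTD.ev_neg_left]
  have h1 : (CD.hx x : LR D R) - (-((c⁻¹ : Rˣ) : R) * -ev γ.1 x) • rv (D.ng γ) 1 -
      ((c : R) * ev γ.1 x) • (rv γ 1 - (-((c⁻¹ : Rˣ) : R)) • CD.hx (cv D R γ) -
        ((-((c⁻¹ : Rˣ) : R)) ^ 2) • rv (D.ng γ) 1) =
      CD.hx (x - ev γ.1 x • cv D R γ) - ((c : R) * ev γ.1 x) • rv γ 1 := by
    rw [hhx]
    have h2 : (c : R) * ev γ.1 x * ((c⁻¹ : Rˣ) : R) ^ 2 = ((c⁻¹ : Rˣ) : R) * ev γ.1 x := by
      linear_combination (ev γ.1 x * ((c⁻¹ : Rˣ) : R)) * hc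
    have h3 : (c : R) * ev γ.1 x * ((c⁻¹ : Rˣ) : R) = ev γ.1 x := by
      linear_combination (ev γ.1 x) * hc
    have h3' : (c : R) * ev γ.1 x * -((c⁻¹ : Rˣ) : R) = - ev γ.1 x := by rw [mul_neg, h3]
    rw [smul_sub, smul_sub, smul_smul, smul_smul, neg_sq, h2, h3', neg_mul_neg]
    module
  rw [h1, hsub, Adp_smul, ex_hx]
  have h4 : ∀ r : R, Adp C (ex C (rv γ r)) (rv γ 1) = (rv γ 1 : LR D R) := by
    intro r
    obtain ⟨s, -, hz⟩ := Sp_rv (D := D) γ r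
    have h5 : C.br (rv γ r) (rv γ 1) = (0 : LR D R) := by
      have := E1a_br_smul C r (1 : R) (rv γ 1) (rv γ 1)
      rw [one_smul, E1a_br_self, smul_zero, ← E1a_rv] at this
      exact this
    rw [E1a_exp C hz (E1a_card γ) h5 (E1a_br_zero C _) (E1a_br_zero C _), smul_zero, add_zero,
      add_zero]
  rw [h4]
  have h6 : ev γ.1 (x - ev γ.1 x • cv D R γ) = - ev γ.1 x := by
    rw [Pool.Agent.MTD.ev_sub, Pool.Agent.MTD.ev_smul, E1a_ev_cv, D.cp_self]
    push_cast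
    ring
  rw [h6]
  module

end

/-- the action of the Weyl group on `t = R^n`: `ev (u μ) (wx u x) = ev μ x` -/
noncomputable def wx {R : Type} [CommRing R] (u : D.W) (x : Fin n → R) : Fin n → R :=
  fun k => ev ((u⁻¹).1 (Pi.single k 1)) x

theorem E1b_wx {R : Type} [CommRing R] (u : D.W) (x : Fin n → R) (ν : Fin n → ℤ) :
    ev ν (wx u x) = ev ((u⁻¹).1 ν) x := by
  have h1 : ν = ∑ k, ν k • (Pi.single k (1 : ℤ) : Fin n → ℤ) := by
    funext j
    rw [Finset.sum_apply, Finset.sum_eq_single j]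
    · rw [Pi.smul_apply, Pi.single_eq_same, smul_eq_mul, mul_one]
    · intro k _ hk
      rw [Pi.smul_apply, Pi.single_eq_of_ne (Ne.symm hk), smul_zero]
    · intro hk
      exact absurd (Finset.mem_univ j) hk
  conv_rhs => rw [h1, map_sum, Pool.Agent.MTD.ev_sum_left]
  show ∑ k, ((ν k : ℤ) : R) * wx u x k = _
  refine Finset.sum_congr rfl fun k _ => ?_
  rw [map_smul, Pool.Agent.MTD.ev_smul_left]
  rfl

theorem E1b_single {R : Type} [CommRing R] (k : Fin n) (x : Fin n → R) :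
    ev (Pi.single k (1 : ℤ)) x = x k := by
  unfold ev
  rw [Finset.sum_eq_single k]
  · rw [Pi.single_eq_same, Int.cast_one, one_mul]
  · intro j _ hj
    rw [Pi.single_eq_of_ne hj, Int.cast_zero, zero_mul]
  · intro hk
    exact absurd (Finset.mem_univ k) hk

theorem E1b_single' (μ : Fin n → ℤ) (k : Fin n) :
    ev μ (Pi.single k (1 : ℂ)) = ((μ k : ℤ) : ℂ) := by
  unfold ev
  rw [Finset.sum_eq_single k]
  · rw [Pi.single_eq_same, mul_one]
  · intro j _ hj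
    rw [Pi.single_eq_of_ne hj, mul_zero]
  · intro hk
    exact absurd (Finset.mem_univ k) hk

theorem E1b_ev_inj {μ ν : Fin n → ℤ} (h : ∀ z : Fin n → ℂ, ev μ z = ev ν z) : μ = ν := by
  funext k
  have := h (Pi.single k 1)
  rw [E1b_single', E1b_single'] at this
  exact_mod_cast this

/-- (row E1) both sides are additive in `μ` -/
theorem ev_wx {R : Type} [CommRing R] (u : D.W) (x : Fin n → R) (μ : Fin n → ℤ) :
    ev (u.1 μ) (wx u x) = ev μ x := by
  rw [E1b_wx, D.W_inv_apply']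

/-- (row E1) `ev (Pi.single k 1)` separates -/
theorem wx_mul {R : Type} [CommRing R] (u v : D.W) (x : Fin n → R) :
    wx (u * v) x = wx u (wx v x) := by
  funext k
  have h1 : wx u (wx v x) k = ev ((u⁻¹).1 (Pi.single k 1)) (wx v x) := rfl
  rw [h1, E1b_wx]
  show ev (((u * v)⁻¹).1 (Pi.single k 1)) x = _
  rw [_root_.mul_inv_rev]
  rfl

theorem wx_one {R : Type} [CommRing R] (x : Fin n → R) : wx (1 : D.W) x = x := by
  funext k
  show ev (((1 : D.W)⁻¹).1 (Pi.single k 1)) x = x k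
  rw [inv_one]
  exact E1b_single k x

/-- (row E1) -/
theorem wx_rW {R : Type} [CommRing R] (γ : D.Rt) (x : Fin n → R) :
    wx (D.rW γ) x = x - ev γ.1 x • cv D R γ := by
  funext k
  show ev (((D.rW γ)⁻¹).1 (Pi.single k 1)) x = x k - ev γ.1 x * ((D.cp γ (Pi.single k 1) : ℤ) : R)
  rw [D.rW_inv, D.rW_apply]
  unfold RD.rf
  rw [Pool.Agent.MTD.ev_sub_left, Pool.Agent.MTD.ev_smul_left, E1b_single, mul_comm]

/-- (row E1) Representatives of the Weyl group.  `D.W` is generated by the `rW γ` (`Subgroup.closure_induction` or `exists_list`), `nn_hx` with `c = 1`, `Adp_mul`. -/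
theorem exists_nw (u : D.W) : ∃ φ : G.Pt ℂ, ∀ x : Fin n → ℂ, Adp C φ (CD.hx x) = CD.hx (wx u x) := by
  obtain ⟨l, rfl⟩ := D.exists_list u
  induction l with
  | nil =>
    refine ⟨1, fun x => ?_⟩
    rw [List.map_nil, List.prod_nil, wx_one, Adp_one]
  | cons α l ih =>
    obtain ⟨φ, hφ⟩ := ih
    refine ⟨nn C α.1 1 * φ, fun x => ?_⟩
    rw [Adp_mul, hφ, nn_hx, List.map_cons, List.prod_cons, wx_mul]
    show _ = CD.hx (wx (D.rW α.1) _)
    rw [wx_rW]

/-- (row E1) A point with `Ad φ (hx x) = hx (wx u x)` for all `x` maps the weight space `μ` to the weight space `u μ`, in every weight representation: `pt_dm`, `IsW.dm_hx`: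
`(ev (w b) x - ev (w a) (wx u x)) * E.pt φ a b = 0` for all `x`; if the entry is not `0` then `ev (w b) x = ev (w a) (wx u x) = ev (u⁻¹ (w a)) x` for all `x : Fin n → ℂ`. -/
theorem nw_supp {E : MTF.Rep G} {w : E.ι → Fin n → ℤ} (hE : C.IsW E w) {u : D.W} {φ : G.Pt ℂ}
    (h : ∀ x : Fin n → ℂ, Adp C φ (CD.hx x) = CD.hx (wx u x)) (a b : E.ι)
    (hab : E.pt φ a b ≠ 0) : w a = u.1 (w b) := by
  have h3 : (u⁻¹).1 (w a) = w b := by
    apply E1b_ev_inj
    intro x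
    have h1 := pt_dm C E φ (CD.hx x)
    rw [h, hE.dm_hx, hE.dm_hx] at h1
    have h2 := congrFun (congrFun h1 a) b
    rw [Matrix.mul_diagonal, Matrix.diagonal_mul, E1b_wx] at h2
    exact mul_right_cancel₀ hab (by linear_combination -h2)
  rw [← h3, D.W_inv_apply]

end Pool.Agent.MTH
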