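import Pool.Agent.MTH.D2

/-! # MTH-F2 -/

namespace Pool.Agent.MTH

open Matrix
open Pool.Agent.MTF Pool.Agent.MTG
open Pool.Agent.MTD (ev)
open Pool.Agent.MP_c45d35_ag (chi)

section mat
variable {R : Type} [CommRing R] {ι : Type} [Fintype ι] [DecidableEq ι] (ht : ι → ℤ)

theorem F2a_ee (c : ℤ) : eC R ht c * eC R ht c = eC R ht c := by
  unfold eC
  rw [Matrix.diagonal_mul_diagonal]
  congr 1
  funext a
  split_ifs <;> simp

theorem F2a_upper {g : Matrix ι ι R} (hg : ∀ a b, g a b ≠ 0 → ht b ≤ ht a) (c : ℤ) :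
    g * eC R ht c = eC R ht c * g * eC R ht c := by
  ext a b
  unfold eC
  rw [Matrix.mul_diagonal, Matrix.mul_diagonal, Matrix.diagonal_mul]
  by_cases h : g a b = 0
  · rw [h]; ring
  · have h1 := hg a b h
    by_cases h2 : c ≤ ht b
    · rw [if_pos (h2.trans h1), one_mul]
    · rw [if_neg h2, mul_zero, mul_zero]

theorem F2a_eA (g : Matrix ι ι R) (c : ℤ) : eC R ht c * aC ht g c = eC R ht c * g * eC R ht c := by
  unfold aC
  rw [mul_add, mul_sub, mul_one, F2a_ee, sub_self, add_zero, ← mul_assoc, ← mul_assoc, F2a_ee]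

theorem F2a_Ae (g : Matrix ι ι R) (c : ℤ) : aC ht g c * eC R ht c = eC R ht c * g * eC R ht c := by
  unfold aC
  rw [add_mul, sub_mul, one_mul, F2a_ee, sub_self, add_zero, mul_assoc, F2a_ee]

theorem F2a_mul {g h : Matrix ι ι R} (hh : ∀ a b, h a b ≠ 0 → ht b ≤ ht a) (c : ℤ) :
    aC ht (g * h) c = aC ht g c * aC ht h c := by
  have hgh : eC R ht c * g * h * eC R ht c = eC R ht c * g * eC R ht c * h * eC R ht c := by
    rw [mul_assoc (eC R ht c * g) h, F2a_upper ht hh c]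
    simp only [mul_assoc]
  have h1 : aC ht g c * aC ht h c = aC ht g c * (eC R ht c * h * eC R ht c) +
      aC ht g c * (1 - eC R ht c) := by
    conv_lhs => rw [show aC ht h c = eC R ht c * h * eC R ht c + (1 - eC R ht c) from rfl]
    rw [mul_add]
  have h2 : aC ht g c * (1 - eC R ht c) = 1 - eC R ht c := by
    rw [mul_sub, mul_one, F2a_Ae]
    unfold aC
    abel
  have h3 : aC ht g c * (eC R ht c * h * eC R ht c) = eC R ht c * g * eC R ht c * h * eC R ht c := by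
    rw [← mul_assoc, ← mul_assoc, F2a_Ae]
  rw [h1, h2, h3, ← hgh]
  show eC R ht c * (g * h) * eC R ht c + (1 - eC R ht c) = _
  rw [← mul_assoc]

/-- (row F2) `g b e = g e b e` for `b` block upper triangular, so `aC (g b) = aC g * aC b`. -/
theorem dC_mul_upper (g : Matrix ι ι R) {b : Matrix ι ι R} (hb : ∀ i j, b i j ≠ 0 → ht j ≤ ht i)
    (c : ℤ) : dC ht (g * b) c = dC ht g c * dC ht b c := by
  unfold dC
  rw [F2a_mul ht hb, Matrix.det_mul]

/-- (row F2) `e = eC (ht b')`: `g b e adj (aC (g b)) = g e (e b e + 1 - e) adj (aC b) adj (aC g) = det (aC b) • g e adj (aC g)`; use `(e b e) adj (aC b) = e (aC b) adj (aC b)`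
and `e adj(aC b) ..`: precisely `b e = e b e = e (aC b)`, `adj (aC g * aC b) = adj (aC b) * adj (aC g)` (`Matrix.adjugate_mul_distrib`), `(aC b) * adj (aC b) = det • 1`. -/
theorem lC_mul_upper (g : Matrix ι ι R) {b : Matrix ι ι R} (hb : ∀ i j, b i j ≠ 0 → ht j ≤ ht i)
    (a b' : ι) : lC ht (g * b) a b' = dC ht b (ht b') * lC ht g a b' := by
  have h1 : g * b * eC R ht (ht b') * (aC ht (g * b) (ht b')).adjugate =
      (aC ht b (ht b')).det • (g * eC R ht (ht b') * (aC ht g (ht b')).adjugate) := by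
    rw [F2a_mul ht hb, Matrix.adjugate_mul_distrib, mul_assoc g b, F2a_upper ht hb, ← F2a_eA,
      ← mul_assoc, ← mul_assoc, mul_assoc (g * eC R ht (ht b')) (aC ht b (ht b')),
      Matrix.mul_adjugate, Matrix.mul_smul, mul_one, Matrix.smul_mul]
  exact congrFun (congrFun h1 a) b'

end mat

variable {G : AffGrp} {n : ℕ} {D : RD n} (C : CD G D)

/-- the numerator of the entry `(a, b)` of the factor `L`, with denominator `Dl` -/
noncomputable def fL (a b : C.F.ι) : G.O := by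
  classical
  exact lC (hF C) (coM C) a b * ∏ a' ∈ Finset.univ.erase b, dC (hF C) (coM C) (hF C a')

/-- the functions with `f (x b) = Dl (b) f (x)` for `b` in the Borel subgroup `T U⁺` -/
noncomputable def MB : Submodule ℂ G.O where
  carrier := {f | ∀ (x : G.X) (t : Fin n → ℂˣ) (v : G.Pt ℂ), UU C 1 v →
    f.1 (x * (tq C t * v).toX) = (tq C t * v) (Dl C) * f.1 x}
  add_mem' := by
    intro f g hf hg x t v hv
    rw [AffGrp.O_add, AffGrp.O_add, hf x t v hv, hg x t v hv]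
    ring
  zero_mem' := by
    intro x t v hv
    rw [AffGrp.O_zero, AffGrp.O_zero, mul_zero]
  smul_mem' := by
    intro c f hf x t v hv
    rw [AffGrp.O_smul, AffGrp.O_smul, hf x t v hv]
    ring

theorem MB_lt {f : G.O} (hf : f ∈ MB C) (y : G.X) : G.lt y f ∈ MB C := by
  intro x t v hv
  show f.1 (y * (x * _)) = _ * f.1 (y * x)
  rw [← mul_assoc]
  exact hf (y * x) t v hv

/-- (row F2) the matrix of `tq t * v`, `v` in `U⁺`, is block upper triangular -/
theorem upper_tv {R : Type} [CommRing R] [Algebra ℂ R] (t : Fin n → Rˣ) {v : G.Pt R} (hv : UU C 1 v)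
    (a b : C.F.ι) (h : C.F.pt (tq C t * v) a b ≠ 0) : hF C b ≤ hF C a := by
  by_cases hab : a = b
  · rw [hab]
  · rw [Rep.pt_mul, tq_pt C t C.isW_F, Matrix.diagonal_mul] at h
    have h1 : (C.F.pt v - 1) a b ≠ 0 := by
      rw [Matrix.sub_apply, Matrix.one_apply_ne hab, sub_zero]
      intro h2
      exact h (by rw [h2, mul_zero])
    have h2 := hv a b h1
    show D.ht2 (C.wt b) ≤ D.ht2 (C.wt a)
    omega

/-- the value of a function at a product -/
theorem F2b_val (f : G.O) (x : G.X) (φ : G.Pt ℂ) :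
    f.1 (x * φ.toX) = (AffGrp.Pt.const ℂ x * φ) f := by
  rw [← AffGrp.Pt.toX_apply, toX_mul, toX_const]

theorem F2b_const (f : G.O) (x : G.X) : (AffGrp.Pt.const ℂ x) f = f.1 x := by
  rw [AffGrp.Pt.const_apply]
  rfl

theorem F2b_fL {R : Type} [CommRing R] [Algebra ℂ R] (φ : G.Pt R) (a b : C.F.ι) :
    φ (fL C a b) = lC (hF C) (C.F.pt φ) a b *
      ∏ a' ∈ Finset.univ.erase b, dC (hF C) (C.F.pt φ) (hF C a') := by
  classical
  unfold fL
  rw [map_mul, map_prod]
  congr 1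
  · exact lC_map (hF C) (φ.hom : G.O →+* R) (coM C) a b
  · exact Finset.prod_congr rfl fun a' _ => pt_dC C φ _

theorem F2b_Dl_mul {R : Type} [CommRing R] [Algebra ℂ R] (ψ φ : G.Pt R)
    (hφ : ∀ a b, C.F.pt φ a b ≠ 0 → hF C b ≤ hF C a) : (ψ * φ) (Dl C) = φ (Dl C) * ψ (Dl C) := by
  rw [pt_Dl, pt_Dl, pt_Dl, Rep.pt_mul, ← Finset.prod_mul_distrib]
  refine Finset.prod_congr rfl fun a _ => ?_
  rw [dC_mul_upper (hF C) _ hφ, mul_comm]

/-- (row F2) `Dl` is in `MB`: `f.1 (x * φ.toX) = (const x * φ) f`, `pt_Dl`, `dC_mul_upper`, `upper_tv`. -/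
theorem Dl_mem : Dl C ∈ MB C := by
  intro x t v hv
  rw [F2b_val, F2b_Dl_mul C _ _ (upper_tv C t hv), F2b_const]

/-- (row F2) the same with `lC_mul_upper` -/
theorem fL_mem (a b : C.F.ι) : fL C a b ∈ MB C := by
  classical
  intro x t v hv
  have h1 : ∏ a' ∈ Finset.univ.erase b, dC (hF C) (C.F.pt (AffGrp.Pt.const ℂ x * (tq C t * v))) (hF C a') =
      (∏ a' ∈ Finset.univ.erase b, dC (hF C) (C.F.pt (AffGrp.Pt.const ℂ x)) (hF C a')) *
      ∏ a' ∈ Finset.univ.erase b, dC (hF C) (C.F.pt (tq C t * v)) (hF C a') := by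
    rw [← Finset.prod_mul_distrib]
    refine Finset.prod_congr rfl fun a' _ => ?_
    rw [Rep.pt_mul _ (AffGrp.Pt.const ℂ x), dC_mul_upper (hF C) _ (upper_tv C t hv)]
  have h2 : (tq C t * v) (Dl C) = dC (hF C) (C.F.pt (tq C t * v)) (hF C b) *
      ∏ a' ∈ Finset.univ.erase b, dC (hF C) (C.F.pt (tq C t * v)) (hF C a') := by
    rw [pt_Dl]
    exact (Finset.mul_prod_erase Finset.univ
      (fun a' => dC (hF C) (C.F.pt (tq C t * v)) (hF C a')) (Finset.mem_univ b)).symm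
  rw [F2b_val, F2b_fL, h1, h2, ← F2b_const (fL C a b) x, F2b_fL, Rep.pt_mul _ (AffGrp.Pt.const ℂ x),
    lC_mul_upper (hF C) _ (upper_tv C t hv)]
  ring

/-- (row F2) `Dl` is invariant under left translations by `U⁻`, on the cell: `dC_cell`, and its value at `1` is `1`. -/
theorem Dl_cell {u v : G.Pt ℂ} (hu : UU C (-1) u) (hv : UU C 1 v) (t : Fin n → ℂˣ) :
    (Dl C).1 (u * tq C t * v).toX = (tq C t * v) (Dl C) := by
  have h1 := dC_cell C (UU_one C (R := ℂ) (s := -1)) hv t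
  rw [AffGrp.Pt.toX_apply, pt_Dl, pt_Dl]
  refine Finset.prod_congr rfl fun a _ => ?_
  rw [dC_cell C hu hv t, ← h1, one_mul]

theorem Dl_one : (Dl C).1 1 = 1 := by
  have h1 : (1 : G.Pt ℂ) (Dl C) = (Dl C).1 1 := AffGrp.Pt.one_apply (Dl C)
  rw [← h1, pt_Dl, Rep.pt_one]
  refine Finset.prod_eq_one fun a _ => ?_
  unfold dC aC
  rw [mul_one, F2a_ee, add_sub_cancel, Matrix.det_one]

/-- (row F2) the entries of `u` in `φ = u t v`: `lC_ldu`, `lC_map`, `dC_map`, `pt_Dl`; multiply by the other minors. -/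
theorem fL_cell {R : Type} [CommRing R] [Algebra ℂ R] {u v : G.Pt R} (hu : UU C (-1) u) (hv : UU C 1 v)
    (t : Fin n → Rˣ) (a b : C.F.ι) :
    (u * tq C t * v) (fL C a b) = (u * tq C t * v) (Dl C) * C.F.pt u a b := by
  classical
  have hlow : LowM (hF C) (C.F.pt u) := by
    intro a b h
    have h1 := hu a b h
    show D.ht2 (C.wt a) < D.ht2 (C.wt b)
    omega
  have hup : UpM (hF C) (C.F.pt v) := by
    intro a b h
    have h1 := hv a b h
    show D.ht2 (C.wt b) < D.ht2 (C.wt a)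
    omega
  have hpt : C.F.pt (u * tq C t * v) =
      C.F.pt u * Matrix.diagonal (fun a => ((chi (C.wt a) t : Rˣ) : R)) * C.F.pt v := by
    rw [Rep.pt_mul, Rep.pt_mul, tq_pt C t C.isW_F]
  have h2 : (u * tq C t * v) (Dl C) = dC (hF C) (C.F.pt (u * tq C t * v)) (hF C b) *
      ∏ a' ∈ Finset.univ.erase b, dC (hF C) (C.F.pt (u * tq C t * v)) (hF C a') := by
    rw [pt_Dl]
    exact (Finset.mul_prod_erase Finset.univ
      (fun a' => dC (hF C) (C.F.pt (u * tq C t * v)) (hF C a')) (Finset.mem_univ b)).symm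
  have h3 : lC (hF C) (C.F.pt (u * tq C t * v)) a b =
      dC (hF C) (C.F.pt (u * tq C t * v)) (hF C b) * C.F.pt u a b := by
    rw [hpt]
    exact lC_ldu (hF C) hlow hup _ a b
  rw [F2b_fL, h2, h3]
  ring

end Pool.Agent.MTH
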