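import Pool.Agent.MTH.F1
import Pool.Agent.MTH.F2

/-! # MTH-F3 -/

namespace Pool.Agent.MTH

open Matrix
open Pool.Agent.MTF Pool.Agent.MTG
open Pool.Agent.MTD (ev)
open Pool.Agent.MP_c45d35_ag (chi)

variable {G : AffGrp} {n : ℕ} {D : RD n} (C : CD G D)

/-- the span of the left translates of `Dl` -/
noncomputable def NB : Submodule ℂ G.O := Submodule.span ℂ (Set.range fun x => G.lt x (Dl C))

/-- (row F3) `MB = NB` (an irreducible representation).  `NB ≤ MB` by `MB_lt`.  Let `f ∈ MB`.  `exists_lt_stable` for `MB` and `{f, Dl}`: `U`; `NB ≤ U`.  `compl_lt` for `U`, `NB` (left stable: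
`G.lt_lt`) gives `N'`.  If `N' ≠ ⊥` then `exists_fixed_lt` (`s = -1`; `N'` is finite-dimensional as a subspace of `U`) gives `f' ∈ N' ≤ MB`, `f' ≠ 0`, fixed by `U⁻`.  For `x = (u * tq t * v).toX` in the
cell: `f' x = f' ((tq t * v).toX) = (tq t * v)(Dl) * f' 1` (`toX_mul`; `MB` at `x = 1`) `= f' 1 * Dl x` (`Dl_cell`).  So `f' - f' 1 • Dl` vanishes on the cell and is `0` (`cell_dense`): `f' ∈ NB ⊓ N' = ⊥`,
contradiction.  So `N' = ⊥` and `f ∈ U = NB`. -/
theorem MB_eq (hG : G.Semi) : MB C = NB C := by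
  classical
  have hDl : Dl C ∈ NB C := Submodule.subset_span ⟨1, AffGrp.lt_one _ _⟩
  have hNBst : ∀ f ∈ NB C, ∀ x : G.X, G.lt x f ∈ NB C := by
    intro f hf x
    unfold NB at hf ⊢
    induction hf using Submodule.span_induction with
    | mem g hg =>
      obtain ⟨y, rfl⟩ := hg
      show G.lt x (G.lt y (Dl C)) ∈ _
      rw [AffGrp.lt_lt]
      exact Submodule.subset_span ⟨_, rfl⟩
    | zero => rw [map_zero]; exact Submodule.zero_mem _
    | add g g' _ _ h1 h2 => rw [map_add]; exact Submodule.add_mem _ h1 h2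
    | smul r g _ h1 => rw [map_smul]; exact Submodule.smul_mem _ _ h1
  apply le_antisymm
  · intro f hf
    obtain ⟨U, hUfd, hUM, hUs, hUst⟩ := exists_lt_stable (MB C) (fun f hf x => MB_lt C hf x)
      {f, Dl C} (by
        intro g hg
        rw [Finset.mem_insert, Finset.mem_singleton] at hg
        rcases hg with rfl | rfl
        · exact hf
        · exact Dl_mem C)
    have hNU : NB C ≤ U := by
      unfold NB
      rw [Submodule.span_le]
      rintro _ ⟨x, rfl⟩
      exact hUst _ (hUs _ (by simp)) x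
    obtain ⟨N', hN'st, hinf, hsup⟩ := compl_lt hG U (NB C) hUst hNBst hNU
    have hN'U : N' ≤ U := by rw [← hsup]; exact le_sup_right
    have hN' : N' = ⊥ := by
      by_contra hne
      have : FiniteDimensional ℂ N' := Submodule.finiteDimensional_of_le hN'U
      obtain ⟨f', hf', hf'0, hfix⟩ := exists_fixed_lt C (Or.inr rfl) N' hN'st hne
      have hM' : f' ∈ MB C := hUM (hN'U hf')
      have h1 : f' - f'.1 1 • Dl C = 0 := by
        apply cell_dense C hG.dom
        rintro x ⟨u, v, t, hu, hv, rfl⟩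
        rw [AffGrp.O_sub, AffGrp.O_smul, Dl_cell C hu hv t]
        have h2 : f'.1 (u * tq C t * v).toX = f'.1 (1 * (tq C t * v).toX) := by
          rw [mul_assoc, toX_mul, one_mul]
          have h3 := congrArg (fun g : G.O => g.1 (tq C t * v).toX) (hfix u hu)
          exact h3
        rw [h2, hM' 1 t v hv]
        ring
      rw [sub_eq_zero] at h1
      have h2 : f' ∈ NB C ⊓ N' := ⟨by rw [h1]; exact Submodule.smul_mem _ _ hDl, hf'⟩
      rw [hinf, Submodule.mem_bot] at h2
      exact hf'0 h2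
    rw [hN', sup_bot_eq] at hsup
    rw [hsup]
    exact hUs f (by simp)
  · unfold NB
    rw [Submodule.span_le]
    rintro _ ⟨x, rfl⟩
    exact MB_lt C (Dl_mem C) x

/-- a maximal ideal has a zero -/
theorem F3a_zero (m : Ideal G.O) (hm : m.IsMaximal) : ∃ x : G.X, ∀ f ∈ m, f.1 x = 0 := by
  let _ := Ideal.Quotient.field m
  have h1 : Algebra.FiniteType ℂ G.O := (Subalgebra.fg_iff_finiteType _).1 G.fg
  have h2 : Algebra.FiniteType ℂ (G.O ⧸ m) :=
    Algebra.FiniteType.of_surjective (Ideal.Quotient.mkₐ ℂ m) (Ideal.Quotient.mkₐ_surjective ℂ m)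
  have h3 : Module.Finite ℂ (G.O ⧸ m) := finite_of_finite_type_of_isJacobsonRing ℂ (G.O ⧸ m)
  have hb : Function.Bijective (algebraMap ℂ (G.O ⧸ m)) :=
    IsAlgClosed.algebraMap_bijective_of_isIntegral
  let e := AlgEquiv.ofBijective (Algebra.ofId ℂ (G.O ⧸ m)) hb
  obtain ⟨x, hx⟩ := G.pts ((e.symm : (G.O ⧸ m) →ₐ[ℂ] ℂ).comp (Ideal.Quotient.mkₐ ℂ m))
  refine ⟨x, fun f hf => ?_⟩
  rw [← hx f]
  show e.symm (Ideal.Quotient.mk m f) = 0
  rw [Ideal.Quotient.eq_zero_iff_mem.2 hf, map_zero]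

/-- (row F3) The left translates of `Dl` generate the unit ideal.  Otherwise they are in a maximal ideal `m`; `G.O ⧸ m` is a finitely generated `ℂ`-algebra (`G.fg`) and a field, so it is `ℂ`
(`finite_of_finite_type_of_isJacobsonRing`, `IsAlgClosed`): there is `φ : G.O →ₐ[ℂ] ℂ` vanishing on `m`; `G.pts φ` gives `x` with `φ f = f.1 x`; but
`(G.lt x⁻¹ Dl).1 x = Dl.1 1 = 1` (`Dl_one`). -/
theorem ideal_top : Ideal.span (Set.range fun x => G.lt x (Dl C)) = ⊤ := by
  by_contra hne
  obtain ⟨m, hm, hle⟩ := Ideal.exists_le_maximal _ hne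
  obtain ⟨x, hx⟩ := F3a_zero m hm
  have h1 : G.lt x⁻¹ (Dl C) ∈ m := hle (Ideal.subset_span ⟨x⁻¹, rfl⟩)
  have h2 := hx _ h1
  have h3 : (G.lt x⁻¹ (Dl C)).1 x = (Dl C).1 (x⁻¹ * x) := rfl
  rw [h3, inv_mul_cancel, Dl_one] at h2
  exact one_ne_zero h2

/-- (row F3) Iwasawa decomposition.
Proof.  `NB` is finite-dimensional (`exists_lt_stable ⊤ .. {Dl}`), so there is a finite set `X` of elements of `G` such that the `lt x Dl`, `x ∈ X`, span `NB`.  Not all `g (lt x Dl)`, `x ∈ X`, are `0`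
(otherwise `g f = 0` for all `f ∈ NB` and `g` kills the unit ideal, `ideal_top`).  Let `x₀ ∈ X` be such that `V.valuation (g (lt x₀ Dl))` is maximal (`Finset.exists_max_image`); it is nonzero, and
`g (lt x Dl) / g (lt x₀ Dl) ∈ V` for all `x ∈ X`, hence `g f / g (lt x₀ Dl) ∈ V` for all `f ∈ NB` (linear combinations, `hV`).
`g' := const x₀ * g`, `g' f = g (lt x₀ f)` (`const_mul_apply`).  `g' Dl ≠ 0`, so `g' = u * tq t * v` (`exists_ldu`).  `fL_cell`: `C.F.pt u a b = g (lt x₀ (fL a b)) / g (lt x₀ Dl) ∈ V`, because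
`lt x₀ (fL a b) ∈ MB = NB` (`fL_mem`, `MB_lt`, `MB_eq`).  So `u f ∈ V` for all `f : G.O` (`exists_poly C.F C.faith f`; constants are in `V`).
`k := const x₀⁻¹ * u` (`const_mul_apply`), `g = const x₀⁻¹ * g' = k * (tq t * v)` (`Pt.const_mul`, `Pt.const_one`). -/
theorem iwasawa (hG : G.Semi) {K : Type} [Field K] [Algebra ℂ K] (V : ValuationSubring K)
    (hV : ∀ z : ℂ, algebraMap ℂ K z ∈ V) (g : G.Pt K) :
    ∃ (k v : G.Pt K) (t : Fin n → Kˣ), (∀ f : G.O, k f ∈ V) ∧ UU C 1 v ∧ g = k * (tq C t * v) := by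
  classical
  -- `NB` is spanned by finitely many translates
  obtain ⟨U, hUfd, _, hUs, hUst⟩ := exists_lt_stable (⊤ : Submodule ℂ G.O)
    (fun _ _ _ => Submodule.mem_top) {Dl C} (fun _ _ => Submodule.mem_top)
  have hNU : NB C ≤ U := by
    unfold NB
    rw [Submodule.span_le]
    rintro _ ⟨x, rfl⟩
    exact hUst _ (hUs _ (by simp)) x
  have hfd : FiniteDimensional ℂ (NB C) := Submodule.finiteDimensional_of_le hNU
  have hfg : (NB C).FG := Module.Finite.iff_fg.1 hfd
  unfold NB at hfg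
  obtain ⟨S, hS, hspan⟩ := (Submodule.fg_span_iff_fg_span_finset_subset _).1 hfg
  -- not all values vanish
  have hnz : ∃ f ∈ S, g f ≠ 0 := by
    by_contra h0
    push Not at h0
    have h1 : ∀ f ∈ NB C, g f = 0 := by
      intro f hf
      unfold NB at hf
      rw [hspan] at hf
      induction hf using Submodule.span_induction with
      | mem f hf => exact h0 f hf
      | zero => rw [map_zero]
      | add f f' _ _ h1 h2 => rw [map_add, h1, h2, add_zero]
      | smul r f _ h1 => rw [map_smul, h1, smul_zero]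
    have h2 : Ideal.span (Set.range fun x => G.lt x (Dl C)) ≤ RingHom.ker (g.hom : G.O →+* K) := by
      rw [Ideal.span_le]
      rintro _ ⟨x, rfl⟩
      exact h1 _ (Submodule.subset_span ⟨x, rfl⟩)
    rw [ideal_top] at h2
    have h3 : (1 : G.O) ∈ RingHom.ker (g.hom : G.O →+* K) := h2 Submodule.mem_top
    rw [RingHom.mem_ker, map_one] at h3
    exact one_ne_zero h3
  obtain ⟨f₁, hf₁, hgf₁⟩ := hnz
  obtain ⟨f₀, hf₀, hmax⟩ := Finset.exists_max_image S (fun f => V.valuation (g f)) ⟨f₁, hf₁⟩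
  have hg0 : g f₀ ≠ 0 := by
    intro h0
    have h1 := hmax f₁ hf₁
    rw [h0, map_zero, le_zero_iff, map_eq_zero] at h1
    exact hgf₁ h1
  have hval : ∀ f ∈ NB C, g f / g f₀ ∈ V := by
    intro f hf
    unfold NB at hf
    rw [hspan] at hf
    induction hf using Submodule.span_induction with
    | mem f hf =>
      rw [← V.valuation_le_one_iff, map_div₀]
      exact div_le_one_of_le₀ (hmax f hf) zero_le
    | zero => rw [map_zero, zero_div]; exact V.zero_mem
    | add f f' _ _ h1 h2 => rw [map_add, add_div]; exact V.add_mem _ _ h1 h2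
    | smul r f _ h1 =>
      rw [map_smul, Algebra.smul_def, mul_div_assoc]
      exact V.mul_mem _ _ (hV r) h1
  obtain ⟨x₀, hx₀⟩ := hS hf₀
  have hx₀' : G.lt x₀ (Dl C) = f₀ := hx₀
  obtain ⟨u, v, t, hu, hv, e⟩ := exists_ldu C hG.dom (AffGrp.Pt.const K x₀ * g) (by
    rw [const_mul_apply, hx₀']
    exact IsUnit.mk0 _ hg0)
  have hent : ∀ a b, C.F.pt u a b ∈ V := by
    intro a b
    have h1 := fL_cell C hu hv t a b
    rw [← e, const_mul_apply, const_mul_apply, hx₀'] at h1
    have h2 : C.F.pt u a b = g (G.lt x₀ (fL C a b)) / g f₀ := by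
      rw [h1, mul_div_cancel_left₀ _ hg0]
    rw [h2]
    apply hval
    rw [← MB_eq C hG]
    exact MB_lt C (fL_mem C a b) x₀
  have huV : ∀ f : G.O, u f ∈ V := by
    intro f
    obtain ⟨p, rfl⟩ := exists_poly C.F C.faith f
    induction p using MvPolynomial.induction_on with
    | C z =>
      rw [MvPolynomial.algHom_C]
      have h1 : u (algebraMap ℂ G.O z) = algebraMap ℂ K z := AlgHomClass.commutes u z
      rw [h1]
      exact hV z
    | add p q h1 h2 => rw [map_add, map_add]; exact V.add_mem _ _ h1 h2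
    | mul_X p ij h1 =>
      rw [map_mul, map_mul, MvPolynomial.aeval_X]
      exact V.mul_mem _ _ h1 (hent ij.1 ij.2)
  refine ⟨AffGrp.Pt.const K x₀⁻¹ * u, v, t, fun f => ?_, hv, ?_⟩
  · rw [const_mul_apply]
    exact huV _
  · have h1 : AffGrp.Pt.const K x₀⁻¹ * (AffGrp.Pt.const K x₀ * g) = g := by
      rw [← mul_assoc, ← AffGrp.Pt.const_mul, inv_mul_cancel, AffGrp.Pt.const_one, one_mul]
    rw [e] at h1
    rw [← h1]
    group

end Pool.Agent.MTH
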