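import Pool.Agent.MTH.A0

/-! # MTH-G2 -/

namespace Pool.Agent.MTH

open Matrix
open Pool.Agent.MTF Pool.Agent.MTG
open Pool.Agent.MTD (ev)
open Pool.Agent.MP_c45d35_ag (chi)

variable {n : ℕ} (D : RD n)

/-- (row G2a) the pairing of two different simple roots is `≤ 0`: if `cp α β > 0` then (`cp_comm`/`cp_pos_iff`) one of `s_α β = β - c α`, .. is a root `β - α` (cf. G1: `cp_eq_one`), and either
`β - α` or `α - β` is positive; or directly: `Sim β` with `δ = α`: `s_β α = α - cp β α • β` is positive, and `Sim α`: `s_α β = β - cp α β • α` is positive; if both coefficients `a = cp β α`, `b = cp α β` are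
positive, one of them is `1` (`cp_mul_cp ≤ 3`), say `a = 1`: `α - β` is positive; `s_α β = β - b α = -(b - 1) α - (α - β)` is negative, contradiction. -/
theorem sim_le (α β : D.SRt) (h : α ≠ β) : D.B α.1.1 β.1.1 ≤ 0 := by
  by_contra hlt
  push Not at hlt
  have hb : 0 < D.cp α.1 β.1.1 := by
    have h1 := D.cp_cf α.1 β.1.1
    have h2 := D.cf_pos α.1
    rw [← h1] at hlt
    exact pos_of_mul_pos_left hlt h2.le
  have ha : 0 < D.cp β.1 α.1.1 := (D.cp_pos_iff α.1 β.1).1 hb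
  have key : ∀ α β : D.SRt, α ≠ β → 0 < D.cp β.1 α.1.1 → toLex β.1.1 < toLex α.1.1 := by
    intro α β h ha
    have h1 : 0 < toLex (D.rW β.1 • α.1).1 := β.2.2 α.1 α.2.1 fun h0 => h (Subtype.ext h0)
    have h2 : toLex (D.rW β.1 • α.1).1 = toLex α.1.1 - D.cp β.1 α.1.1 • toLex β.1.1 := rfl
    rw [h2, sub_pos] at h1
    refine lt_of_le_of_lt ?_ h1
    have h3 : D.cp β.1 α.1.1 • toLex β.1.1 =
        toLex β.1.1 + (D.cp β.1 α.1.1 - 1) • toLex β.1.1 := by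
      rw [sub_smul, one_smul, add_sub_cancel]
    rw [h3]
    have h4 : 0 < toLex β.1.1 := β.2.1
    exact le_add_of_nonneg_right (zsmul_nonneg h4.le (by omega))
  exact lt_asymm (key α β h ha) (key β α (Ne.symm h) hb)

theorem g2a_B_sum {ι : Type*} (s : Finset ι) (c : ι → ℤ) (f : ι → Fin n → ℤ) (y : Fin n → ℤ) :
    D.B (∑ i ∈ s, c i • f i) y = ∑ i ∈ s, c i * D.B (f i) y := by
  let F : (Fin n → ℤ) →+ ℤ := AddMonoidHom.mk' (fun x => D.B x y) fun x x' => D.B_add_left x x' y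
  have h1 : F (∑ i ∈ s, c i • f i) = ∑ i ∈ s, F (c i • f i) := map_sum F _ _
  exact h1.trans (Finset.sum_congr rfl fun i _ => D.B_smul_left _ _ _)

theorem g2a_zero (c : D.SRt → ℤ) (hc : ∀ α, 0 ≤ c α) (h : ∑ α, c α • α.1.1 = 0) (α : D.SRt) :
    c α = 0 := by
  have h1 := g2a_B_sum D Finset.univ c (fun α => α.1.1) D.p1
  rw [h, D.B_zero_left] at h1
  have h2 : ∀ δ : D.SRt, 0 < D.B δ.1.1 D.p1 := by
    intro δ
    rw [← D.cp_cf]
    exact mul_pos (D.p1_pos δ.2.1) (D.cf_pos δ.1)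
  have h3 := (Finset.sum_eq_zero_iff_of_nonneg
    (fun δ _ => mul_nonneg (hc δ) (h2 δ).le)).1 h1.symm α (Finset.mem_univ _)
  exact (mul_eq_zero.1 h3).resolve_right (h2 α).ne'

/-- (row G2a) Simple roots are linearly independent.  Let `v = ∑_{c > 0} c α = ∑_{c < 0} (-c) β`; `B v v = ∑ c (-c') B α β ≤ 0` (`sim_le`), so `v = 0` (`B_pos`); pair with `p1`
(`p1_pos`, `cp_cf`, `cf_pos`: `B α p1 > 0`): all coefficients vanish. -/
theorem sim_indep (c : D.SRt → ℤ) (h : ∑ α, c α • α.1.1 = 0) (α : D.SRt) : c α = 0 := by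
  have h1 : ∑ α : D.SRt, max (c α) 0 • α.1.1 = ∑ α : D.SRt, max (-c α) 0 • α.1.1 := by
    rw [← sub_eq_zero, ← Finset.sum_sub_distrib, ← h]
    refine Finset.sum_congr rfl fun α _ => ?_
    rw [← sub_smul]
    congr 1
    omega
  have h2 : D.B (∑ α : D.SRt, max (c α) 0 • α.1.1) (∑ α : D.SRt, max (c α) 0 • α.1.1) ≤ 0 := by
    conv_lhs => rw [g2a_B_sum]
    refine Finset.sum_nonpos fun α _ => ?_
    rw [h1, D.B_comm, g2a_B_sum, Finset.mul_sum]
    refine Finset.sum_nonpos fun β _ => ?_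
    by_cases hab : β = α
    · subst hab
      have h3 : max (c β) 0 = 0 ∨ max (-c β) 0 = 0 := by omega
      rcases h3 with h3 | h3
      · rw [h3, zero_mul]
      · rw [h3, zero_mul, mul_zero]
    · have h3 := sim_le D β α hab
      have h4 : 0 ≤ max (c α) 0 := le_max_right _ _
      have h5 : 0 ≤ max (-c β) 0 := le_max_right _ _
      exact mul_nonpos_of_nonneg_of_nonpos h4 (mul_nonpos_of_nonneg_of_nonpos h5 h3)
  have h3 : ∑ α : D.SRt, max (c α) 0 • α.1.1 = 0 := by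
    by_contra h4
    exact absurd h2 (not_le.2 (D.B_pos h4))
  have h4 := g2a_zero D (fun α => max (c α) 0) (fun α => le_max_right _ _) h3 α
  have h5 := g2a_zero D (fun α => max (-c α) 0) (fun α => le_max_right _ _) (h1.symm.trans h3) α
  omega

/-- (row G2a) Fundamental coweights: by `sim_indep` the simple roots are linearly independent in `ℚ^n` (clear denominators), so there is a linear functional `f` on `ℚ^n` with `f α = 1`, `f δ = 0` for
`δ ≠ α`; multiply by an integer to make it integral on `ℤ^n`; `exists_dual`. -/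
theorem exists_coweight (α : D.SRt) : ∃ (p : Fin n → ℤ) (d : ℤ), 0 < d ∧ D.B p α.1.1 = d ∧
    ∀ δ : D.SRt, δ ≠ α → D.B p δ.1.1 = 0 := by
  classical
  let v : D.SRt → Fin n → ℚ := fun δ i => ((δ.1.1 i : ℤ) : ℚ)
  have hv : LinearIndependent ℚ v := by
    rw [← LinearIndependent.iff_fractionRing ℤ ℚ, Fintype.linearIndependent_iff]
    intro g hg i
    apply sim_indep D g
    funext k
    have h1 := congrFun hg k
    rw [Finset.sum_apply] at h1 ⊢
    have h2 : ((∑ c : D.SRt, (g c • c.1.1) k : ℤ) : ℚ) = 0 := by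
      rw [Int.cast_sum]
      refine Eq.trans (Finset.sum_congr rfl fun c _ => ?_) h1
      show ((g c • c.1.1 k : ℤ) : ℚ) = g c • ((c.1.1 k : ℤ) : ℚ)
      rw [smul_eq_mul, Int.cast_mul, zsmul_eq_mul]
    exact_mod_cast h2
  obtain ⟨f, hf⟩ := LinearMap.exists_extend ((Finsupp.lapply α) ∘ₗ hv.repr)
  have hf1 : ∀ δ : D.SRt, f (v δ) = if δ = α then 1 else 0 := by
    intro δ
    have h1 := LinearMap.congr_fun hf ⟨v δ, Submodule.subset_span ⟨δ, rfl⟩⟩
    have h2 : hv.repr ⟨v δ, Submodule.subset_span ⟨δ, rfl⟩⟩ = Finsupp.single δ 1 :=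
      hv.repr_eq_single δ _ rfl
    have h3 : f (v δ) = (hv.repr ⟨v δ, Submodule.subset_span ⟨δ, rfl⟩⟩) α := h1
    rw [h3, h2, Finsupp.single_apply]
  obtain ⟨b, hb⟩ := IsLocalization.exist_integer_multiples_of_finite (nonZeroDivisors ℤ)
    (S := ℚ) (fun i : Fin n => f (fun j => if i = j then 1 else 0))
  choose z hz using hb
  have hb0 : (b : ℤ) ≠ 0 := nonZeroDivisors.coe_ne_zero b
  have hz' : ∀ i, ((z i : ℤ) : ℚ) = ((b : ℤ) : ℚ) * f (fun j => if i = j then 1 else 0) := by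
    intro i
    have h1 := hz i
    rw [Algebra.smul_def] at h1
    exact h1
  obtain ⟨p, d, hd, hp⟩ := D.exists_dual (fun i => (b : ℤ) * z i)
  have key : ∀ δ : D.SRt, D.B p δ.1.1 = if δ = α then d * (b : ℤ) ^ 2 else 0 := by
    intro δ
    rw [hp]
    have h1 : ((∑ i, (b : ℤ) * z i * δ.1.1 i : ℤ) : ℚ) = ((b : ℤ) : ℚ) ^ 2 * f (v δ) := by
      rw [LinearMap.pi_apply_eq_sum_univ f (v δ), Finset.mul_sum]
      push_cast
      refine Finset.sum_congr rfl fun i _ => ?_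
      rw [hz', smul_eq_mul]
      show _ = _ * (((δ.1.1 i : ℤ) : ℚ) * _)
      ring
    rw [hf1] at h1
    split_ifs at h1 ⊢ with h2
    · rw [mul_one] at h1
      have h3 : (∑ i, (b : ℤ) * z i * δ.1.1 i) = (b : ℤ) ^ 2 := by exact_mod_cast h1
      rw [h3]
    · rw [mul_zero] at h1
      have h3 : (∑ i, (b : ℤ) * z i * δ.1.1 i) = 0 := by exact_mod_cast h1
      rw [h3, mul_zero]
  refine ⟨p, d * (b : ℤ) ^ 2, by positivity, ?_, fun δ hδ => ?_⟩
  · rw [key, if_pos rfl]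
  · rw [key, if_neg hδ]

theorem G2b_Bsum {p : Fin n → ℤ} (α : D.SRt) (h2 : ∀ δ : D.SRt, δ ≠ α → D.B p δ.1.1 = 0)
    (c : D.SRt → ℕ) : D.B p (∑ δ, c δ • δ.1.1) = c α * D.B p α.1.1 := by
  classical
  have h3 := map_sum (AddMonoidHom.mk' (D.B p) (fun x y => D.B_add_right p x y))
    (fun δ : D.SRt => c δ • δ.1.1) Finset.univ
  have h4 : D.B p (∑ δ, c δ • δ.1.1) = ∑ δ : D.SRt, D.B p (c δ • δ.1.1) := h3
  have h5 : ∀ δ : D.SRt, D.B p (c δ • δ.1.1) = c δ * D.B p δ.1.1 := by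
    intro δ
    rw [← natCast_zsmul, D.B_smul_right]
  rw [h4, Finset.sum_eq_single α]
  · exact h5 α
  · intro δ _ hδ
    rw [h5, h2 δ hδ, mul_zero]
  · intro h
    exact absurd (Finset.mem_univ α) h

theorem G2b_pos {p : Fin n → ℤ} {d : ℤ} (α : D.SRt) (h1 : D.B p α.1.1 = d)
    (h2 : ∀ δ : D.SRt, δ ≠ α → D.B p δ.1.1 = 0) {γ : D.Rt} (hγ : D.Pos γ) :
    ∃ m : ℕ, D.B p γ.1 = m * d := by
  obtain ⟨c, hc⟩ := D.exists_sum hγ
  exact ⟨c α, by rw [hc, G2b_Bsum D α h2, h1]⟩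

theorem G2b_dvd {p : Fin n → ℤ} {d : ℤ} (α : D.SRt) (h1 : D.B p α.1.1 = d)
    (h2 : ∀ δ : D.SRt, δ ≠ α → D.B p δ.1.1 = 0) (γ : D.Rt) : d ∣ D.B p γ.1 := by
  by_cases hγ : D.Pos γ
  · obtain ⟨m, hm⟩ := G2b_pos D α h1 h2 hγ
    exact ⟨m, by rw [hm, mul_comm]⟩
  · obtain ⟨m, hm⟩ := G2b_pos D α h1 h2 ((D.pos_ng γ).2 hγ)
    rw [D.ng_val, D.B_neg_right] at hm
    exact ⟨-m, by linear_combination -hm⟩

theorem G2b_Bexp (p ν : Fin n → ℤ) : D.B p ν = ∑ k, ν k * D.B p (Pi.single k 1) := by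
  have h1 : ν = ∑ k, ν k • (Pi.single k (1 : ℤ) : Fin n → ℤ) := by
    funext j
    rw [Finset.sum_apply, Finset.sum_eq_single j]
    · rw [Pi.smul_apply, Pi.single_eq_same, smul_eq_mul, mul_one]
    · intro k _ hk
      rw [Pi.smul_apply, Pi.single_eq_of_ne (Ne.symm hk), smul_zero]
    · intro hk
      exact absurd (Finset.mem_univ j) hk
  conv_lhs => rw [h1]
  have h3 := map_sum (AddMonoidHom.mk' (D.B p) (fun x y => D.B_add_right p x y))
    (fun k => ν k • (Pi.single k (1 : ℤ) : Fin n → ℤ)) Finset.univ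
  refine h3.trans (Finset.sum_congr rfl fun k _ => ?_)
  exact D.B_smul_right _ _ _

/-- (row G2b) `β = u • α` (`exists_simple`), `p := u p_α`; `B (u p) γ = B p (u⁻¹ γ)` (`B_inv`/`B_W`), `u⁻¹ • γ` or its negative is a sum of simple roots (`exists_sum`, `pos_ng`). -/
theorem exists_cw (β : D.Rt) : ∃ (p : Fin n → ℤ) (d : ℤ), 0 < d ∧ D.B p β.1 = d ∧
    ∀ γ : D.Rt, d ∣ D.B p γ.1 := by
  obtain ⟨l, α, hl⟩ := D.exists_simple β
  obtain ⟨p, d, hd, h1, h2⟩ := exists_coweight D α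
  set u : D.W := (l.map D.sW).prod with hu
  refine ⟨u.1 p, d, hd, ?_, fun γ => ?_⟩
  · rw [← hl, D.smul_val, D.B_W, h1]
  · have h3 : D.B (u.1 p) γ.1 = D.B p (u⁻¹ • γ).1 := by
      rw [D.smul_val, ← D.B_W u p, D.W_inv_apply]
    rw [h3]
    exact G2b_dvd D α h1 h2 _

/-- (row G2b) `z k := exp (2 π i B(p, e_k) / d)` with `exists_cw`: `chi ν z = exp (2 π i B(p, ν) / d)`.  If `a ν = b β` and `chi ν z = 1` then `B(p, ν) = k d` for an integer `k`, `a k d = b d`, `b = a k`,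
`a ν = a k β`, `ν = k β`. -/
theorem zc (β : D.Rt) : ∃ z : Fin n → ℂˣ, (∀ γ : D.Rt, chi γ.1 z = 1) ∧
    ∀ ν : Fin n → ℤ, (∃ a b : ℤ, a ≠ 0 ∧ a • ν = b • β.1) → chi ν z = 1 →
      ∃ k : ℤ, ν = k • β.1 := by
  obtain ⟨p, d, hd, h1, h2⟩ := exists_cw D β
  have hd0 : (d : ℂ) ≠ 0 := by exact_mod_cast hd.ne'
  have hpi : (2 * (Real.pi : ℂ) * Complex.I) ≠ 0 := Complex.two_pi_I_ne_zero
  let z : Fin n → ℂˣ := fun k =>
    Units.mk0 (Complex.exp (2 * Real.pi * Complex.I * (D.B p (Pi.single k 1) : ℂ) / d))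
      (Complex.exp_ne_zero _)
  have hz : ∀ ν : Fin n → ℤ, ((chi ν z : ℂˣ) : ℂ) =
      Complex.exp (2 * Real.pi * Complex.I * (D.B p ν : ℂ) / d) := by
    intro ν
    unfold chi
    rw [Units.coe_prod, G2b_Bexp D p ν]
    push_cast
    rw [Finset.mul_sum, Finset.sum_div, Complex.exp_sum]
    refine Finset.prod_congr rfl fun k _ => ?_
    show (Complex.exp (2 * Real.pi * Complex.I * (D.B p (Pi.single k 1) : ℂ) / d)) ^ (ν k) = _
    rw [← Complex.exp_int_mul]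
    congr 1
    ring
  refine ⟨z, fun γ => ?_, fun ν hν h => ?_⟩
  · apply Units.ext
    rw [hz, Units.val_one, Complex.exp_eq_one_iff]
    obtain ⟨m, hm⟩ := h2 γ
    refine ⟨m, ?_⟩
    rw [hm]
    push_cast
    field_simp
  · have h3 := hz ν
    rw [h, Units.val_one] at h3
    obtain ⟨k, hk⟩ := Complex.exp_eq_one_iff.1 h3.symm
    have h4 : (D.B p ν : ℂ) = k * d := by
      have h5 : (2 * (Real.pi : ℂ) * Complex.I) * ((D.B p ν : ℂ) - k * d) = 0 := by
        field_simp at hk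
        linear_combination (2 * (Real.pi : ℂ) * Complex.I) * hk
      have h6 := (mul_eq_zero.1 h5).resolve_left hpi
      linear_combination h6
    have h7 : D.B p ν = k * d := by exact_mod_cast h4
    obtain ⟨a, b, ha, hab⟩ := hν
    have h8 : a * (k * d) = b * d := by
      have := congrArg (D.B p) hab
      rw [D.B_smul_right, D.B_smul_right, h7, h1] at this
      exact this
    have h9 : a * k = b := mul_right_cancel₀ hd.ne' (by linear_combination h8)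
    refine ⟨k, ?_⟩
    rw [← h9, mul_smul] at hab
    funext j
    have := congrFun hab j
    exact mul_left_cancel₀ ha this

/-- (row G2b) Dominant elements are lexicographically nonnegative: `2 λ - ..`: for dominant `l` and the longest element.. or: if `toLex l < 0` then `toLex (u l) ≤ toLex l < 0` for all `u` (`dom_le`), but
`∑ u, u l` is `W`-invariant, so it is `0` (`cp γ` of a `W`-invariant element vanishes by `rW`; `D.span`), contradiction to being a sum of lexicographically negative elements. -/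
theorem dom_lex {l : Fin n → ℤ} (hl : D.Dom l) : 0 ≤ toLex l := by
  classical
  by_contra hneg
  rw [not_le] at hneg
  have h1 : ∀ u : D.W, toLex (u.1 l) < 0 := fun u => (D.dom_le hl u).trans_lt hneg
  set S : Fin n → ℤ := ∑ u : D.W, u.1 l with hS
  have hneg2 : ∀ t : Finset D.W, t.Nonempty → toLex (∑ u ∈ t, u.1 l) < 0 := by
    intro t ht
    induction ht using Finset.Nonempty.cons_induction with
    | singleton a => rw [Finset.sum_singleton]; exact h1 a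
    | cons a t ha _ ih =>
      rw [Finset.sum_cons, toLex_add]
      exact add_neg (h1 a) ih
  have h2 : toLex S < 0 := hneg2 Finset.univ ⟨1, Finset.mem_univ _⟩
  have h3 : ∀ v : D.W, v.1 S = S := by
    intro v
    rw [hS, map_sum]
    exact Fintype.sum_equiv (Equiv.mulLeft v) _ _ fun u => rfl
  have h4 : S = 0 := by
    apply D.span
    intro γ hγ
    have h5 := h3 (D.rW ⟨γ, hγ⟩)
    rw [D.rW_apply] at h5
    unfold RD.rf at h5
    have h6 : D.cp ⟨γ, hγ⟩ S • γ = 0 := by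
      have : S - D.cp ⟨γ, hγ⟩ S • γ = S := h5
      exact sub_eq_self.1 this
    have h7 : D.cp ⟨γ, hγ⟩ S = 0 := (smul_eq_zero.1 h6).resolve_right (D.Rt_ne ⟨γ, hγ⟩)
    have h8 := D.cp_cf ⟨γ, hγ⟩ S
    rw [h7, zero_mul] at h8
    exact h8.symm
  rw [h4] at h2
  exact lt_irrefl _ h2

/-- `χ_α`: the sum of the positive roots with `α`-coordinate `> 0`, in terms of the coweight `p` of `α`. -/
noncomputable def nil (p : Fin n → ℤ) : Finset D.Rt := by
  classical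
  exact Finset.univ.filter fun γ => 0 < D.B p γ.1

theorem G2c_mem {p : Fin n → ℤ} {γ : D.Rt} : γ ∈ nil D p ↔ 0 < D.B p γ.1 := by
  classical
  unfold nil
  rw [Finset.mem_filter]
  exact ⟨fun h => h.2, fun h => ⟨Finset.mem_univ _, h⟩⟩

theorem G2c_pos (α : D.SRt) {p : Fin n → ℤ} {d : ℤ} (hd : 0 < d) (h1 : D.B p α.1.1 = d)
    (h2 : ∀ δ : D.SRt, δ ≠ α → D.B p δ.1.1 = 0) (γ : D.Rt) (h : γ ∈ nil D p) : D.Pos γ := by
  by_contra hneg
  obtain ⟨m, hm⟩ := G2b_pos D α h1 h2 ((D.pos_ng γ).2 hneg)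
  rw [D.ng_val, D.B_neg_right] at hm
  have h3 := (G2c_mem D).1 h
  have h4 : (0 : ℤ) ≤ m * d := by positivity
  omega

theorem G2c_Bsum (x : Fin n → ℤ) {κ : Type} (s : Finset κ) (f : κ → Fin n → ℤ) :
    D.B x (∑ i ∈ s, f i) = ∑ i ∈ s, D.B x (f i) :=
  map_sum (AddMonoidHom.mk' (D.B x) (fun y y' => D.B_add_right x y y')) f s

theorem G2c_cpsum (γ : D.Rt) {κ : Type} (s : Finset κ) (f : κ → Fin n → ℤ) :
    D.cp γ (∑ i ∈ s, f i) = ∑ i ∈ s, D.cp γ (f i) :=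
  map_sum (AddMonoidHom.mk' (D.cp γ) (D.cp_add γ)) f s

/-- orthogonal to all simple roots implies zero -/
theorem G2c_zero {y : Fin n → ℤ} (h : ∀ δ : D.SRt, D.cp δ.1 y = 0) : y = 0 := by
  have hB : ∀ δ : D.SRt, D.B δ.1.1 y = 0 := by
    intro δ
    rw [← D.cp_cf, h, zero_mul]
  have hpos : ∀ γ : D.Rt, D.Pos γ → D.B γ.1 y = 0 := by
    intro γ hγ
    obtain ⟨c, hc⟩ := D.exists_sum hγ
    rw [hc, D.B_comm, G2c_Bsum]
    refine Finset.sum_eq_zero fun δ _ => ?_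
    rw [← natCast_zsmul, D.B_smul_right, D.B_comm, hB, mul_zero]
  apply D.span
  intro γ hγ
  by_cases hp : D.Pos ⟨γ, hγ⟩
  · exact hpos _ hp
  · have h1 := hpos _ ((D.pos_ng ⟨γ, hγ⟩).2 hp)
    rw [D.ng_val, D.B_neg_left] at h1
    have h2 : D.B γ y = 0 := by
      have : -D.B γ y = 0 := h1
      omega
    exact h2

/-- (row G2c) For a coweight `p` of the simple root `α` (`exists_coweight`) the set `nil p` consists of positive roots (`exists_sum`: `B p γ = c α * d`), is stable under the simple reflections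
`s_δ`, `δ ≠ α` (`B p (s_δ γ) = B p γ`), so `x := ∑_{γ ∈ nil p} γ` satisfies `cp δ x = 0` for `δ ≠ α`, and `cp α x > 0`: `B x x > 0`.. precisely: `x = ∑ c_δ δ` with `c_α > 0`; `B x x > 0` because `x ≠ 0`
(`B p x > 0`), and `B x x = c_α B x α`, so `B x α > 0`. -/
theorem nil_sum (α : D.SRt) {p : Fin n → ℤ} {d : ℤ} (hd : 0 < d) (h1 : D.B p α.1.1 = d)
    (h2 : ∀ δ : D.SRt, δ ≠ α → D.B p δ.1.1 = 0) :
    0 < D.cp α.1 (∑ γ ∈ nil D p, γ.1) ∧ ∀ δ : D.SRt, δ ≠ α → D.cp δ.1 (∑ γ ∈ nil D p, γ.1) = 0 := by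
  classical
  set x : Fin n → ℤ := ∑ γ ∈ nil D p, γ.1 with hx
  have hδ : ∀ δ : D.SRt, δ ≠ α → D.cp δ.1 x = 0 := by
    intro δ hδ
    have hB : ∀ γ : D.Rt, D.B p (D.rW δ.1 • γ).1 = D.B p γ.1 := by
      intro γ
      rw [D.smul_val, D.rW_apply]
      unfold RD.rf
      rw [D.B_sub_right, D.B_smul_right, h2 δ hδ, mul_zero, sub_zero]
    have h3 : (D.rW δ.1).1 x = x := by
      rw [hx, map_sum]
      refine Finset.sum_bij' (fun γ _ => D.rW δ.1 • γ) (fun γ _ => D.rW δ.1 • γ) ?_ ?_ ?_ ?_ ?_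
      · intro γ hγ
        rw [G2c_mem, hB]
        exact (G2c_mem D).1 hγ
      · intro γ hγ
        rw [G2c_mem, hB]
        exact (G2c_mem D).1 hγ
      · intro γ _
        rw [← mul_smul, D.rW_sq, one_smul]
      · intro γ _
        rw [← mul_smul, D.rW_sq, one_smul]
      · intro γ _
        rfl
    rw [D.rW_apply] at h3
    unfold RD.rf at h3
    have h4 : D.cp δ.1 x • δ.1.1 = 0 := sub_eq_self.1 h3
    exact (smul_eq_zero.1 h4).resolve_right (D.Rt_ne δ.1)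
  refine ⟨?_, hδ⟩
  have hα : α.1 ∈ nil D p := (G2c_mem D).2 (by rw [h1]; exact hd)
  have hBpx : 0 < D.B p x := by
    rw [hx, G2c_Bsum]
    exact Finset.sum_pos (fun γ hγ => (G2c_mem D).1 hγ) ⟨_, hα⟩
  have hx0 : x ≠ 0 := by
    intro h0
    rw [h0, D.B_zero_right] at hBpx
    exact lt_irrefl _ hBpx
  have hsum : ∃ c : D.SRt → ℕ, x = ∑ δ, c δ • δ.1.1 := by
    have : ∀ γ : D.Rt, ∃ c : D.SRt → ℕ, γ ∈ nil D p → γ.1 = ∑ δ, c δ • δ.1.1 := by
      intro γ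
      by_cases hγ : γ ∈ nil D p
      · obtain ⟨c, hc⟩ := D.exists_sum (G2c_pos D α hd h1 h2 γ hγ)
        exact ⟨c, fun _ => hc⟩
      · exact ⟨0, fun h => absurd h hγ⟩
    choose c hc using this
    refine ⟨fun δ => ∑ γ ∈ nil D p, c γ δ, ?_⟩
    rw [hx]
    simp only [Finset.sum_smul]
    rw [Finset.sum_comm]
    exact Finset.sum_congr rfl fun γ hγ => hc γ hγ
  obtain ⟨c, hc⟩ := hsum
  have h5 : ∀ δ : D.SRt, δ ≠ α → D.B x δ.1.1 = 0 := by
    intro δ hδ'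
    rw [D.B_comm, ← D.cp_cf, hδ δ hδ', zero_mul]
  have h6 : D.B x x = c α * D.B x α.1.1 := by
    have := G2b_Bsum D α h5 c
    rwa [← hc] at this
  have h7 := D.B_pos hx0
  rw [h6] at h7
  have h8 : 0 < D.B x α.1.1 := by
    by_contra hle
    have := mul_nonpos_of_nonneg_of_nonpos (a := ((c α : ℕ) : ℤ)) (by positivity) (not_lt.1 hle)
    omega
  rw [D.B_comm, ← D.cp_cf] at h8
  by_contra hle
  have := mul_nonpos_of_nonpos_of_nonneg (not_lt.1 hle) (D.cf_pos α.1).le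
  omega

theorem nil_pos (α : D.SRt) {p : Fin n → ℤ} {d : ℤ} (hd : 0 < d) (h1 : D.B p α.1.1 = d)
    (h2 : ∀ δ : D.SRt, δ ≠ α → D.B p δ.1.1 = 0) (γ : D.Rt) (h : γ ∈ nil D p) : D.Pos γ :=
  G2c_pos D α hd h1 h2 γ h

/-- (row G2c) `γ ∈ nil p`, `δ` positive, `γ + δ` a root: `γ + δ ∈ nil p` (`B p δ ≥ 0` by `exists_sum`). -/
theorem nil_add (α : D.SRt) {p : Fin n → ℤ} {d : ℤ} (hd : 0 < d) (h1 : D.B p α.1.1 = d)
    (h2 : ∀ δ : D.SRt, δ ≠ α → D.B p δ.1.1 = 0) (γ δ μ : D.Rt) (h : γ ∈ nil D p) (hδ : D.Pos δ)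
    (hμ : μ.1 = γ.1 + δ.1) : μ ∈ nil D p := by
  obtain ⟨m, hm⟩ := G2b_pos D α h1 h2 hδ
  rw [G2c_mem, hμ, D.B_add_right, hm]
  have h3 := (G2c_mem D).1 h
  have h4 : (0 : ℤ) ≤ m * d := by positivity
  omega

/-- (row G2c) The cone condition: with `χ_α := ∑_{γ ∈ nil p_α} γ` every dominant `μ` satisfies `M μ = ∑ c_α χ_α` with natural numbers `c_α`, `M = ∏ cp α χ_α`: take `c_α := (M / cp α χ_α) * cp α μ`
(`≥ 0`); then all `cp δ` of `M μ - ∑ c_α χ_α` vanish for simple `δ`, so for all roots (`dom_iff` for `±`, or `exists_sum` + `cp_comm`), so it is `0` (`D.span`). -/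
theorem cone (p : D.SRt → Fin n → ℤ) (d : D.SRt → ℤ) (hd : ∀ α, 0 < d α)
    (h1 : ∀ α, D.B (p α) α.1.1 = d α) (h2 : ∀ α δ : D.SRt, δ ≠ α → D.B (p α) δ.1.1 = 0) :
    ∃ M : ℕ, 0 < M ∧ ∀ μ, D.Dom μ → ∃ c : D.SRt → ℕ,
      M • μ = ∑ α, c α • ∑ γ ∈ nil D (p α), γ.1 := by
  classical
  have hns := fun α => nil_sum D α (hd α) (h1 α) (h2 α)
  have hN : ∀ α : D.SRt, ∃ N : ℕ, 0 < N ∧ (N : ℤ) = D.cp α.1 (∑ γ ∈ nil D (p α), γ.1) := by
    intro α
    obtain ⟨N, hN⟩ := Int.eq_ofNat_of_zero_le (hns α).1.le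
    have h3 := (hns α).1
    rw [hN] at h3
    exact ⟨N, by exact_mod_cast h3, hN.symm⟩
  choose N hN0 hN using hN
  have hdvd : ∀ α, ∃ K : ℕ, ∏ δ, N δ = N α * K := fun α =>
    Finset.dvd_prod_of_mem N (Finset.mem_univ α)
  choose K hK using hdvd
  refine ⟨∏ δ, N δ, Finset.prod_pos fun δ _ => hN0 δ, fun μ hμ => ?_⟩
  refine ⟨fun α => K α * (D.cp α.1 μ).toNat, ?_⟩
  have hcp : ∀ α : D.SRt, ((D.cp α.1 μ).toNat : ℤ) = D.cp α.1 μ := fun α =>
    Int.toNat_of_nonneg (hμ α.1 α.2.1)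
  rw [← sub_eq_zero]
  apply G2c_zero D
  intro δ
  rw [D.cp_sub, G2c_cpsum, ← natCast_zsmul, D.cp_smul, Finset.sum_eq_single δ]
  · rw [← natCast_zsmul, D.cp_smul, ← hN δ, hK δ]
    push_cast
    rw [hcp δ]
    ring
  · intro α _ hα
    rw [← natCast_zsmul, D.cp_smul, (hns α).2 δ (Ne.symm hα), mul_zero]
  · intro h
    exact absurd (Finset.mem_univ δ) h

end Pool.Agent.MTH
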