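import Pool.Agent.MTH.E1

/-! # MTH-G3 -/

namespace Pool.Agent.MTH

open Matrix
open Pool.Agent.MTF Pool.Agent.MTG
open Pool.Agent.MTD (ev)
open Pool.Agent.MP_c45d35_ag (chi)

/-- (row G3a) A diagonal matrix plus a nonzero commuting nilpotent matrix is not similar to the diagonal matrix.
Proof: `M = toLin' (diagonal d)`, `A = toLin' (diagonal d + E)`; `M` is annihilated by the squarefree polynomial `∏_{c ∈ image d} (X - c)`, and so is `A = g M g⁻¹`; both are semisimple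
(`Module.End.isSemisimple_of_squarefree_aeval_eq_zero`), they commute, so `A - M = toLin' E` is semisimple (`Module.End.IsSemisimple.sub_of_commute`) and nilpotent, hence `0`
(`Module.End.eq_zero_of_isNilpotent_isSemisimple`). -/
theorem nilp_of_sim {ι : Type} [Fintype ι] [DecidableEq ι] (d : ι → ℂ) (E : Matrix ι ι ℂ)
    (hE : IsNilpotent E) (hc : Commute (Matrix.diagonal d) E) (g : Matrix ι ι ℂ) (hg : IsUnit g.det)
    (h : g * Matrix.diagonal d = (Matrix.diagonal d + E) * g) : E = 0 := by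
  classical
  let T : Matrix ι ι ℂ ≃ₐ[ℂ] Module.End ℂ (ι → ℂ) := Matrix.toLinAlgEquiv'
  let p : Polynomial ℂ := ∏ c ∈ Finset.univ.image d, (Polynomial.X - Polynomial.C c)
  have hp : Squarefree p := by
    apply Polynomial.Separable.squarefree
    exact Polynomial.separable_prod_X_sub_C_iff'.2 fun x _ y _ hxy => hxy
  have h1 : Polynomial.aeval (Matrix.diagonal d) p = 0 := by
    have h2 : Polynomial.aeval (Matrix.diagonalAlgHom ℂ d) p =
        Matrix.diagonalAlgHom ℂ (Polynomial.aeval d p) :=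
      Polynomial.aeval_algHom_apply (Matrix.diagonalAlgHom ℂ) d p
    have h3 : Polynomial.aeval d p = 0 := by
      funext i
      have h4 : Polynomial.aeval (Pi.evalAlgHom ℂ (fun _ : ι => ℂ) i d) p =
          Pi.evalAlgHom ℂ (fun _ : ι => ℂ) i (Polynomial.aeval d p) :=
        Polynomial.aeval_algHom_apply (Pi.evalAlgHom ℂ (fun _ : ι => ℂ) i) d p
      refine Eq.trans h4.symm ?_
      show Polynomial.aeval (d i) p = 0
      show Polynomial.aeval (d i)
        (∏ c ∈ Finset.univ.image d, (Polynomial.X - Polynomial.C c)) = 0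
      rw [map_prod]
      refine Finset.prod_eq_zero (Finset.mem_image_of_mem d (Finset.mem_univ i)) ?_
      rw [map_sub, Polynomial.aeval_X, Polynomial.aeval_C]
      exact sub_self _
    rw [h3, map_zero] at h2
    exact h2
  have h2 : ∀ q : Polynomial ℂ, g * Polynomial.aeval (Matrix.diagonal d) q =
      Polynomial.aeval (Matrix.diagonal d + E) q * g := by
    intro q
    induction q using Polynomial.induction_on' with
    | add q r h1 h2 => rw [map_add, map_add, Matrix.mul_add, Matrix.add_mul, h1, h2]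
    | monomial k a =>
      rw [Polynomial.aeval_monomial, Polynomial.aeval_monomial, ← Algebra.smul_def,
        ← Algebra.smul_def, Matrix.mul_smul, Matrix.smul_mul]
      have h3 : SemiconjBy g (Matrix.diagonal d) (Matrix.diagonal d + E) := h
      rw [(h3.pow_right k).eq]
  have h3 : Polynomial.aeval (Matrix.diagonal d + E) p = 0 := by
    have h4 := h2 p
    rw [h1, Matrix.mul_zero] at h4
    have h5 := congrArg (fun A => A * g⁻¹) h4
    simp only [Matrix.zero_mul] at h5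
    rw [Matrix.mul_assoc, Matrix.mul_nonsing_inv g hg, Matrix.mul_one] at h5
    exact h5.symm
  have h4 : (T (Matrix.diagonal d)).IsSemisimple := by
    refine Module.End.isSemisimple_of_squarefree_aeval_eq_zero hp ?_
    have h5 : Polynomial.aeval (T (Matrix.diagonal d)) p = T (Polynomial.aeval (Matrix.diagonal d) p) :=
      Polynomial.aeval_algHom_apply T.toAlgHom (Matrix.diagonal d) p
    rw [h5, h1, map_zero]
  have h5 : (T (Matrix.diagonal d + E)).IsSemisimple := by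
    refine Module.End.isSemisimple_of_squarefree_aeval_eq_zero hp ?_
    have h5 : Polynomial.aeval (T (Matrix.diagonal d + E)) p =
        T (Polynomial.aeval (Matrix.diagonal d + E) p) :=
      Polynomial.aeval_algHom_apply T.toAlgHom (Matrix.diagonal d + E) p
    rw [h5, h3, map_zero]
  have h6 : Commute (T (Matrix.diagonal d + E)) (T (Matrix.diagonal d)) := by
    have h7 : Commute (Matrix.diagonal d + E) (Matrix.diagonal d) :=
      (Commute.refl _).add_left hc.symm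
    exact h7.map T
  have h7 : (T (Matrix.diagonal d + E) - T (Matrix.diagonal d)).IsSemisimple :=
    Module.End.IsSemisimple.sub_of_commute h6 h5 h4
  rw [← map_sub, add_sub_cancel_left] at h7
  have h8 : T E = 0 := Module.End.eq_zero_of_isNilpotent_isSemisimple (hE.map T) h7
  exact (map_eq_zero_iff T T.injective).1 h8

variable {G : AffGrp} {n : ℕ} {D : RD n} (C : CD G D)

open Classical in
/-- the principal nilpotent: the sum of the simple root vectors -/
noncomputable def e0 (D : RD n) (R : Type) [CommRing R] : LR D R :=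
  Sum.elim (fun _ => 0) fun γ => if D.Sim γ then 1 else 0

/-- (row G3b) `ht2_sim` -/
theorem Sp_e0 (D : RD n) (R : Type) [CommRing R] : Sp 1 2 (e0 D R) := by
  refine ⟨fun k hk => absurd rfl hk, fun γ hγ => ?_⟩
  have hs : D.Sim γ := by
    by_contra hne
    exact hγ (if_neg hne)
  have h1 := D.ht2_sim ⟨γ, hs⟩
  rw [one_mul]
  exact le_of_eq h1.symm

/-- The Kostant slice (the part used here): `p` a point of the group over `ℂ[𝔱]` with `Ad p (e + x) = sv(x)`, `sv` depends only on the Weyl orbit. -/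
structure SL where
  p : G.Pt (MvPolynomial (Fin n) ℂ)
  sv : LR D (MvPolynomial (Fin n) ℂ)
  uu : UU C (-1) p
  conj : Adp C p (e0 D _ + CD.hx MvPolynomial.X) = sv
  inv : ∀ (u : D.W) (x : Fin n → ℂ) (j), MvPolynomial.eval (wx u x) (sv j) = MvPolynomial.eval x (sv j)

variable {C}

/-- the slice point `x` -/
noncomputable def SL.sx (S : SL C) (x : Fin n → ℂ) : LR D ℂ := fun j => MvPolynomial.eval x (S.sv j)

/-- the complex conjugator -/
noncomputable def SL.pc (S : SL C) (x : Fin n → ℂ) : G.Pt ℂ := S.p.map (MvPolynomial.aeval x)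

/-- (row G3b) evaluate `S.conj` at `x`: `Adp_map`. -/
theorem SL.conj_c (S : SL C) (x : Fin n → ℂ) : Adp C (S.pc x) (e0 D ℂ + CD.hx x) = S.sx x := by
  classical
  have h1 := Adp_map C (MvPolynomial.aeval x : MvPolynomial (Fin n) ℂ →ₐ[ℂ] ℂ) S.p
    (e0 D _ + CD.hx MvPolynomial.X)
  rw [S.conj] at h1
  have h2 : (fun j => (MvPolynomial.aeval x : MvPolynomial (Fin n) ℂ →ₐ[ℂ] ℂ)
      ((e0 D (MvPolynomial (Fin n) ℂ) + CD.hx MvPolynomial.X : LR D (MvPolynomial (Fin n) ℂ)) j)) =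
      (e0 D ℂ + CD.hx x : LR D ℂ) := by
    funext j
    rcases j with k | γ
    · show MvPolynomial.aeval x ((0 : MvPolynomial (Fin n) ℂ) + MvPolynomial.X k) = 0 + x k
      rw [zero_add, zero_add, MvPolynomial.aeval_X]
    · show MvPolynomial.aeval x ((if D.Sim γ then (1 : MvPolynomial (Fin n) ℂ) else 0) + 0) =
        (if D.Sim γ then (1 : ℂ) else 0) + 0
      rw [add_zero, add_zero]
      split_ifs
      · exact map_one _
      · exact map_zero _
  have h3 : (fun j => (MvPolynomial.aeval x : MvPolynomial (Fin n) ℂ →ₐ[ℂ] ℂ) (S.sv j)) = S.sx x := by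
    funext j
    show MvPolynomial.aeval x (S.sv j) = MvPolynomial.eval x (S.sv j)
    rw [MvPolynomial.aeval_eq_eval]
  rw [h2, h3] at h1
  exact h1.symm

variable (C)

/-- (row G3b) Reduction on a simple wall.  `α` simple, `α(x) = 0`, `γ(x) ≠ 0` for all other positive roots.  Then `x + e` is conjugate to `x + e_α`.
Proof.  `Y := ∑_{δ simple, δ ≠ α} (1 / δ(x)) e_δ` (`Sp 1 2 Y`): `[Y, hx x] = - ∑ e_δ` (`br_hx`, `br_neg`).  By `Adp_ex` (`m = 2`; `m' = 0` for `hx x`, `m' = 2` for `e`) and `Sp_br`: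
`Ad(exp Y)(hx x + e) = hx x + e_α + Z''`, `Sp 1 4 Z''`.  Then `exists_U'` with `m = 4`, `s = 1`: roots of height `≥ 4` are positive and different from `α` (`ht2_sim`, `ht2_pos`), so `γ(x)` is a unit. -/
theorem wall_conj (α : D.SRt) (x : Fin n → ℂ) (h0 : ev α.1.1 x = 0)
    (h : ∀ γ : D.Rt, D.Pos γ → γ ≠ α.1 → ev γ.1 x ≠ 0) :
    ∃ φ : G.Pt ℂ, Adp C φ (e0 D ℂ + CD.hx x) = rv α.1 1 + CD.hx x := by
  classical
  obtain ⟨Y, hY⟩ : ∃ Y : LR D ℂ, Y = Sum.elim (fun _ => 0)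
    fun δ : D.Rt => if D.Sim δ ∧ δ ≠ α.1 then (ev δ.1 x)⁻¹ else 0 := ⟨_, rfl⟩
  have hY1 : Sp 1 2 Y := by
    rw [hY]
    refine ⟨fun k hk => absurd rfl hk, fun γ hγ => ?_⟩
    have hs : D.Sim γ ∧ γ ≠ α.1 := by
      by_contra hne
      exact hγ (if_neg hne)
    have h1 := D.ht2_sim ⟨γ, hs.1⟩
    rw [one_mul]
    exact le_of_eq h1.symm
  have hbr : C.br Y (CD.hx x) = rv α.1 1 - e0 D ℂ := by
    rw [br_neg, br_hx, hY]
    funext j
    rcases j with k | γ
    · show -(0 : ℂ) = (rv α.1 1 : LR D ℂ) (Sum.inl k) - 0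
      rw [E1a_rv_inl, neg_zero, sub_zero]
    · show -(ev γ.1 x * (if D.Sim γ ∧ γ ≠ α.1 then (ev γ.1 x)⁻¹ else 0)) =
        (rv α.1 1 : LR D ℂ) (Sum.inr γ) - (if D.Sim γ then (1 : ℂ) else 0)
      by_cases hγ : γ = α.1
      · subst hγ
        rw [E1a_rv_same, if_pos α.2, if_neg (fun h1 => h1.2 rfl), mul_zero, neg_zero, sub_self]
      · rw [E1a_rv_ne hγ]
        by_cases hs : D.Sim γ
        · rw [if_pos ⟨hs, hγ⟩, if_pos hs, mul_inv_cancel₀ (h γ hs.1 hγ), zero_sub]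
        · rw [if_neg (fun h1 => hs h1.1), if_neg hs, mul_zero, neg_zero, sub_zero]
  have hx0 : Sp 1 0 (CD.hx x : LR D ℂ) := ⟨fun k _ => le_rfl, fun γ hγ => absurd rfl hγ⟩
  have t1 := Adp_ex C (m := 2) (m' := 0) (by norm_num) hY1 hx0
  have t2 := Adp_ex C (m := 2) (m' := 2) (by norm_num) hY1 (Sp_e0 D ℂ)
  have t3 := Sp_br C hY1 (Sp_e0 D ℂ)
  obtain ⟨Z, hZ⟩ : ∃ Z : LR D ℂ, Z = (Adp C (ex C Y) (CD.hx x) - CD.hx x - C.br Y (CD.hx x)) +
    (Adp C (ex C Y) (e0 D ℂ) - e0 D ℂ - C.br Y (e0 D ℂ)) + C.br Y (e0 D ℂ) := ⟨_, rfl⟩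
  have hZ4 : Sp 1 4 Z := by
    rw [hZ]
    exact Sp_add (Sp_add (Sp_mono (by norm_num) t1) (Sp_mono (by norm_num) t2))
      (Sp_mono (by norm_num) t3)
  have hex : Adp C (ex C Y) (e0 D ℂ + CD.hx x) = CD.hx x + (rv α.1 1 + Z) := by
    rw [Adp_add, hZ, hbr]
    abel
  have hα : D.ht2 α.1.1 = 2 := D.ht2_sim α
  have hrv : Sp 1 1 (rv α.1 1 : LR D ℂ) := by
    refine ⟨fun k hk => absurd (E1a_rv_inl α.1 1 k) hk, fun γ hγ => ?_⟩
    have h1 : γ = α.1 := by
      by_contra hne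
      exact hγ (E1a_rv_ne hne 1)
    rw [h1, hα]
    norm_num
  have hu : ∀ γ : D.Rt, 4 ≤ 1 * D.ht2 γ.1 → IsUnit (ev γ.1 x) := by
    intro γ hγ
    rw [one_mul] at hγ
    refine isUnit_iff_ne_zero.2 (h γ ?_ ?_)
    · by_contra hne
      have h1 := (D.ht2_pos ((D.pos_ng γ).2 hne)).1
      rw [D.ng_val, b3a_ht2_neg] at h1
      omega
    · intro h1
      rw [h1, hα] at hγ
      omega
  obtain ⟨φ, -, hφ⟩ := exists_U' C (s := 1) (m := 4) (Or.inl rfl) (by norm_num) (x := x)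
    hu (Z := rv α.1 1 + Z) (Z' := rv α.1 1)
    (Sp_add hrv (Sp_mono (by norm_num) hZ4)) hrv (by
      have h1 : (rv α.1 1 : LR D ℂ) - (rv α.1 1 + Z) = -Z := by abel
      rw [h1]
      exact Sp_neg hZ4)
  refine ⟨φ * ex C Y, ?_⟩
  rw [Adp_mul, hex, hφ, add_comm]

/-- the matrices of `z` and `z'` are similar -/
def G3cS (z z' : LR D ℂ) : Prop := ∃ g : Matrix C.F.ι C.F.ι ℂ, IsUnit g.det ∧
  g * C.dm C.F z = C.dm C.F z' * g

theorem G3cS_trans {z z' z'' : LR D ℂ} (h : G3cS C z z') (h' : G3cS C z' z'') :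
    G3cS C z z'' := by
  obtain ⟨g, hg, e⟩ := h
  obtain ⟨g', hg', e'⟩ := h'
  refine ⟨g' * g, ?_, ?_⟩
  · rw [Matrix.det_mul]
    exact hg'.mul hg
  · rw [Matrix.mul_assoc, e, ← Matrix.mul_assoc, e', Matrix.mul_assoc]

theorem G3cS_symm {z z' : LR D ℂ} (h : G3cS C z z') : G3cS C z' z := by
  obtain ⟨g, hg, e⟩ := h
  refine ⟨g⁻¹, Matrix.isUnit_nonsing_inv_det g hg, ?_⟩
  · calc g⁻¹ * C.dm C.F z' = g⁻¹ * (C.dm C.F z' * g) * g⁻¹ := by
          rw [Matrix.mul_assoc, Matrix.mul_assoc, Matrix.mul_nonsing_inv _ hg, Matrix.mul_one]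
      _ = g⁻¹ * (g * C.dm C.F z) * g⁻¹ := by rw [e]
      _ = C.dm C.F z * g⁻¹ := by
          rw [← Matrix.mul_assoc, Matrix.nonsing_inv_mul _ hg, Matrix.one_mul]

theorem G3cS_of {φ : G.Pt ℂ} {z z' : LR D ℂ} (h : Adp C φ z = z') : G3cS C z z' := by
  refine ⟨C.F.pt φ, ?_, ?_⟩
  · have h1 := congrArg Matrix.det (C.F.pt_mul_inv φ)
    rw [Matrix.det_mul, Matrix.det_one] at h1
    exact IsUnit.of_mul_eq_one _ h1
  · rw [pt_dm, h]

/-- (row G3c) `x + e` is not semisimple if `x` is a generic point of a wall.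
Proof.  `u` with `u • β = α` simple (`exists_simple`: `β = w • α`, `u = w⁻¹`), `x' := wx u x`; `ev α x' = ev β x = 0`, and `ev γ x' = ev (u⁻¹ • γ) x ≠ 0` for `γ` positive, `γ ≠ α` (`ev_wx`; if `u⁻¹ • γ` is
negative use `ng`).  In the representation `C.F` (matrices `m z = C.dm C.F z`, `pt_dm`: `Adp C φ z = z'` gives `F(φ) m(z) F(φ)⁻¹ = m(z')`): `m (hx x') ~ m (hx x)` (`exists_nw`) `~ m (e + hx x)` (the
assumption) `~ m (sx x) = m (sx x')` (`conj_c`, `inv`) `~ m (e + hx x')` `~ m (rv α 1 + hx x')` (`wall_conj`).  `m (hx x')` is diagonal (`isW_F.dm_hx`), `m (rv α 1) = C.F.d (e α) ≠ 0` (`d_injective`) is nilpotent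
(`dm_nilp`, `Sp_rv`) and commutes with it (`[hx x', e_α] = α(x') e_α = 0`, `dm_br`, `br_hx`).  `nilp_of_sim` gives a contradiction. -/
theorem nonss (S : SL C) (β : D.Rt) (hβ : D.Pos β) (x : Fin n → ℂ) (h0 : ev β.1 x = 0)
    (h : ∀ γ : D.Rt, D.Pos γ → γ ≠ β → ev γ.1 x ≠ 0) :
    ¬ ∃ g : Matrix C.F.ι C.F.ι ℂ, IsUnit g.det ∧
      g * C.dm C.F (CD.hx x) = C.dm C.F (e0 D ℂ + CD.hx x) * g := by
  classical
  intro hcon
  have hsim0 : G3cS C (CD.hx x) (e0 D ℂ + CD.hx x) := hcon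
  obtain ⟨l, α, hl⟩ := D.exists_simple β
  obtain ⟨u, hu⟩ : ∃ u : D.W, u • β = α.1 :=
    ⟨((l.map D.sW).prod)⁻¹, by rw [← hl, inv_smul_smul]⟩
  have huval : u.1 β.1 = α.1.1 := by rw [← hu]; rfl
  set x' : Fin n → ℂ := wx u x with hx'
  have h0' : ev α.1.1 x' = 0 := by
    rw [← huval, hx', ev_wx, h0]
  have h' : ∀ γ : D.Rt, D.Pos γ → γ ≠ α.1 → ev γ.1 x' ≠ 0 := by
    intro γ hγ hne
    have e1 : ev γ.1 x' = ev (u⁻¹ • γ).1 x := by
      rw [hx', ← ev_wx u x (u⁻¹ • γ).1, D.smul_val, D.W_inv_apply]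
    rw [e1]
    by_cases hp : D.Pos (u⁻¹ • γ)
    · apply h _ hp
      intro h2
      apply hne
      rw [← hu, ← h2, smul_inv_smul]
    · have hp' := (D.pos_ng _).2 hp
      have h3 : D.ng (u⁻¹ • γ) ≠ β := by
        intro h2
        have h4 : D.ng γ = α.1 := by
          rw [← hu, ← h2, D.smul_ng, smul_inv_smul]
        have h5 := (D.pos_ng γ).1 (by rw [h4]; exact α.2.1)
        exact h5 hγ
      have h4 := h _ hp' h3
      rw [D.ng_val, Pool.Agent.MTD.ev_neg_left] at h4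
      intro h5
      rw [h5, neg_zero] at h4
      exact h4 rfl
  obtain ⟨ψ, hψ⟩ := exists_nw C u
  obtain ⟨φ, hφ⟩ := wall_conj C α x' h0' h'
  have hsx : S.sx x = S.sx x' := by
    funext j
    exact (S.inv u x j).symm
  have k1 : G3cS C (CD.hx x) (CD.hx x') := G3cS_of C (hψ x)
  have k2 : G3cS C (e0 D ℂ + CD.hx x) (S.sx x) := G3cS_of C (S.conj_c x)
  have k3 : G3cS C (e0 D ℂ + CD.hx x') (S.sx x') := G3cS_of C (S.conj_c x')
  have k4 : G3cS C (e0 D ℂ + CD.hx x') (rv α.1 1 + CD.hx x') := G3cS_of C hφ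
  have k5 : G3cS C (CD.hx x') (rv α.1 1 + CD.hx x') := by
    refine G3cS_trans C (G3cS_symm C k1) (G3cS_trans C hsim0 (G3cS_trans C k2 ?_))
    rw [hsx]
    exact G3cS_trans C (G3cS_symm C k3) k4
  obtain ⟨g, hg, e⟩ := k5
  have hhx := C.isW_F.dm_hx x'
  obtain ⟨s, -, hs⟩ := Sp_rv (D := D) (R := ℂ) α.1 1
  have hnil : IsNilpotent (C.dm C.F (rv α.1 (1 : ℂ))) := ⟨_, dm_nilp C C.F hs⟩
  have hbr : C.br (CD.hx x') (rv α.1 (1 : ℂ)) = 0 := by
    rw [br_hx]
    funext j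
    rcases j with k | δ
    · rfl
    · show ev δ.1 x' * (rv α.1 (1 : ℂ) : LR D ℂ) (Sum.inr δ) = 0
      by_cases hδ : δ = α.1
      · rw [hδ, h0', zero_mul]
      · have : (rv α.1 (1 : ℂ) : LR D ℂ) (Sum.inr δ) = 0 :=
          Pi.single_eq_of_ne (fun h' => hδ (Sum.inr.inj h')) _
        rw [this, mul_zero]
  have hcomm : Commute (Matrix.diagonal fun a => ev (C.wt a) x') (C.dm C.F (rv α.1 (1 : ℂ))) := by
    have h6 := C.dm_br C.F (CD.hx x') (rv α.1 (1 : ℂ))
    rw [hbr, C.dm_zero, hhx] at h6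
    exact (sub_eq_zero.1 h6.symm)
  rw [C.dm_add, hhx, add_comm] at e
  have h7 := nilp_of_sim _ _ hnil hcomm g hg e
  have h8 : C.dm C.F (rv α.1 (1 : ℂ)) = C.F.d (C.bs (Sum.inr α.1)) := by
    rw [C.dm_complex]
    congr 1
    rw [Finset.sum_eq_single (Sum.inr α.1)]
    · have : (rv α.1 (1 : ℂ) : LR D ℂ) (Sum.inr α.1) = 1 := Pi.single_eq_same _ _
      rw [this, one_smul]
    · intro j _ hj
      have : (rv α.1 (1 : ℂ) : LR D ℂ) j = 0 := Pi.single_eq_of_ne hj _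
      rw [this, zero_smul]
    · intro h
      exact absurd (Finset.mem_univ _) h
  rw [h8] at h7
  have h9 : C.bs (Sum.inr α.1) = 0 := by
    apply AffGrp.d_injective C.F C.faith
    rw [h7, map_zero]
  exact C.bs.ne_zero _ h9

end Pool.Agent.MTH
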