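import Pool.Agent.MTH.E2
import Pool.Agent.MTH.G1
import Pool.Agent.MTH.G3
import Pool.Agent.MTF.K0
import Pool.Agent.MTG.B1

/-! # MTH-H1 -/

namespace Pool.Agent.MTH

open Matrix
open Pool.Agent.MTF Pool.Agent.MTG
open Pool.Agent.MTD (ev)
open Pool.Agent.MP_c45d35_ag (chi)

variable {G : AffGrp} {n : ℕ} {D : RD n} {C : CD G D}

namespace FM

variable (M : FM C)

section
variable {R : Type} [CommRing R] [Algebra ℂ R]

theorem ex_eq (z : LR D R) : ex M.C' z = ex C z := rfl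

theorem Adp_eq (φ : G.Pt R) (z : LR D R) : Adp M.C' φ z = Adp C φ z := rfl

theorem dm_eq (E : MTF.Rep G) (z : LR D R) : M.C'.dm E z = C.dm E z := rfl

/-- (row H1a) `pt_injective` for `C.F`, `tq_pt` twice (`isW_iff`). -/
theorem tq_eq (t : Fin n → Rˣ) : tq M.C' t = tq C t := by
  apply Rep.pt_injective C.F C.faith
  rw [tq_pt C t C.isW_F, tq_pt M.C' t ((M.isW_iff C.F C.wt).2 C.isW_F)]

/-- (row H1a) `UU_uni` for `M.C'` (in `C.F`) and for `C` (in `M.E`); `isW_iff`, `M.isW`, `C.isW_F`. -/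
theorem UU_iff {s : ℤ} (hs : s = 1 ∨ s = -1) (φ : G.Pt R) : UU M.C' s φ ↔ UU C s φ :=
  ⟨fun h => UU_uni M.C' hs h ((M.isW_iff C.F C.wt).2 C.isW_F), fun h => UU_uni C hs h M.isW⟩

/-- the matrix of a torus point -/
theorem pt_tq (t : Fin n → Rˣ) :
    M.E.pt (tq C t) = Matrix.diagonal fun a => ((chi (M.wt a) t : Rˣ) : R) := tq_pt C t M.isW

/-- (row H1a) a unipotent point is an upper unitriangular matrix: `UU_uni` for `M.E`, `M.sorted`. -/
theorem pt_UU {φ : G.Pt R} (hφ : UU C 1 φ) (i j : Fin M.N) (h : j ≤ i) :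
    M.E.pt φ i j = if i = j then 1 else 0 := by
  have h1 := UU_uni C (Or.inl rfl) hφ M.isW
  have h2 := M.sorted j i h
  have h3 : (M.E.pt φ - 1) i j = 0 := by
    by_contra hne
    have h4 := h1 i j hne
    rw [one_mul] at h4
    omega
  rw [Matrix.sub_apply, sub_eq_zero] at h3
  rw [h3, Matrix.one_apply]

/-- (row H1a) entries of a unipotent point between indices of the same weight -/
theorem pt_UU' {s : ℤ} (hs : s = 1 ∨ s = -1) {φ : G.Pt R} (hφ : UU C s φ) (i j : Fin M.N)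
    (h : M.wt i = M.wt j) : M.E.pt φ i j = if i = j then 1 else 0 := by
  have h1 := UU_uni C hs hφ M.isW
  have h3 : (M.E.pt φ - 1) i j = 0 := by
    by_contra hne
    have h4 := h1 i j hne
    rw [h, sub_self, mul_zero] at h4
    omega
  rw [Matrix.sub_apply, sub_eq_zero] at h3
  rw [h3, Matrix.one_apply]

/-- (row H1a) upper triangular points: `exists_borel` for `M.C'`; `M.E.pt φ a b ≠ 0 → a ≤ b → ht2 (wt b) ≤ ht2 (wt a)` (`M.sorted`). -/
theorem borel (hG : IsDomain G.O) (φ : G.Pt R) (h : ∀ i j : Fin M.N, j < i → M.E.pt φ i j = 0) :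
    ∃ (v : G.Pt R) (t : Fin n → Rˣ), UU C 1 v ∧ φ = tq C t * v := by
  obtain ⟨v, t, hv, e⟩ := exists_borel M.C' hG φ (fun (a b : Fin M.N) hab => by
    have h1 : a ≤ b := by
      by_contra hlt
      exact hab (h a b (not_le.1 hlt))
    exact M.sorted a b h1)
  exact ⟨v, t, (M.UU_iff (Or.inl rfl) v).1 hv, by rw [e, M.tq_eq]⟩

/-- (row H1a) `pt_tq`, `pt_UU` -/
theorem pt_tv (t : Fin n → Rˣ) {v : G.Pt R} (hv : UU C 1 v) (i j : Fin M.N) (h : j ≤ i) :
    M.E.pt (tq C t * v) i j = if i = j then ((chi (M.wt i) t : Rˣ) : R) else 0 := by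
  rw [Rep.pt_mul, M.pt_tq, Matrix.diagonal_mul, M.pt_UU hv i j h]
  split_ifs
  · rw [mul_one]
  · rw [mul_zero]

end

/-- the determinant of the matrix model as a regular function -/
noncomputable def H1b_f : G.O := (Matrix.of fun i j => M.E.co i j : Matrix (Fin M.N) (Fin M.N) G.O).det

theorem H1b_f_apply (x : G.X) : (M.H1b_f).1 x = (M.π x).det := by
  have h1 := (a1_ev x).map_det (Matrix.of fun i j => M.E.co i j : Matrix (Fin M.N) (Fin M.N) G.O)
  exact h1

theorem H1b_pt {R : Type} [CommRing R] [Algebra ℂ R] (φ : G.Pt R) :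
    φ (M.H1b_f) = (M.E.pt φ).det :=
  (φ.hom).map_det (Matrix.of fun i j => M.E.co i j : Matrix (Fin M.N) (Fin M.N) G.O)

/-- the determinant as a representation -/
noncomputable def H1b_rep : MTF.Rep G where
  ι := Unit
  ρ :=
    { toFun := fun x => Matrix.of fun _ _ => (M.H1b_f).1 x
      map_one' := by
        ext i j
        rw [Matrix.of_apply, H1b_f_apply, map_one, Matrix.det_one, Matrix.one_apply,
          if_pos (Subsingleton.elim i j)]
      map_mul' := fun x y => by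
        ext i j
        rw [Matrix.of_apply, Matrix.mul_apply, H1b_f_apply, map_mul, Matrix.det_mul]
        simp [H1b_f_apply] }
  mem _ _ := (M.H1b_f).2

theorem H1b_d (y : G.Lie) (a b : Unit) : (M.H1b_rep).d y a b = y.1 (M.H1b_f) := rfl

theorem H1b_br (y y' : G.Lie) : ⁅y, y'⁆.1 (M.H1b_f) = 0 := by
  rw [← M.H1b_d ⁅y, y'⁆ () (), Rep.d_lie, Matrix.sub_apply, Matrix.mul_apply, Matrix.mul_apply]
  show ∑ c : Unit, (M.H1b_rep).d y () c * (M.H1b_rep).d y' c () -
    ∑ c : Unit, (M.H1b_rep).d y' () c * (M.H1b_rep).d y c () = 0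
  simp only [Finset.univ_unique, Finset.sum_singleton, H1b_d]
  ring

theorem H1b_wt : ∃ μ : Fin n → ℤ, ∀ k, (C.bs (Sum.inl k)).1 (M.H1b_f) = ((μ k : ℤ) : ℂ) := by
  obtain ⟨F, w, P, P', hw, h1, h2, h3⟩ := exists_weight C M.H1b_rep
  have hne : Nonempty F.ι := by
    by_contra hc
    have he : IsEmpty F.ι := not_nonempty_iff.1 hc
    have h4 := congrFun (congrFun h1 ()) ()
    rw [Matrix.mul_apply] at h4
    have h5 : ∑ j : F.ι, P () j * P' j () = 0 := Finset.sum_eq_zero fun j _ => (he.false j).elim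
    have h6 : (1 : Matrix (M.H1b_rep).ι (M.H1b_rep).ι ℂ) () () = 1 := Matrix.one_apply_eq ()
    rw [h6] at h4
    exact zero_ne_one (h5.symm.trans h4)
  obtain ⟨a⟩ := hne
  have hρ : ∀ x, (M.H1b_rep).ρ x = (M.H1b_f).1 x • (1 : Matrix (M.H1b_rep).ι (M.H1b_rep).ι ℂ) := by
    intro x
    ext i j
    rw [Matrix.smul_apply]
    have h6 : (1 : Matrix (M.H1b_rep).ι (M.H1b_rep).ι ℂ) i j = 1 := by
      have hij : i = j := Subsingleton.elim (α := Unit) i j
      rw [hij]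
      exact Matrix.one_apply_eq _
    rw [h6, smul_eq_mul, mul_one]
    rfl
  have hco : F.co a a = M.H1b_f := by
    apply AffGrp.O_ext
    intro x
    show F.ρ x a a = _
    rw [← h3 x, hρ x, Matrix.mul_smul, Matrix.smul_mul, Matrix.mul_one, h2, Matrix.smul_apply,
      Matrix.one_apply_eq, smul_eq_mul, mul_one]
  refine ⟨w a, fun k => ?_⟩
  have h4 := congrFun (congrFun (hw.d_h k) a) a
  rw [Matrix.diagonal_apply_eq] at h4
  rw [← h4, ← hco]
  rfl

theorem H1b_zero (y : G.Lie) : y.1 (M.H1b_f) = 0 := by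
  obtain ⟨μ, hμ⟩ := M.H1b_wt
  have hL : ∀ y : G.Lie, y.1 (M.H1b_f) = ∑ j, C.bs.repr y j * (C.bs j).1 (M.H1b_f) := by
    intro y
    conv_lhs => rw [← C.bs.sum_repr y]
    have h1 : ∀ (t : Finset (Fin n ⊕ D.Rt)) (c : Fin n ⊕ D.Rt → ℂ),
        (∑ j ∈ t, c j • C.bs j : G.Lie).1 (M.H1b_f) = ∑ j ∈ t, c j * (C.bs j).1 (M.H1b_f) := by
      intro t c
      classical
      induction t using Finset.induction_on with
      | empty => rw [Finset.sum_empty, Finset.sum_empty]; rfl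
      | insert a t ha ih =>
        rw [Finset.sum_insert ha, Finset.sum_insert ha, ← ih]
        rfl
    exact h1 Finset.univ _
  have hμ0 : μ = 0 := by
    apply D.span
    intro γ hγ
    have h1 := M.H1b_br (C.bs (Sum.inr ⟨γ, hγ⟩)) (C.bs (Sum.inr (D.ng ⟨γ, hγ⟩)))
    rw [C.e_ng] at h1
    have h2 : (∑ k, ((D.cp ⟨γ, hγ⟩ (Pi.single k 1) : ℤ) : ℂ) • C.bs (Sum.inl k) : G.Lie).1 (M.H1b_f) =
        ∑ k, ((D.cp ⟨γ, hγ⟩ (Pi.single k 1) : ℤ) : ℂ) * ((μ k : ℤ) : ℂ) := by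
      have h3 : ∀ t : Finset (Fin n), (∑ k ∈ t, ((D.cp ⟨γ, hγ⟩ (Pi.single k 1) : ℤ) : ℂ) •
          C.bs (Sum.inl k) : G.Lie).1 (M.H1b_f) =
          ∑ k ∈ t, ((D.cp ⟨γ, hγ⟩ (Pi.single k 1) : ℤ) : ℂ) * ((μ k : ℤ) : ℂ) := by
        intro t
        induction t using Finset.induction_on with
        | empty => rw [Finset.sum_empty, Finset.sum_empty]; rfl
        | insert a t ha ih =>
          rw [Finset.sum_insert ha, Finset.sum_insert ha, ← ih, ← hμ a]
          rfl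
      exact h3 Finset.univ
    rw [h2] at h1
    have h4 : D.cp ⟨γ, hγ⟩ μ = ∑ k, D.cp ⟨γ, hγ⟩ (Pi.single k 1) * μ k := by
      have h5 : μ = ∑ k, μ k • (Pi.single k (1 : ℤ) : Fin n → ℤ) := by
        funext j
        rw [Finset.sum_apply, Finset.sum_eq_single j]
        · rw [Pi.smul_apply, Pi.single_eq_same, smul_eq_mul, mul_one]
        · intro k _ hk
          rw [Pi.smul_apply, Pi.single_eq_of_ne (Ne.symm hk), smul_zero]
        · intro hk
          exact absurd (Finset.mem_univ j) hk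
      conv_lhs => rw [h5]
      have h6 := map_sum (AddMonoidHom.mk' (D.cp ⟨γ, hγ⟩) (D.cp_add ⟨γ, hγ⟩))
        (fun k => μ k • (Pi.single k (1 : ℤ) : Fin n → ℤ)) Finset.univ
      refine h6.trans (Finset.sum_congr rfl fun k _ => ?_)
      rw [mul_comm]
      exact D.cp_smul _ _ _
    have h5 : ((D.cp ⟨γ, hγ⟩ μ : ℤ) : ℂ) = 0 := by
      rw [h4, ← h1]
      push_cast
      rfl
    have h6 : D.cp ⟨γ, hγ⟩ μ = 0 := by exact_mod_cast h5
    have h7 := D.cp_cf ⟨γ, hγ⟩ μ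
    rw [h6, zero_mul] at h7
    exact h7.symm
  rw [hL y]
  refine Finset.sum_eq_zero fun j _ => ?_
  rcases j with k | γ
  · rw [hμ k, hμ0]
    simp
  · obtain ⟨k, hk⟩ : ∃ k, γ.1 k ≠ 0 := by
      by_contra hc
      push Not at hc
      exact D.Rt_ne γ (funext hc)
    have h1 := M.H1b_br (C.bs (Sum.inl k)) (C.bs (Sum.inr γ))
    rw [C.h_e] at h1
    have h2 : ((γ.1 k : ℤ) : ℂ) * (C.bs (Sum.inr γ)).1 (M.H1b_f) = 0 := h1
    have h3 : ((γ.1 k : ℤ) : ℂ) ≠ 0 := by exact_mod_cast hk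
    rw [(mul_eq_zero.1 h2).resolve_left h3, mul_zero]

theorem H1b_one (hG : IsDomain G.O) : M.H1b_f = 1 := by
  have h1 : ∀ y : G.Lie, G.der y (M.H1b_f) = 0 := by
    intro y
    apply AffGrp.O_ext
    intro x
    have h2 : G.lt x (M.H1b_f) = (M.H1b_f).1 x • M.H1b_f := by
      apply AffGrp.O_ext
      intro z
      show (M.H1b_f).1 (x * z) = (M.H1b_f).1 x * (M.H1b_f).1 z
      rw [H1b_f_apply, H1b_f_apply, H1b_f_apply, map_mul, Matrix.det_mul]
    rw [AffGrp.der_apply, h2, map_smul, M.H1b_zero y, smul_zero]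
    rfl
  apply AffGrp.O_ext
  intro x
  rw [AffGrp.const_of_der hG _ h1 x, H1b_f_apply, map_one, Matrix.det_one]
  rfl

/-- (row H1b) The determinant is `1`.  `f x := (M.π x).det` is in `G.O`, `φ f = (M.E.pt φ).det` (`φ` applied to the determinant of the matrix of `M.E.co`).  `G.der y f = (tr (M.E.d y)) • f` for `y : G.Lie`:
`lt x f = f x • f`, so `(der y f) x = y (lt x f) = f x * y f`, and `y f = tr (M.E.d y)` (derivative of the determinant at `1`; Leibniz rule for the products: `Matrix.det_apply`, only the identity permutation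
contributes).  `tr (M.E.d y) = 0` on the basis: `bs (inr γ)` has zero diagonal (`M.isW.d_e`); `tr (M.E.d (bs (inl k))) = (∑ i, M.wt i) k`, and from `C.e_ng` (trace of a commutator) `cp γ (∑ i, M.wt i) = 0` for all `γ`
(`cp` is additive: `cp γ x = ∑ k, x k * cp γ (Pi.single k 1)`), so `∑ i, M.wt i = 0` (`D.span`).  Hence `der y f = 0` for all `y` and `f = 1` (`AffGrp.const_of_der`). -/
theorem det_eq_one (hG : IsDomain G.O) {R : Type} [CommRing R] [Algebra ℂ R] (φ : G.Pt R) :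
    (M.E.pt φ).det = 1 := by
  rw [← M.H1b_pt φ, M.H1b_one hG, map_one]

end FM

/-! ### The datum -/

variable (M : FM C) (S : SL C)

/-- `∑ Z_β e_β` over the positive roots -/
noncomputable def yz {R : Type} [CommRing R] (Z : D.PRt → R) : LR D R :=
  Sum.elim (fun _ => 0) fun γ => by
    classical
    exact if h : D.Pos γ then Z ⟨γ, h⟩ else 0

open Classical in
/-- The Moore–Tachikawa datum of the matrix model `M` and the slice `S`. -/
noncomputable def dat : MTD.Dat n M.N D.PRt where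
  eqs := {p | ∀ x : G.X, MTF.KD.mv p (M.π x) = 0}
  wt := M.wt
  rt β := β.1.1
  cr β := fun k => D.cp β.1 (Pi.single k 1)
  dep β := (D.ht2 β.1.1).toNat
  E β := M.E.d (C.e β.1)
  ze β := if D.Sim β.1 then 1 else 0
  S := {s | ∃ x : Fin n → ℂ, s = C.dm M.E (S.sx x)}
  sx := C.dm M.E S.sv
  px := M.E.pt S.p

section
variable {R : Type} [CommRing R] [Algebra ℂ R]

/-- (row H1c) `exists_pt`, `pt_eqs` for the faithful representation `M.E` -/
theorem isG_iff (g : Matrix (Fin M.N) (Fin M.N) R) :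
    (dat M S).IsG g ↔ ∃ φ : G.Pt R, M.E.pt φ = g := by
  constructor
  · intro h
    exact exists_pt M.E M.faith g fun p hp => h p hp
  · rintro ⟨φ, rfl⟩ p hp
    exact pt_eqs M.E φ p hp

/-- (row H1c) `IsW.dm_hx` -/
theorem dat_Dx (x : Fin n → R) : (dat M S).Dx x = C.dm M.E (CD.hx x) :=
  (M.isW.dm_hx x).symm

theorem dat_Tt (t : Fin n → Rˣ) : (dat M S).Tt t = M.E.pt (tq C t) :=
  (M.pt_tq t).symm

theorem H1c_sum {A : Type} [AddCommMonoid A] (f : D.Rt → A) :
    ∑ β : D.PRt, f β.1 = ∑ γ : D.Rt, if D.Pos γ then f γ else 0 := by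
  classical
  rw [← Finset.sum_filter]
  exact (Finset.sum_subtype (Finset.univ.filter D.Pos) (fun γ => by simp) f).symm

omit [Algebra ℂ R] in
theorem H1c_yz_inr (Z : D.PRt → R) (γ : D.Rt) :
    (yz Z : LR D R) (Sum.inr γ) = if h : D.Pos γ then Z ⟨γ, h⟩ else 0 := by
  show (if h : D.Pos γ then Z ⟨γ, h⟩ else 0) = _
  congr

/-- (row H1c) -/
theorem dat_Y (Z : D.PRt → R) : (dat M S).Y Z = C.dm M.E (yz Z) := by
  have h1 : C.dm M.E (yz Z) = ∑ γ : D.Rt, (yz Z : LR D R) (Sum.inr γ) •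
      (M.E.d (C.bs (Sum.inr γ))).map (algebraMap ℂ R) := by
    unfold CD.dm
    rw [Fintype.sum_sum_type, Finset.sum_eq_zero (fun k _ => ?_), zero_add]
    exact zero_smul _ _
  have h2 : (dat M S).Y Z = ∑ β : D.PRt, (yz Z : LR D R) (Sum.inr β.1) •
      (M.E.d (C.bs (Sum.inr β.1))).map (algebraMap ℂ R) := by
    unfold MTD.Dat.Y
    refine Finset.sum_congr rfl fun β _ => ?_
    rw [H1c_yz_inr, dif_pos β.2]
    rfl
  rw [h1, h2, H1c_sum (fun γ => (yz Z : LR D R) (Sum.inr γ) •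
      (M.E.d (C.bs (Sum.inr γ))).map (algebraMap ℂ R))]
  refine Finset.sum_congr rfl fun γ _ => ?_
  by_cases h : D.Pos γ
  · rw [if_pos h]
  · rw [if_neg h, H1c_yz_inr, dif_neg h, zero_smul]

/-- (row H1c) `ht2_pos` -/
theorem Sp_yz (Z : D.PRt → R) : Sp 1 2 (yz Z) := by
  refine ⟨fun k hk => absurd rfl hk, fun γ hγ => ?_⟩
  rw [H1c_yz_inr] at hγ
  by_cases h : D.Pos γ
  · obtain ⟨h1, h2⟩ := D.ht2_pos h
    omega
  · exact absurd (dif_neg h) hγ

/-- (row H1c) elements of positive height are of the form `yz Z` (`ht2_pos`, `pos_ng`) -/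
theorem exists_yz {z : LR D R} (hz : Sp 1 1 z) : ∃ Z : D.PRt → R, z = yz Z := by
  refine ⟨fun β => z (Sum.inr β.1), ?_⟩
  funext j
  rcases j with k | γ
  · show z (Sum.inl k) = 0
    by_contra hne
    have h1 := hz.1 k hne
    omega
  · rw [H1c_yz_inr]
    by_cases h : D.Pos γ
    · rw [dif_pos h]
    · rw [dif_neg h]
      by_contra hne
      have h1 := hz.2 γ hne
      have h2 := (D.ht2_pos ((D.pos_ng γ).2 h)).1
      rw [D.ng_val, b3a_ht2_neg] at h2
      omega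

/-- (row H1c) `dat_Y`, `ex_pt` (`card (Fin N) = N`) -/
theorem dat_exp (Z : D.PRt → R) : MTD.expN ((dat M S).Y Z) = M.E.pt (ex C (yz Z)) := by
  rw [ex_pt C (Sp_mono (by norm_num) (Sp_yz Z)), dat_Y]
  unfold mexp MTD.expN
  rw [Fintype.card_fin]

/-- (row H1c) -/
theorem dat_e : (dat M S).e = C.dm M.E (e0 D ℂ) := by
  classical
  unfold MTD.Dat.e
  rw [dat_Y]
  congr 1
  funext j
  rcases j with k | γ
  · rfl
  · rw [H1c_yz_inr]
    show _ = if D.Sim γ then (1 : ℂ) else 0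
    by_cases h : D.Pos γ
    · rw [dif_pos h]
      rfl
    · rw [dif_neg h, if_neg (fun hs => h hs.1)]

theorem dat_Y_e : (dat M S).Y (fun β => MvPolynomial.C ((dat M S).ze β)) =
    C.dm M.E (e0 D (MvPolynomial (Fin n) ℂ)) := by
  classical
  rw [dat_Y]
  congr 1
  funext j
  rcases j with k | γ
  · rfl
  · rw [H1c_yz_inr]
    show _ = if D.Sim γ then (1 : MvPolynomial (Fin n) ℂ) else 0
    by_cases h : D.Pos γ
    · rw [dif_pos h]
      show MvPolynomial.C (if D.Sim γ then (1 : ℂ) else 0) = _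
      by_cases h1 : D.Sim γ
      · rw [if_pos h1, if_pos h1, map_one]
      · rw [if_neg h1, if_neg h1, map_zero]
    · rw [dif_neg h, if_neg (fun hs => h hs.1)]

/-- (row H1c) `ev (cr β) μ = cp β μ` -/
theorem dat_ev_cr (β : D.PRt) (μ : Fin n → ℤ) : ev ((dat M S).cr β) μ = D.cp β.1 μ := by
  have h5 : μ = ∑ k, μ k • (Pi.single k (1 : ℤ) : Fin n → ℤ) := by
    funext j
    rw [Finset.sum_apply, Finset.sum_eq_single j]
    · rw [Pi.smul_apply, Pi.single_eq_same, smul_eq_mul, mul_one]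
    · intro k _ hk
      rw [Pi.smul_apply, Pi.single_eq_of_ne (Ne.symm hk), smul_zero]
    · intro hk
      exact absurd (Finset.mem_univ j) hk
  conv_rhs => rw [h5]
  have h6 := map_sum (AddMonoidHom.mk' (D.cp β.1) (D.cp_add β.1))
    (fun k => μ k • (Pi.single k (1 : ℤ) : Fin n → ℤ)) Finset.univ
  refine Eq.trans (Finset.sum_congr rfl fun k _ => ?_) h6.symm
  show ((D.cp β.1 (Pi.single k 1) : ℤ) : ℤ) * μ k = D.cp β.1 (μ k • Pi.single k 1)
  rw [D.cp_smul, mul_comm]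

/-- (row H1c) -/
theorem dat_sr (β : D.PRt) (x : Fin n → R) : (dat M S).sr β x = x - ev β.1.1 x • cv D R β.1 :=
  rfl

/-- (row H1c) -/
theorem dat_sC (x : Fin n → ℂ) : (dat M S).sC x = C.dm M.E (S.sx x) :=
  C.dm_map (MvPolynomial.aeval x) M.E S.sv

end

end Pool.Agent.MTH
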