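import Pool.Agent.MTH.H1
import Pool.Agent.MTH.G2
import Pool.Agent.MTH.F3
import Pool.Agent.MTX.D.Defs

/-! # MTH-H2 -/

namespace Pool.Agent.MTH

open Matrix
open Pool.Agent.MTF Pool.Agent.MTG
open Pool.Agent.MTD (ev)
open Pool.Agent.MP_c45d35_ag (chi)

variable {G : AffGrp} {n : ℕ} {D : RD n} {C : CD G D} (M : FM C) (S : SL C)

/-! ### row H2a : combinatorial fields -/

/-- `D.red` (positive roots `β ≠ γ` satisfy `γ ≠ -β`, `pos_ng`) -/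
theorem h_rt_indep (β γ : D.PRt) (a b : ℤ) (h : β ≠ γ)
    (h2 : a • (dat M S).rt β = b • (dat M S).rt γ) : a = 0 ∧ b = 0 := by
  refine D.red β.1.1 β.1.2 γ.1.1 γ.1.2 a b h2 (fun h3 => h ?_) (fun h3 => ?_)
  · exact Subtype.ext (Subtype.ext h3.symm)
  · have h4 : γ.1 = D.ng β.1 := Subtype.ext h3
    have h5 := γ.2
    rw [h4, D.pos_ng] at h5
    exact h5 β.2

theorem h_lexpos (β : D.PRt) : 0 < toLex ((dat M S).rt β) := β.2

/-- `dat_ev_cr`, `cp_self` -/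
theorem h_cr_rt (β : D.PRt) : ev ((dat M S).cr β) ((dat M S).rt β) = 2 := by
  rw [dat_ev_cr]
  exact D.cp_self β.1

/-- `dat_ev_cr`, `cp_cf`, `cp_ng`, `D.span` -/
theorem h_cr_sep (μ : Fin n → ℤ) (h : ∀ β, ev ((dat M S).cr β) μ = 0) : μ = 0 := by
  apply D.span
  intro γ hγ
  have key : ∀ δ : D.Rt, D.cp δ μ = 0 := by
    intro δ
    by_cases hδ : D.Pos δ
    · rw [← dat_ev_cr M S ⟨δ, hδ⟩ μ]
      exact h ⟨δ, hδ⟩
    · have h1 := h ⟨D.ng δ, (D.pos_ng δ).2 hδ⟩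
      rw [dat_ev_cr] at h1
      have h2 : D.cp (D.ng δ) μ = 0 := h1
      rw [D.cp_ng] at h2
      exact neg_eq_zero.1 h2
  have h3 := D.cp_cf ⟨γ, hγ⟩ μ
  rw [key, zero_mul] at h3
  exact h3.symm

/-- `sw β μ = rf β μ`; `rf_mem`, and a root or its negative is positive -/
theorem h_refl_rt (β γ : D.PRt) : ∃ γ', (dat M S).sw β ((dat M S).rt γ) = (dat M S).rt γ' ∨
    (dat M S).sw β ((dat M S).rt γ) = - (dat M S).rt γ' := by
  have h1 : (dat M S).sw β ((dat M S).rt γ) = D.rf β.1 γ.1.1 := by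
    show (dat M S).rt γ - ev ((dat M S).cr β) ((dat M S).rt γ) • (dat M S).rt β = _
    rw [dat_ev_cr]
    rfl
  by_cases hp : D.Pos ⟨D.rf β.1 γ.1.1, D.rf_mem β.1 γ.1⟩
  · exact ⟨⟨_, hp⟩, Or.inl h1⟩
  · refine ⟨⟨D.ng ⟨D.rf β.1 γ.1.1, D.rf_mem β.1 γ.1⟩, (D.pos_ng _).2 hp⟩, Or.inr ?_⟩
    rw [h1]
    exact (neg_neg _).symm

/-- `M.isW.d_e`, `ht2_pos`, `ht2_add`, `M.sorted` -/
theorem h_E_supp (β : D.PRt) (i j : Fin M.N) (h : (dat M S).E β i j ≠ 0) :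
    i < j ∧ (dat M S).wt i - (dat M S).wt j = (dat M S).rt β := by
  have h1 : M.wt i = M.wt j + β.1.1 := M.isW.d_e β.1 i j h
  refine ⟨?_, ?_⟩
  · by_contra hlt
    have h2 := M.sorted j i (not_lt.1 hlt)
    rw [h1, D.ht2_add] at h2
    have h3 := (D.ht2_pos β.2).1
    linarith
  · show M.wt i - M.wt j = β.1.1
    rw [h1, add_sub_cancel_left]

/-- `hg i = ht2 (wt i)` -/
theorem h_hgt : ∃ hg : Fin M.N → ℤ, (∀ i j, i ≤ j → hg j ≤ hg i) ∧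
    ∀ β i j, (dat M S).E β i j ≠ 0 → hg i = hg j + (dat M S).dep β := by
  refine ⟨fun i => D.ht2 (M.wt i), fun i j hij => M.sorted i j hij, fun β i j h => ?_⟩
  have h1 : M.wt i = M.wt j + β.1.1 := M.isW.d_e β.1 i j h
  have h3 := (D.ht2_pos β.2).1
  show D.ht2 (M.wt i) = D.ht2 (M.wt j) + (((D.ht2 β.1.1).toNat : ℕ) : ℤ)
  rw [Int.toNat_of_nonneg h3.le, h1, D.ht2_add]

/-- `d_injective`, `M.faith` -/
theorem h_E_ne (β : D.PRt) : (dat M S).E β ≠ 0 := by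
  intro h
  have h1 : M.E.d (C.e β.1) = M.E.d 0 := by
    rw [map_zero]
    exact h
  exact C.bs.ne_zero _ (AffGrp.d_injective M.E M.faith h1)

theorem h_dep_pos (β : D.PRt) : 0 < (dat M S).dep β := by
  show 0 < (D.ht2 β.1.1).toNat
  have h3 := (D.ht2_pos β.2).1
  omega

section
variable {R : Type} [CommRing R] [Algebra ℂ R]

/-! ### row H2b -/

/-- `isG_iff`, `FM.borel`, `tq_mul`-form: the entry is `chi (wt i) t * (pt v) i j`, `pt_UU'` -/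
theorem h_mult (hG : G.Semi) (g : Matrix (Fin M.N) (Fin M.N) R) (hg : (dat M S).IsG g)
    (h : ∀ i j, j < i → g i j = 0) (i j : Fin M.N) (hw : (dat M S).wt i = (dat M S).wt j)
    (hij : i ≠ j) : g i j = 0 := by
  obtain ⟨φ, rfl⟩ := (isG_iff M S g).1 hg
  obtain ⟨v, t, hv, rfl⟩ := M.borel hG.dom φ h
  have h1 : M.E.pt (tq C t * v) = M.E.pt (tq C t) * M.E.pt v := Rep.pt_mul _ _ _
  have h2 : M.E.pt v i j = if i = j then 1 else 0 := M.pt_UU' (Or.inl rfl) hv i j hw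
  rw [h1, M.pt_tq]
  refine Eq.trans (Matrix.diagonal_mul _ _ _ _) ?_
  rw [h2, if_neg hij, mul_zero]

theorem h_mul (g h : Matrix (Fin M.N) (Fin M.N) R) (hg : (dat M S).IsG g) (hh : (dat M S).IsG h) :
    (dat M S).IsG (g * h) := by
  obtain ⟨φ, rfl⟩ := (isG_iff M S g).1 hg
  obtain ⟨ψ, rfl⟩ := (isG_iff M S h).1 hh
  exact (isG_iff M S _).2 ⟨φ * ψ, Rep.pt_mul _ _ _⟩

theorem h_det (hG : G.Semi) (g : Matrix (Fin M.N) (Fin M.N) R) (hg : (dat M S).IsG g) :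
    g.det = 1 := by
  obtain ⟨φ, rfl⟩ := (isG_iff M S g).1 hg
  exact M.det_eq_one hG.dom φ

/-- `Rep.pt_mul_inv`, `Matrix.inv_eq_right_inv` -/
theorem h_inv (g : Matrix (Fin M.N) (Fin M.N) R) (hg : (dat M S).IsG g) : (dat M S).IsG g⁻¹ := by
  obtain ⟨φ, rfl⟩ := (isG_iff M S g).1 hg
  exact (isG_iff M S _).2 ⟨φ⁻¹, (Matrix.inv_eq_right_inv (Rep.pt_mul_inv M.E φ)).symm⟩

/-- (row H2b) the normal form under the adjoint action of the Borel subgroup -/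
theorem H2b_Adp (t : Fin n → Rˣ) {v : G.Pt R} (hv : UU C 1 v) (x : Fin n → R) (Z : D.PRt → R) :
    ∃ Z' : D.PRt → R, Adp C (tq C t * v) (CD.hx x + yz Z) = CD.hx x + yz Z' := by
  have hz1 : Sp 1 0 (yz (D := D) Z) := Sp_mono (by norm_num) (Sp_yz Z)
  have hz2 : Sp 1 0 (CD.hx x : LR D R) :=
    ⟨fun _ _ => le_refl _, fun γ hγ => absurd rfl hγ⟩
  have hz : Sp 1 0 (CD.hx x + yz Z : LR D R) := Sp_add hz2 hz1
  have h1 := UU_Adp C (Or.inl rfl) hv hz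
  rw [add_zero] at h1
  obtain ⟨w, hw⟩ : ∃ w : LR D R, w = yz Z + (Adp C v (CD.hx x + yz Z) - (CD.hx x + yz Z)) :=
    ⟨_, rfl⟩
  have hw1 : Sp 1 1 w := by
    rw [hw]
    exact Sp_add (Sp_mono (by norm_num) (Sp_yz Z)) h1
  have h2 : Adp C v (CD.hx x + yz Z) = CD.hx x + w := by
    rw [hw]
    abel
  have hw2 : Sp 1 1 (Adp C (tq C t) w) := by
    rw [Adp_tq]
    refine ⟨fun k hk => hw1.1 k hk, fun γ hγ => hw1.2 γ fun h0 => hγ ?_⟩
    show ((chi γ.1 t : Rˣ) : R) * w (Sum.inr γ) = 0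
    rw [h0, mul_zero]
  obtain ⟨Z', hZ'⟩ := exists_yz hw2
  refine ⟨Z', ?_⟩
  rw [Adp_mul, h2, Adp_add, ← hZ']
  congr 1
  rw [Adp_tq]
  funext j
  rcases j with k | γ
  · rfl
  · show ((chi γ.1 t : Rˣ) : R) * 0 = 0
    rw [mul_zero]

theorem h_torus (t : Fin n → Rˣ) : (dat M S).IsG ((dat M S).Tt t) :=
  (isG_iff M S _).2 ⟨_, (dat_Tt M S t).symm⟩

theorem h_exp (Z : D.PRt → R) : (dat M S).IsG (MTD.expN ((dat M S).Y Z)) :=
  (isG_iff M S _).2 ⟨_, (dat_exp M S Z).symm⟩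

/-- `g = pt (tq t * v)` (`FM.borel`); `pt_dm`; `Adp v (hx x + yz Z) = hx x + (Sp 1 1)` (`UU_Adp`, `Sp_yz`; `hx x` has `Sp 1 0`), `Adp_tq` preserves this form; `exists_yz`. -/
theorem h_conj (hG : G.Semi) (g : Matrix (Fin M.N) (Fin M.N) R) (x : Fin n → R) (Z : D.PRt → R)
    (hg : (dat M S).IsG g) (h : ∀ i j, j < i → g i j = 0) :
    ∃ Z' : D.PRt → R, g * ((dat M S).Dx x + (dat M S).Y Z) =
      ((dat M S).Dx x + (dat M S).Y Z') * g := by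
  obtain ⟨φ, rfl⟩ := (isG_iff M S g).1 hg
  obtain ⟨v, t, hv, rfl⟩ := M.borel hG.dom φ h
  obtain ⟨Z', hZ'⟩ := H2b_Adp t hv x Z
  refine ⟨Z', ?_⟩
  have h1 := pt_dm C M.E (tq C t * v) (CD.hx x + yz Z)
  rw [hZ', C.dm_add, C.dm_add] at h1
  rw [dat_Dx, dat_Y, dat_Y]
  exact h1

end

/-- `FM.borel`, `pt_tv` -/
theorem h_levi (hG : G.Semi) {K : Type} [Field K] [Algebra ℂ K] (g : Matrix (Fin M.N) (Fin M.N) K)
    (hg : (dat M S).IsG g) (h : ∀ i j, j < i → g i j = 0) :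
    ∃ t : Fin n → Kˣ, ∀ i, g i i = ((chi ((dat M S).wt i) t : Kˣ) : K) := by
  obtain ⟨φ, rfl⟩ := (isG_iff M S g).1 hg
  obtain ⟨v, t, hv, rfl⟩ := M.borel hG.dom φ h
  refine ⟨t, fun i => ?_⟩
  have h1 := M.pt_tv t hv i i (le_refl i)
  rw [if_pos rfl] at h1
  exact h1

/-! ### row H2c -/

/-- a positive root does not vanish at regular points, so no root does (`pos_ng`) -/
theorem reg_iff (x : Fin n → ℂ) : (dat M S).Reg x ↔ ∀ γ : D.Rt, ev γ.1 x ≠ 0 := by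
  constructor
  · intro h γ
    by_cases hγ : D.Pos γ
    · exact h ⟨γ, hγ⟩
    · have h1 := h ⟨D.ng γ, (D.pos_ng γ).2 hγ⟩
      intro h0
      apply h1
      show ev (D.ng γ).1 x = 0
      rw [D.ng_val, Pool.Agent.MTD.ev_neg_left, h0, neg_zero]
  · intro h β
    exact h β.1

/-- `g = pt φ`; `pt_dm`, `dm_inj` (`M.faith`) give `Adp C φ (hx x) = hx x`; `exists_W_of_conj`. -/
theorem h_cent (hG : G.Semi) (g : Matrix (Fin M.N) (Fin M.N) ℂ) (x : Fin n → ℂ)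
    (hg : (dat M S).IsG g) (hx : (dat M S).Reg x) (h : Commute g ((dat M S).Dx x)) :
    ∃ t : Fin n → ℂˣ, g = (dat M S).Tt t := by
  obtain ⟨φ, rfl⟩ := (isG_iff M S g).1 hg
  have hreg := (reg_iff M S x).1 hx
  have h1 := pt_dm C M.E φ (CD.hx x)
  have h2 : M.E.pt φ * C.dm M.E (CD.hx x) = C.dm M.E (CD.hx x) * M.E.pt φ := by
    have := h.eq
    rw [dat_Dx] at this
    exact this
  have h3 : C.dm M.E (Adp C φ (CD.hx x)) = C.dm M.E (CD.hx x) := by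
    have h4 : C.dm M.E (Adp C φ (CD.hx x)) * M.E.pt φ * M.E.pt φ⁻¹ =
        C.dm M.E (CD.hx x) * M.E.pt φ * M.E.pt φ⁻¹ := by rw [← h1, h2]
    rw [Matrix.mul_assoc, Matrix.mul_assoc, MTF.Rep.pt_mul_inv, Matrix.mul_one, Matrix.mul_one] at h4
    exact h4
  have h4 : Adp C φ (CD.hx x) = CD.hx x := dm_inj C M.E M.faith h3
  obtain ⟨t, ht⟩ := (exists_W_of_conj C hG.dom hreg hreg h4).2 rfl
  refine ⟨t, ?_⟩
  rw [ht, dat_Tt]

/-- `w := pt (nn C β.1 1)`; `nn_hx`, `pt_dm`, `dat_sr`; for the torus: `(pt w) i j ≠ 0 → wt i = rf β (wt j)` (`nw_supp` with `u = rW β`, `wx_rW`), and `chi (wt j) (srT β t) = chi (sw β (wt j)) t`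
(`MTD.chi_srT`). -/
theorem h_weyl (β : D.PRt) : ∃ w : Matrix (Fin M.N) (Fin M.N) ℂ, (dat M S).IsG w ∧
    (∀ x : Fin n → ℂ, w * (dat M S).Dx x = (dat M S).Dx ((dat M S).sr β x) * w) ∧
    ∀ t : Fin n → ℂˣ, (dat M S).Tt t * w = w * (dat M S).Tt (MTD.srT (dat M S) β t) := by
  have hnn : ∀ x : Fin n → ℂ, Adp C (nn C β.1 1) (CD.hx x) = CD.hx (wx (D.rW β.1) x) := by
    intro x
    rw [nn_hx, wx_rW]
  refine ⟨M.E.pt (nn C β.1 (1 : ℂˣ)), (isG_iff M S _).2 ⟨_, rfl⟩, fun x => ?_, fun t => ?_⟩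
  · rw [dat_Dx, dat_Dx, dat_sr, pt_dm C M.E, nn_hx]
  · ext i j
    have h1 : ((dat M S).Tt t * M.E.pt (nn C β.1 (1 : ℂˣ))) i j =
        ((chi ((dat M S).wt i) t : ℂˣ) : ℂ) * M.E.pt (nn C β.1 (1 : ℂˣ)) i j :=
      Matrix.diagonal_mul _ _ _ _
    have h2 : (M.E.pt (nn C β.1 (1 : ℂˣ)) * (dat M S).Tt (MTD.srT (dat M S) β t)) i j =
        M.E.pt (nn C β.1 (1 : ℂˣ)) i j *
          ((chi ((dat M S).wt j) (MTD.srT (dat M S) β t) : ℂˣ) : ℂ) :=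
      Matrix.mul_diagonal _ _ _ _
    rw [h1, h2, MTD.chi_srT]
    by_cases h0 : M.E.pt (nn C β.1 (1 : ℂˣ)) i j = 0
    · rw [h0, mul_zero, zero_mul]
    · have h3 := nw_supp C M.isW hnn i j h0
      have h4 : (dat M S).wt i = (dat M S).sw β ((dat M S).wt j) := by
        refine h3.trans ?_
        show D.rf β.1 (M.wt j) = (dat M S).wt j - ev ((dat M S).cr β) ((dat M S).wt j) • β.1.1
        rw [dat_ev_cr]
        rfl
      rw [h4, mul_comm]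

/-- `iwasawa` (for `C`), `pt_tv`. -/
theorem h_iwa (hG : G.Semi) {K : Type} [Field K] [Algebra ℂ K] (V : ValuationSubring K)
    (hV : ∀ z : ℂ, algebraMap ℂ K z ∈ V) (g : Matrix (Fin M.N) (Fin M.N) K) (hg : (dat M S).IsG g) :
    ∃ k b : Matrix (Fin M.N) (Fin M.N) K, (dat M S).IsG k ∧ (∀ i j, k i j ∈ V) ∧ (dat M S).IsG b ∧
      (∀ i j, j < i → b i j = 0) ∧ g = k * b := by
  obtain ⟨φ, rfl⟩ := (isG_iff M S g).1 hg
  obtain ⟨k, v, t, hk, hv, h⟩ := iwasawa C hG V hV φ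
  refine ⟨M.E.pt k, M.E.pt (tq C t * v), (isG_iff M S _).2 ⟨_, rfl⟩, fun i j => ?_,
    (isG_iff M S _).2 ⟨_, rfl⟩, fun i j hij => ?_, ?_⟩
  · rw [MTF.Rep.pt_apply]
    exact hk _
  · rw [M.pt_tv t hv i j hij.le, if_neg (fun h => (ne_of_lt hij) h.symm)]
  · rw [h, MTF.Rep.pt_mul]

/-! ### row H2d -/

/-- `S.conj`, `pt_dm`, `dat_Y_e`, `dat_Dx` -/
theorem h_px_conj : (dat M S).px * ((dat M S).Y (fun β => MvPolynomial.C ((dat M S).ze β)) +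
    (dat M S).Dx MvPolynomial.X) = (dat M S).sx * (dat M S).px := by
  have h1 : (dat M S).px = M.E.pt S.p := rfl
  have h2 : (dat M S).sx = C.dm M.E S.sv := rfl
  rw [dat_Y_e, dat_Dx, ← C.dm_add, h1, h2, pt_dm C M.E, S.conj]

/-- `dat_sC`, `S.inv` for `u = rW β`, `wx_rW`, `dat_sr` -/
theorem h_sx_refl (β : D.PRt) (x : Fin n → ℂ) :
    (dat M S).sx.map (MvPolynomial.eval ((dat M S).sr β x)) =
      (dat M S).sx.map (MvPolynomial.eval x) := by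
  have h1 := dat_sC M S ((dat M S).sr β x)
  have h2 := dat_sC M S x
  have h3 : S.sx ((dat M S).sr β x) = S.sx x := by
    rw [dat_sr, ← wx_rW]
    funext j
    exact S.inv (D.rW β.1) x j
  rw [h3, ← h2] at h1
  exact h1

/-- `nonss` for `M.C'` and the slice `⟨S.p, S.sv, .., ..⟩` of `M.C'` (`UU_iff`); `dat_Dx`, `dat_e` -/
theorem h_nonss (β : D.PRt) (x : Fin n → ℂ) (h : (dat M S).GenW β x) :
    ¬ ∃ g : Matrix (Fin M.N) (Fin M.N) ℂ, IsUnit g.det ∧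
      g * (dat M S).Dx x = ((dat M S).Dx x + (dat M S).e) * g := by
  rintro ⟨g, hg, hc⟩
  rw [dat_Dx, dat_e, ← C.dm_add, add_comm] at hc
  let S' : SL M.C' := ⟨S.p, S.sv, (M.UU_iff (Or.inr rfl) S.p).2 S.uu, S.conj, S.inv⟩
  exact nonss M.C' S' β.1 β.2 x h.1 (fun γ hγ hne => h.2 ⟨γ, hγ⟩ fun h0 => hne (congrArg Subtype.val h0))
    ⟨g, hg, hc⟩

/-- **The axioms.** -/
theorem ax (hG : G.Semi) : MTXD.Ax (dat M S) where
  mult g hg h i j hw hij := h_mult M S hG g hg h i j hw hij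
  wt_std := M.std
  rt_indep := h_rt_indep M S
  lexpos := h_lexpos M S
  cr_rt := h_cr_rt M S
  cr_sep := h_cr_sep M S
  refl_rt := h_refl_rt M S
  E_supp := h_E_supp M S
  hgt := h_hgt M S
  E_ne := h_E_ne M S
  dep_pos := h_dep_pos M S
  mul g h hg hh := h_mul M S g h hg hh
  det g hg := h_det M S hG g hg
  inv g hg := h_inv M S g hg
  torus t := h_torus M S t
  exp Z := h_exp M S Z
  conj g x Z hg h := h_conj M S hG g x Z hg h
  levi g hg h := h_levi M S hG g hg h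
  cent := h_cent M S hG
  weyl := h_weyl M S
  iwa V hV g hg := h_iwa M S hG V hV g hg
  px_G := (isG_iff M S _).2 ⟨S.p, rfl⟩
  px_conj := h_px_conj M S
  sx_mem x := ⟨x, dat_sC M S x⟩
  sx_surj s hs := by
    obtain ⟨x, rfl⟩ := hs
    exact ⟨x, (dat_sC M S x).symm⟩
  sx_refl := h_sx_refl M S
  nonss := h_nonss M S
  zc β := by
    obtain ⟨z, h1, h2⟩ := zc D β.1
    exact ⟨z, fun γ => h1 γ.1, h2⟩

end Pool.Agent.MTH
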