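import Pool.Agent.MTH.H2
import Pool.Agent.MTG.GQ
import Pool.Agent.MTF.E0

/-! # MTH-H3 -/

namespace Pool.Agent.MTH

open Matrix
open Pool.Agent.MTF Pool.Agent.MTG
open Pool.Agent.MTD (ev)
open Pool.Agent.MP_c45d35_ag (chi)

open Pool.Agent.MTX.SLD (AA)
open RD (KK aK smul_aK)
open Pool.Agent.MTF.KD (mv)

variable {G : AffGrp} {n : ℕ} {D : RD n} {C : CD G D} (M : FM C) (S : SL C)
variable {r : ℕ} (Db : Module.Basis (Fin r) ℂ G.Lie) (cA : Fin r → AA n)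

/-- (row H3) `isG_iff` with the constant point -/
theorem m_mem (x : G.X) : (dat M S).IsG (M.π x) := by
  intro p hp
  exact hp x

/-- (row H3) `isG_iff`, `pt_toX` -/
theorem m_surj (g : Matrix (Fin M.N) (Fin M.N) ℂ) (hg : (dat M S).IsG g) : ∃ x, M.π x = g := by
  obtain ⟨φ, hφ⟩ := (isG_iff M S g).1 hg
  exact ⟨φ.toX, (pt_toX M.E φ).trans hφ⟩

/-- (row H3) `exists_poly` -/
theorem m_gen (f : G.X → ℂ) (hf : f ∈ G.O) :
    ∃ p : MvPolynomial (Fin M.N × Fin M.N) ℂ, ∀ x, f x = mv p (M.π x) := by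
  obtain ⟨p, hp⟩ := exists_poly M.E M.faith ⟨f, hf⟩
  refine ⟨p, fun x => ?_⟩
  have h1 := MvPolynomial.comp_aeval_apply (f := fun ij : M.E.ι × M.E.ι => M.E.co ij.1 ij.2) (a1_ev x) p
  rw [hp] at h1
  exact h1

/-- (row H3) by definition of `eqs` -/
theorem m_full (p : MvPolynomial (Fin M.N × Fin M.N) ℂ) (hp : ∀ x, mv p (M.π x) = 0)
    {R : Type} [CommRing R] [Algebra ℂ R] (g : Matrix (Fin M.N) (Fin M.N) R)
    (hg : (dat M S).IsG g) : mv p g = 0 := by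
  exact hg p hp

/-- (row H3) `dat_sC`, `C.dm_complex`; `dmat` is `Rep.d` -/
theorem m_slice (hs : ∀ x : Fin n → ℂ, ∑ j, MvPolynomial.eval x (cA j) • Db j = ∑ i, S.sx x i • C.bs i)
    (x : Fin n → ℂ) : (dat M S).sC x = MTF.dmat M.ent (∑ j, MvPolynomial.eval x (cA j) • Db j) := by
  rw [hs x, dat_sC, C.dm_complex]
  rfl

/-- a slice point with regular parameter is conjugate to its parameter -/
theorem H3b_conj {x : Fin n → ℂ} (hx : ∀ γ : D.Rt, ev γ.1 x ≠ 0) :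
    ∃ u : G.Pt ℂ, Adp C u (CD.hx x) = S.sx x := by
  obtain ⟨u, -, hu⟩ := exists_U C (Or.inl rfl) (x := x) (fun γ => (hx γ).isUnit)
    (Z := e0 D ℂ) (Sp_mono (by norm_num) (Sp_e0 D ℂ))
  refine ⟨S.pc x * u, ?_⟩
  rw [Adp_mul, hu, add_comm, S.conj_c]

/-- (row H3) `x`, `x'` regular, `Ad φ (sx x) = sx x'` (`pt_dm`, `dm_inj`, `dat_sC`).  `sx x = Ad (pc x) (e + hx x)` (`SL.conj_c`) `= Ad (pc x * u) (hx x)` with `Ad u (hx x) = hx x + e` (`exists_U`, `Sp_e0`, `reg_iff`);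
the same for `x'`; so `hx x` and `hx x'` are conjugate, `x' = wx u x` (`exists_W_of_conj`), `sx x' = sx x` (`S.inv`). -/
theorem m_uni (hG : G.Semi) : MTF.KD.Uni (dat M S) := by
  intro x x' hx hx' g hg hc
  obtain ⟨φ, rfl⟩ := (isG_iff M S g).1 hg
  have hr := (reg_iff M S x).1 hx
  have hr' := (reg_iff M S x').1 hx'
  obtain ⟨u, hu⟩ := H3b_conj S hr
  obtain ⟨u', hu'⟩ := H3b_conj S hr'
  have h1 : C.dm M.E (Adp C φ (S.sx x)) = C.dm M.E (S.sx x') := by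
    have h2 := pt_dm C M.E φ (S.sx x)
    have h3 : M.E.pt φ * C.dm M.E (S.sx x) = C.dm M.E (S.sx x') * M.E.pt φ := by
      rw [dat_sC, dat_sC] at hc
      exact hc
    have h4 : C.dm M.E (Adp C φ (S.sx x)) * M.E.pt φ * M.E.pt φ⁻¹ =
        C.dm M.E (S.sx x') * M.E.pt φ * M.E.pt φ⁻¹ := by rw [← h2, h3]
    rw [Matrix.mul_assoc, Matrix.mul_assoc, MTF.Rep.pt_mul_inv, Matrix.mul_one,
      Matrix.mul_one] at h4
    exact h4
  have h2 : Adp C φ (S.sx x) = S.sx x' := dm_inj C M.E M.faith h1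
  have h3 : Adp C (u'⁻¹ * (φ * u)) (CD.hx x) = CD.hx x' := by
    rw [Adp_mul, Adp_mul, hu, h2, ← hu', ← Adp_mul, inv_mul_cancel, Adp_one]
  obtain ⟨w, hw⟩ := (exists_W_of_conj C hG.dom hr hr' h3).1
  have h4 : S.sx x' = S.sx x := by
    rw [hw]
    funext j
    exact S.inv w x j
  rw [dat_sC, dat_sC, h4]

/-- (row H3) `v = ∑ z j • bs j`.  `M'` with coordinates `Sum.elim 0 (fun γ => - z (inr γ) / ev γ x)`: `[M', hx x] = - [hx x, M']` has the `γ`-coordinate `z (inr γ)` (`br_hx`, `br_neg`, `dm_br`); `x' := z ∘ inl`,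
`Z = 0`. -/
theorem m_tri (x : Fin n → ℂ) (hx : (dat M S).Reg x) (v : G.Lie) :
    ∃ (v' : G.Lie) (x' : Fin n → ℂ) (Z : D.PRt → ℂ),
    MTF.dmat M.ent v = MTF.dmat M.ent v' * (dat M S).Dx x - (dat M S).Dx x * MTF.dmat M.ent v' +
      ((dat M S).Dx x' + (dat M S).Y Z) := by
  have hr := (reg_iff M S x).1 hx
  obtain ⟨z, hz⟩ : ∃ z : LR D ℂ, v = ∑ j, z j • C.bs j :=
    ⟨fun j => C.bs.repr v j, (C.bs.sum_repr v).symm⟩
  obtain ⟨z', hz'⟩ : ∃ z' : LR D ℂ,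
      z' = Sum.elim (fun _ => 0) (fun γ => - z (Sum.inr γ) / ev γ.1 x) := ⟨_, rfl⟩
  refine ⟨∑ j, z' j • C.bs j, fun k => z (Sum.inl k), 0, ?_⟩
  have h1 : MTF.dmat M.ent v = C.dm M.E z := by
    rw [hz]
    exact (C.dm_complex M.E z).symm
  have h2 : MTF.dmat M.ent (∑ j, z' j • C.bs j) = C.dm M.E z' := (C.dm_complex M.E z').symm
  rw [h1, h2, dat_Dx, dat_Dx, dat_Y, ← C.dm_br, ← C.dm_add, ← C.dm_add]
  congr 1
  rw [br_neg C (CD.hx x) z', br_hx]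
  funext j
  rcases j with k | γ
  · show z (Sum.inl k) = -(0 : ℂ) + (z (Sum.inl k) + 0)
    ring
  · show z (Sum.inr γ) = -(ev γ.1 x * z' (Sum.inr γ)) +
      (0 + (yz (0 : D.PRt → ℂ) : LR D ℂ) (Sum.inr γ))
    have h3 : (yz (0 : D.PRt → ℂ) : LR D ℂ) (Sum.inr γ) = 0 := by
      rw [H1c_yz_inr]
      by_cases hp : D.Pos γ
      · rw [dif_pos hp]
        rfl
      · rw [dif_neg hp]
    have h4 : z' (Sum.inr γ) = - z (Sum.inr γ) / ev γ.1 x := by rw [hz']; rfl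
    rw [h3, h4]
    have h5 := hr γ
    field_simp
    ring

/-- The model of the group for part K. -/
noncomputable def model (hG : G.Semi)
    (hs : ∀ x : Fin n → ℂ, ∑ j, MvPolynomial.eval x (cA j) • Db j = ∑ i, S.sx x i • C.bs i)
    (hinv : ∀ p : AA n, (∀ w : D.W, w • p = p) →
      ∃ q : MvPolynomial (Fin r) ℂ, p = MvPolynomial.aeval cA q) :
    MTF.Model (tqd G D Db cA) (dat M S) where
  π := M.π
  ent := M.ent
  fr := IsScalarTower.toAlgHom ℂ (AA n) (KK n)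
  c0 := cA
  ax := ax M S hG
  dom := hG.dom
  mem := m_mem M S
  surj := m_surj M S
  gen := m_gen M
  full p hp R _ _ g hg := m_full M S p hp g hg
  fr_inj := IsFractionRing.injective (AA n) (KK n)
  A_eq a := by
    constructor
    · intro h
      obtain ⟨t, ht⟩ := mem_AK.1 h
      exact ⟨t, ht.symm⟩
    · rintro ⟨t, rfl⟩
      exact aK_mem t
  c_eq j := rfl
  slice x := m_slice M S Db cA hs x
  inv p hp := hinv p fun w => by
    have h1 := hp w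
    have h2 : w • (aK p : KK n) = aK p := h1
    rw [smul_aK] at h2
    exact IsFractionRing.injective (AA n) (KK n) h2
  uni := m_uni M S hG
  tri := m_tri M S

end Pool.Agent.MTH
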