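import Pool.Agent.MTH.H2
import Pool.Agent.MTXR.A
import Pool.Agent.MTG.YH1b

/-! # MTH-I1 -/

namespace Pool.Agent.MTH

open Matrix
open Pool.Agent.MTF Pool.Agent.MTG
open Pool.Agent.MTD (ev)
open Pool.Agent.MP_c45d35_ag (chi)

open Pool.Agent.MTX.SLD (AA fm0)
open RD (KK aK)

variable {G : AffGrp} {n : ℕ} {D : RD n} {C : CD G D} (M : FM C) (S : SL C)

/-- the columns of the matrix model that correspond to the roots with positive pairing with `p` -/
noncomputable def colS (p : Fin n → ℤ) : Finset (Fin M.N) := (nil D p).image fun γ => M.J (Sum.inr γ)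

/-- the columns in increasing order -/
noncomputable def colJ (p : Fin n → ℤ) : Fin (colS M p).card → Fin M.N := (colS M p).orderEmbOfFin rfl

/-- the generators: one for each simple root, `p` the coweights -/
noncomputable def gens (p : D.SRt → Fin n → ℤ) : MTD.Gens M.N D.SRt := ⟨fun α => (colS M (p α)).card, fun α => colJ M (p α)⟩

theorem mem_colS {p : Fin n → ℤ} {i : Fin M.N} :
    i ∈ colS M p ↔ ∃ γ : D.Rt, 0 < D.B p γ.1 ∧ M.J (Sum.inr γ) = i := by
  unfold colS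
  rw [Finset.mem_image]
  exact ⟨fun ⟨γ, h1, h2⟩ => ⟨γ, (G2c_mem D).1 h1, h2⟩, fun ⟨γ, h1, h2⟩ => ⟨γ, (G2c_mem D).2 h1, h2⟩⟩

theorem colJ_mono (p : Fin n → ℤ) : StrictMono (colJ M p) := ((colS M p).orderEmbOfFin rfl).strictMono

theorem colJ_mem {p : Fin n → ℤ} (j) : colJ M p j ∈ colS M p := (colS M p).orderEmbOfFin_mem rfl j

theorem exists_colJ {p : Fin n → ℤ} {i : Fin M.N} (h : i ∈ colS M p) : ∃ j, colJ M p j = i := by
  have h1 := Finset.range_orderEmbOfFin (colS M p) rfl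
  have h2 : i ∈ Set.range ((colS M p).orderEmbOfFin rfl) := by rw [h1]; exact h
  exact h2

theorem I1a_sum {X : Type} [AddCommMonoid X] (p : Fin n → ℤ) (f : Fin M.N → X) :
    ∑ j, f (colJ M p j) = ∑ i ∈ colS M p, f i := by
  have h1 : ∑ i ∈ colS M p, f i =
      ∑ i ∈ Finset.map ((colS M p).orderEmbOfFin rfl).toEmbedding Finset.univ, f i := by
    rw [Finset.map_orderEmbOfFin_univ]
  rw [h1, Finset.sum_map]
  rfl

/-- (row I1a) `M.J_wt`, `M.J_inj`; the values of `colJ` are the elements of `colS`, once each -/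
theorem colJ_wt (p : Fin n → ℤ) : ∑ j, M.wt (colJ M p j) = ∑ γ ∈ nil D p, γ.1 := by
  classical
  rw [I1a_sum M p (fun i => M.wt i)]
  unfold colS
  rw [Finset.sum_image]
  · refine Finset.sum_congr rfl fun γ _ => ?_
    rw [M.J_wt]
    rfl
  · intro a _ b _ hab
    exact Sum.inr_injective (M.J_inj hab)

/-- `A` maps the span of the columns `colS` into itself -/
def Pres (p : Fin n → ℤ) {R : Type} [CommRing R] (A : Matrix (Fin M.N) (Fin M.N) R) : Prop :=
  ∀ i j, j ∈ colS M p → A i j ≠ 0 → i ∈ colS M p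

theorem I1a_sub {p : Fin n → ℤ} {R : Type} [CommRing R] {A : Matrix (Fin M.N) (Fin M.N) R} (hA : Pres M p A)
    (g : Matrix (Fin M.N) (Fin M.N) R) (I : Fin (colS M p).card → Fin M.N) :
    (g * A).submatrix I (colJ M p) =
      g.submatrix I (colJ M p) * A.submatrix (colJ M p) (colJ M p) := by
  classical
  ext i j
  rw [Matrix.submatrix_apply, Matrix.mul_apply, Matrix.mul_apply]
  show ∑ k, g (I i) k * A k (colJ M p j) = ∑ k, g (I i) (colJ M p k) * A (colJ M p k) (colJ M p j)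
  rw [I1a_sum M p (fun k => g (I i) k * A k (colJ M p j))]
  refine (Finset.sum_subset (Finset.subset_univ _) fun k _ hk => ?_).symm
  have h1 : A k (colJ M p j) = 0 := by
    by_contra h2
    exact hk (hA k _ (colJ_mem M j) h2)
  rw [h1, mul_zero]

/-- (row I1a) `(g A)_{I,J} = g_{I,J} A_{J,J}` -/
theorem minor_mul {p : Fin n → ℤ} {R : Type} [CommRing R] {A : Matrix (Fin M.N) (Fin M.N) R} (hA : Pres M p A)
    (g : Matrix (Fin M.N) (Fin M.N) R) (I : Fin (colS M p).card → Fin M.N) :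
    ((g * A).submatrix I (colJ M p)).det =
      (g.submatrix I (colJ M p)).det * (A.submatrix (colJ M p) (colJ M p)).det := by
  rw [I1a_sub M hA, Matrix.det_mul]

theorem submatrix_mul {p : Fin n → ℤ} {R : Type} [CommRing R] {A : Matrix (Fin M.N) (Fin M.N) R} (hA : Pres M p A)
    (g : Matrix (Fin M.N) (Fin M.N) R) (I : Fin (colS M p).card → Fin M.N) :
    (g * A).submatrix I (colJ M p) =
      g.submatrix I (colJ M p) * A.submatrix (colJ M p) (colJ M p) := I1a_sub M hA g I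

/-- (row I1a) triangular matrices: `Matrix.det_of_upperTriangular`, `colJ_mono` -/
theorem det_colJ {p : Fin n → ℤ} {R : Type} [CommRing R] {A : Matrix (Fin M.N) (Fin M.N) R}
    (hA : (∀ i j, j < i → A i j = 0) ∨ ∀ i j, i < j → A i j = 0) :
    (A.submatrix (colJ M p) (colJ M p)).det = ∏ j, A (colJ M p j) (colJ M p j) := by
  rcases hA with hA | hA
  · exact Matrix.det_of_isUpperTriangular fun i j hij => hA _ _ (colJ_mono M p hij)
  · exact Matrix.det_of_isLowerTriangular _ fun i j hij =>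
      hA _ _ (colJ_mono M p (OrderDual.toDual_lt_toDual.1 hij))

section
variable {R : Type} [CommRing R] [Algebra ℂ R]

/-- (row I1a) the entries of a point in the block `J` and next to it: `M.blk`, `M.blk0` say this for the points of `G`; the entries of `M.E.pt φ` are `φ` of the matrix coefficients, which are equal (`AffGrp.O_ext`) -/
theorem pt_blk (φ : G.Pt R) (a b : Fin n ⊕ D.Rt) : M.E.pt φ (M.J a) (M.J b) = (AdR C).pt φ a b := by
  have h : M.E.co (M.J a) (M.J b) = (AdR C).co a b := AffGrp.O_ext fun x => M.blk x a b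
  exact congrArg φ h

theorem pt_blk0 (φ : G.Pt R) (i : Fin M.N) (b : Fin n ⊕ D.Rt) (h : i ∉ Set.range M.J) :
    M.E.pt φ i (M.J b) = 0 := by
  have h1 : M.E.co i (M.J b) = 0 := AffGrp.O_ext fun x => M.blk0 x i b h
  exact (congrArg φ h1).trans (map_zero φ)

/-- (row I1a) `pt_blk`, `pt_blk0`: `0 < B p γ ≤ B p (wA a)` implies that `a` is a root (`wA (inl k) = 0`) in `nil p` -/
theorem pres_pt {p : Fin n → ℤ} (φ : G.Pt R)
    (h : ∀ (a : Fin n ⊕ D.Rt) (γ : D.Rt), (AdR C).pt φ a (Sum.inr γ) ≠ 0 → D.B p γ.1 ≤ D.B p (wA a)) :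
    Pres M p (M.E.pt φ) := by
  intro i j hj hij
  obtain ⟨γ, h1, rfl⟩ := (mem_colS M).1 hj
  by_cases hi : i ∈ Set.range M.J
  · obtain ⟨a, rfl⟩ := hi
    rw [pt_blk] at hij
    have h2 := h a γ hij
    rcases a with k | δ
    · exfalso
      have h3 : D.B p (wA (D := D) (Sum.inl k)) = 0 := by
        have h4 := D.B_smul_right 0 p 0
        rw [zero_smul, zero_mul] at h4
        exact h4
      omega
    · exact (mem_colS M).2 ⟨δ, lt_of_lt_of_le h1 h2, rfl⟩
  · exact absurd (pt_blk0 M φ i _ hi) hij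

/-- auxiliary (row I1b) -/
theorem mthI1b_B {p : Fin n → ℤ} (hp : ∀ δ : D.SRt, 0 ≤ D.B p δ.1.1) (c : D.SRt → ℕ) :
    0 ≤ D.B p (∑ α, c α • α.1.1) := by
  have h3 : ∀ s : Finset D.SRt, 0 ≤ D.B p (∑ α ∈ s, c α • α.1.1) := by
    classical
    intro s
    induction s using Finset.induction_on with
    | empty =>
      rw [Finset.sum_empty, D.B_comm, D.B_zero_left]
    | insert a s ha ih =>
      rw [Finset.sum_insert ha, D.B_add_right, ← natCast_zsmul, D.B_smul_right]
      have := mul_nonneg (Int.natCast_nonneg (c a)) (hp a)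
      omega
  exact h3 Finset.univ

/-- (row I1b) `UU_supp` (MTG/YH1b) for `AdR C`, `isW_AdR`: `wA a - γ` is a nonnegative combination of simple roots (`Qp`), on which `B p` is `≥ 0` -/
theorem pres_up {p : Fin n → ℤ} (hp : ∀ δ : D.SRt, 0 ≤ D.B p δ.1.1) {φ : G.Pt R} (hφ : UU C 1 φ) :
    Pres M p (M.E.pt φ) := by
  refine pres_pt M φ fun a γ h => ?_
  obtain ⟨c, hc⟩ := UU_supp C (Or.inl rfl) hφ (isW_AdR C) h
  rw [one_smul] at hc
  have h1 := mthI1b_B (D := D) hp c
  rw [← hc, D.B_sub_right] at h1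
  have h2 : D.B p (wA (Sum.inr γ)) = D.B p γ.1 := rfl
  rw [h2] at h1
  omega

/-- (row I1b) the same for an upper triangular point: `M.borel`, `M.pt_tq`: the support of `diagonal * A` is contained in that of `A` -/
theorem pres_bo (hG : IsDomain G.O) {p : Fin n → ℤ} (hp : ∀ δ : D.SRt, 0 ≤ D.B p δ.1.1) {φ : G.Pt R}
    (h : ∀ i j : Fin M.N, j < i → M.E.pt φ i j = 0) : Pres M p (M.E.pt φ) := by
  obtain ⟨v, t, hv, rfl⟩ := M.borel hG φ h
  intro i j hj hij
  refine pres_up M hp hv i j hj fun h0 => hij ?_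
  rw [Rep.pt_mul, M.pt_tq, Matrix.diagonal_mul, h0, mul_zero]

/-- auxiliary (row I1b) -/
theorem mthI1b_Sp (δ : D.SRt) (r : R) : Sp (-1) 1 (rv (D.ng δ.1) r) := by
  refine ⟨fun k hk => absurd (E1a_rv_inl (D.ng δ.1) r k) hk, fun γ hγ => ?_⟩
  have : γ = D.ng δ.1 := by
    by_contra h
    exact hγ (E1a_rv_ne h r)
  rw [this]
  have h3 := D.ht2_smul (-1) δ.1.1
  rw [neg_one_smul] at h3
  rw [D.ng_val, h3, D.ht2_sim]
  norm_num

/-- auxiliary (row I1b) -/
theorem mthI1b_pow (δ : D.SRt) (r : R) (k : ℕ) : ∀ a b : Fin n ⊕ D.Rt,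
    ((C.dm (AdR C) (rv (D.ng δ.1) r)) ^ k) a b ≠ 0 → wA a = wA (D := D) b - (k : ℤ) • δ.1.1 := by
  induction k with
  | zero =>
    intro a b h
    rw [pow_zero] at h
    have h1 : a = b := by
      by_contra hab
      exact h (Matrix.one_apply_ne hab)
    rw [h1, Nat.cast_zero, zero_smul, sub_zero]
  | succ k ih =>
    intro a b h
    rw [pow_succ'] at h
    have h0 : (C.dm (AdR C) (rv (D.ng δ.1) r) * (C.dm (AdR C) (rv (D.ng δ.1) r)) ^ k) a b =
      ∑ c, C.dm (AdR C) (rv (D.ng δ.1) r) a c * ((C.dm (AdR C) (rv (D.ng δ.1) r)) ^ k) c b := rfl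
    rw [h0] at h
    obtain ⟨c, -, hc⟩ := Finset.exists_ne_zero_of_sum_ne_zero h
    have h1 := ih c b (right_ne_zero_of_mul hc)
    have h2 := left_ne_zero_of_mul hc
    rw [CD.dm_apply] at h2
    obtain ⟨j, -, hj⟩ := Finset.exists_ne_zero_of_sum_ne_zero h2
    have h3 : j = Sum.inr (D.ng δ.1) := by
      by_contra hne
      apply left_ne_zero_of_mul hj
      exact Pi.single_eq_of_ne hne _
    subst h3
    have h4 : (AdR C).d (C.e (D.ng δ.1)) a c ≠ 0 := by
      intro h5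
      apply right_ne_zero_of_mul hj
      have h6 : (AdR C).d (C.bs (Sum.inr (D.ng δ.1))) a c = 0 := h5
      rw [h6, map_zero]
    have h5 : wA a = wA c + (D.ng δ.1).1 := CD.IsW.d_e (isW_AdR C) (D.ng δ.1) a c h4
    rw [h5, h1, D.ng_val]
    push_cast
    rw [add_smul, one_smul]
    abel

/-- (row I1b) The exponential of a multiple of the negative simple root vector `-δ`, `B p δ = 0`: `ex_pt` for `AdR C` (`isW_AdR`, `IsW.d_e`): an entry `(a, b)` of the `k`-th power of `dm (AdR C) (rv (ng δ) r)` is nonzero only if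
`wA a - wA b = - k • δ` (induction on `k`); `pres_pt`. -/
theorem pres_neg {p : Fin n → ℤ} (δ : D.SRt) (hp : D.B p δ.1.1 = 0) (r : R) :
    Pres M p (M.E.pt (ex C (rv (D.ng δ.1) r))) := by
  have hz : Sp (-1) 1 (rv (D.ng δ.1) r) := mthI1b_Sp δ r
  refine pres_pt M _ fun a γ h => ?_
  rw [ex_pt C hz] at h
  unfold mexp at h
  rw [Matrix.sum_apply] at h
  obtain ⟨k, -, hk⟩ := Finset.exists_ne_zero_of_sum_ne_zero h
  have h1 : ((C.dm (AdR C) (rv (D.ng δ.1) r)) ^ k) a (Sum.inr γ) ≠ 0 := by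
    intro h0
    apply hk
    rw [Matrix.smul_apply, h0, smul_zero]
  have h2 := mthI1b_pow (C := C) δ r k a (Sum.inr γ) h1
  have h3 : D.B p (wA a) = D.B p γ.1 := by
    have h4 : D.B p (wA (D := D) (Sum.inr γ)) = D.B p γ.1 := rfl
    rw [h2, D.B_sub_right, D.B_smul_right, hp, mul_zero, sub_zero, h4]
  exact h3.ge

/-- (row I1b) lower triangular with ones on the diagonal (`ex_UU`, `FM.pt_UU'`, `M.sorted`, `UU_uni`) -/
theorem det_neg {p : Fin n → ℤ} (δ : D.SRt) (r : R) :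
    ((M.E.pt (ex C (rv (D.ng δ.1) r))).submatrix (colJ M p) (colJ M p)).det = 1 := by
  have hz : Sp (-1) 1 (rv (D.ng δ.1) r) := mthI1b_Sp δ r
  have h1 := UU_uni C (Or.inr rfl) (UU_ex C hz) M.isW
  have h2 : ∀ i j : Fin M.N, i ≤ j → M.E.pt (ex C (rv (D.ng δ.1) r)) i j = if i = j then 1 else 0 := by
    intro i j hij
    have h3 : (M.E.pt (ex C (rv (D.ng δ.1) r)) - 1) i j = 0 := by
      by_contra hne
      have h4 := h1 i j hne
      have h5 := M.sorted i j hij
      omega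
    rw [Matrix.sub_apply, sub_eq_zero] at h3
    rw [h3, Matrix.one_apply]
  rw [det_colJ M (Or.inr fun i j hij => by rw [h2 i j hij.le, if_neg hij.ne])]
  refine Finset.prod_eq_one fun j _ => ?_
  rw [h2 _ _ le_rfl, if_pos rfl]

end

/-- (I1c) -/
theorem I1c_d0 (y : G.Lie) (i : Fin M.N) (b : Fin n ⊕ D.Rt) (h : i ∉ Set.range M.J) :
    M.E.d y i (M.J b) = 0 := by
  have h0 : M.E.co i (M.J b) = 0 := by
    apply AffGrp.O_ext
    intro x
    exact M.blk0 x i b h
  have h1 : M.E.d y i (M.J b) = y.1 (M.E.co i (M.J b)) := rfl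
  rw [h1, h0, map_zero]

/-- (I1c) -/
theorem I1c_e0 {R : Type} [CommRing R] [Algebra ℂ R] (i j : Fin M.N) (h : C.dm M.E (e0 D R) i j ≠ 0) :
    ∃ δ : D.SRt, M.E.d (C.e δ.1) i j ≠ 0 := by
  by_contra hcon
  have hcon' : ∀ δ : D.SRt, M.E.d (C.e δ.1) i j = 0 := by
    intro δ
    by_contra h1
    exact hcon ⟨δ, h1⟩
  apply h
  rw [CD.dm_apply, Fintype.sum_sum_type]
  have h1 : ∑ k, e0 D R (Sum.inl k) * algebraMap ℂ R (M.E.d (C.bs (Sum.inl k)) i j) = 0 :=
    Finset.sum_eq_zero fun k _ => by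
      have h2 : e0 D R (Sum.inl k) = 0 := rfl
      rw [h2, zero_mul]
  have h2 : ∑ γ, e0 D R (Sum.inr γ) * algebraMap ℂ R (M.E.d (C.bs (Sum.inr γ)) i j) = 0 :=
    Finset.sum_eq_zero fun γ _ => by
      by_cases hγ : D.Sim γ
      · have h3 : M.E.d (C.bs (Sum.inr γ)) i j = 0 := hcon' ⟨γ, hγ⟩
        rw [h3, map_zero, mul_zero]
      · have h3 : e0 D R (Sum.inr γ) = 0 := if_neg hγ
        rw [h3, zero_mul]
  rw [h1, h2, add_zero]

/-- (I1c) -/
theorem I1c_dom (μ : Fin n → ℤ) : (dat M S).Dom μ ↔ D.Dom μ := by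
  constructor
  · intro h γ hγ
    have h1 := h (⟨γ, hγ⟩ : D.PRt)
    rw [dat_ev_cr] at h1
    exact h1
  · intro h β
    rw [dat_ev_cr]
    exact h β.1 β.2

/-- (row I1c) The matrix `e + x`: `Pres` from `IsW.d_e` for the root vectors (`M.isW`) and the block structure; entries of `dm M.E` of root vectors in the columns `J`: they are the entries in the block (differentiate
`pt_blk`, `pt_blk0`, or use `M.blk`, `M.blk0` for the point derivation: `E.d y i j = y (co i j)`, and `co i (J b) = 0` for `i` outside the block). -/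
theorem pres_e {p : Fin n → ℤ} (hp : ∀ δ : D.SRt, 0 ≤ D.B p δ.1.1) {R : Type} [CommRing R] [Algebra ℂ R] (x : Fin n → R) :
    Pres M p (C.dm M.E (e0 D R + CD.hx x)) := by
  intro i j hj hne
  obtain ⟨γ, hγ, rfl⟩ := (mem_colS M).1 hj
  rw [CD.dm_add, Matrix.add_apply] at hne
  by_cases h1 : C.dm M.E (e0 D R) i (M.J (Sum.inr γ)) = 0
  · rw [h1, zero_add, M.isW.dm_hx, Matrix.diagonal_apply] at hne
    by_cases h2 : i = M.J (Sum.inr γ)
    · rw [h2]
      exact hj
    · rw [if_neg h2] at hne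
      exact absurd rfl hne
  · obtain ⟨δ, hδ⟩ := I1c_e0 M i _ h1
    have h3 : i ∈ Set.range M.J := by
      by_contra h4
      exact hδ (I1c_d0 M _ i _ h4)
    obtain ⟨a, rfl⟩ := h3
    have h4 := M.isW.d_e δ.1 _ _ hδ
    rw [M.J_wt, M.J_wt] at h4
    have h7 := hp δ
    rcases a with k | γ'
    · exfalso
      have h5 : (0 : Fin n → ℤ) = γ.1 + δ.1.1 := h4
      have h6 := congrArg (D.B p) h5
      rw [D.B_zero_right, D.B_add_right] at h6
      omega
    · rw [mem_colS]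
      refine ⟨γ', ?_, rfl⟩
      have h5 : γ'.1 = γ.1 + δ.1.1 := h4
      rw [h5, D.B_add_right]
      omega

/-- (row I1c) it is upper triangular with the weights on the diagonal, so the trace of the minor is the sum of the weights -/
theorem tr_e {p : Fin n → ℤ} {R : Type} [CommRing R] [Algebra ℂ R] (x : Fin n → R) :
    ((C.dm M.E (e0 D R + CD.hx x)).submatrix (colJ M p) (colJ M p)).trace = ev (∑ γ ∈ nil D p, γ.1) x := by
  have h1 : ∀ j, (C.dm M.E (e0 D R + CD.hx x)) (colJ M p j) (colJ M p j) = ev (M.wt (colJ M p j)) x := by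
    intro j
    rw [CD.dm_add, Matrix.add_apply, M.isW.dm_hx, Matrix.diagonal_apply_eq]
    have h2 : C.dm M.E (e0 D R) (colJ M p j) (colJ M p j) = 0 := by
      by_contra h3
      obtain ⟨δ, hδ⟩ := I1c_e0 M _ _ h3
      have h4 := M.isW.d_e δ.1 _ _ hδ
      exact D.Rt_ne δ.1 (left_eq_add.1 h4)
    rw [h2, zero_add]
  calc ((C.dm M.E (e0 D R + CD.hx x)).submatrix (colJ M p) (colJ M p)).trace
      = ∑ j, ev (M.wt (colJ M p j)) x := Finset.sum_congr rfl fun j _ => h1 j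
    _ = ev (∑ j, M.wt (colJ M p j)) x := (MTD.ev_sum_left _ _ _).symm
    _ = ev (∑ γ ∈ nil D p, γ.1) x := by rw [colJ_wt]

/-- (row I1c) The conditions on the generators: `colJ` is injective; `minor`: `isG_iff`, `pres_bo`, `minor_mul`, `det_colJ`; `lam = ∑ γ ∈ nil (p α), γ` (`colJ_wt`); `dom`: `nil_sum`, `D.dom_iff`, `dat_ev_cr`; `lpos`: `nil_pos`, a sum of
positive roots (`Pos γ` is `0 < toLex γ`); `cone`: the theorem `cone` (G2). -/
theorem gax (hG : IsDomain G.O) (p : D.SRt → Fin n → ℤ) (d : D.SRt → ℤ) (hd : ∀ α, 0 < d α)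
    (h1 : ∀ α, D.B (p α) α.1.1 = d α) (h2 : ∀ α δ : D.SRt, δ ≠ α → D.B (p α) δ.1.1 = 0) :
    MTXR.GAxR (dat M S) (gens M p) := by
  have hlam : ∀ α : D.SRt, (gens M p).lam (dat M S) α = ∑ γ ∈ nil D (p α), γ.1 := fun α =>
    colJ_wt M (p α)
  have hp : ∀ α δ : D.SRt, 0 ≤ D.B (p α) δ.1.1 := by
    intro α δ
    by_cases h : δ = α
    · rw [h, h1 α]
      exact (hd α).le
    · rw [h2 α δ h]
  have hdom : ∀ α : D.SRt, D.Dom (∑ γ ∈ nil D (p α), γ.1) := by
    intro α
    rw [D.dom_iff]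
    intro δ
    obtain ⟨h3, h4⟩ := nil_sum D α (hd α) (h1 α) (h2 α)
    by_cases h : δ = α
    · rw [h]
      exact h3.le
    · rw [h4 δ h]
  refine ⟨fun α => (colJ_mono M (p α)).injective, ?_, ?_, ?_, ?_⟩
  · intro α K _ _ g b hb hup I
    obtain ⟨φ, rfl⟩ := (isG_iff M S b).1 hb
    have h3 := pres_bo M hG (hp α) hup
    have h4 := minor_mul M h3 g I
    rw [det_colJ M (Or.inl hup)] at h4
    exact h4
  · intro α
    rw [hlam, I1c_dom]
    exact hdom α
  · intro α
    rw [hlam]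
    exact dom_lex D (hdom α)
  · obtain ⟨m, hm, h3⟩ := cone D p d hd h1 h2
    refine ⟨m, hm, fun μ hμ => ?_⟩
    obtain ⟨c, hc⟩ := h3 μ ((I1c_dom M S μ).1 hμ)
    refine ⟨c, ?_⟩
    rw [hc]
    exact Finset.sum_congr rfl fun α _ => by rw [hlam]

end Pool.Agent.MTH
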