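import Pool.Agent.MTH.I1
import Pool.Agent.MTH.H3

/-! # MTH-I2 -/

namespace Pool.Agent.MTH

open Matrix
open Pool.Agent.MTF Pool.Agent.MTG
open Pool.Agent.MTD (ev)
open Pool.Agent.MP_c45d35_ag (chi)

open Pool.Agent.MTX.SLD (AA fm0)
open RD (KK aK)
open Pool.Agent.MTF.AffGrp (inc pu)

theorem I2a_prod {k R ι : Type} [CommRing k] [CommRing R] [Algebra k R] [DecidableEq ι] (δ : R →ₗ[k] R)
    (hδ : ∀ a b, δ (a * b) = a * δ b + b * δ a) (s : Finset ι) (f : ι → R) :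
    δ (∏ j ∈ s, f j) = ∑ i ∈ s, ∏ j ∈ s, if j = i then δ (f j) else f j := by
  induction s using Finset.induction_on with
  | empty =>
    rw [Finset.prod_empty, Finset.sum_empty]
    have h := hδ 1 1
    rw [mul_one, one_mul] at h
    exact left_eq_add.1 h
  | insert a s ha ih =>
    rw [Finset.prod_insert ha, hδ, ih, Finset.sum_insert ha, Finset.prod_insert ha, if_pos rfl,
      add_comm, Finset.mul_sum]
    congr 1
    · rw [mul_comm]
      congr 1
      refine Finset.prod_congr rfl fun j hj => ?_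
      rw [if_neg]
      rintro rfl
      exact ha hj
    · refine Finset.sum_congr rfl fun i hi => ?_
      rw [Finset.prod_insert ha, if_neg]
      rintro rfl
      exact ha hi

/-- (row I2a) Derivative of a determinant.  `δ` a derivation of a commutative ring, `δ A = A B` entrywise; then `δ (det A) = tr B * det A`.
PROOF. `δ (det A) = ∑ i, det (A with row i replaced by δ (row i))`..: `Matrix.det_apply`, Leibniz rule; `= ∑ i j, adjugate A j i * δ (A i j) = tr (adjugate A * (A * B)) = det A * tr B` (`Matrix.adjugate_mul`).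
Alternatively (Laplace/`Matrix.derivative_det_one_add_X_smul`) with the homomorphism `a ↦ a + δ a ε` to `DualNumber R`: `det (A + ε A B) = det A * det (1 + ε B)`. -/
theorem deriv_det {k R : Type} [CommRing k] [CommRing R] [Algebra k R] (δ : R →ₗ[k] R)
    (hδ : ∀ a b, δ (a * b) = a * δ b + b * δ a) {m : ℕ} (A B : Matrix (Fin m) (Fin m) R)
    (h : ∀ i j, δ (A i j) = (A * B) i j) : δ A.det = B.trace * A.det := by
  classical
  have h1 : δ A.det = ∑ i, (A.updateCol i fun l => δ (A l i)).det := by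
    rw [Matrix.det_apply, map_sum]
    have h2 : ∀ i, (A.updateCol i fun l => δ (A l i)).det = ∑ σ : Equiv.Perm (Fin m),
        Equiv.Perm.sign σ • ∏ j, if j = i then δ (A (σ j) j) else A (σ j) j := by
      intro i
      rw [Matrix.det_apply]
      refine Finset.sum_congr rfl fun σ _ => ?_
      congr 1
      refine Finset.prod_congr rfl fun j _ => ?_
      rw [Matrix.updateCol_apply]
      split_ifs with hj
      · rw [hj]
      · rfl
    simp only [h2]
    rw [Finset.sum_comm]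
    refine Finset.sum_congr rfl fun σ _ => ?_
    rw [← Finset.smul_sum, ← I2a_prod δ hδ Finset.univ (fun j => A (σ j) j)]
    rcases Int.units_eq_one_or (Equiv.Perm.sign σ) with h3 | h3
    · rw [h3, one_smul, one_smul]
    · rw [h3, Units.neg_smul, one_smul, Units.neg_smul, one_smul, map_neg]
  have h2 : ∀ i, (A.updateCol i fun l => δ (A l i)).det = A.det * B i i := by
    intro i
    rw [← Matrix.cramer_apply]
    have h3 : (fun l => δ (A l i)) = A.mulVec (fun q => B q i) := by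
      funext l
      rw [h]
      rfl
    rw [h3, Matrix.cramer_eq_adjugate_mulVec, Matrix.mulVec_mulVec, Matrix.adjugate_mul,
      Matrix.smul_mulVec, Matrix.one_mulVec]
    rfl
  rw [h1, Finset.sum_congr rfl fun i _ => h2 i, ← Finset.mul_sum, mul_comm]
  rfl

variable {G : AffGrp} {n : ℕ} {D : RD n} {C : CD G D} (M : FM C) (S : SL C)
variable {r : ℕ} (Db : Module.Basis (Fin r) ℂ G.Lie) (cA : Fin r → AA n)

/-- the matrix of the coordinate functions of the group -/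
noncomputable def PiK : Matrix (Fin M.N) (Fin M.N) (G.KO (KK n)) := fun i j => inc (KK n) (M.E.co i j)

/-- a matrix over the polynomial functions as a constant matrix -/
noncomputable def cK {N : ℕ} (A : Matrix (Fin N) (Fin N) (AA n)) : Matrix (Fin N) (Fin N) (G.KO (KK n)) :=
  A.map fun q => algebraMap (KK n) (G.KO (KK n)) (aK q)

/-- the eigenfunctions: minors of `π(x) p` in the columns `J` -/
noncomputable def fJ (p : Fin n → ℤ) (I : Fin (colS M p).card → Fin M.N) : G.KO (KK n) :=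
  ((PiK M * cK (G := G) (M.E.pt S.p)).submatrix I (colJ M p)).det

/-- the value of `fJ` -/
noncomputable def fJv (p : Fin n → ℤ) (I : Fin (colS M p).card → Fin M.N) (x : G.X) : AA n :=
  (((M.π x).map MvPolynomial.C * M.E.pt S.p).submatrix I (colJ M p)).det

/-- evaluation at a point of the group -/
noncomputable def I2a_ev (G : AffGrp) (n : ℕ) (x : G.X) : G.KO (KK n) →+* KK n :=
  (Pi.evalRingHom (fun _ : G.X => KK n) x).comp (G.KO (KK n)).val.toRingHom

/-- (row I2a) -/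
theorem fJ_apply (p : Fin n → ℤ) (I) (x : G.X) : (fJ M S p I).1 x = aK (fJv M S p I x) := by
  have h1 : (fJ M S p I).1 x = I2a_ev G n x (fJ M S p I) := rfl
  rw [h1]
  unfold fJ fJv
  rw [RingHom.map_det, RingHom.map_det]
  congr 1
  ext i j
  rw [RingHom.mapMatrix_apply, RingHom.mapMatrix_apply, Matrix.map_apply, Matrix.map_apply,
    Matrix.submatrix_apply, Matrix.submatrix_apply, Matrix.mul_apply, Matrix.mul_apply, map_sum,
    map_sum]
  refine Finset.sum_congr rfl fun q _ => ?_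
  rw [map_mul, map_mul]
  congr 1

/-- (row I2a) evaluation at `y`: a ring homomorphism applied to the determinant; `M.E.pt S.p` is `(dat M S).px`, `(dat M S).pC y` its evaluation -/
theorem eval_fJv (p : Fin n → ℤ) (I) (x : G.X) (y : Fin n → ℂ) :
    MvPolynomial.eval y (fJv M S p I x) = ((M.π x * (dat M S).pC y).submatrix I (colJ M p)).det := by
  unfold fJv
  rw [RingHom.map_det]
  congr 1
  ext i j
  rw [RingHom.mapMatrix_apply, Matrix.map_apply,
    Matrix.submatrix_apply, Matrix.submatrix_apply, Matrix.mul_apply, Matrix.mul_apply, map_sum]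
  refine Finset.sum_congr rfl fun q _ => ?_
  rw [map_mul, Matrix.map_apply, MvPolynomial.eval_C]
  rfl

theorem pC_eq (y : Fin n → ℂ) : (dat M S).pC y = M.E.pt (S.pc y) := by
  ext i j
  show MvPolynomial.eval y (S.p (M.E.co i j)) = MvPolynomial.aeval y (S.p (M.E.co i j))
  rw [MvPolynomial.aeval_eq_eval]

theorem I2b_O_sum {κ : Type} (s : Finset κ) (F : κ → G.O) (x : G.X) :
    (∑ i ∈ s, F i).1 x = ∑ i ∈ s, (F i).1 x := by
  classical
  induction s using Finset.induction_on with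
  | empty => rfl
  | insert a s ha ih =>
    rw [Finset.sum_insert ha, Finset.sum_insert ha, ← ih]
    rfl

theorem I2b_inc_sum {K : Type} [Field K] [Algebra ℂ K] {κ : Type} (s : Finset κ) (t : κ → ℂ)
    (f : κ → G.O) : inc K (∑ c ∈ s, t c • f c) = ∑ c ∈ s, algebraMap ℂ K (t c) • inc K (f c) := by
  apply AffGrp.KO_ext
  intro x
  rw [AffGrp.inc_apply, I2b_O_sum, map_sum, AffGrp.KO_sum]
  refine Finset.sum_congr rfl fun c _ => ?_
  rw [AffGrp.KO_smul, AffGrp.inc_apply, ← map_mul]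
  rfl

theorem I2b_der_co (E : MTF.Rep G) (v : G.Lie) (a b : E.ι) :
    G.der v (E.co a b) = ∑ c, v.1 (E.co c b) • E.co a c := by
  apply Subtype.ext
  funext x
  rw [I2b_O_sum]
  have h1 : G.lt x (E.co a b) = ∑ c, E.ρ x a c • E.co c b := by
    apply Subtype.ext
    funext y
    rw [I2b_O_sum]
    show E.ρ (x * y) a b = _
    rw [map_mul, Matrix.mul_apply]
    rfl
  show v.1 (G.lt x (E.co a b)) = _
  rw [h1, map_sum]
  refine Finset.sum_congr rfl fun c _ => ?_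
  rw [map_smul]
  show E.ρ x a c * v.1 (E.co c b) = v.1 (E.co c b) * E.ρ x a c
  rw [mul_comm]

theorem I2b_s1_co (E : MTF.Rep G) (a b : E.ι) :
    (tqd G D Db cA).s1 (inc (KK n) (E.co a b)) =
      ∑ c, (∑ j, aK (cA j) * algebraMap ℂ (KK n) ((Db j).1 (E.co c b))) •
        inc (KK n) (E.co a c) := by
  unfold TQD.s1
  rw [LinearMap.sum_apply]
  have h1 : ∀ j : Fin r, (aK (cA j) • AffGrp.derK (KK n) (Db j)) (inc (KK n) (E.co a b)) =
      ∑ c, (aK (cA j) * algebraMap ℂ (KK n) ((Db j).1 (E.co c b))) • inc (KK n) (E.co a c) := by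
    intro j
    rw [LinearMap.smul_apply, AffGrp.derK_inc, I2b_der_co, I2b_inc_sum, Finset.smul_sum]
    refine Finset.sum_congr rfl fun c _ => ?_
    rw [smul_smul]
  refine (Finset.sum_congr rfl fun j _ => h1 j).trans ?_
  rw [Finset.sum_comm]
  refine Finset.sum_congr rfl fun c _ => ?_
  rw [Finset.sum_smul]
  rfl

theorem I2b_poly (hs : ∀ x : Fin n → ℂ, ∑ j, MvPolynomial.eval x (cA j) • Db j =
    ∑ i, S.sx x i • C.bs i) (E : MTF.Rep G) (a b : E.ι) :
    ∑ j, cA j * MvPolynomial.C ((Db j).1 (E.co a b)) = C.dm E S.sv a b := by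
  apply MvPolynomial.funext
  intro x
  have h1 : MvPolynomial.eval x (C.dm E S.sv a b) = C.dm E (S.sx x) a b := by
    rw [C.dm_apply, C.dm_apply, map_sum]
    refine Finset.sum_congr rfl fun j _ => ?_
    rw [map_mul]
    congr 1
    exact MvPolynomial.eval_C _
  rw [h1, C.dm_complex, ← hs x, map_sum, map_sum]
  have h2 : ∀ (s : Finset (Fin r)) (A : Fin r → Matrix E.ι E.ι ℂ),
      (∑ j ∈ s, A j) a b = ∑ j ∈ s, A j a b := fun s A => by rw [Matrix.sum_apply]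
  rw [h2]
  refine Finset.sum_congr rfl fun j _ => ?_
  rw [map_mul, MvPolynomial.eval_C, map_smul]
  rfl

/-- (row I2b) the derivation `s` of the coordinate matrix: `s1 (Π i j) = (Π * s) i j`, `s` the matrix of the slice element `∑ cA j * (M.E.d (Db j))`, which is `C.dm M.E S.sv` by `hs`.  (`s1_apply` of MTF/C0, `derK_inc`,
`M.E.ρ` multiplicative: `lt x (co i j) = ∑ q, (π x i q) • co q j`.  From `hs`: `∑ j, C ((M.E.d (Db j)) q l) * cA j = (C.dm M.E S.sv) q l` by `MvPolynomial.funext`, applying `M.E.d` to `hs x`.) -/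
theorem s1_PiK (hs : ∀ x : Fin n → ℂ, ∑ j, MvPolynomial.eval x (cA j) • Db j = ∑ i, S.sx x i • C.bs i) (i j : Fin M.N) :
    (tqd G D Db cA).s1 (PiK M i j) = (PiK M * cK (G := G) (C.dm M.E S.sv)) i j := by
  unfold PiK
  rw [I2b_s1_co Db cA M.E i j, Matrix.mul_apply]
  refine Finset.sum_congr rfl fun c _ => ?_
  have h1 : (∑ k, aK (cA k) * algebraMap ℂ (KK n) ((Db k).1 (M.E.co c j)) : KK n) =
      aK (C.dm M.E S.sv c j) := by
    rw [← I2b_poly S Db cA hs M.E c j, map_sum]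
    refine Finset.sum_congr rfl fun k _ => ?_
    rw [map_mul, algebraMap_KK]
  rw [h1, Algebra.smul_def, mul_comm]
  rfl

theorem I2b_leib (a b : G.KO (KK n)) : (tqd G D Db cA).s1 (a * b) =
    a * (tqd G D Db cA).s1 b + b * (tqd G D Db cA).s1 a := by
  unfold TQD.s1
  simp only [LinearMap.sum_apply, LinearMap.smul_apply, AffGrp.derK_leib, smul_add,
    Finset.sum_add_distrib, Finset.mul_sum, mul_smul_comm]

theorem I2b_const (q : KK n) : (tqd G D Db cA).s1 (algebraMap (KK n) (G.KO (KK n)) q) = 0 := by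
  have h1 : (tqd G D Db cA).s1 (1 : G.KO (KK n)) = 0 := by
    have h2 := I2b_leib (G := G) (D := D) Db cA (1 : G.KO (KK n)) 1
    rw [mul_one, one_mul] at h2
    exact left_eq_add.1 h2
  rw [Algebra.algebraMap_eq_smul_one, map_smul, h1, smul_zero]

theorem I2b_cK_mul {N : ℕ} (A B : Matrix (Fin N) (Fin N) (AA n)) :
    cK (G := G) (A * B) = cK (G := G) A * cK (G := G) B := by
  apply Matrix.ext
  intro i j
  show algebraMap (KK n) (G.KO (KK n)) (aK (∑ k, A i k * B k j)) =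
    ∑ k, algebraMap (KK n) (G.KO (KK n)) (aK (A i k)) *
      algebraMap (KK n) (G.KO (KK n)) (aK (B k j))
  rw [map_sum, map_sum]
  refine Finset.sum_congr rfl fun k _ => ?_
  rw [map_mul, map_mul]

/-- (row I2b) `s1` is a derivation with constants (`s1_const`, `derK_leib`): `s1 (Π P) = Π s P = Π P (e + X)` with `P = M.E.pt S.p` (`pt_dm`, `S.conj`: `P * dm (e0 + hx X) = dm sv * P`); in the columns `J`:
`(Π P (e + X))_{I,J} = (Π P)_{I,J} (e + X)_{J,J}` (`submatrix_mul`, `pres_e`), then `deriv_det`, `tr_e` (with `R = AA n`, `x = X`) and `val μ = aK (fm0 μ)`, `fm0 μ = ev μ X`. -/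
theorem fJ_s1 (hs : ∀ x : Fin n → ℂ, ∑ j, MvPolynomial.eval x (cA j) • Db j = ∑ i, S.sx x i • C.bs i)
    {p : Fin n → ℤ} (hp : ∀ δ : D.SRt, 0 ≤ D.B p δ.1.1) (I) :
    (tqd G D Db cA).s1 (fJ M S p I) = (tqd G D Db cA).val (∑ γ ∈ nil D p, γ.1) • fJ M S p I := by
  have hconj : C.dm M.E S.sv * M.E.pt S.p =
      M.E.pt S.p * C.dm M.E (e0 D (AA n) + CD.hx MvPolynomial.X) := by
    rw [pt_dm C M.E, S.conj]
  have hP : Pres M p (cK (G := G) (C.dm M.E (e0 D (AA n) + CD.hx MvPolynomial.X))) := by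
    intro i j hj hne
    refine pres_e M hp (MvPolynomial.X : Fin n → AA n) i j hj fun h0 => hne ?_
    have h1 : cK (G := G) (C.dm M.E (e0 D (AA n) + CD.hx MvPolynomial.X)) i j =
        algebraMap (KK n) (G.KO (KK n))
          (aK ((C.dm M.E (e0 D (AA n) + CD.hx MvPolynomial.X) :
            Matrix (Fin M.N) (Fin M.N) (AA n)) i j)) := rfl
    rw [h1, h0, map_zero, map_zero]
  have hprod : PiK M * cK (G := G) (C.dm M.E S.sv) * cK (G := G) (M.E.pt S.p) =
      PiK M * cK (G := G) (M.E.pt S.p) * cK (G := G) (C.dm M.E (e0 D (AA n) + CD.hx MvPolynomial.X)) := by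
    have h1 := I2b_cK_mul (G := G) (C.dm M.E S.sv : Matrix (Fin M.N) (Fin M.N) (AA n))
      (M.E.pt S.p)
    have h2 := I2b_cK_mul (G := G) (M.E.pt S.p : Matrix (Fin M.N) (Fin M.N) (AA n))
      (C.dm M.E (e0 D (AA n) + CD.hx MvPolynomial.X))
    rw [Matrix.mul_assoc, Matrix.mul_assoc]
    congr 1
    refine h1.symm.trans (Eq.trans ?_ h2)
    exact congrArg (cK (G := G)) hconj
  have hder : ∀ i j, (tqd G D Db cA).s1 ((PiK M * cK (G := G) (M.E.pt S.p)) i j) =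
      (PiK M * cK (G := G) (C.dm M.E S.sv) * cK (G := G) (M.E.pt S.p)) i j := by
    intro i j
    rw [Matrix.mul_apply, Matrix.mul_apply, map_sum]
    refine Finset.sum_congr rfl fun l _ => ?_
    rw [I2b_leib]
    have h1 : (tqd G D Db cA).s1 (cK (G := G) (M.E.pt S.p) l j) = 0 := I2b_const Db cA _
    rw [h1, mul_zero, zero_add, s1_PiK M S Db cA hs, mul_comm]
  have h := deriv_det (k := KK n) (tqd G D Db cA).s1 (fun a b => I2b_leib Db cA a b)
    ((PiK M * cK (G := G) (M.E.pt S.p)).submatrix I (colJ M p))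
    ((cK (G := G) (C.dm M.E (e0 D (AA n) + CD.hx MvPolynomial.X))).submatrix
      (colJ M p) (colJ M p)) (fun i j => by
      rw [← submatrix_mul M hP, Matrix.submatrix_apply, Matrix.submatrix_apply, hder, hprod])
  have htr : ((cK (G := G) (C.dm M.E (e0 D (AA n) + CD.hx MvPolynomial.X))).submatrix
      (colJ M p) (colJ M p)).trace =
      algebraMap (KK n) (G.KO (KK n)) ((tqd G D Db cA).val (∑ γ ∈ nil D p, γ.1)) := by
    have h1 := tr_e M (p := p) (MvPolynomial.X : Fin n → AA n)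
    have h2 : ev (∑ γ ∈ nil D p, γ.1) (MvPolynomial.X : Fin n → AA n) =
        fm0 (∑ γ ∈ nil D p, γ.1) := by
      unfold ev fm0 Pool.Agent.MTX.lin
      refine Finset.sum_congr rfl fun k _ => ?_
      rw [map_intCast]
    rw [h2] at h1
    have h3 : (tqd G D Db cA).val (∑ γ ∈ nil D p, γ.1) =
        (aK (fm0 (∑ γ ∈ nil D p, γ.1)) : KK n) := rfl
    rw [h3, ← h1]
    unfold Matrix.trace
    rw [map_sum, map_sum]
    rfl
  unfold fJ
  rw [h, htr, Algebra.smul_def]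

/-- (I2c) the difference of two simple roots is not a root -/
theorem I2c_ht (δ γ : D.SRt) (μ : D.Rt) : μ.1 ≠ (D.ng δ.1).1 + γ.1.1 := by
  intro h
  have h1 : D.ht2 μ.1 = D.ht2 ((D.ng δ.1).1 + γ.1.1) := by rw [h]
  rw [D.ht2_add, D.ng_val, b3a_ht2_neg, D.ht2_sim, D.ht2_sim] at h1
  exact b3a_ht2_ne D μ (by rw [h1]; norm_num)

/-- (I2c) -/
theorem I2c_br (δ : D.SRt) (c : ℂ) (z : LR D ℂ) (h0 : ∀ k, z (Sum.inl k) = 0)
    (h : ∀ γ : D.Rt, z (Sum.inr γ) ≠ 0 → D.Sim γ ∧ γ ≠ δ.1) :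
    C.br (rv (D.ng δ.1) c) z = 0 := by
  funext k
  unfold CD.br
  apply Finset.sum_eq_zero
  intro i _
  apply Finset.sum_eq_zero
  intro j _
  by_cases hi : i = Sum.inr (D.ng δ.1)
  · subst hi
    rcases j with j | γ
    · rw [h0, mul_zero, zero_mul]
    · by_cases hz : z (Sum.inr γ) = 0
      · rw [hz, mul_zero, zero_mul]
      · obtain ⟨hs, hne⟩ := h γ hz
        have h1 : C.sc (Sum.inr (D.ng δ.1)) (Sum.inr γ) k = 0 := by
          unfold CD.sc
          rw [C.e_co (D.ng δ.1) γ (by rw [D.ng_ng]; exact hne) (I2c_ht δ ⟨γ, hs⟩), map_zero]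
          rfl
        rw [h1, map_zero, mul_zero]
  · have h1 : (rv (D.ng δ.1) c : LR D ℂ) i = 0 := Pi.single_eq_of_ne hi _
    rw [h1, zero_mul, zero_mul]

/-- (I2c) -/
theorem I2c_ad (δ : D.SRt) (x : Fin n → ℂ) :
    Adp C (ex C (rv (D.ng δ.1) (ev δ.1.1 x))) (e0 D ℂ + CD.hx x) =
      e0 D ℂ + CD.hx (wx (D.rW δ.1) x) := by
  classical
  obtain ⟨c, hc⟩ : ∃ c, c = ev δ.1.1 x := ⟨_, rfl⟩
  obtain ⟨s, -, hz⟩ := Sp_rv (D := D) (D.ng δ.1) c
  obtain ⟨z, hzd⟩ : ∃ z : LR D ℂ, z = e0 D ℂ - rv δ.1 1 := ⟨_, rfl⟩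
  have he : e0 D ℂ = rv δ.1 1 + z := by
    rw [hzd]
    abel
  have hz0 : ∀ k, z (Sum.inl k) = 0 := by
    intro k
    rw [hzd]
    show e0 D ℂ (Sum.inl k) - (rv δ.1 1 : LR D ℂ) (Sum.inl k) = 0
    rw [E1a_rv_inl]
    exact sub_self (0 : ℂ)
  have hz1 : ∀ γ : D.Rt, z (Sum.inr γ) ≠ 0 → D.Sim γ ∧ γ ≠ δ.1 := by
    intro γ hγ
    rw [hzd] at hγ
    have h1 : (if D.Sim γ then (1 : ℂ) else 0) - (rv δ.1 1 : LR D ℂ) (Sum.inr γ) ≠ 0 := by
      intro h2
      apply hγ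
      rw [← h2]
      show (if D.Sim γ then (1 : ℂ) else 0) - (rv δ.1 1 : LR D ℂ) (Sum.inr γ) = _
      congr
    by_cases h2 : γ = δ.1
    · exfalso
      rw [h2, E1a_rv_same, if_pos δ.2] at h1
      exact h1 (sub_self _)
    · rw [E1a_rv_ne h2, sub_zero] at h1
      refine ⟨?_, h2⟩
      by_contra h3
      rw [if_neg h3] at h1
      exact h1 rfl
  have hbr : C.br (rv (D.ng δ.1) c) z = 0 := I2c_br δ c z hz0 hz1
  have hfix : Adp C (ex C (rv (D.ng δ.1) c)) z = z := by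
    rw [E1a_exp C hz (E1a_card δ.1) hbr (E1a_br_zero C _) (E1a_br_zero C _), smul_zero, add_zero,
      add_zero]
  have h1 : ev (D.ng δ.1).1 x = - c := by rw [D.ng_val, MTD.ev_neg_left, hc]
  have h2 : (CD.hx (x - c • cv D ℂ δ.1) : LR D ℂ) = CD.hx x - c • CD.hx (cv D ℂ δ.1) := by
    funext j
    rcases j with k | γ
    · rfl
    · show (0 : ℂ) = 0 - c * 0
      ring
  have h3 : (c * -c) • (rv (D.ng δ.1) 1 : LR D ℂ) = -(c ^ 2 • rv (D.ng δ.1) 1) := by
    rw [← neg_smul]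
    congr 1
    ring
  rw [← hc, he, Adp_add, Adp_add, hfix, ex_ng, ex_hx, wx_rW, ← hc, h1, h2, h3]
  abel

/-- (I2c) -/
theorem I2c_Sp (δ : D.SRt) (c : ℂ) : Sp (-1) 1 (rv (D.ng δ.1) c : LR D ℂ) := by
  refine ⟨fun k hk => absurd (E1a_rv_inl _ c k) hk, fun γ hγ => ?_⟩
  have h1 : γ = D.ng δ.1 := by
    by_contra hne
    exact hγ (E1a_rv_ne hne c)
  rw [h1, D.ng_val, b3a_ht2_neg, D.ht2_sim]
  norm_num

/-- (row I2c) The conjugators at `x` and `s_δ x`, `x` regular, `δ` simple.  `c := ev δ x`.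
`Ad (ex (c e_{-δ})) (e + x) = e + s_δ x`: (`Adp_ex`-type formula: `Ad (ex z) y = y + [z, y] + [z, [z, y]] / 2` for `z = c e_{-δ}`, `y = e + x`, all further brackets vanish; `[e_{-δ}, e_γ] = 0` for simple `γ ≠ δ`
(`G1`/`C.e_co`), `[e_{-δ}, e_δ] = - h_δ` (`C.e_ng`), `[e_{-δ}, x] = c e_{-δ}`, `[e_{-δ}, h_δ] = 2 e_{-δ}`).  Both `ex (c e_{-δ})` and `(S.pc (s_δ x))⁻¹ * S.pc x` are in `UU C (-1)` (`ex_UU`, `S.uu`) and conjugate `e + x` to
`e + s_δ x` (`S.conj_c`, `S.inv`).  So `z := (S.pc (s_δ x))⁻¹ * S.pc x * (ex ..)⁻¹`, in `UU C (-1)`, centralises `e + x'`, `x' = s_δ x` regular; `e + x' = Ad u x'`, `u` in `UU C 1` (`exists_U`); `u⁻¹ z u` centralises `x'`, so it is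
`tq C t` (`exists_W_of_conj`), `z * u = u * tq C t`; `ldu_unique` (write `u * tq C t = tq C t * (v)`, `v` in `UU C 1`): `z = 1`. -/
theorem pc_simple (hG : IsDomain G.O) (δ : D.SRt) {x : Fin n → ℂ} (hx : ∀ γ : D.Rt, ev γ.1 x ≠ 0) :
    S.pc x = S.pc (wx (D.rW δ.1) x) * ex C (rv (D.ng δ.1) (ev δ.1.1 x)) := by
  classical
  obtain ⟨x', hx'd⟩ : ∃ x', x' = wx (D.rW δ.1) x := ⟨_, rfl⟩
  obtain ⟨E, hE⟩ : ∃ E : G.Pt ℂ, E = ex C (rv (D.ng δ.1) (ev δ.1.1 x)) := ⟨_, rfl⟩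
  have hEad : Adp C E (e0 D ℂ + CD.hx x) = e0 D ℂ + CD.hx x' := by
    rw [hE, hx'd]
    exact I2c_ad δ x
  have hEU : UU C (-1) E := by
    rw [hE]
    exact UU_ex C (I2c_Sp δ _)
  have hx'r : ∀ γ : D.Rt, ev γ.1 x' ≠ 0 := by
    intro γ
    rw [hx'd, E1b_wx]
    exact hx ((D.rW δ.1)⁻¹ • γ)
  have hpU : ∀ y : Fin n → ℂ, UU C (-1) (S.pc y) := fun y => UU_map C (MvPolynomial.aeval y) S.uu
  have hsx : S.sx x' = S.sx x := by
    funext j
    rw [hx'd]
    exact S.inv _ _ _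
  obtain ⟨z, hz⟩ : ∃ z : G.Pt ℂ, z = (S.pc x')⁻¹ * S.pc x * E⁻¹ := ⟨_, rfl⟩
  have hzU : UU C (-1) z := by
    rw [hz]
    exact UU_mul C (UU_mul C (UU_inv C (hpU x')) (hpU x)) (UU_inv C hEU)
  have hEinv : Adp C E⁻¹ (e0 D ℂ + CD.hx x') = e0 D ℂ + CD.hx x := by
    rw [← hEad, ← Adp_mul, inv_mul_cancel, Adp_one]
  have hpinv : Adp C (S.pc x')⁻¹ (S.sx x') = e0 D ℂ + CD.hx x' := by
    rw [← S.conj_c x', ← Adp_mul, inv_mul_cancel, Adp_one]
  have hzad : Adp C z (e0 D ℂ + CD.hx x') = e0 D ℂ + CD.hx x' := by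
    rw [hz, Adp_mul, hEinv, Adp_mul, S.conj_c x, ← hsx, hpinv]
  obtain ⟨φ, hφ, hφad⟩ := exists_U C (s := 1) (Or.inl rfl)
    (fun γ => isUnit_iff_ne_zero.2 (hx'r γ)) (Sp_mono (by norm_num) (Sp_e0 D ℂ) : Sp 1 1 (e0 D ℂ))
  have hφU : UU C 1 φ := hφ C.F C.wt C.isW_F
  have hw : Adp C (φ⁻¹ * z * φ) (CD.hx x') = CD.hx x' := by
    have h1 : Adp C φ⁻¹ (CD.hx x' + e0 D ℂ) = CD.hx x' := by
      rw [← hφad, ← Adp_mul, inv_mul_cancel, Adp_one]
    rw [Adp_mul, hφad, Adp_mul, add_comm (CD.hx x' : LR D ℂ) (e0 D ℂ), hzad,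
      add_comm (e0 D ℂ) (CD.hx x' : LR D ℂ), h1]
  obtain ⟨t, ht⟩ := (exists_W_of_conj C hG hx'r hx'r hw).2 rfl
  have h1 : z * tq C 1 * φ = 1 * tq C t * ((tq C t)⁻¹ * φ * tq C t) := by
    have h2 : z * φ = φ * tq C t := by
      rw [← ht]
      group
    rw [C2_tq_one, mul_one, h2]
    group
  have h2 : UU C 1 ((tq C t)⁻¹ * φ * tq C t) := by
    have h3 : tq C t⁻¹ = (tq C t)⁻¹ := by
      rw [eq_inv_iff_mul_eq_one, ← tq_mul, inv_mul_cancel, C2_tq_one]
    have h4 := UU_conj C hφU t⁻¹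
    rw [h3, inv_inv] at h4
    exact h4
  obtain ⟨h5, -, -⟩ := ldu_unique C hzU hφU (UU_one C) h2 h1
  rw [hz, mul_inv_eq_one] at h5
  rw [← hx'd, ← hE, ← h5]
  group

theorem I2d_fm0 (μ : Fin n → ℤ) (y : Fin n → ℂ) :
    MvPolynomial.eval y (fm0 μ : AA n) = ev μ y := by
  have h2 : ev μ (MvPolynomial.X : Fin n → AA n) = fm0 μ := by
    unfold ev fm0 Pool.Agent.MTX.lin
    refine Finset.sum_congr rfl fun k _ => ?_
    rw [map_intCast]
  rw [← h2]
  unfold ev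
  rw [map_sum]
  refine Finset.sum_congr rfl fun k _ => ?_
  rw [map_mul, map_intCast, MvPolynomial.eval_X]

theorem I2d_eval (w : D.W) (q : AA n) (y : Fin n → ℂ) :
    MvPolynomial.eval y (w • q) = MvPolynomial.eval (wx w⁻¹ y) q := by
  rw [D.W_smul_def]
  unfold RD.actO
  have h1 := MvPolynomial.comp_aeval_apply (fun i => (fm0 (w.1 (Pi.single i 1)) : AA n))
    (MvPolynomial.aeval y : AA n →ₐ[ℂ] ℂ) q
  rw [MvPolynomial.aeval_eq_eval] at h1
  refine h1.trans ?_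
  rw [MvPolynomial.aeval_eq_eval]
  congr 1
  congr 1
  funext i
  show MvPolynomial.eval y (fm0 (w.1 (Pi.single i 1)) : AA n) = _
  rw [I2d_fm0]
  unfold wx
  rw [inv_inv]

theorem I2d_pt_mul (φ ψ : G.Pt ℂ) : (M.E.pt (φ * ψ) : Matrix (Fin M.N) (Fin M.N) ℂ) =
    (M.E.pt φ : Matrix (Fin M.N) (Fin M.N) ℂ) * (M.E.pt ψ : Matrix (Fin M.N) (Fin M.N) ℂ) :=
  Rep.pt_mul M.E φ ψ

theorem I2d_reg (hG : IsDomain G.O) {p : Fin n → ℤ} (δ : D.SRt) (hp : D.B p δ.1.1 = 0) (I)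
    (x : G.X) {y : Fin n → ℂ} (hy : ∀ γ : D.Rt, ev γ.1 y ≠ 0) :
    MvPolynomial.eval y (fJv M S p I x) =
      MvPolynomial.eval (wx (D.rW δ.1) y) (fJv M S p I x) := by
  rw [eval_fJv, eval_fJv, pC_eq, pC_eq, pc_simple S hG δ hy]
  have h1 : M.π x * (M.E.pt (S.pc (wx (D.rW δ.1) y) * ex C (rv (D.ng δ.1) (ev δ.1.1 y))) :
      Matrix (Fin M.N) (Fin M.N) ℂ) = (M.π x * (M.E.pt (S.pc (wx (D.rW δ.1) y)) :
      Matrix (Fin M.N) (Fin M.N) ℂ)) * (M.E.pt (ex C (rv (D.ng δ.1) (ev δ.1.1 y))) :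
      Matrix (Fin M.N) (Fin M.N) ℂ) := by
    rw [I2d_pt_mul, Matrix.mul_assoc]
  have h2 := minor_mul M (pres_neg M (R := ℂ) δ hp (ev δ.1.1 y))
    (M.π x * (M.E.pt (S.pc (wx (D.rW δ.1) y)) : Matrix (Fin M.N) (Fin M.N) ℂ)) I
  rw [det_neg, mul_one] at h2
  rw [← h2, ← h1]

/-- (row I2d) Invariance of `fJ` under the simple reflection `s_δ` with `B p δ = 0`: for regular `y` `fJv` at `y` and at `s_δ y` agree (`eval_fJv`, `pC_eq`, `pc_simple`, `Rep.pt_mul`, `pres_neg`, `minor_mul`, `det_neg`), so the polynomial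
`sW δ • fJv - fJv` times the product of all roots vanishes (`MvPolynomial.funext`), so it is `0`.  (`eval y (w • q) = eval (wx w⁻¹ y) q`, cf. E1 of MTH; `sW δ` is its own inverse.) -/
theorem fJ_refl (hG : IsDomain G.O) {p : Fin n → ℤ} (δ : D.SRt) (hp : D.B p δ.1.1 = 0) (I) (x : G.X) :
    D.sW δ • fJv M S p I x = fJv M S p I x := by
  have hne : (∏ γ : D.Rt, (fm0 γ.1 : AA n)) ≠ 0 :=
    Finset.prod_ne_zero_iff.2 fun γ _ => Pool.Agent.MTX.SLD.fm0_ne_zero (D.Rt_ne γ)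
  have h0 : (D.sW δ • fJv M S p I x - fJv M S p I x) * ∏ γ : D.Rt, (fm0 γ.1 : AA n) = 0 := by
    apply MvPolynomial.funext
    intro y
    rw [map_mul, map_zero, map_sub, I2d_eval]
    by_cases hy : ∀ γ : D.Rt, ev γ.1 y ≠ 0
    · have h1 : (D.sW δ)⁻¹ = D.rW δ.1 := D.rW_inv δ.1
      rw [h1, ← I2d_reg M S hG δ hp I x hy, sub_self, zero_mul]
    · push Not at hy
      obtain ⟨γ, hγ⟩ := hy
      rw [map_prod, Finset.prod_eq_zero (Finset.mem_univ γ) (by rw [I2d_fm0]; exact hγ), mul_zero]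
  exact sub_eq_zero.1 ((mul_eq_zero.1 h0).resolve_right hne)

/-- (row I2d) `l = ∑ γ ∈ nil p, γ` is dominant, its stabiliser is generated by the simple reflections `s_δ`, `cp δ l = 0` (`stab_dom`), i.e. `δ ≠ α` (`nil_sum`); `fJ_refl`, `Subgroup.closure_induction` -/
theorem fJ_stab (hG : IsDomain G.O) (α : D.SRt) {p : Fin n → ℤ} {d : ℤ} (hd : 0 < d) (h1 : D.B p α.1.1 = d)
    (h2 : ∀ δ : D.SRt, δ ≠ α → D.B p δ.1.1 = 0) (I) (x : G.X) (w : D.W)
    (hw : w.1 (∑ γ ∈ nil D p, γ.1) = ∑ γ ∈ nil D p, γ.1) : w • fJv M S p I x = fJv M S p I x := by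
  obtain ⟨e1, e2⟩ := nil_sum D α hd h1 h2
  have hdom : D.Dom (∑ γ ∈ nil D p, γ.1) := by
    rw [D.dom_iff]
    intro s
    by_cases hs : s = α
    · rw [hs]
      exact e1.le
    · exact (e2 s hs).ge
  have hmem := D.stab_dom hdom hw
  refine Subgroup.closure_induction (p := fun w _ => w • fJv M S p I x = fJv M S p I x)
    ?_ ?_ ?_ ?_ hmem
  · rintro v ⟨β, hβ, rfl⟩
    refine fJ_refl M S hG β (h2 β fun h => ?_) I x
    rw [h] at hβ
    exact e1.ne' hβ
  · exact one_smul _ _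
  · intro u v _ _ hu hv
    rw [mul_smul, hv, hu]
  · intro u _ hu
    rw [inv_smul_eq_iff]
    exact hu.symm

/-- (row I2e) The averaging operator on invariants: `D_l (c PI0_l F) = F` for `c` the inverse of the order of the stabiliser (`smul_PI0`, `Int.units_mul_self`; `Dav` of MTF/TQ). -/
theorem Dav_inv (l : Fin n → ℤ) : ∃ a : AA n, ∀ F : AA n, (∀ w : D.W, w.1 l = l → w • F = F) →
    (tqd G D Db cA).Dav l (aK a * aK F) = aK F := by
  classical
  obtain ⟨N, hN⟩ : ∃ N : ℕ, N = (Finset.univ.filter fun w : D.W => w.1 l = l).card := ⟨_, rfl⟩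
  have hN0 : (N : ℂ) ≠ 0 := by
    have h1 : (1 : D.W) ∈ Finset.univ.filter fun w : D.W => w.1 l = l :=
      Finset.mem_filter.2 ⟨Finset.mem_univ _, rfl⟩
    have h2 : N ≠ 0 := by
      rw [hN]
      exact (Finset.card_pos.2 ⟨1, h1⟩).ne'
    exact_mod_cast h2
  refine ⟨MvPolynomial.C ((N : ℂ)⁻¹) * D.PI0 l, fun F hF => ?_⟩
  have hPI : (aK (D.PI0 l) : KK n) ≠ 0 := v_Δ_ne G Db cA l
  have hterm : ∀ w : D.W, w.1 l = l →
      (((D.sgn w : ℤˣ) : ℤ) : KK n) * (w • (aK (MvPolynomial.C ((N : ℂ)⁻¹) * D.PI0 l) * aK F)) =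
        algebraMap ℂ (KK n) ((N : ℂ)⁻¹) * (aK (D.PI0 l) * aK F) := by
    intro w hw
    rw [smul_mul', RD.smul_aK, RD.smul_aK, smul_mul', RD.smul_C, D.smul_PI0 l w hw, hF w hw,
      map_mul, map_mul, map_intCast, algebraMap_KK]
    have h1 : (((D.sgn w : ℤˣ) : ℤ) : KK n) * (((D.sgn w : ℤˣ) : ℤ) : KK n) = 1 := by
      rw [← Int.cast_mul, ← Units.val_mul, Int.units_mul_self, Units.val_one, Int.cast_one]
    linear_combination (aK (MvPolynomial.C ((N : ℂ)⁻¹)) * aK (D.PI0 l) * aK F) * h1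
  have hsum : (∑ w : D.W, if w • l = l then (((D.sgn w : ℤˣ) : ℤ) : KK n) *
      (w • (aK (MvPolynomial.C ((N : ℂ)⁻¹) * D.PI0 l) * aK F)) else 0) =
      aK (D.PI0 l) * aK F := by
    rw [← Finset.sum_filter]
    have h2 : (Finset.univ.filter fun w : D.W => w • l = l) =
        Finset.univ.filter fun w : D.W => w.1 l = l := rfl
    rw [h2, Finset.sum_congr rfl fun w hw => hterm w (Finset.mem_filter.1 hw).2,
      Finset.sum_const, ← hN, nsmul_eq_mul, ← mul_assoc]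
    have h3 : (N : KK n) * algebraMap ℂ (KK n) ((N : ℂ)⁻¹) = 1 := by
      rw [← map_natCast (algebraMap ℂ (KK n)), ← map_mul, mul_inv_cancel₀ hN0, map_one]
    rw [h3, one_mul]
  have h4 : (tqd G D Db cA).Dav l (aK (MvPolynomial.C ((N : ℂ)⁻¹) * D.PI0 l) * aK F) =
      (aK (D.PI0 l) : KK n)⁻¹ * ∑ w : D.W, if w • l = l then (((D.sgn w : ℤˣ) : ℤ) : KK n) *
        (w • (aK (MvPolynomial.C ((N : ℂ)⁻¹) * D.PI0 l) * aK F)) else 0 := by
    unfold TQD.Dav
    refine congrArg₂ (· * ·) rfl (Finset.sum_congr rfl fun w _ => ?_)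
    by_cases hw : w • l = l
    · rw [if_pos hw, if_pos hw]
      rfl
    · rw [if_neg hw, if_neg hw]
  rw [h4, hsum, ← mul_assoc, inv_mul_cancel₀ hPI, one_mul]

theorem I2e_fm0 (μ : Fin n → ℤ) (y : Fin n → ℂ) :
    MvPolynomial.eval y (fm0 μ : AA n) = ev μ y := by
  have h2 : ev μ (MvPolynomial.X : Fin n → AA n) = fm0 μ := by
    unfold ev fm0 Pool.Agent.MTX.lin
    refine Finset.sum_congr rfl fun k _ => ?_
    rw [map_intCast]
  rw [← h2]
  unfold ev
  rw [map_sum]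
  refine Finset.sum_congr rfl fun k _ => ?_
  rw [map_mul, map_intCast, MvPolynomial.eval_X]

/-- (row I2e) `D.Eu_dom`, `eval_fm0` (MTX/T9a), `dat_ev_cr` -/
theorem eval_Eu (l : Fin n → ℤ) (hl : D.Dom l) (x : Fin n → ℂ) :
    MvPolynomial.eval x (D.Eu l) = MTD.Eu (dat M S) l x := by
  rw [D.Eu_dom hl, map_prod]
  unfold MTD.Eu
  refine Finset.prod_congr rfl fun β _ => ?_
  rw [map_pow, I2e_fm0, dat_ev_cr]
  rfl

/-- (row I2e) The minors in the columns `J` do not change under multiplication with `ueC x`: `B.minor` with `b = ueC x` (`ax.ueC_isG`, `ax.ueC_upUni`). -/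
theorem det_qC (hG : IsDomain G.O) {p : D.SRt → Fin n → ℤ} (B : MTXR.GAxR (dat M S) (gens M p)) (α : D.SRt)
    (I : Fin (colS M (p α)).card → Fin M.N) (x : G.X) (y : Fin n → ℂ) :
    ((M.π x * (dat M S).qC y).submatrix I (colJ M (p α))).det = MvPolynomial.eval y (fJv M S (p α) I x) := by
  have hu : Pool.Agent.MP_c45d35_ag.UpUni ((dat M S).ueC y) ∧ (dat M S).IsG ((dat M S).ueC y) := by
    unfold MTD.Dat.ueC
    split_ifs with h
    · exact ⟨h.choose_spec.1, h.choose_spec.2.1⟩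
    · refine ⟨⟨fun i j hij => Matrix.one_apply_ne (ne_of_gt hij), fun i => Matrix.one_apply_eq i⟩,
        (isG_iff M S _).2 ⟨1, Rep.pt_one M.E⟩⟩
  have h1 := B.minor α (M.π x * (dat M S).pC y) ((dat M S).ueC y) hu.2
    (fun i j hij => hu.1.1 i j hij) I
  have h2 : ∏ j, (dat M S).ueC y ((gens M p).J α j) ((gens M p).J α j) = 1 :=
    Finset.prod_eq_one fun j _ => hu.1.2 _
  rw [h2, mul_one, Matrix.mul_assoc] at h1
  rw [eval_fJv]
  exact h1

end Pool.Agent.MTH
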