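import Pool.Agent.MTH.J2
import Pool.Agent.MTXR.E
import Pool.Agent.MTF.FG4
import Pool.Agent.MTF.Y8
import Pool.Agent.MTF.C2f

/-! # MTH-J3 -/

namespace Pool.Agent.MTH

open Matrix
open Pool.Agent.MTF Pool.Agent.MTG
open Pool.Agent.MTD (ev)
open Pool.Agent.MP_c45d35_ag (chi)

open Pool.Agent.MTX.SLD (AA fm0)
open RD (KK aK)
open Pool.Agent.MTD (Idx co XX cf Phi supp Pt Gens)
open Pool.Agent.MTF.AffGrp (inc pu)

variable {G : AffGrp} {n N : ℕ} {D : RD n} {ι : Type} [Fintype ι] {Dt : MTD.Dat n N ι} {r : ℕ}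
  {Db : Module.Basis (Fin r) ℂ G.Lie} {cA : Fin r → AA n}
  (m : MTF.Model (tqd G D Db cA) Dt)

/-- the polynomial functions in the fraction field are the polynomials -/
noncomputable def eAK (n : ℕ) : AK n ≃ₐ[ℂ] AA n :=
  (AlgEquiv.ofInjective (IsScalarTower.toAlgHom ℂ (AA n) (KK n)) (IsFractionRing.injective (AA n) (KK n))).symm

theorem aK_eAK (a : AK n) : aK (eAK n a) = (a : KK n) := by
  have h1 := (AlgEquiv.ofInjective (IsScalarTower.toAlgHom ℂ (AA n) (KK n))
    (IsFractionRing.injective (AA n) (KK n))).apply_symm_apply a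
  exact congrArg Subtype.val h1

/-- the value of a family at a point -/
noncomputable def vT (hT : TQ (tqd G D Db cA)) {b : ℕ} (k : Fin (b + 1) → G.X) :
    AG hT 0 (fun _ : Fin (b + 1) => true) →ₐ[ℂ] AA n :=
  (eAK n).toAlgHom.comp
    { toFun := fun T => ⟨(tot T.1).1 k, (AG_fam hT T.2).reg0 rfl k⟩
      map_one' := Subtype.ext (by
        show (tot (1 : MTF.RR G (KK n) (Fin n → ℤ) (Fin (b + 1)))).1 k = 1
        rw [tot_eq, map_one]
        rfl)
      map_mul' := fun T T' => Subtype.ext (by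
        show (tot (T.1 * T'.1)).1 k = (tot T.1).1 k * (tot T'.1).1 k
        rw [tot_eq, map_mul, ← tot_eq, ← tot_eq]
        rfl)
      map_zero' := Subtype.ext (by
        show (tot (0 : MTF.RR G (KK n) (Fin n → ℤ) (Fin (b + 1)))).1 k = 0
        rw [tot_eq, map_zero]
        rfl)
      map_add' := fun T T' => Subtype.ext (by
        show (tot (T.1 + T'.1)).1 k = (tot T.1).1 k + (tot T'.1).1 k
        rw [tot_eq, map_add, ← tot_eq, ← tot_eq]
        rfl)
      commutes' := fun c => Subtype.ext (by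
        show (tot (algebraMap ℂ (MTF.RR G (KK n) (Fin n → ℤ) (Fin (b + 1))) c)).1 k = algebraMap ℂ (KK n) c
        rw [tot_eq, IsScalarTower.algebraMap_apply ℂ (KK n) (MTF.RR G (KK n) (Fin n → ℤ) (Fin (b + 1))), AlgHom.commutes]
        rfl) }

theorem aK_vT (hT : TQ (tqd G D Db cA)) {b : ℕ} (k : Fin (b + 1) → G.X)
    (T : AG hT 0 (fun _ : Fin (b + 1) => true)) : aK (vT hT k T) = (tot T.1).1 k :=
  aK_eAK _

/-- a point over an element of the group -/
noncomputable def kG (g : Dt.Gs) : G.X := (m.surj g.1 g.2).choose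

theorem kG_spec (g : Dt.Gs) : m.π (kG m g) = g.1 := (m.surj g.1 g.2).choose_spec

/-- a parameter of an element of the slice -/
noncomputable def xS (A : MTXD.Ax Dt) (s : Dt.S) : Fin n → ℂ := (A.exists_sC s.2).choose

theorem xS_spec (A : MTXD.Ax Dt) (s : Dt.S) : Dt.sC (xS A s) = s.1 := (A.exists_sC s.2).choose_spec.symm

/-- the families as functions on `G^b × S` -/
noncomputable def Th (hT : TQ (tqd G D Db cA)) (b : ℕ) :
    AG hT 0 (fun _ : Fin (b + 1) => true) →ₐ[ℂ] (Pt Dt.Gs Dt.S (b + 1) → ℂ) :=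
  Pi.algHom ℂ _ fun y => (MvPolynomial.aeval (xS m.ax y.2)).comp (vT hT fun a => kG m (y.1 a))

theorem J3a_vT (hT : TQ (tqd G D Db cA)) {b : ℕ} (T : AG hT 0 (fun _ : Fin (b + 1) => true))
    (P : MvPolynomial (Idx N (b + 1)) ℂ) (hP : tot T.1 = FP m P) (k : Fin (b + 1) → G.X) :
    vT hT k T = evP m P k := by
  apply RD.aK_inj
  rw [aK_vT, hP, FP_apply]

/-- (row J3a) -/
theorem Th_apply (hT : TQ (tqd G D Db cA)) {b : ℕ} (T : AG hT 0 (fun _ : Fin (b + 1) => true))
    (P : MvPolynomial (Idx N (b + 1)) ℂ) (hP : tot T.1 = FP m P) (y : Pt Dt.Gs Dt.S (b + 1)) :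
    Th m hT b T y = MvPolynomial.eval (co (fun a => (y.1 a).1) y.2.1) P := by
  have h1 : Th m hT b T y =
      MvPolynomial.aeval (xS m.ax y.2) (vT hT (fun a => kG m (y.1 a)) T) := rfl
  rw [h1, J3a_vT m hT T P hP, MvPolynomial.aeval_eq_eval]
  have h2 := eval_evP m P (fun a => kG m (y.1 a)) (xS m.ax y.2)
  have h3 : (fun a => m.π (kG m (y.1 a))) = fun a => (y.1 a).1 :=
    funext fun a => kG_spec m (y.1 a)
  rw [h3, xS_spec] at h2
  exact h2

/-- (row J3a) `exists_FP` for `tot T` (`fam_RI` of MTF/Y8) -/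
theorem exists_P (hfr : ∀ p, m.fr p = aK p) (hT : TQ (tqd G D Db cA)) {b : ℕ}
    (T : AG hT 0 (fun _ : Fin (b + 1) => true)) : ∃ P : MvPolynomial (Idx N (b + 1)) ℂ, tot T.1 = FP m P := by
  have h := fam_RI hT (AG_fam hT T.2)
  exact exists_FP m hfr (tot T.1) h.reg h.inv

/-- (row J3a) if the function vanishes then `vT hT k T` vanishes at all `x` (take `y = (π ∘ k, sC x)`; by `exists_P`, `Th_apply`, `eval_evP`, `FP_apply`), so `tot T = 0`; `fam_tot_inj` (MTF/Y8) -/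
theorem Th_inj (hfr : ∀ p, m.fr p = aK p) (hT : TQ (tqd G D Db cA)) (b : ℕ) : Function.Injective (Th m hT b) := by
  rw [injective_iff_map_eq_zero]
  intro T h0
  obtain ⟨P, hP⟩ := exists_P m hfr hT T
  have ht : tot T.1 = 0 := by
    apply AffGrp.KO_ext
    intro k
    rw [hP, FP_apply]
    have h1 : evP m P k = 0 := by
      apply MvPolynomial.funext
      intro x
      rw [eval_evP, map_zero]
      have h2 := Th_apply m hT T P hP
        (fun a => ⟨m.π (k a), m.mem _⟩, ⟨Dt.sC x, m.ax.sC_mem x⟩)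
      rw [h0] at h2
      exact h2.symm
    rw [h1, map_zero]
    rfl
  have h3 := fam_tot_inj hT (0 : Fin (b + 1)) (AG_fam hT T.2) ht
  exact Subtype.ext h3

/-- (row J3a) `exists_P`, `Th_apply`, `invR` of J2 -/
theorem range_le (hfr : ∀ p, m.fr p = aK p) (hT : TQ (tqd G D Db cA)) (b : ℕ) :
    (Th m hT b).range ≤ MTXR.MTR2 Dt (b + 1) := by
  rintro F ⟨T, rfl⟩
  obtain ⟨P, hP⟩ := exists_P m hfr hT T
  refine ⟨P, fun y => Th_apply m hT T P hP y, invR m hfr P T.1 (fun μ l => ?_) hP⟩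
  have h := (AG_fam hT T.2).wt μ l
  have h1 : sgn true • μ = μ := one_zsmul μ
  rw [h1] at h
  exact h

theorem j3b_tot {G : AffGrp} {K X L : Type} [Field K] [Algebra ℂ K] [AddCommGroup X] [Finite L]
    (F : (G.pow L).KO K) : tot (AddMonoidAlgebra.single (0 : X) F : MTF.RR G K X L) = F := by
  unfold tot
  rw [AddMonoidAlgebra.coeff_single, Finsupp.sum_single_index rfl]

/-- (row J3b) The moment map: `T := momF Q a lam` (MTF/C2D), `lam v := (m.dm v) i j`, in `AG` by `Fam_mom` (MTF/C2f), `mem_AG`.  `(tot T).1 k = ∑ j, c j * lam (Ad (k a) (D j))` (`momO_apply`), and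
`m.dm_Ad` (MTF/E1), `m.slice`, `m.c_eq`: it is `aK` of the polynomial with value `(π(k a) * sC x * (π (k a))⁻¹) i j` at `x`; `eval_momP` (MTD/Fin), `Th` by unfolding; `m.ax.inv_eq`, `m.ax.det`. -/
theorem mom_in (hfr : ∀ p, m.fr p = aK p) (hT : TQ (tqd G D Db cA)) (b : ℕ) :
    MTXR.MomIn (Th m hT b).range := by
  intro a i j
  let lam : Module.Dual ℂ G.Lie :=
    { toFun := fun v => m.dm v i j
      map_add' := fun v w => by rw [map_add]; rfl
      map_smul' := fun c v => by rw [map_smul]; rfl }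
  have hmem : momF (tqd G D Db cA) a lam ∈ AG hT 0 (fun _ : Fin (b + 1) => true) :=
    (mem_AG hT (fun _ => ⟨0⟩)).2 (Fam_mom hT 0 (fun _ : Fin (b + 1) => true) a lam)
  refine ⟨⟨_, hmem⟩, ?_⟩
  funext y
  have hc : ∀ l, m.c0 l = cA l := fun l => by
    apply RD.aK_inj
    rw [← hfr]
    exact (m.c_eq l).symm
  let k : Fin (b + 1) → G.X := fun a => kG m (y.1 a)
  have hv : vT hT k ⟨_, hmem⟩ = ∑ l, cA l * algebraMap ℂ (AA n) (lam (G.Ad (k a) (Db l))) := by
    apply RD.aK_inj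
    rw [aK_vT, map_sum]
    have h1 : tot (momF (tqd G D Db cA) a lam) = momO (tqd G D Db cA) a lam := by
      rw [momF_apply]
      exact j3b_tot _
    show (tot (momF (tqd G D Db cA) a lam)).1 k = _
    rw [h1, momO_apply]
    refine Finset.sum_congr rfl fun l _ => ?_
    rw [map_mul]
    have h5 : aK (algebraMap ℂ (AA n) (lam (G.Ad (k a) (Db l)))) =
        algebraMap ℂ (KK n) (lam (G.Ad (k a) (Db l))) :=
      (IsScalarTower.algebraMap_apply ℂ (AA n) (KK n) _).symm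
    rw [h5]
    rfl
  show MvPolynomial.aeval (xS m.ax y.2) (vT hT k ⟨_, hmem⟩) = _
  rw [hv, map_sum, MTD.eval_momP]
  have h2 : ∀ l, MvPolynomial.aeval (xS m.ax y.2)
      (cA l * algebraMap ℂ (AA n) (lam (G.Ad (k a) (Db l)))) =
      lam (G.Ad (k a) (MvPolynomial.eval (xS m.ax y.2) (m.c0 l) • Db l)) := by
    intro l
    rw [map_mul, AlgHom.commutes, map_smul, map_smul, hc l]
    rfl
  rw [Finset.sum_congr rfl fun l _ => h2 l, ← map_sum, ← map_sum]
  show m.dm (G.Ad (k a) (∑ l, MvPolynomial.eval (xS m.ax y.2) (m.c0 l) • Db l)) i j = _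
  rw [m.dm_Ad]
  have h3 : m.dm (∑ l, MvPolynomial.eval (xS m.ax y.2) (m.c0 l) • Db l) = y.2.1 := by
    rw [← xS_spec m.ax y.2]
    exact (m.slice _).symm
  rw [h3, kG_spec m (y.1 a)]
  have h4 : ((y.1 a).1)⁻¹ = ((y.1 a).1).adjugate := by
    rw [Matrix.inv_def, m.ax.det _ (y.1 a).2, Ring.inverse_one, one_smul]
  rw [h4]

/-- (row J3b) `AlgEquiv.ofInjective` and `mt_fg` of MTXR/E -/
theorem fin_b (hfr : ∀ p, m.fr p = aK p) (hT : TQ (tqd G D Db cA)) {κ : Type} [Fintype κ] {Ge : Gens N κ}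
    (B : MTXR.GAxR Dt Ge) (b : ℕ) (ht : MTXR.TopIn (Th m hT b).range Ge) :
    FGA hT 0 (fun _ : Fin (b + 1) => true) := by
  have h1 : Algebra.FiniteType ℂ ↥(Th m hT b).range :=
    MTXR.mt_fg m.ax B (range_le m hfr hT b) (mom_in m hfr hT b) ht
  exact Algebra.FiniteType.equiv h1 (AlgEquiv.ofInjective (Th m hT b) (Th_inj m hfr hT b)).symm

/-- (row J3b) every nonempty finite set is in bijection with some `Fin (b + 1)`; `fg_re` (MTF/FG4) -/
theorem fin_all (hfr : ∀ p, m.fr p = aK p) (hT : TQ (tqd G D Db cA)) {κ : Type} [Fintype κ] {Ge : Gens N κ}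
    (B : MTXR.GAxR Dt Ge) (ht : ∀ b, MTXR.TopIn (Th m hT b).range Ge) (L : Type) [Finite L] [DecidableEq L] [Nonempty L] :
    FGA hT 0 (fun _ : L => true) := by
  obtain ⟨b, hb⟩ : ∃ b, Nat.card L = b + 1 := ⟨Nat.card L - 1, by
    have := Nat.card_pos (α := L)
    omega⟩
  let e : Fin (b + 1) ≃ L := (finCongr hb.symm).trans (Finite.equivFin L).symm
  exact fg_re hT e (fun _ => rfl) (fin_b m hfr hT B b (ht b))

end Pool.Agent.MTH
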