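import Pool.Agent.MTH.I2
import Pool.Agent.MTH.J3
import Pool.Agent.MTG.GV3

/-! # MTH-I3 -/

namespace Pool.Agent.MTH

open Matrix
open Pool.Agent.MTF Pool.Agent.MTG
open Pool.Agent.MTD (ev)
open Pool.Agent.MP_c45d35_ag (chi)

open Pool.Agent.MTX.SLD (AA fm0)
open RD (KK aK)
open Pool.Agent.MTD (Idx co XX cf Phi supp Pt Gens)
open Pool.Agent.MTF.AffGrp (inc pu)

variable {G : AffGrp} {n : ℕ} {D : RD n} {C : CD G D} (M : FM C) (S : SL C)
variable {r : ℕ} (Db : Module.Basis (Fin r) ℂ G.Lie) (cA : Fin r → AA n)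

theorem model_fr (hG : G.Semi)
    (hs : ∀ x : Fin n → ℂ, ∑ j, MvPolynomial.eval x (cA j) • Db j = ∑ i, S.sx x i • C.bs i)
    (hinv : ∀ p : AA n, (∀ w : D.W, w • p = p) →
      ∃ q : MvPolynomial (Fin r) ℂ, p = MvPolynomial.aeval cA q) (q : AA n) :
    (model M S Db cA hG hs hinv).fr q = aK q := rfl

theorem model_π (hG : G.Semi)
    (hs : ∀ x : Fin n → ℂ, ∑ j, MvPolynomial.eval x (cA j) • Db j = ∑ i, S.sx x i • C.bs i)
    (hinv : ∀ p : AA n, (∀ w : D.W, w • p = p) →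
      ∃ q : MvPolynomial (Fin r) ℂ, p = MvPolynomial.aeval cA q) (x : G.X) :
    (model M S Db cA hG hs hinv).π x = M.π x := rfl

theorem lam_eq (p : D.SRt → Fin n → ℤ) (α : D.SRt) :
    (gens M p).lam (dat M S) α = ∑ γ ∈ nil D (p α), γ.1 := colJ_wt M (p α)

/-- The algebra of families contains the top elements. -/
theorem top_in (hG : G.Semi)
    (hs : ∀ x : Fin n → ℂ, ∑ j, MvPolynomial.eval x (cA j) • Db j = ∑ i, S.sx x i • C.bs i)
    (hinv : ∀ p : AA n, (∀ w : D.W, w • p = p) →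
      ∃ q : MvPolynomial (Fin r) ℂ, p = MvPolynomial.aeval cA q)
    (h : GIn (D := D) Db cA) (hT : TQ (tqd G D Db cA))
    (p : D.SRt → Fin n → ℤ) (d : D.SRt → ℤ) (hd : ∀ α, 0 < d α)
    (h1 : ∀ α, D.B (p α) α.1.1 = d α) (h2 : ∀ α δ : D.SRt, δ ≠ α → D.B (p α) δ.1.1 = 0) (b : ℕ) :
    MTXR.TopIn (Th (model M S Db cA hG hs hinv) hT b).range (gens M p) := by
  intro α I
  set m := model M S Db cA hG hs hinv with hm
  set l : Fin n → ℤ := ∑ γ ∈ nil D (p α), γ.1 with hl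
  have hlam : (gens M p).lam (dat M S) α = l := lam_eq M S p α
  have hns := nil_sum D α (hd α) (h1 α) (h2 α)
  have hdom : D.Dom l := by
    refine (D.dom_iff _).2 fun δ => ?_
    by_cases hδ : δ = α
    · subst hδ
      exact hns.1.le
    · exact (hns.2 δ hδ).ge
  have hp : ∀ δ : D.SRt, 0 ≤ D.B (p α) δ.1.1 := by
    intro δ
    by_cases hδ : δ = α
    · subst hδ
      rw [h1]
      exact (hd δ).le
    · exact (h2 α δ hδ).ge
  obtain ⟨a, ha⟩ := Dav_inv (G := G) (D := D) Db cA l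
  obtain ⟨T, t1, -, t3, t4⟩ := v_sl_dom (D := D) Db cA h.c_w h.rf (Fin (b + 1)) l hdom
    (fun i => fJ M S (p α) (I i)) (aK a) (aK_mem a) (fun i => ⟨fJ_s1 M S Db cA hs hp (I i), fun x => by
      rw [fJ_apply]
      exact aK_mem _⟩)
  have t5 : ∀ k : Fin (b + 1) → G.X, aK (D.Eu l) * (T.coeff l).1 k =
      aK (∏ i, fJv M S (p α) (I i) (k i)) := by
    intro k
    rw [t4 k]
    have e1 : ∏ i, (fJ M S (p α) (I i)).1 (k i) = aK (∏ i, fJv M S (p α) (I i) (k i)) := by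
      rw [map_prod]
      exact Finset.prod_congr rfl fun i _ => fJ_apply M S (p α) (I i) (k i)
    rw [e1, ha _ (fun w hw => by
      rw [Finset.smul_prod']
      exact Finset.prod_congr rfl fun i _ => fJ_stab M S hG.dom α (hd α) (h1 α) (h2 α) (I i) (k i) w hw)]
    show aK (D.Eu l) * ((aK (D.Eu l))⁻¹ * _) = _
    rw [← mul_assoc, mul_inv_cancel₀ (RD.aK_ne_zero (D.Eu_ne l)), one_mul]
  have hTA : T ∈ AG hT 0 (fun _ : Fin (b + 1) => true) := (mem_AG hT fun _ => ⟨0⟩).2 t1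
  obtain ⟨P, hP⟩ := exists_P m (fun _ => rfl) hT ⟨T, hTA⟩
  have hwt : ∀ μ, (tqd G D Db cA).s 0 (T.coeff μ) = (tqd G D Db cA).val μ • T.coeff μ := by
    intro μ
    have e1 := t1.wt μ 0
    have e2 : sgn true • μ = μ := one_smul ℤ μ
    rw [e2] at e1
    exact e1
  refine ⟨P, ⟨⟨T, hTA⟩, funext fun y => Th_apply m hT ⟨T, hTA⟩ P hP y⟩, ?_, ?_⟩
  · intro κ hκ
    rw [hlam]
    exact D.PiS_le (t3 κ (supp_sub m (fun _ => rfl) P T hwt hP hκ))
  · intro y
    obtain ⟨k, hk⟩ := exists_gx m y.1 y.2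
    have e1 := top_cf m (fun _ => rfl) P T hwt hP l k (D.Eu l) _ (t5 k) y.2
    have e2 : (gx m k y.2, y.2) = y := Prod.ext hk rfl
    rw [e2, eval_Eu M S l hdom, map_prod] at e1
    rw [hlam]
    refine e1.trans (Finset.prod_congr rfl fun i _ => ?_)
    rw [← det_qC M S hG.dom (gax M S hG.dom p d hd h1 h2) α (I i) (k i) y.2.1, ← hk]
    rfl

/-- **Finite generation in genus 0.** -/
theorem hFin (hG : G.Semi)
    (hs : ∀ x : Fin n → ℂ, ∑ j, MvPolynomial.eval x (cA j) • Db j = ∑ i, S.sx x i • C.bs i)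
    (hinv : ∀ p : AA n, (∀ w : D.W, w • p = p) →
      ∃ q : MvPolynomial (Fin r) ℂ, p = MvPolynomial.aeval cA q)
    (h : GIn (D := D) Db cA) (hT : TQ (tqd G D Db cA)) (L : Type) [Finite L] [DecidableEq L] [Nonempty L] :
    FGA hT 0 (fun _ : L => true) := by
  obtain ⟨M⟩ := exists_FM C
  choose p d hd h1 h2 using exists_coweight D
  exact fin_all (model M S Db cA hG hs hinv) (fun _ => rfl) hT (gax M S hG.dom p d hd h1 h2)
    (fun b => top_in M S Db cA hG hs hinv h hT p d hd h1 h2 b) L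

end Pool.Agent.MTH
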