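import Pool.Agent.MTXR.A
import Pool.Agent.MTG.GQ
import Pool.Agent.MTF.E0
import Pool.Agent.MTF.C0

/-! # MTH-J1 -/

namespace Pool.Agent.MTH

open Matrix
open Pool.Agent.MTF Pool.Agent.MTG
open Pool.Agent.MTD (ev)
open Pool.Agent.MP_c45d35_ag (chi)

open Pool.Agent.MTX.SLD (AA fm0)
open RD (KK aK)
open Pool.Agent.MTD (Idx co XX cf Phi supp)
open Pool.Agent.MTF.AffGrp (inc pu)

variable {G : AffGrp} {n N : ℕ} {D : RD n} {ι : Type} [Fintype ι] {Dt : MTD.Dat n N ι} {r : ℕ}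
  {Db : Module.Basis (Fin r) ℂ G.Lie} {cA : Fin r → AA n}
  (m : MTF.Model (tqd G D Db cA) Dt)

/-- the coordinate functions on `G^b`, with values in the fraction field -/
noncomputable def gK {b : ℕ} : Idx N b → (G.pow (Fin b)).KO (KK n)
  | .inl p => pu (KK n) p.1 (inc (KK n) ⟨fun x => m.π x p.2.1 p.2.2, m.ent p.2.1 p.2.2⟩)
  | .inr p => algebraMap (KK n) ((G.pow (Fin b)).KO (KK n)) (aK (Dt.sx p.1 p.2))

/-- the function on `G^b` given by a polynomial in the entries of `g_a` and of the slice element -/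
noncomputable def FP {b : ℕ} (P : MvPolynomial (Idx N b) ℂ) : (G.pow (Fin b)).KO (KK n) :=
  MvPolynomial.aeval (gK m) P

/-- its value, a polynomial on the Cartan subalgebra -/
noncomputable def evP {b : ℕ} (P : MvPolynomial (Idx N b) ℂ) (k : Fin b → G.X) : AA n :=
  MvPolynomial.aeval (Sum.elim (fun p => MvPolynomial.C (m.π (k p.1) p.2.1 p.2.2))
    (fun p => Dt.sx p.1 p.2)) P

theorem mthJ1a_FP_X {b : ℕ} (P : MvPolynomial (Idx N b) ℂ) (i : Idx N b) :
    FP m (P * MvPolynomial.X i) = FP m P * gK m i := by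
  unfold FP
  rw [map_mul, MvPolynomial.aeval_X]

theorem mthJ1a_evP_X {b : ℕ} (P : MvPolynomial (Idx N b) ℂ) (i : Idx N b) (k : Fin b → G.X) :
    evP m (P * MvPolynomial.X i) k = evP m P k *
      Sum.elim (fun p => MvPolynomial.C (m.π (k p.1) p.2.1 p.2.2)) (fun p => Dt.sx p.1 p.2) i := by
  unfold evP
  rw [map_mul, MvPolynomial.aeval_X]

/-- (row J1a) induction on `P` -/
theorem FP_apply {b : ℕ} (P : MvPolynomial (Idx N b) ℂ) (k : Fin b → G.X) :
    (FP m P).1 k = aK (evP m P k) := by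
  induction P using MvPolynomial.induction_on with
  | C a =>
    have h1 : FP m (MvPolynomial.C a : MvPolynomial (Idx N b) ℂ) = algebraMap ℂ _ a :=
      MvPolynomial.aeval_C _ a
    have h2 : evP m (MvPolynomial.C a : MvPolynomial (Idx N b) ℂ) k = algebraMap ℂ (AA n) a :=
      MvPolynomial.aeval_C _ a
    rw [h1, h2]
    show algebraMap ℂ (KK n) a = aK (MvPolynomial.C a)
    exact algebraMap_KK a
  | add p q hp hq =>
    have h1 : FP m (p + q) = FP m p + FP m q := map_add _ _ _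
    have h2 : evP m (p + q) k = evP m p k + evP m q k := map_add _ _ _
    rw [h1, h2, AffGrp.KO_add, map_add, hp, hq]
  | mul_X p i hp =>
    rw [mthJ1a_FP_X, mthJ1a_evP_X, AffGrp.KO_mul, map_mul, hp]
    congr 1
    rcases i with i | i
    · show algebraMap ℂ (KK n) (m.π (k i.1) i.2.1 i.2.2) = aK (MvPolynomial.C _)
      exact algebraMap_KK _
    · rfl

/-- (row J1a) -/
theorem eval_evP {b : ℕ} (P : MvPolynomial (Idx N b) ℂ) (k : Fin b → G.X) (x : Fin n → ℂ) :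
    MvPolynomial.eval x (evP m P k) =
      MvPolynomial.eval (co (fun a => m.π (k a)) (Dt.sC x)) P := by
  induction P using MvPolynomial.induction_on with
  | C a =>
    have h2 : evP m (MvPolynomial.C a : MvPolynomial (Idx N b) ℂ) k = MvPolynomial.C a :=
      MvPolynomial.aeval_C _ a
    rw [h2, MvPolynomial.eval_C, MvPolynomial.eval_C]
  | add p q hp hq =>
    have h2 : evP m (p + q) k = evP m p k + evP m q k := map_add _ _ _
    rw [h2, map_add, map_add, hp, hq]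
  | mul_X p i hp =>
    rw [mthJ1a_evP_X, map_mul, map_mul, hp, MvPolynomial.eval_X]
    congr 1
    rcases i with i | i
    · exact MvPolynomial.eval_C _
    · rfl

/-- The derivation `g_0 ↦ g_0 s` of polynomials. -/
noncomputable def dP (N b : ℕ) : Derivation ℂ (MvPolynomial (Idx N (b + 1)) ℂ) (MvPolynomial (Idx N (b + 1)) ℂ) :=
  MvPolynomial.mkDerivation ℂ (Sum.elim
    (fun p => if p.1 = 0 then ∑ j, MvPolynomial.X (Sum.inl (0, p.2.1, j)) * MvPolynomial.X (Sum.inr (j, p.2.2)) else 0)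
    (fun _ => 0))

theorem mthJ1a_c0 (hfr : ∀ p, m.fr p = aK p) (j : Fin r) : m.c0 j = cA j := by
  apply RD.aK_inj (n := n)
  rw [← hfr]
  exact (m.c_eq j).symm

theorem mthJ1a_sx (hfr : ∀ p, m.fr p = aK p) (q l : Fin N) :
    Dt.sx q l = ∑ j, cA j * MvPolynomial.C ((Db j).1 ⟨_, m.ent q l⟩) := by
  apply MvPolynomial.funext
  intro x
  have h1 := congrFun (congrFun (m.slice x) q) l
  have h2 : Dt.sC x q l = MvPolynomial.eval x (Dt.sx q l) := rfl
  rw [h2] at h1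
  rw [h1, map_sum, map_sum, Matrix.sum_apply]
  refine Finset.sum_congr rfl fun j _ => ?_
  rw [map_smul, Matrix.smul_apply, smul_eq_mul, map_mul, MvPolynomial.eval_C, mthJ1a_c0 m hfr]
  rfl

theorem mthJ1a_val (hfr : ∀ p, m.fr p = aK p) (q l : Fin N) :
    ∑ j, aK (cA j) * algebraMap ℂ (KK n) ((Db j).1 ⟨_, m.ent q l⟩) = aK (Dt.sx q l) := by
  rw [mthJ1a_sx m hfr q l, map_sum]
  refine Finset.sum_congr rfl fun j _ => ?_
  rw [map_mul, algebraMap_KK]

theorem mthJ1a_lt (x : G.X) (i l : Fin N) :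
    G.lt x ⟨_, m.ent i l⟩ = ∑ q, m.π x i q • (⟨_, m.ent q l⟩ : G.O) := by
  apply Subtype.ext
  funext y
  rw [AddSubmonoidClass.coe_finsetSum, Finset.sum_apply]
  show m.π (x * y) i l = _
  rw [map_mul, Matrix.mul_apply]
  rfl

theorem mthJ1a_s1 (hfr : ∀ p, m.fr p = aK p) (x : G.X) (i l : Fin N) :
    ((tqd G D Db cA).s1 (inc (KK n) ⟨_, m.ent i l⟩)).1 x =
      ∑ q, algebraMap ℂ (KK n) (m.π x i q) * aK (Dt.sx q l) := by
  rw [s1_apply]
  have h1 : ∀ j, (tqd G D Db cA).c j * AffGrp.ext (KK n) ((tqd G D Db cA).D j).1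
      (AffGrp.ltK x (inc (KK n) ⟨_, m.ent i l⟩)) =
      ∑ q, algebraMap ℂ (KK n) (m.π x i q) *
        (aK (cA j) * algebraMap ℂ (KK n) ((Db j).1 ⟨_, m.ent q l⟩)) := by
    intro j
    have h2 : AffGrp.ltK x (inc (KK n) ⟨_, m.ent i l⟩) = inc (KK n) (G.lt x ⟨_, m.ent i l⟩) := rfl
    rw [h2, AffGrp.ext_inc, mthJ1a_lt]
    show aK (cA j) * algebraMap ℂ (KK n) ((Db j).1 _) = _
    rw [map_sum, map_sum, Finset.mul_sum]
    refine Finset.sum_congr rfl fun q _ => ?_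
    rw [map_smul, smul_eq_mul, map_mul]
    ring
  refine (Finset.sum_congr rfl fun j _ => h1 j).trans ?_
  rw [Finset.sum_comm]
  refine Finset.sum_congr rfl fun q _ => ?_
  rw [← Finset.mul_sum]
  exact congrArg (fun z => algebraMap ℂ (KK n) (m.π x i q) * z) (mthJ1a_val m hfr q l)

theorem mthJ1a_gen (hfr : ∀ p, m.fr p = aK p) {b : ℕ} (i : Idx N (b + 1)) :
    (tqd G D Db cA).s 0 (gK m i) = FP m (dP N b (MvPolynomial.X i)) := by
  have hX : dP N b (MvPolynomial.X i) = (Sum.elim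
      (fun p => if p.1 = 0 then ∑ j, MvPolynomial.X (Sum.inl (0, p.2.1, j)) *
        MvPolynomial.X (Sum.inr (j, p.2.2)) else 0)
      (fun _ => 0) : Idx N (b + 1) → MvPolynomial (Idx N (b + 1)) ℂ) i :=
    MvPolynomial.mkDerivation_X _ _ _
  have h0 : FP m (0 : MvPolynomial (Idx N (b + 1)) ℂ) = 0 := map_zero _
  rw [hX]
  rcases i with ⟨a, i, l⟩ | i
  · show (tqd G D Db cA).s 0 (pu (KK n) a (inc (KK n) ⟨fun x => m.π x i l, m.ent i l⟩)) =
      FP m (if a = 0 then ∑ j, MvPolynomial.X (Sum.inl (0, i, j)) *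
        MvPolynomial.X (Sum.inr (j, l)) else 0)
    by_cases ha : a = 0
    · subst ha
      rw [if_pos rfl]
      apply AffGrp.KO_ext
      intro k
      rw [s_apply]
      have h1 : AffGrp.sl (KK n) k 0 (pu (KK n) 0 (inc (KK n) ⟨fun x => m.π x i l, m.ent i l⟩)) =
          inc (KK n) ⟨fun x => m.π x i l, m.ent i l⟩ := by
        apply AffGrp.KO_ext
        intro h
        rw [AffGrp.sl_apply, AffGrp.pu_apply, Function.update_self]
      rw [h1, mthJ1a_s1 m hfr, FP_apply]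
      have h2 : evP m (∑ j, MvPolynomial.X (Sum.inl (0, i, j)) * MvPolynomial.X (Sum.inr (j, l)) :
          MvPolynomial (Idx N (b + 1)) ℂ) k = ∑ j, MvPolynomial.C (m.π (k 0) i j) * Dt.sx j l := by
        unfold evP
        rw [map_sum]
        refine Finset.sum_congr rfl fun j _ => ?_
        rw [map_mul, MvPolynomial.aeval_X, MvPolynomial.aeval_X]
        rfl
      rw [h2, map_sum]
      refine Finset.sum_congr rfl fun j _ => ?_
      rw [map_mul, algebraMap_KK]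
    · rw [if_neg ha, h0]
      apply AffGrp.KO_ext
      intro k
      rw [s_apply]
      have h1 : AffGrp.sl (KK n) k 0 (pu (KK n) a (inc (KK n) ⟨fun x => m.π x i l, m.ent i l⟩)) =
          algebraMap (KK n) (G.KO (KK n)) (algebraMap ℂ (KK n) (m.π (k a) i l)) := by
        apply AffGrp.KO_ext
        intro h
        rw [AffGrp.sl_apply, AffGrp.pu_apply, Function.update_of_ne ha]
        rfl
      rw [h1, s1_const]
      rfl
  · show (tqd G D Db cA).s 0 (algebraMap (KK n) _ (aK (Dt.sx i.1 i.2))) = FP m 0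
    rw [s_const, h0]

/-- (row J1a) The derivation `s` in the leg `0` on the functions given by polynomials.  Both sides are derivations along the algebra homomorphism `FP` (`s_leib`, `s_const` of MTF/C0); induction on `P`
(`MvPolynomial.induction_on`).  On a generator `inl (a, i, l)`: `s_apply`, `s1_apply`, the slice of `pu a` in the leg `0` is constant for `a ≠ 0` (`s1_const`); for `a = 0`:
`(s1 F).1 x = ∑ j, c j * (Db j) (lt x f)`, `f = ent i l`, `lt x f = ∑ q, (m.π x i q) • ent q l`, and `∑ j, aK (cA j) * algebraMap ((Db j).1 (ent q l)) = aK (Dt.sx q l)`, as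
`Dt.sx q l = ∑ j, cA j * C ((Db j).1 (ent q l))` by `MvPolynomial.funext`, `m.slice` (`sC x` is `sx.map (eval x)`; `m.c0 = cA` by `m.c_eq` and injectivity: hypothesis `hfr`). -/
theorem s_FP (hfr : ∀ p, m.fr p = aK p) {b : ℕ} (P : MvPolynomial (Idx N (b + 1)) ℂ) :
    (tqd G D Db cA).s 0 (FP m P) = FP m (dP N b P) := by
  induction P using MvPolynomial.induction_on with
  | C a =>
    have h1 : FP m (MvPolynomial.C a : MvPolynomial (Idx N (b + 1)) ℂ) =
        algebraMap (KK n) _ (algebraMap ℂ (KK n) a) := by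
      rw [← IsScalarTower.algebraMap_apply]
      exact MvPolynomial.aeval_C _ a
    have h2 : dP N b (MvPolynomial.C a) = 0 := MvPolynomial.derivation_C _ a
    have h3 : FP m (0 : MvPolynomial (Idx N (b + 1)) ℂ) = 0 := map_zero _
    rw [h1, s_const, h2, h3]
  | add p q hp hq =>
    have h1 : FP m (p + q) = FP m p + FP m q := map_add _ _ _
    have h2 : FP m (dP N b (p + q)) = FP m (dP N b p) + FP m (dP N b q) := by
      rw [map_add (dP N b)]
      exact map_add _ _ _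
    rw [h1, h2, map_add, hp, hq]
  | mul_X p i hp =>
    have h1 : FP m (dP N b (p * MvPolynomial.X i)) =
        FP m p * FP m (dP N b (MvPolynomial.X i)) + gK m i * FP m (dP N b p) := by
      rw [(dP N b).leibniz, smul_eq_mul, smul_eq_mul]
      have h2 : FP m (MvPolynomial.X i) = gK m i := MvPolynomial.aeval_X _ i
      rw [← h2]
      unfold FP
      rw [map_add, map_mul, map_mul]
    rw [mthJ1a_FP_X, s_leib, h1, hp, mthJ1a_gen m hfr i]

set_option linter.unusedSectionVars false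

/-- the derivation `T_μ ↦ μ(x) T_μ` of the Laurent ring -/
noncomputable def J1b_E (Dt : MTD.Dat n N ι) (b : ℕ) (L : MTD.LL Dt b) : MTD.LL Dt b :=
  L.coeff.sum fun μ f => AddMonoidAlgebra.single μ (fun y => ev μ y.2.1 * f y)

theorem J1b_single_zero {b : ℕ} (μ : Fin n → ℤ) :
    (AddMonoidAlgebra.single μ (fun y : XX Dt (b + 1) => ev μ y.2.1 * (0 : XX Dt (b + 1) → ℂ) y) :
      MTD.LL Dt b) = 0 := by
  have h1 : (fun y : XX Dt (b + 1) => ev μ y.2.1 * (0 : XX Dt (b + 1) → ℂ) y) = 0 := by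
    funext y
    show ev μ y.2.1 * (0 : ℂ) = 0
    rw [mul_zero]
  rw [h1, AddMonoidAlgebra.single_zero]

theorem J1b_E_single {b : ℕ} (μ : Fin n → ℤ) (f : XX Dt (b + 1) → ℂ) :
    J1b_E Dt b (AddMonoidAlgebra.single μ f) =
      AddMonoidAlgebra.single μ (fun y => ev μ y.2.1 * f y) := by
  unfold J1b_E
  rw [AddMonoidAlgebra.coeff_single]
  exact Finsupp.sum_single_index (J1b_single_zero μ)

theorem J1b_E_zero {b : ℕ} : J1b_E Dt b 0 = 0 := by
  unfold J1b_E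
  rw [AddMonoidAlgebra.coeff_zero]
  exact Finsupp.sum_zero_index

theorem J1b_E_add {b : ℕ} (L L' : MTD.LL Dt b) :
    J1b_E Dt b (L + L') = J1b_E Dt b L + J1b_E Dt b L' := by
  classical
  unfold J1b_E
  rw [AddMonoidAlgebra.coeff_add]
  refine Finsupp.sum_add_index' (fun μ => J1b_single_zero μ) (fun μ f g => ?_)
  rw [← AddMonoidAlgebra.single_add]
  congr 1
  funext y
  show ev μ y.2.1 * (f y + g y) = ev μ y.2.1 * f y + ev μ y.2.1 * g y
  rw [mul_add]

theorem J1b_E_sum {b : ℕ} {κ : Type} (s : Finset κ) (L : κ → MTD.LL Dt b) :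
    J1b_E Dt b (∑ i ∈ s, L i) = ∑ i ∈ s, J1b_E Dt b (L i) := by
  classical
  induction s using Finset.induction_on with
  | empty => rw [Finset.sum_empty, Finset.sum_empty, J1b_E_zero]
  | insert a s ha ih => rw [Finset.sum_insert ha, Finset.sum_insert ha, J1b_E_add, ih]

theorem J1b_E_coeff {b : ℕ} (L : MTD.LL Dt b) (μ : Fin n → ℤ) (y : XX Dt (b + 1)) :
    (J1b_E Dt b L).coeff μ y = ev μ y.2.1 * L.coeff μ y := by
  classical
  induction L using AddMonoidAlgebra.induction_linear with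
  | zero =>
    rw [J1b_E_zero, AddMonoidAlgebra.coeff_zero]
    show (0 : ℂ) = _ * 0
    rw [mul_zero]
  | add L L' h h' =>
    rw [J1b_E_add, AddMonoidAlgebra.coeff_add, AddMonoidAlgebra.coeff_add, Finsupp.add_apply,
      Finsupp.add_apply, Pi.add_apply, Pi.add_apply, h, h', mul_add]
  | single ν f =>
    rw [J1b_E_single, AddMonoidAlgebra.coeff_single, AddMonoidAlgebra.coeff_single,
      Finsupp.single_apply, Finsupp.single_apply]
    split_ifs with h
    · rw [h]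
    · show (0 : ℂ) = _ * 0
      rw [mul_zero]

theorem J1b_ev_add (μ ν : Fin n → ℤ) (x : Fin n → ℂ) : ev (μ + ν) x = ev μ x + ev ν x := by
  unfold ev
  rw [← Finset.sum_add_distrib]
  refine Finset.sum_congr rfl fun k _ => ?_
  rw [Pi.add_apply, Int.cast_add, add_mul]

theorem J1b_ev_zero (x : Fin n → ℂ) : ev (0 : Fin n → ℤ) x = 0 := by
  unfold ev
  refine Finset.sum_eq_zero fun k _ => ?_
  rw [Pi.zero_apply, Int.cast_zero, zero_mul]

theorem J1b_E_mul {b : ℕ} (L L' : MTD.LL Dt b) :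
    J1b_E Dt b (L * L') = L * J1b_E Dt b L' + L' * J1b_E Dt b L := by
  induction L using AddMonoidAlgebra.induction_linear with
  | zero => rw [zero_mul, J1b_E_zero, zero_mul, mul_zero, add_zero]
  | add L1 L2 h1 h2 =>
    rw [add_mul, J1b_E_add, J1b_E_add, h1, h2, add_mul, mul_add]
    abel
  | single μ f =>
    induction L' using AddMonoidAlgebra.induction_linear with
    | zero => rw [mul_zero, J1b_E_zero, zero_mul, mul_zero, add_zero]
    | add L1 L2 h1 h2 =>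
      rw [mul_add, J1b_E_add, J1b_E_add, h1, h2, mul_add, add_mul]
      abel
    | single ν g =>
      rw [AddMonoidAlgebra.single_mul_single, J1b_E_single, J1b_E_single, J1b_E_single,
        AddMonoidAlgebra.single_mul_single, AddMonoidAlgebra.single_mul_single, add_comm ν μ,
        ← AddMonoidAlgebra.single_add]
      congr 1
      funext y
      show ev (μ + ν) y.2.1 * (f y * g y) = f y * (ev ν y.2.1 * g y) + g y * (ev μ y.2.1 * f y)
      rw [J1b_ev_add]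
      ring

theorem J1b_E_single0 {b : ℕ} (f : XX Dt (b + 1) → ℂ) :
    J1b_E Dt b (AddMonoidAlgebra.single 0 f) = 0 := by
  rw [J1b_E_single]
  have h1 : (fun y : XX Dt (b + 1) => ev (0 : Fin n → ℤ) y.2.1 * f y) = 0 := by
    funext y
    rw [J1b_ev_zero, zero_mul]
    rfl
  rw [h1, AddMonoidAlgebra.single_zero]

theorem J1b_Lx_sum {b : ℕ} {κ : Type} (s : Finset κ) (P : κ → MvPolynomial (Idx N (b + 1)) ℂ) :
    MTD.Lx Dt (∑ i ∈ s, P i) = ∑ i ∈ s, MTD.Lx Dt (P i) := map_sum _ _ _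

theorem J1b_Lx_mul {b : ℕ} (P P' : MvPolynomial (Idx N (b + 1)) ℂ) :
    MTD.Lx Dt (P * P') = MTD.Lx Dt P * MTD.Lx Dt P' := map_mul _ _ _

theorem J1b_Lx_add {b : ℕ} (P P' : MvPolynomial (Idx N (b + 1)) ℂ) :
    MTD.Lx Dt (P + P') = MTD.Lx Dt P + MTD.Lx Dt P' := map_add _ _ _

theorem J1b_Lx_zero {b : ℕ} : MTD.Lx Dt (0 : MvPolynomial (Idx N (b + 1)) ℂ) = 0 := map_zero _

theorem J1b_Lx_X {b : ℕ} (i : Idx N (b + 1)) :
    MTD.Lx Dt (MvPolynomial.X i : MvPolynomial (Idx N (b + 1)) ℂ) = MTD.genL Dt b i :=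
  MvPolynomial.aeval_X _ _

/-- `q⁻¹ s = x q⁻¹` -/
theorem J1b_conj (A : MTXD.Ax Dt) (x : Dt.RegX) :
    (Dt.qC x.1)⁻¹ * Dt.sC x.1 = Dt.Dx x.1 * (Dt.qC x.1)⁻¹ := by
  have h1 := A.qC_conj x.2
  have h2 := A.mul_inv (A.qC_isG x.1)
  have h3 := A.inv_mul (A.qC_isG x.1)
  calc (Dt.qC x.1)⁻¹ * Dt.sC x.1 = (Dt.qC x.1)⁻¹ * (Dt.sC x.1 * (Dt.qC x.1 * (Dt.qC x.1)⁻¹)) := by
        rw [h2, Matrix.mul_one]
    _ = (Dt.qC x.1)⁻¹ * (Dt.sC x.1 * Dt.qC x.1) * (Dt.qC x.1)⁻¹ := by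
        simp only [Matrix.mul_assoc]
    _ = (Dt.qC x.1)⁻¹ * (Dt.qC x.1 * Dt.Dx x.1) * (Dt.qC x.1)⁻¹ := by rw [h1]
    _ = ((Dt.qC x.1)⁻¹ * Dt.qC x.1) * Dt.Dx x.1 * (Dt.qC x.1)⁻¹ := by
        simp only [Matrix.mul_assoc]
    _ = _ := by rw [h3, Matrix.one_mul]

theorem J1b_genl {b : ℕ} (a : Fin (b + 1)) (i l : Fin N) :
    MTD.genL Dt b (Sum.inl (a, i, l)) = ∑ q, AddMonoidAlgebra.single
        (if a = 0 then Dt.wt q else 0) (fun y => (y.1 a).1 i q * (Dt.qC y.2.1)⁻¹ q l) := rfl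

theorem J1b_genl0 {b : ℕ} (i l : Fin N) :
    MTD.genL Dt b (Sum.inl (0, i, l)) = ∑ q, AddMonoidAlgebra.single
        (Dt.wt q) (fun y => (y.1 0).1 i q * (Dt.qC y.2.1)⁻¹ q l) := by
  rw [J1b_genl]
  refine Finset.sum_congr rfl fun q _ => ?_
  rw [if_pos rfl]

theorem J1b_genr {b : ℕ} (j l : Fin N) :
    MTD.genL Dt b (Sum.inr (j, l)) = AddMonoidAlgebra.single 0 (fun y => Dt.sC y.2.1 j l) := rfl

theorem J1b_mulS {b : ℕ} (μ : Fin n → ℤ) (f g : XX Dt (b + 1) → ℂ) :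
    (AddMonoidAlgebra.single μ f * AddMonoidAlgebra.single 0 g : MTD.LL Dt b) =
      AddMonoidAlgebra.single μ (fun y => f y * g y) := by
  rw [AddMonoidAlgebra.single_mul_single, add_zero, Pi.mul_def]

theorem J1b_sumS {b : ℕ} {κ : Type} (s : Finset κ) (μ : Fin n → ℤ) (f : κ → XX Dt (b + 1) → ℂ) :
    (∑ j ∈ s, AddMonoidAlgebra.single μ (f j) : MTD.LL Dt b) =
      AddMonoidAlgebra.single μ (fun y => ∑ j ∈ s, f j y) := by
  classical
  induction s using Finset.induction_on with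
  | empty =>
    rw [Finset.sum_empty]
    exact (AddMonoidAlgebra.single_zero μ).symm
  | insert a s ha ih =>
    rw [Finset.sum_insert ha, ih, ← AddMonoidAlgebra.single_add]
    congr 1
    funext y
    rw [Finset.sum_insert ha, Pi.add_apply]

theorem J1b_gen0 (A : MTXD.Ax Dt) {b : ℕ} (i l : Fin N) :
    ∑ j, MTD.genL Dt b (Sum.inl (0, i, j)) * MTD.genL Dt b (Sum.inr (j, l)) =
      J1b_E Dt b (MTD.genL Dt b (Sum.inl (0, i, l))) := by
  rw [J1b_genl0, J1b_E_sum]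
  have h2 : ∀ j : Fin N, MTD.genL Dt b (Sum.inl (0, i, j)) * MTD.genL Dt b (Sum.inr (j, l)) =
      ∑ q, AddMonoidAlgebra.single (Dt.wt q) (fun y => ((y.1 0).1 i q * (Dt.qC y.2.1)⁻¹ q j) *
        Dt.sC y.2.1 j l) := by
    intro j
    rw [J1b_genl0, J1b_genr, Finset.sum_mul]
    exact Finset.sum_congr rfl fun q _ => J1b_mulS _ _ _
  rw [Finset.sum_congr rfl fun j _ => h2 j, Finset.sum_comm]
  refine Finset.sum_congr rfl fun q _ => ?_
  rw [J1b_sumS, J1b_E_single]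
  congr 1
  funext y
  have h4 := congrFun (congrFun (J1b_conj A y.2) q) l
  rw [Matrix.mul_apply, MTD.Dat.Dx, Matrix.diagonal_mul] at h4
  have h5 : ∑ j : Fin N, (y.1 0).1 i q * (Dt.qC y.2.1)⁻¹ q j * Dt.sC y.2.1 j l =
      (y.1 0).1 i q * ∑ j : Fin N, (Dt.qC y.2.1)⁻¹ q j * Dt.sC y.2.1 j l := by
    rw [Finset.mul_sum]
    exact Finset.sum_congr rfl fun j _ => by ring
  rw [h5, h4]
  ring

theorem J1b_dP {b : ℕ} (i : Idx N (b + 1)) : dP N b (MvPolynomial.X i) = (Sum.elim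
      (fun p => if p.1 = 0 then ∑ j, MvPolynomial.X (Sum.inl (0, p.2.1, j)) *
        MvPolynomial.X (Sum.inr (j, p.2.2)) else 0)
      (fun _ => 0) : Idx N (b + 1) → MvPolynomial (Idx N (b + 1)) ℂ) i :=
  MvPolynomial.mkDerivation_X _ _ _

theorem J1b_gen (A : MTXD.Ax Dt) {b : ℕ} (i : Idx N (b + 1)) :
    MTD.Lx Dt (dP N b (MvPolynomial.X i)) = J1b_E Dt b (MTD.genL Dt b i) := by
  rw [J1b_dP]
  rcases i with ⟨a, i, l⟩ | ⟨i, j⟩
  · rw [Sum.elim_inl]
    by_cases ha : a = 0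
    · subst ha
      rw [if_pos rfl, J1b_Lx_sum, ← J1b_gen0 A]
      refine Finset.sum_congr rfl fun j _ => ?_
      rw [J1b_Lx_mul, J1b_Lx_X, J1b_Lx_X]
    · rw [if_neg ha, J1b_genl, J1b_E_sum, J1b_Lx_zero]
      refine (Finset.sum_eq_zero fun q _ => ?_).symm
      rw [if_neg ha, J1b_E_single0]
  · rw [Sum.elim_inr, J1b_Lx_zero, J1b_genr, J1b_E_single0]

theorem J1b_main (A : MTXD.Ax Dt) {b : ℕ} (P : MvPolynomial (Idx N (b + 1)) ℂ) :
    MTD.Lx Dt (dP N b P) = J1b_E Dt b (MTD.Lx Dt P) := by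
  induction P using MvPolynomial.induction_on with
  | C a =>
    have h1 : dP N b (MvPolynomial.C a) = 0 := MvPolynomial.derivation_C _ _
    have h2 : MTD.Lx Dt (MvPolynomial.C a : MvPolynomial (Idx N (b + 1)) ℂ) =
        AddMonoidAlgebra.single 0 (fun _ => a) := MvPolynomial.aeval_C _ _
    rw [h1, J1b_Lx_zero, h2, J1b_E_single0]
  | add p q hp hq => rw [map_add, J1b_Lx_add, J1b_Lx_add, J1b_E_add, hp, hq]
  | mul_X p i hp =>
    rw [Derivation.leibniz, smul_eq_mul, smul_eq_mul, J1b_Lx_add, J1b_Lx_mul, J1b_Lx_mul,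
      J1b_Lx_mul, J1b_E_mul, hp, J1b_gen A, J1b_Lx_X]

/-- (row J1b) The coefficient functions.  Let `E` be the additive map of `LL Dt b = AddMonoidAlgebra (XX → ℂ) (Fin n → ℤ)` with `E (single μ f) = single μ (fun y => ev μ y.2.1 * f y)`; it is a derivation
(`ev_add_left`) and `Lx (dP P) = E (Lx P)`, by induction on `P`: on the generators `inl (0, i, l)`: `genL = ∑ j, single (wt j) (g_ij (q⁻¹)_jl)`, and `q⁻¹ s = Dx x q⁻¹` (`qC_conj` for `x` regular: `XX` is `G^b × RegX`;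
`qC_isG`, `A.inv_mul`/`A.mul_inv`). `cf P μ` is the `μ`-coefficient of `Lx P`. -/
theorem cf_dP (A : MTXD.Ax Dt) {b : ℕ} (P : MvPolynomial (Idx N (b + 1)) ℂ) (μ : Fin n → ℤ) (y : XX Dt (b + 1)) :
    cf Dt (dP N b P) μ y = ev μ y.2.1 * cf Dt P μ y := by
  show (MTD.Lx Dt (dP N b P)).coeff μ y = ev μ y.2.1 * (MTD.Lx Dt P).coeff μ y
  rw [J1b_main A, J1b_E_coeff]

theorem eq_zero_of_pow_eq_zero_j1c {z : ℂ} {k : ℕ} (h : z ^ k = 0) : z = 0 := by
  by_contra hz
  exact pow_ne_zero k hz h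

theorem j1c_eval_fm0 (μ : Fin n → ℤ) (x : Fin n → ℂ) :
    MvPolynomial.eval x (fm0 μ : AA n) = ev μ x := by
  unfold fm0
  simp [MTX.lin, ev]

/-- the product of the roots -/
noncomputable def j1cD (Dt : MTD.Dat n N ι) : AA n := ∏ β, fm0 (Dt.rt β)

theorem j1c_eval_D (x : Fin n → ℂ) :
    MvPolynomial.eval x (j1cD Dt) = ∏ β, ev (Dt.rt β) x := by
  unfold j1cD
  rw [map_prod]
  exact Finset.prod_congr rfl fun β _ => j1c_eval_fm0 _ _

theorem j1c_frac {f : Dt.RegX → ℂ} (hf : f ∈ MTD.Rt Dt id ∅) :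
    ∃ (p : AA n) (k : ℕ), ∀ x : Dt.RegX,
      f x * MvPolynomial.eval x.1 (j1cD Dt) ^ k = MvPolynomial.eval x.1 p := by
  classical
  unfold MTD.Rt at hf
  induction hf using Algebra.adjoin_induction with
  | mem f hf =>
    rcases hf with (hf | ⟨k, rfl⟩) | ⟨β, rfl⟩
    · exact absurd hf (Set.notMem_empty _)
    · exact ⟨MvPolynomial.X k, 0, fun x => by simp⟩
    · refine ⟨∏ γ ∈ Finset.univ.erase β, fm0 (Dt.rt γ), 1, fun x => ?_⟩
      have h1 : MvPolynomial.eval x.1 (fm0 (Dt.rt β)) ≠ 0 := by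
        rw [j1c_eval_fm0]; exact x.2 β
      rw [j1cD, ← Finset.mul_prod_erase Finset.univ _ (Finset.mem_univ β), map_mul, pow_one,
        ← mul_assoc]
      have h2 : (ev (Dt.rt β) (id x : Dt.RegX).1)⁻¹ * MvPolynomial.eval x.1 (fm0 (Dt.rt β)) = 1 := by
        rw [j1c_eval_fm0]
        exact inv_mul_cancel₀ (x.2 β)
      rw [h2, one_mul]
  | algebraMap r => exact ⟨MvPolynomial.C r, 0, fun x => by simp⟩
  | add f g _ _ hf hg =>
    obtain ⟨p, k, hp⟩ := hf
    obtain ⟨q, l, hq⟩ := hg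
    refine ⟨p * j1cD Dt ^ l + q * j1cD Dt ^ k, k + l, fun x => ?_⟩
    rw [Pi.add_apply, map_add, map_mul, map_mul, map_pow, map_pow, ← hp x, ← hq x, pow_add]
    ring
  | mul f g _ _ hf hg =>
    obtain ⟨p, k, hp⟩ := hf
    obtain ⟨q, l, hq⟩ := hg
    refine ⟨p * q, k + l, fun x => ?_⟩
    rw [Pi.mul_apply, map_mul, ← hp x, ← hq x, pow_add]
    ring

/-- (row J1c) The functions in `Rt Dt id ∅` are rational functions with denominators a product of roots: for `f` in it there are `p : MvPolynomial (Fin n) ℂ` and `k : ℕ` with `f x * (∏ β, ev (rt β) x) ^ k = eval x p` for all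
regular `x` (`Algebra.adjoin_induction`).  Then `q * p * ∏ β, (linear form of rt β)` vanishes at all points `x` (regular or not), so it is `0` (`MvPolynomial.funext`), so `p = 0` (`A`: the roots are not zero). -/
theorem rt_zero (A : MTXD.Ax Dt) {f : Dt.RegX → ℂ} (hf : f ∈ MTD.Rt Dt id ∅) {q : AA n} (hq : q ≠ 0)
    (h : ∀ x : Dt.RegX, MvPolynomial.eval x.1 q * f x = 0) : f = 0 := by
  obtain ⟨p, k, hp⟩ := j1c_frac hf
  have hD : (j1cD Dt : AA n) ≠ 0 := by
    unfold j1cD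
    exact Finset.prod_ne_zero_iff.2 fun β _ => MTX.SLD.fm0_ne_zero fun h0 => by
      have h1 := A.lexpos β
      rw [h0] at h1
      exact lt_irrefl _ h1
  have h1 : q * p * j1cD Dt = 0 := by
    refine MvPolynomial.funext fun x => ?_
    rw [map_zero, map_mul, map_mul]
    by_cases hx : Dt.Reg x
    · have h2 := h ⟨x, hx⟩
      have h3 := hp ⟨x, hx⟩
      simp only [] at h2 h3
      rw [← h3]
      linear_combination MvPolynomial.eval x (j1cD Dt) ^ (k + 1) * h2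
    · have h2 : MvPolynomial.eval x (j1cD Dt) = 0 := by
        rw [j1c_eval_D]
        have h3 : ∃ β, ev (Dt.rt β) x = 0 := by
          by_contra h4
          push Not at h4
          exact hx h4
        obtain ⟨β, hβ⟩ := h3
        exact Finset.prod_eq_zero (Finset.mem_univ β) hβ
      rw [h2, mul_zero]
  have h2 : p = 0 := by
    rcases mul_eq_zero.1 h1 with h3 | h3
    · exact (mul_eq_zero.1 h3).resolve_left hq
    · exact absurd h3 hD
  funext x
  have h3 := hp x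
  rw [h2, map_zero] at h3
  rcases mul_eq_zero.1 h3 with h4 | h4
  · exact h4
  · exfalso
    have h5 : MvPolynomial.eval x.1 (j1cD Dt) = 0 := eq_zero_of_pow_eq_zero_j1c h4
    rw [j1c_eval_D] at h5
    obtain ⟨β, _, hβ⟩ := Finset.prod_eq_zero_iff.1 h5
    exact x.2 β hβ

/-- the point `(g_a) = (π (k_a) q(x))` -/
noncomputable def gx {b : ℕ} (k : Fin b → G.X) (x : Dt.RegX) : Fin b → Dt.Gs := fun a =>
  ⟨m.π (k a) * Dt.qC x.1, m.ax.mul _ _ (m.mem _) (m.ax.qC_isG x.1)⟩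

/-- (row J1c) `cf_mem` (MTX/D/Exp2), composed with `x ↦ (gx k x, x)`: the coordinate functions in `gS` become `∑ j, π(k_a)_{ij} q(x)_{jl}` (`Rt_qC`); `Algebra.adjoin_induction`. -/
theorem cf_rt {b : ℕ} (k : Fin (b + 1) → G.X) (P : MvPolynomial (Idx N (b + 1)) ℂ) (μ : Fin n → ℤ) :
    (fun x : Dt.RegX => cf Dt P μ (gx m k x, x)) ∈ MTD.Rt Dt id ∅ := by
  have h1 := MTD.Rt_comp (D := Dt) (X := fun y : XX Dt (b + 1) => y.2)
    (S := MTD.gS Dt (b + 1)) (S' := (∅ : Set (Dt.RegX → ℂ)))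
    (fun x : Dt.RegX => ((gx m k x, x) : XX Dt (b + 1))) (by
      rintro f ⟨a, i, j, rfl⟩
      exact MTD.Rt_mul (D := Dt) (A := fun _ : Dt.RegX => m.π (k a))
        (B := fun x : Dt.RegX => Dt.qC x.1)
        (fun i j => MTD.Rt_const _ _ _) (MTXD.Rt_qC m.ax _ _) i j)
    (cf Dt P μ) (MTXD.cf_mem m.ax P μ)
  exact h1

/-- (row J1c) at `t = 1`: `Phi P (gx k x, x) 1 = eval (co (π(k_a) q q⁻¹) (sC x)) P` -/
theorem sum_cf {b : ℕ} (k : Fin (b + 1) → G.X) (P : MvPolynomial (Idx N (b + 1)) ℂ) (x : Dt.RegX)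
    {s : Finset (Fin n → ℤ)} (hs : supp Dt P ⊆ s) :
    ∑ μ ∈ s, cf Dt P μ (gx m k x, x) = MvPolynomial.eval x.1 (evP m P k) := by
  have h1 := MTD.Phi_eq_sum hs ((gx m k x, x) : XX Dt (b + 1)) 1
  simp only [Pool.Agent.MP_c45d35_ag.chi_one, Units.val_one, mul_one] at h1
  rw [← h1, eval_evP]
  unfold Phi
  have h3 : (fun a => ((gx m k x) a).1 * (if a = 0 then (Dt.Tt (1 : Fin n → ℂˣ) :
      Matrix (Fin N) (Fin N) ℂ) else 1) * (Dt.qC x.1)⁻¹) = fun a => m.π (k a) := by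
    funext a
    have h2 : (if a = 0 then Dt.Tt (1 : Fin n → ℂˣ) else 1 : Matrix (Fin N) (Fin N) ℂ) = 1 := by
      split_ifs
      · exact Dt.Tt_one
      · rfl
    rw [h2, Matrix.mul_one]
    change m.π (k a) * Dt.qC x.1 * (Dt.qC x.1)⁻¹ = m.π (k a)
    rw [Matrix.mul_assoc, m.ax.mul_inv (m.ax.qC_isG x.1), Matrix.mul_one]
  have h4 := congrArg (fun g => MvPolynomial.eval (co g (Dt.sC x.1)) P) h3
  exact h4

/-- the product of the differences -/
noncomputable def dd (s : Finset (Fin n → ℤ)) (μ : Fin n → ℤ) : AA n := ∏ ν ∈ s.erase μ, fm0 (μ - ν)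

/-- the interpolation polynomial -/
noncomputable def j1dL (s : Finset (Fin n → ℤ)) (μ : Fin n → ℤ) : Polynomial (AA n) :=
  ∏ ν ∈ s.erase μ, (Polynomial.X - Polynomial.C (fm0 ν))

theorem j1d_eval_self (s : Finset (Fin n → ℤ)) (μ : Fin n → ℤ) :
    (j1dL s μ).eval (fm0 μ) = dd s μ := by
  unfold j1dL dd
  rw [Polynomial.eval_prod]
  refine Finset.prod_congr rfl fun ν _ => ?_
  rw [Polynomial.eval_sub, Polynomial.eval_X, Polynomial.eval_C, MTX.SLD.fm0_sub]

theorem j1d_eval_other {s : Finset (Fin n → ℤ)} {μ ν : Fin n → ℤ} (hν : ν ∈ s) (hne : ν ≠ μ) :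
    (j1dL s μ).eval (fm0 ν) = 0 := by
  unfold j1dL
  rw [Polynomial.eval_prod]
  refine Finset.prod_eq_zero (Finset.mem_erase.2 ⟨hne, hν⟩) ?_
  rw [Polynomial.eval_sub, Polynomial.eval_X, Polynomial.eval_C, sub_self]

theorem j1d_sum {F : Type} [CommRing F] (φ : AA n →+* F) (s : Finset (Fin n → ℤ))
    {μ : Fin n → ℤ} (hμ : μ ∈ s) (c : (Fin n → ℤ) → F) :
    ∑ j ∈ Finset.range ((j1dL s μ).natDegree + 1), φ ((j1dL s μ).coeff j) *
      ∑ ν ∈ s, φ (fm0 ν) ^ j * c ν = φ (dd s μ) * c μ := by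
  have h1 : ∀ ν, ∑ j ∈ Finset.range ((j1dL s μ).natDegree + 1),
      φ ((j1dL s μ).coeff j) * φ (fm0 ν) ^ j = φ ((j1dL s μ).eval (fm0 ν)) := by
    intro ν
    rw [Polynomial.eval_eq_sum_range, map_sum]
    exact Finset.sum_congr rfl fun j _ => by rw [map_mul, map_pow]
  simp only [Finset.mul_sum]
  rw [Finset.sum_comm]
  have h2 : ∀ ν ∈ s, ∑ j ∈ Finset.range ((j1dL s μ).natDegree + 1),
      φ ((j1dL s μ).coeff j) * (φ (fm0 ν) ^ j * c ν) = φ ((j1dL s μ).eval (fm0 ν)) * c ν := by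
    intro ν _
    rw [← h1 ν, Finset.sum_mul]
    exact Finset.sum_congr rfl fun j _ => by rw [mul_assoc]
  rw [Finset.sum_congr rfl h2, Finset.sum_eq_single_of_mem μ hμ, j1d_eval_self]
  intro ν hν hne
  rw [j1d_eval_other hν hne, map_zero, zero_mul]

theorem j1d_cf_iter (A : MTXD.Ax Dt) {b : ℕ} (P : MvPolynomial (Idx N (b + 1)) ℂ) (μ : Fin n → ℤ)
    (y : XX Dt (b + 1)) (j : ℕ) :
    cf Dt ((dP N b)^[j] P) μ y = ev μ y.2.1 ^ j * cf Dt P μ y := by
  induction j with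
  | zero => simp
  | succ j ih =>
    rw [Function.iterate_succ_apply', cf_dP A, ih, pow_succ]
    ring

theorem j1d_supp_iter (A : MTXD.Ax Dt) {b : ℕ} (P : MvPolynomial (Idx N (b + 1)) ℂ) (j : ℕ) :
    supp Dt ((dP N b)^[j] P) ⊆ supp Dt P := by
  intro μ hμ
  rw [MTD.mem_supp] at hμ ⊢
  obtain ⟨y, hy⟩ := hμ
  rw [j1d_cf_iter A] at hy
  exact ⟨y, right_ne_zero_of_mul hy⟩

theorem j1d_FP_iter (hfr : ∀ p, m.fr p = aK p) {b : ℕ} (P : MvPolynomial (Idx N (b + 1)) ℂ)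
    (T : MTF.RR G (KK n) (Fin n → ℤ) (Fin (b + 1)))
    (hT : ∀ μ, (tqd G D Db cA).s 0 (T.coeff μ) = (tqd G D Db cA).val μ • T.coeff μ)
    (hP : tot T = FP m P) {s : Finset (Fin n → ℤ)} (hs' : T.coeff.support ⊆ s) (j : ℕ) :
    FP m ((dP N b)^[j] P) = ∑ ν ∈ s, (aK (fm0 ν) : KK n) ^ j • T.coeff ν := by
  induction j with
  | zero =>
    rw [Function.iterate_zero, id, ← hP]
    unfold tot
    rw [Finsupp.sum_of_support_subset _ hs' _ (fun _ _ => rfl)]
    exact Finset.sum_congr rfl fun ν _ => by rw [pow_zero, one_smul]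
  | succ j ih =>
    rw [Function.iterate_succ_apply', ← s_FP m hfr, ih, map_sum]
    refine Finset.sum_congr rfl fun ν _ => ?_
    rw [map_smul, hT, tqd_val, smul_smul, pow_succ]

/-- (row J1d) Lagrange interpolation: let `L = ∏ ν ∈ s.erase μ, (X - C (fm0 ν)) : Polynomial (AA n)`, `L = ∑ ℓ_j X^j`.  `dP^j P` has the coefficient functions `ev μ x ^ j * cf P μ` (`cf_dP`), and `s_0^j (tot T) = FP (dP^j P)`
has the components `val μ ^ j • T_μ`.  `R := ∑ j, ℓ_j * evP (dP^j P) k`: evaluated at `x` (`sum_cf` for `dP^j P`, with `supp (dP^j P) ⊆ s`) it is `∑ ν ∈ s, L(ev ν x) cf P ν (..) = dd s μ (x) * cf P μ (..)`, and in the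
fraction field it is `∑ ν ∈ s, L(val ν) T_ν(k) = aK (dd s μ) * T_μ(k)` (`FP_apply`, `s_FP`). `eval_fm0` of MTX/T9a. -/
theorem key (hfr : ∀ p, m.fr p = aK p) {b : ℕ} (P : MvPolynomial (Idx N (b + 1)) ℂ)
    (T : MTF.RR G (KK n) (Fin n → ℤ) (Fin (b + 1)))
    (hT : ∀ μ, (tqd G D Db cA).s 0 (T.coeff μ) = (tqd G D Db cA).val μ • T.coeff μ)
    (hP : tot T = FP m P) {s : Finset (Fin n → ℤ)} (hs : supp Dt P ⊆ s) (hs' : T.coeff.support ⊆ s)
    {μ : Fin n → ℤ} (hμ : μ ∈ s) (k : Fin (b + 1) → G.X) :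
    ∃ R : AA n, aK R = aK (dd s μ) * (T.coeff μ).1 k ∧
      ∀ x : Dt.RegX, MvPolynomial.eval x.1 R = MvPolynomial.eval x.1 (dd s μ) * cf Dt P μ (gx m k x, x) := by
  refine ⟨∑ j ∈ Finset.range ((j1dL s μ).natDegree + 1), (j1dL s μ).coeff j *
    evP m ((dP N b)^[j] P) k, ?_, fun x => ?_⟩
  · rw [← j1d_sum aK s hμ (fun ν => (T.coeff ν).1 k), map_sum]
    refine Finset.sum_congr rfl fun j _ => ?_
    rw [map_mul, ← FP_apply, j1d_FP_iter m hfr P T hT hP hs' j, AffGrp.KO_sum]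
    rfl
  · rw [← j1d_sum (MvPolynomial.eval x.1) s hμ (fun ν => cf Dt P ν (gx m k x, x)), map_sum]
    refine Finset.sum_congr rfl fun j _ => ?_
    rw [map_mul, ← sum_cf m k _ x ((j1d_supp_iter m.ax P j).trans hs)]
    congr 1
    refine Finset.sum_congr rfl fun ν _ => ?_
    rw [j1d_cf_iter m.ax, j1c_eval_fm0]

theorem dd_ne (s : Finset (Fin n → ℤ)) (μ : Fin n → ℤ) : dd s μ ≠ 0 :=
  Finset.prod_ne_zero_iff.2 fun ν hν =>
    MTX.SLD.fm0_ne_zero fun h => (Finset.ne_of_mem_erase hν) (sub_eq_zero.1 h).symm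

end Pool.Agent.MTH
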