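import Pool.Agent.MTH.J1
import Pool.Agent.MTF.E1
import Pool.Agent.MTF.Y3

/-! # MTH-J2 -/

namespace Pool.Agent.MTH

open Matrix
open Pool.Agent.MTF Pool.Agent.MTG
open Pool.Agent.MTD (ev)
open Pool.Agent.MP_c45d35_ag (chi)

open Pool.Agent.MTX.SLD (AA fm0)
open RD (KK aK)
open Pool.Agent.MTD (Idx co XX cf Phi supp)
open Pool.Agent.MTF.AffGrp (inc pu)

variable {G : AffGrp} {n N : ℕ} {D : RD n} {ι : Type} [Fintype ι] {Dt : MTD.Dat n N ι} {r : ℕ}
  {Db : Module.Basis (Fin r) ℂ G.Lie} {cA : Fin r → AA n}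
  (m : MTF.Model (tqd G D Db cA) Dt)

theorem j2b_gK {b : ℕ} (a : Fin (b + 1)) (i : Idx N (b + 1)) :
    gK m (Sum.map (fun p : Fin (b + 1) × Fin N × Fin N => (Equiv.swap 0 a p.1, p.2)) id i) =
      pb (KK n) (Equiv.swap (0 : Fin (b + 1)) a) (gK m i) := by
  refine AffGrp.KO_ext fun k => ?_
  rw [pb_apply]
  rcases i with p | p <;> rfl

theorem j2b_FP {b : ℕ} (a : Fin (b + 1)) (P : MvPolynomial (Idx N (b + 1)) ℂ) :
    FP m (MvPolynomial.rename
      (Sum.map (fun p : Fin (b + 1) × Fin N × Fin N => (Equiv.swap 0 a p.1, p.2)) id) P) =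
      pb (KK n) (Equiv.swap (0 : Fin (b + 1)) a) (FP m P) := by
  unfold FP
  rw [MvPolynomial.aeval_rename]
  induction P using MvPolynomial.induction_on with
  | C z =>
    rw [MvPolynomial.algHom_C, MvPolynomial.algHom_C]
    rfl
  | add p q hp hq => rw [map_add, map_add, map_add, hp, hq]
  | mul_X p i hp =>
    rw [map_mul, map_mul, map_mul, hp, MvPolynomial.aeval_X, MvPolynomial.aeval_X, Function.comp_apply,
      j2b_gK]
section J2a
open Pool.Agent.MTF.KD (mv)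

theorem J2a_C {b : ℕ} (c : ℂ) (k : Fin b → G.X) :
    evP m (MvPolynomial.C c : MvPolynomial (Idx N b) ℂ) k = MvPolynomial.C c :=
  MvPolynomial.aeval_C _ _

theorem J2a_add {b : ℕ} (P P' : MvPolynomial (Idx N b) ℂ) (k : Fin b → G.X) :
    evP m (P + P') k = evP m P k + evP m P' k := map_add _ _ _

theorem J2a_mul {b : ℕ} (P P' : MvPolynomial (Idx N b) ℂ) (k : Fin b → G.X) :
    evP m (P * P') k = evP m P k * evP m P' k := map_mul _ _ _

theorem J2a_sum {b : ℕ} {κ : Type} (s : Finset κ) (P : κ → MvPolynomial (Idx N b) ℂ)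
    (k : Fin b → G.X) : evP m (∑ i ∈ s, P i) k = ∑ i ∈ s, evP m (P i) k := map_sum _ _ _

theorem J2a_inr {b : ℕ} (i l : Fin N) (k : Fin b → G.X) :
    evP m (MvPolynomial.X (Sum.inr (i, l)) : MvPolynomial (Idx N b) ℂ) k = Dt.sx i l :=
  MvPolynomial.aeval_X _ _

/-- (row J2a) regular functions of the group elements -/
theorem J2a_pow {b : ℕ} {f : (Fin b → G.X) → ℂ} (hf : f ∈ G.powO (Fin b)) :
    ∃ P : MvPolynomial (Idx N b) ℂ, ∀ k, evP m P k = MvPolynomial.C (f k) := by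
  unfold AffGrp.powO at hf
  induction hf using Algebra.adjoin_induction with
  | mem F hF =>
    obtain ⟨a, f, rfl⟩ := hF
    obtain ⟨p, hp⟩ := m.gen f.1 f.2
    refine ⟨MvPolynomial.rename (fun v : Fin N × Fin N => (Sum.inl (a, v.1, v.2) : Idx N b)) p,
      fun k => ?_⟩
    show _ = MvPolynomial.C (f.1 (k a))
    rw [hp]
    unfold evP mv
    rw [MvPolynomial.aeval_rename]
    exact MvPolynomial.aeval_algebraMap_apply (B := AA n)
      (fun v : Fin N × Fin N => m.π (k a) v.1 v.2) p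
  | algebraMap c => exact ⟨MvPolynomial.C c, fun k => J2a_C m c k⟩
  | add F F' _ _ ih ih' =>
    obtain ⟨P, hP⟩ := ih
    obtain ⟨P', hP'⟩ := ih'
    refine ⟨P + P', fun k => ?_⟩
    rw [J2a_add, hP, hP', ← MvPolynomial.C_add]
    rfl
  | mul F F' _ _ ih ih' =>
    obtain ⟨P, hP⟩ := ih
    obtain ⟨P', hP'⟩ := ih'
    refine ⟨P * P', fun k => ?_⟩
    rw [J2a_mul, hP, hP', ← MvPolynomial.C_mul]
    rfl

/-- (row J2a) the coordinates of the slice element are linear in its matrix entries -/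
theorem J2a_c (j : Fin (tqd G D Db cA).r) : ∃ a : Fin N → Fin N → ℂ,
    m.c0 j = ∑ i, ∑ l, MvPolynomial.C (a i l) * Dt.sx i l := by
  classical
  obtain ⟨cs, hcs⟩ := m.exists_cs
  refine ⟨fun i l => cs j (Matrix.single i l 1), MvPolynomial.funext fun x => ?_⟩
  have h1 := hcs (m.sL x) j
  have h2 : m.dm (m.sL x) = Dt.sC x := (m.slice x).symm
  have h3 : (tqd G D Db cA).D.repr (m.sL x) j = MvPolynomial.eval x (m.c0 j) := by
    unfold Model.sL
    rw [map_sum, Finsupp.finsetSum_apply, Finset.sum_eq_single j]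
    · rw [map_smul, Finsupp.smul_apply, Module.Basis.repr_self, Finsupp.single_eq_same, smul_eq_mul,
        mul_one]
    · intro i _ hi
      rw [map_smul, Finsupp.smul_apply, Module.Basis.repr_self, Finsupp.single_eq_of_ne (Ne.symm hi),
        smul_zero]
    · intro h0
      exact absurd (Finset.mem_univ _) h0
  rw [h2, h3] at h1
  rw [← h1]
  conv_lhs => rw [Matrix.matrix_eq_sum_single (Dt.sC x)]
  rw [map_sum, map_sum]
  refine Finset.sum_congr rfl fun i _ => ?_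
  rw [map_sum, map_sum]
  refine Finset.sum_congr rfl fun l _ => ?_
  have h4 : Matrix.single i l (Dt.sC x i l) = Dt.sC x i l • Matrix.single i l (1 : ℂ) := by
    rw [Matrix.smul_single, smul_eq_mul, mul_one]
  rw [h4, map_smul, map_mul, MvPolynomial.eval_C, smul_eq_mul, mul_comm]
  rfl

/-- (row J2a) polynomials in the coordinates of the slice element -/
theorem J2a_c0 {b : ℕ} (q : MvPolynomial (Fin (tqd G D Db cA).r) ℂ) :
    ∃ P : MvPolynomial (Idx N b) ℂ, ∀ k, evP m P k = MvPolynomial.aeval m.c0 q := by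
  induction q using MvPolynomial.induction_on with
  | C a =>
    refine ⟨MvPolynomial.C a, fun k => ?_⟩
    rw [J2a_C, MvPolynomial.aeval_C]
    rfl
  | add p q hp hq =>
    obtain ⟨P, hP⟩ := hp
    obtain ⟨P', hP'⟩ := hq
    exact ⟨P + P', fun k => by rw [J2a_add, hP, hP', map_add]⟩
  | mul_X p j hp =>
    obtain ⟨P, hP⟩ := hp
    obtain ⟨a, ha⟩ := J2a_c m j
    refine ⟨P * ∑ i, ∑ l, MvPolynomial.C (a i l) * MvPolynomial.X (Sum.inr (i, l)), fun k => ?_⟩
    rw [J2a_mul, hP, map_mul, MvPolynomial.aeval_X, ha, J2a_sum]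
    congr 1
    refine Finset.sum_congr rfl fun i _ => ?_
    rw [J2a_sum]
    refine Finset.sum_congr rfl fun l _ => ?_
    rw [J2a_mul, J2a_C, J2a_inr]

/-- (row J2a) the coefficients can be taken invariant and in `A` -/
theorem J2a_coef {H : AffGrp} (F : H.KO (KK n)) (hF : (tqd G D Db cA).Reg F)
    (hw : ∀ w : D.W, wO H w F = F) : ∃ (s : ℕ) (t : Fin s → AA n) (f : Fin s → H.O),
      (∀ i (w : D.W), w • (aK (t i) : KK n) = aK (t i)) ∧
      ∀ x, F.1 x = ∑ i, aK (t i) * aK (MvPolynomial.C ((f i).1 x)) := by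
  classical
  obtain ⟨s, c, f, hc⟩ := AffGrp.KO_rep F
  obtain ⟨p, hp⟩ := LinearMap.exists_leftInverse_of_injective
    (Subalgebra.toSubmodule (AK n)).subtype (Submodule.ker_subtype _)
  have hp1 : ∀ y : KK n, y ∈ AK n → (p y).1 = y := fun y hy =>
    congrArg Subtype.val (LinearMap.congr_fun hp ⟨y, hy⟩)
  have hA : ∀ i, ∃ t : AA n, (p (c i)).1 = aK t := fun i => mem_AK.1 (p (c i)).2
  choose t0 ht0 using hA
  have hN : (Fintype.card D.W : ℂ) ≠ 0 := Nat.cast_ne_zero.2 Fintype.card_ne_zero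
  have hF1 : ∀ x, F.1 x = ∑ i, aK (t0 i) * aK (MvPolynomial.C ((f i).1 x)) := by
    intro x
    have h1 : F.1 x ∈ AK n := hF x
    rw [← hp1 _ h1, hc x, map_sum, AddSubmonoidClass.coe_finsetSum]
    refine Finset.sum_congr rfl fun i _ => ?_
    rw [← algebraMap_KK, mul_comm (c i), ← Algebra.smul_def, map_smul, ← ht0, mul_comm,
      ← Algebra.smul_def]
    rfl
  refine ⟨s, fun i => MvPolynomial.C ((Fintype.card D.W : ℂ)⁻¹) * ∑ w : D.W, w • t0 i, f,
    fun i w => ?_, fun x => ?_⟩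
  · rw [RD.smul_aK]
    refine congrArg aK ?_
    rw [smul_mul', Finset.smul_sum, D.smul_C]
    refine congrArg (fun z => MvPolynomial.C ((Fintype.card D.W : ℂ)⁻¹) * z) ?_
    refine Fintype.sum_equiv (Equiv.mulLeft w) _ _ fun u => ?_
    rw [Equiv.coe_mulLeft, mul_smul]
  · have h1 : ∀ w : D.W, F.1 x = ∑ i, aK (w • t0 i) * aK (MvPolynomial.C ((f i).1 x)) := by
      intro w
      have h2 : w • F.1 x = F.1 x := by
        have h3 := congrArg (fun F' : H.KO (KK n) => F'.1 x) (hw w)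
        exact h3
      rw [← h2, hF1 x, Finset.smul_sum]
      refine Finset.sum_congr rfl fun i _ => ?_
      rw [smul_mul', RD.smul_aK, RD.smul_aK, D.smul_C]
    have h2 : ∑ w : D.W, F.1 x = ∑ w : D.W, ∑ i, aK (w • t0 i) * aK (MvPolynomial.C ((f i).1 x)) :=
      Finset.sum_congr rfl fun w _ => h1 w
    rw [Finset.sum_const, Finset.card_univ, Finset.sum_comm] at h2
    have h3 : F.1 x = aK (MvPolynomial.C ((Fintype.card D.W : ℂ)⁻¹)) *
        (Fintype.card D.W • F.1 x) := by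
      rw [nsmul_eq_mul, ← mul_assoc, ← algebraMap_KK]
      have h4 : (Fintype.card D.W : KK n) = algebraMap ℂ (KK n) (Fintype.card D.W : ℂ) := by
        rw [map_natCast]
      rw [h4, ← map_mul, inv_mul_cancel₀ hN, map_one, one_mul]
    rw [h3, h2, Finset.mul_sum]
    refine Finset.sum_congr rfl fun i _ => ?_
    rw [map_mul, map_sum, ← Finset.sum_mul, mul_assoc]

end J2a

/-- (row J2a) Invariant regular functions are given by polynomials.
PROOF. (1) `F = ∑ i, c i • inc (f i)` with finitely many `f i : (G.pow (Fin b)).O` that are LINEARLY INDEPENDENT over `ℂ` (`KO_eq_sum`; take a basis of the span of the `f i`: `exists_finset_linearIndependent..`, `Submodule.fg_span`,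
`Module.finBasis` of the span, as `Y2.lean` of MTF line 186 does).  (2) `c i ∈ AK n` and `w • c i = c i`: there are points `x_1, .., x_s` and complex numbers `γ_ij` with `∑ j, γ_ij * f_l (x_j) = if l = i then 1 else 0`
(the evaluations at points span the dual of the span of the `f i`; or: `φ : Module.Dual ℂ O` dual to the `f i` is on the span a combination of evaluations), so `c i = ∑ j, γ_ij F(x_j)`; alternatively invariance
from `y3_indep` (MTF/Y3, for `G.pow (Fin b)`) applied to `w • c i - c i`.  (3) `m.A_eq`, `hfr`, `m.inv`: `c i = aK (aeval cA q_i)`, `q_i : MvPolynomial (Fin r) ℂ`; (`m.c_eq`: `m.c0 = cA`).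
(4) `m.exists_cs` (MTF/E1): `cs j (Dt.sC x) = eval x (cA j)` as `sC x = m.dm (m.sL x)` (`m.slice`), so `aK (cA j)` is the value of a linear polynomial in the coordinates `inr`: `cA j = evP m (∑ i l, C (cs j (single i l 1)) * X (inr (i, l))) k`
(`MvPolynomial.funext`, `eval_evP`). (5) every `f : (G.pow (Fin b)).O` is given by a polynomial in the `m.π (k a) i l` (`powO` is an adjoin: `Algebra.adjoin_induction`; `m.gen`). -/
theorem exists_FP (hfr : ∀ p, m.fr p = aK p) {b : ℕ} (F : (G.pow (Fin b)).KO (KK n))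
    (hF : (tqd G D Db cA).Reg F) (hw : ∀ w : D.W, wO (G.pow (Fin b)) w F = F) :
    ∃ P : MvPolynomial (Idx N b) ℂ, F = FP m P := by
  classical
  obtain ⟨s, t, f, ht, hx⟩ := J2a_coef (G := G) (Db := Db) (cA := cA) F hF hw
  have h1 : ∀ i, ∃ P : MvPolynomial (Idx N b) ℂ, ∀ k, evP m P k = t i := by
    intro i
    obtain ⟨q, hq⟩ := m.inv (t i) fun w => by
      rw [hfr]
      exact ht i w
    obtain ⟨P, hP⟩ := J2a_c0 (b := b) m q
    exact ⟨P, fun k => (hP k).trans hq.symm⟩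
  have h2 : ∀ i, ∃ P : MvPolynomial (Idx N b) ℂ, ∀ k, evP m P k = MvPolynomial.C ((f i).1 k) :=
    fun i => J2a_pow m (f i).2
  choose P hP using h1
  choose P' hP' using h2
  refine ⟨∑ i, P i * P' i, AffGrp.KO_ext fun k => ?_⟩
  rw [FP_apply, J2a_sum, map_sum]
  refine (hx k).trans (Finset.sum_congr rfl fun i _ => ?_)
  rw [J2a_mul, hP, hP', map_mul]

/-- (row J2b) `k a := ` a point over `g a * (qC x)⁻¹` (`m.surj`, `m.ax.mul`, `m.ax.inv`) -/
theorem exists_gx {b : ℕ} (g : Fin b → Dt.Gs) (x : Dt.RegX) : ∃ k : Fin b → G.X, gx m k x = g := by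
  have h : ∀ a, ∃ k, m.π k = (g a).1 * (Dt.qC x.1)⁻¹ := fun a =>
    m.surj _ (m.ax.mul _ _ (g a).2 (m.ax.inv _ (m.ax.qC_isG x.1)))
  choose k hk using h
  refine ⟨k, ?_⟩
  funext a
  apply Subtype.ext
  show m.π (k a) * Dt.qC x.1 = (g a).1
  rw [hk a, Matrix.mul_assoc, m.ax.inv_mul (m.ax.qC_isG x.1), Matrix.mul_one]

/-- exchange of the slots `0` and `a` -/
def sw0 {b : ℕ} (a : Fin (b + 1)) : Idx N (b + 1) → Idx N (b + 1) :=
  Sum.map (fun p => (Equiv.swap 0 a p.1, p.2)) id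

/-- (row J2b) the coefficient functions for the slot `a`: `key` for `(P, T)` and for `(rename (sw0 a) P, fm _ (pb _ (swap 0 a)) T)` (`s_pb`, `coeff_fm`, `tot_fm`; `FP (rename (sw0 a) P) = pb (swap 0 a) (FP P)`)
at the points `k` and `k ∘ swap 0 a` give `R`, `R'` with `aK R = aK R'`, so `R = R'` (`RD.aK_inj`) and `dd(x) * (cf .. - cf ..) = 0`; `rt_zero`, `cf_rt`, `dd_ne`.  Take `s := supp P ∪ supp (rename ..) ∪ T.coeff.support ∪ {μ}`. -/
theorem cf_swap (hfr : ∀ p, m.fr p = aK p) {b : ℕ} (P : MvPolynomial (Idx N (b + 1)) ℂ)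
    (T : MTF.RR G (KK n) (Fin n → ℤ) (Fin (b + 1)))
    (hT : ∀ μ l, (tqd G D Db cA).s l (T.coeff μ) = (tqd G D Db cA).val μ • T.coeff μ)
    (hP : tot T = FP m P) (a : Fin (b + 1)) (μ : Fin n → ℤ) (k : Fin (b + 1) → G.X) (x : Dt.RegX) :
    cf Dt (MvPolynomial.rename (sw0 a) P) μ (gx m (k ∘ Equiv.swap 0 a) x, x) = cf Dt P μ (gx m k x, x) := by
  have hw : ∀ (F : (G.pow (Fin (b + 1))).KO (KK n)), (tqd G D Db cA).s 0 (pb (KK n) (Equiv.swap (0 : Fin (b + 1)) a) F) =
      pb (KK n) (Equiv.swap (0 : Fin (b + 1)) a) ((tqd G D Db cA).s a F) := by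
    intro F
    have h := s_pb (Q := tqd G D Db cA) (Equiv.swap (0 : Fin (b + 1)) a).injective a F
    rw [Equiv.swap_apply_right] at h
    exact h
  have hT' : ∀ ν, (tqd G D Db cA).s 0 ((MTF.fm (Fin n → ℤ) (pb (KK n) (Equiv.swap (0 : Fin (b + 1)) a)) T).coeff ν) =
      (tqd G D Db cA).val ν • (MTF.fm (Fin n → ℤ) (pb (KK n) (Equiv.swap (0 : Fin (b + 1)) a)) T).coeff ν := by
    intro ν
    rw [coeff_fm, hw, hT ν a, map_smul]
  have hP' : tot (MTF.fm (Fin n → ℤ) (pb (KK n) (Equiv.swap (0 : Fin (b + 1)) a)) T) =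
      FP m (MvPolynomial.rename (sw0 a) P) := by
    rw [tot_fm, hP]
    exact (j2b_FP m a P).symm
  classical
  obtain ⟨R, hR1, hR2⟩ := key m hfr P T (fun ν => hT ν 0) hP
    (s := insert μ (supp Dt P ∪ supp Dt (MvPolynomial.rename (sw0 a) P) ∪ T.coeff.support ∪
      (MTF.fm (Fin n → ℤ) (pb (KK n) (Equiv.swap (0 : Fin (b + 1)) a)) T).coeff.support))
    (fun ν hν => Finset.mem_insert_of_mem (by simp only [Finset.mem_union]; exact Or.inl (Or.inl (Or.inl hν))))
    (fun ν hν => Finset.mem_insert_of_mem (by simp only [Finset.mem_union]; exact Or.inl (Or.inr hν)))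
    (Finset.mem_insert_self _ _) k
  obtain ⟨R', hR1', hR2'⟩ := key m hfr (MvPolynomial.rename (sw0 a) P) _ hT' hP'
    (s := insert μ (supp Dt P ∪ supp Dt (MvPolynomial.rename (sw0 a) P) ∪ T.coeff.support ∪
      (MTF.fm (Fin n → ℤ) (pb (KK n) (Equiv.swap (0 : Fin (b + 1)) a)) T).coeff.support))
    (fun ν hν => Finset.mem_insert_of_mem (by simp only [Finset.mem_union]; exact Or.inl (Or.inl (Or.inr hν))))
    (fun ν hν => Finset.mem_insert_of_mem (by simp only [Finset.mem_union]; exact Or.inr hν))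
    (Finset.mem_insert_self _ _) (k ∘ Equiv.swap 0 a)
  have hRR : R' = R := by
    apply RD.aK_inj
    rw [hR1, hR1', coeff_fm, pb_apply]
    have e : ((k ∘ (Equiv.swap (0 : Fin (b + 1)) a)) ∘ (Equiv.swap (0 : Fin (b + 1)) a) : Fin (b + 1) → G.X) = k := by
      funext i
      simp only [Function.comp_apply, Equiv.swap_apply_self]
    rw [e]
  subst hRR
  have hz := rt_zero m.ax
    (f := fun x : Dt.RegX => cf Dt (MvPolynomial.rename (sw0 a) P) μ (gx m (k ∘ Equiv.swap 0 a) x, x) -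
      cf Dt P μ (gx m k x, x))
    ((MTD.Rt Dt id ∅).sub_mem (cf_rt m _ _ μ) (cf_rt m _ _ μ)) (dd_ne _ μ)
    (fun y => by
      rw [mul_sub, ← hR2' y, ← hR2 y, sub_self])
  exact sub_eq_zero.1 (congrFun hz x)

/-- (row J2c) a torus element can be moved from the slot `a` to the slot `0`: `Phi_eq_sum` for `P` and `rename (sw0 a) P`, `cf_swap`, `exists_gx`; unfold `Phi` -/
theorem move (hfr : ∀ p, m.fr p = aK p) {b : ℕ} (P : MvPolynomial (Idx N (b + 1)) ℂ)
    (T : MTF.RR G (KK n) (Fin n → ℤ) (Fin (b + 1)))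
    (hT : ∀ μ l, (tqd G D Db cA).s l (T.coeff μ) = (tqd G D Db cA).val μ • T.coeff μ)
    (hP : tot T = FP m P) (a : Fin (b + 1)) (g : Fin (b + 1) → Dt.Gs) (x : Dt.RegX) (t : Fin n → ℂˣ) :
    MvPolynomial.eval (co (fun c => (g c).1 * (if c = a then Dt.Tt t else 1) * (Dt.qC x.1)⁻¹) (Dt.sC x.1)) P =
      MvPolynomial.eval (co (fun c => (g c).1 * (if c = 0 then Dt.Tt t else 1) * (Dt.qC x.1)⁻¹) (Dt.sC x.1)) P := by
  have h1 : MvPolynomial.eval (co (fun c => (g c).1 * (if c = a then Dt.Tt t else 1) *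
      (Dt.qC x.1)⁻¹) (Dt.sC x.1)) P =
      Phi Dt (MvPolynomial.rename (sw0 a) P) (g ∘ Equiv.swap 0 a, x) t := by
    unfold Phi
    rw [MvPolynomial.eval_rename]
    congr 1
    have h2 : (co (fun c => (g c).1 * (if c = a then Dt.Tt t else 1) *
        (Dt.qC x.1)⁻¹) (Dt.sC x.1) : Idx N (b + 1) → ℂ) =
        (co (fun c => ((g ∘ Equiv.swap 0 a) c).1 * (if c = 0 then Dt.Tt t else 1) *
        (Dt.qC x.1)⁻¹) (Dt.sC x.1)) ∘ sw0 a := by
      funext p
      rcases p with ⟨c, i, j⟩ | ⟨i, j⟩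
      · have h3 : (Equiv.swap 0 a c = 0) ↔ c = a := by
          rw [Equiv.swap_apply_eq_iff, Equiv.swap_apply_left]
        have h7 : Equiv.swap 0 a (Equiv.swap 0 a c) = c := by
          rw [← Equiv.Perm.mul_apply, Equiv.swap_mul_self]
          rfl
        simp only [co, sw0, Function.comp, Sum.map_inl, Sum.elim_inl, h7, h3]
      · rfl
    rw [h2]
  have h4 : MvPolynomial.eval (co (fun c => (g c).1 * (if c = 0 then Dt.Tt t else 1) *
      (Dt.qC x.1)⁻¹) (Dt.sC x.1)) P = Phi Dt P (g, x) t := rfl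
  rw [h1, h4]
  obtain ⟨k, hk⟩ := exists_gx m g x
  rw [MTD.Phi_eq_sum (s := supp Dt P ∪ supp Dt (MvPolynomial.rename (sw0 a) P))
      Finset.subset_union_right,
    MTD.Phi_eq_sum (s := supp Dt P ∪ supp Dt (MvPolynomial.rename (sw0 a) P))
      Finset.subset_union_left]
  refine Finset.sum_congr rfl fun μ _ => ?_
  have h5 := cf_swap m hfr P T hT hP a μ k x
  have h6 : gx m (k ∘ Equiv.swap 0 a) x = g ∘ Equiv.swap 0 a := by
    rw [← hk]
    rfl
  rw [h6, hk] at h5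
  rw [h5]

/-- auxiliary (row J2c) -/
theorem mthJ2c_ind {M : Type} [CommGroup M] {b : ℕ} {V : Type} (F : (Fin (b + 1) → M) → V)
    (h : ∀ (u : Fin (b + 1) → M) (a : Fin (b + 1)) (v : M),
      F (u * Pi.mulSingle a v) = F (u * Pi.mulSingle 0 v)) (t : Fin (b + 1) → M) :
    F t = F (Pi.mulSingle 0 (∏ a, t a)) := by
  classical
  have key : ∀ (S : Finset (Fin (b + 1))) (u : Fin (b + 1) → M),
      F (u * ∏ a ∈ S, Pi.mulSingle a (t a)) = F (u * Pi.mulSingle 0 (∏ a ∈ S, t a)) := by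
    intro S
    induction S using Finset.induction_on with
    | empty => intro u; simp
    | insert a S ha ih =>
      intro u
      rw [Finset.prod_insert ha, Finset.prod_insert ha, ← mul_assoc, ih,
        mul_right_comm, h, mul_assoc, ← Pi.mulSingle_mul, mul_comm (t a)]
  have h1 := key Finset.univ 1
  rw [one_mul, one_mul, Finset.univ_prod_mulSingle] at h1
  exact h1

/-- auxiliary (row J2c) -/
theorem mthJ2c_move (hfr : ∀ p, m.fr p = aK p) {b : ℕ} (P : MvPolynomial (Idx N (b + 1)) ℂ)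
    (T : MTF.RR G (KK n) (Fin n → ℤ) (Fin (b + 1)))
    (hT : ∀ μ l, (tqd G D Db cA).s l (T.coeff μ) = (tqd G D Db cA).val μ • T.coeff μ)
    (hP : tot T = FP m P) (g : Fin (b + 1) → Matrix (Fin N) (Fin N) ℂ)
    (hg : ∀ a, Dt.IsG (g a)) (x : Dt.RegX) (u : Fin (b + 1) → Fin n → ℂˣ) (a : Fin (b + 1))
    (v : Fin n → ℂˣ) :
    MvPolynomial.eval (co (fun c => g c * Dt.Tt ((u * Pi.mulSingle a v : Fin (b + 1) → Fin n → ℂˣ) c) * (Dt.qC x.1)⁻¹)
        (Dt.sC x.1)) P =
      MvPolynomial.eval (co (fun c => g c * Dt.Tt ((u * Pi.mulSingle 0 v : Fin (b + 1) → Fin n → ℂˣ) c) * (Dt.qC x.1)⁻¹)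
        (Dt.sC x.1)) P := by
  classical
  have h := move m hfr P T hT hP a
    (fun c => ⟨g c * Dt.Tt (u c), m.ax.mul _ _ (hg c) (m.ax.torus (u c))⟩) x v
  have h1 : ∀ d : Fin (b + 1),
      (fun c => g c * Dt.Tt ((u * Pi.mulSingle d v : Fin (b + 1) → Fin n → ℂˣ) c) * (Dt.qC x.1)⁻¹) =
      (fun c => g c * Dt.Tt (u c) * (if c = d then Dt.Tt v else 1) * (Dt.qC x.1)⁻¹) := by
    intro d
    funext c
    by_cases hc : c = d
    · subst hc
      rw [Pi.mul_apply, Pi.mulSingle_eq_same, Dt.Tt_mul, if_pos rfl,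
        ← Matrix.mul_assoc (g c) (Dt.Tt (u c)) (Dt.Tt v)]
    · rw [Pi.mul_apply, Pi.mulSingle_eq_of_ne hc, mul_one, if_neg hc, Matrix.mul_one]
  rw [h1 a, h1 0]
  exact h

/-- (row J2c) by `move` all torus elements can be moved to the slot `0` (`m.ax.torus`, `m.ax.mul`; induction over finite sets of slots) -/
theorem invR (hfr : ∀ p, m.fr p = aK p) {b : ℕ} (P : MvPolynomial (Idx N (b + 1)) ℂ)
    (T : MTF.RR G (KK n) (Fin n → ℤ) (Fin (b + 1)))
    (hT : ∀ μ l, (tqd G D Db cA).s l (T.coeff μ) = (tqd G D Db cA).val μ • T.coeff μ)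
    (hP : tot T = FP m P) : MTXR.InvR Dt (b + 1) P := by
  classical
  intro g hg x t t' ht
  have key := mthJ2c_move m hfr P T hT hP g hg x
  have h1 := mthJ2c_ind (fun t : Fin (b + 1) → Fin n → ℂˣ =>
    MvPolynomial.eval (co (fun a => g a * Dt.Tt (t a) * (Dt.qC x.1)⁻¹) (Dt.sC x.1)) P) key t
  have h2 := mthJ2c_ind (fun t : Fin (b + 1) → Fin n → ℂˣ =>
    MvPolynomial.eval (co (fun a => g a * Dt.Tt (t a) * (Dt.qC x.1)⁻¹) (Dt.sC x.1)) P) key t'
  rw [h1, h2, ht]

/-- (row J2d) Let `κ ∈ supp P`, `cf P κ (g, x) ≠ 0` (`MTD.mem_supp`), `gx m k x = g` (`exists_gx`).  If `T.coeff κ = 0`, `key` (`s := supp P ∪ T.coeff.support`) gives `aK R = 0`, `R = 0`,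
`dd(x') * cf P κ (gx k x', x') = 0` for all `x'`; contradiction to `rt_zero`, `cf_rt`. -/
theorem supp_sub (hfr : ∀ p, m.fr p = aK p) {b : ℕ} (P : MvPolynomial (Idx N (b + 1)) ℂ)
    (T : MTF.RR G (KK n) (Fin n → ℤ) (Fin (b + 1)))
    (hT : ∀ μ, (tqd G D Db cA).s 0 (T.coeff μ) = (tqd G D Db cA).val μ • T.coeff μ)
    (hP : tot T = FP m P) {κ : Fin n → ℤ} (h : κ ∈ supp Dt P) : T.coeff κ ≠ 0 := by
  classical
  intro hκ
  obtain ⟨⟨g, x⟩, hy⟩ := MTD.mem_supp.1 h
  obtain ⟨k, hk⟩ := exists_gx m g x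
  obtain ⟨R, hR1, hR2⟩ := key m hfr P T hT hP (s := supp Dt P ∪ T.coeff.support)
    Finset.subset_union_left Finset.subset_union_right (Finset.mem_union_left _ h) k
  have hR : R = 0 := by
    apply RD.aK_inj
    rw [hR1, hκ, map_zero]
    exact mul_zero _
  have hz := rt_zero m.ax (cf_rt m k P κ) (dd_ne (supp Dt P ∪ T.coeff.support) κ)
    (fun y => by rw [← hR2 y, hR, map_zero])
  apply hy
  rw [← hk]
  exact congrFun hz x

/-- (row J2d) `key` with `s := supp P ∪ T.coeff.support ∪ {l}`: `aK (E * R) = aK (dd * f)`, so `E * R = dd * f`; evaluate at `x'`: `dd(x') * (E(x') cf P l (gx k x', x') - f(x')) = 0` for all regular `x'`; `rt_zero`, `cf_rt`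
(polynomial functions are in `Rt`: `MTD.Rt_x`). -/
theorem top_cf (hfr : ∀ p, m.fr p = aK p) {b : ℕ} (P : MvPolynomial (Idx N (b + 1)) ℂ)
    (T : MTF.RR G (KK n) (Fin n → ℤ) (Fin (b + 1)))
    (hT : ∀ μ, (tqd G D Db cA).s 0 (T.coeff μ) = (tqd G D Db cA).val μ • T.coeff μ)
    (hP : tot T = FP m P) (l : Fin n → ℤ) (k : Fin (b + 1) → G.X) (E f : AA n)
    (hE : aK E * (T.coeff l).1 k = aK f) (x : Dt.RegX) :
    MvPolynomial.eval x.1 E * cf Dt P l (gx m k x, x) = MvPolynomial.eval x.1 f := by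
  classical
  obtain ⟨R, hR1, hR2⟩ := key m hfr P T hT hP (s := insert l (supp Dt P ∪ T.coeff.support))
    (Finset.subset_union_left.trans (Finset.subset_insert _ _))
    (Finset.subset_union_right.trans (Finset.subset_insert _ _)) (Finset.mem_insert_self _ _) k
  have hER : E * R = dd (insert l (supp Dt P ∪ T.coeff.support)) l * f := by
    apply RD.aK_inj
    rw [map_mul, hR1, map_mul, ← hE]
    ring
  have hz := rt_zero m.ax
    (f := fun y : Dt.RegX => MvPolynomial.eval y.1 E * cf Dt P l (gx m k y, y) -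
      MvPolynomial.eval y.1 f)
    ((MTD.Rt Dt id ∅).sub_mem ((MTD.Rt Dt id ∅).mul_mem
      (MTD.Rt_poly E (fun y : Dt.RegX => y.1) (fun i => MTD.Rt_x id ∅ i)) (cf_rt m k P l))
      (MTD.Rt_poly f (fun y : Dt.RegX => y.1) (fun i => MTD.Rt_x id ∅ i)))
    (dd_ne (insert l (supp Dt P ∪ T.coeff.support)) l)
    (fun y => by
      have h1 := hR2 y
      have h2 := congrArg (MvPolynomial.eval y.1) hER
      rw [map_mul, map_mul, h1] at h2
      linear_combination h2)
  exact sub_eq_zero.1 (congrFun hz x)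

end Pool.Agent.MTH
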