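import Pool.Agent.MTH.I3
import Pool.Agent.MTG.YS5b

/-! # MTH-K1 -/

namespace Pool.Agent.MTH

open Matrix
open Pool.Agent.MTF Pool.Agent.MTG
open Pool.Agent.MTD (ev)
open Pool.Agent.MP_c45d35_ag (chi)

open Pool.Agent.MTX.SLD (AA fm0)
open RD (KK aK)

variable {G : AffGrp} {n : ℕ} {D : RD n} (C : CD G D)

theorem ee_eq (D : RD n) (R : Type) [CommRing R] : CD.ee D R = e0 D R := by
  funext j
  rcases j with k | γ
  · rfl
  · rfl

/-- the Kostant slice -/
noncomputable def slC : SL C where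
  p := C.px
  sv := C.sx
  uu := C.px_UU
  conj := by
    rw [← ee_eq]
    exact C.px_conj
  inv u x j := by
    have h1 := congrFun (C.sxR_W (R := ℂ) u x) j
    have h2 : MvPolynomial.aeval (wx u x) (C.sx j) = MvPolynomial.aeval x (C.sx j) := h1
    rw [MvPolynomial.aeval_eq_eval, MvPolynomial.aeval_eq_eval] at h2
    exact h2

section
variable {r : ℕ} (e : Fin r ≃ Fin n ⊕ D.Rt)

/-- the basis of the Lie algebra -/
noncomputable def DbC : Module.Basis (Fin r) ℂ G.Lie := C.bs.reindex e.symm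

/-- the coordinates of the generic slice element -/
noncomputable def cC : Fin r → AA n := fun j => C.sx (e j)

theorem hs_C (x : Fin n → ℂ) : ∑ j, MvPolynomial.eval x (cC C e j) • DbC C e j = ∑ i, (slC C).sx x i • C.bs i := by
  refine Fintype.sum_equiv e _ _ fun j => ?_
  unfold DbC cC
  rw [Module.Basis.reindex_apply, Equiv.symm_symm]
  rfl

theorem hinv_C (h : ∀ q : AA n, (∀ w : D.W, w • q = q) → ∃ s : MvPolynomial (Fin n ⊕ D.Rt) ℂ, q = MvPolynomial.aeval C.sx s)
    (p : AA n) (hp : ∀ w : D.W, w • p = p) : ∃ q : MvPolynomial (Fin r) ℂ, p = MvPolynomial.aeval (cC C e) q := by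
  obtain ⟨s, hs⟩ := h p hp
  refine ⟨MvPolynomial.rename e.symm s, ?_⟩
  rw [MvPolynomial.aeval_rename, hs]
  congr 1
  congr 1
  funext j
  show C.sx j = C.sx (e (e.symm j))
  rw [Equiv.apply_symm_apply]

/-- The model of the group, for the extension property. -/
theorem exists_model (hG : G.Semi)
    (h : ∀ q : AA n, (∀ w : D.W, w • q = q) → ∃ s : MvPolynomial (Fin n ⊕ D.Rt) ℂ, q = MvPolynomial.aeval C.sx s) :
    ∃ (N : ℕ) (Dt : MTD.Dat n N D.PRt), Nonempty (MTF.Model (tqd G D (DbC C e) (cC C e)) Dt) := by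
  obtain ⟨M⟩ := exists_FM C
  exact ⟨M.N, dat M (slC C), ⟨model M (slC C) (DbC C e) (cC C e) hG (hs_C C e) (hinv_C C e h)⟩⟩

/-- **Finite generation in genus 0**, for all semisimple groups with Cartan data. -/
theorem hFin_C (hG : G.Semi)
    (h : ∀ q : AA n, (∀ w : D.W, w • q = q) → ∃ s : MvPolynomial (Fin n ⊕ D.Rt) ℂ, q = MvPolynomial.aeval C.sx s)
    (hI : GIn (D := D) (DbC C e) (cC C e)) (hT : TQ (tqd G D (DbC C e) (cC C e)))
    (L : Type) [Finite L] [DecidableEq L] [Nonempty L] : FGA hT 0 (fun _ : L => true) :=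
  hFin (slC C) (DbC C e) (cC C e) hG (hs_C C e) (hinv_C C e h) hI hT L

end

end Pool.Agent.MTH
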